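import Pool.Agent.H94.Div.Approx

open MeasureTheory Real Set
open scoped Interval

namespace Pool.Agent.H94.Div

/-- a function on `ℂ` whose value at `E x` is `g x` -/
noncomputable def lift {F : Type*} (g : ℝ → F) (ζ : ℂ) : F := g (Complex.arg ζ / (2 * π))

lemma lift_E {F : Type*} {g : ℝ → F} (hp : Function.Periodic g 1) (x : ℝ) :
    lift g (E x) = g x := by
  unfold lift
  -- `arg (E x) = 2πx` modulo `2π`
  have h1 : E x = Complex.exp (((2 * π * x : ℝ) : ℂ) * Complex.I) := E_eq x
  have h2 : Complex.arg (E x) = toIocMod Real.two_pi_pos (-π) (2 * π * x) := by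
    rw [h1, Complex.arg_exp_mul_I]
  rw [h2]
  have h3 : toIocMod Real.two_pi_pos (-π) (2 * π * x) =
      2 * π * x - toIocDiv Real.two_pi_pos (-π) (2 * π * x) • (2 * π) := rfl
  rw [h3]
  have h4 : (2 * π * x - toIocDiv Real.two_pi_pos (-π) (2 * π * x) • (2 * π)) / (2 * π) =
      x - toIocDiv Real.two_pi_pos (-π) (2 * π * x) • (1 : ℝ) := by
    simp only [zsmul_eq_mul]
    field_simp
  rw [h4]
  exact hp.sub_zsmul_eq _

lemma lift_circleMap {F : Type*} {g : ℝ → F} (hp : Function.Periodic g 1) (θ : ℝ) :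
    lift g (circleMap 0 1 θ) = g (θ / (2 * π)) := by
  rw [← lift_E hp (θ / (2 * π)), E_eq_circleMap]
  congr 2
  field_simp

lemma circleIntegrable_lift {F : Type*} [NormedAddCommGroup F] {g : ℝ → F}
    (hp : Function.Periodic g 1) (hg : IntervalIntegrable g volume 0 1) :
    CircleIntegrable (lift g) 0 1 := by
  unfold CircleIntegrable
  simp only [lift_circleMap hp]
  have := hg.comp_mul_right (c := (2 * π)⁻¹)
  simpa [div_eq_mul_inv] using this

/-- All Fourier coefficients of negative index vanish. -/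
def NoNeg (g : ℝ → ℂ) : Prop := ∀ n : ℕ, 0 < n → ∫ x in (0 : ℝ)..1, g x * E x ^ n = 0

lemma one_sub_conj_mul_E_ne {z : ℂ} (hz : ‖z‖ < 1) (x : ℝ) :
    1 - (starRingEnd ℂ) z * E x ≠ 0 := by
  intro h
  have h1 : (starRingEnd ℂ) z * E x = 1 := (sub_eq_zero.1 h).symm
  have h2 : ‖(starRingEnd ℂ) z * E x‖ = ‖z‖ := by simp
  rw [h1, norm_one] at h2
  linarith

/-- `∫ g / (1 - z̄ e) = ∫ g` for `g` without negative frequencies. -/
lemma integral_conj_cauchy {g : ℝ → ℂ} (hg : LI g) (hn : NoNeg g) {z : ℂ} (hz : ‖z‖ < 1) :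
    ∫ x in (0 : ℝ)..1, g x * (1 - (starRingEnd ℂ) z * E x)⁻¹ = ∫ x in (0 : ℝ)..1, g x := by
  have hs : HasSum (fun n : ℕ => ∫ x in (0 : ℝ)..1, g x * ((starRingEnd ℂ) z * E x) ^ n)
      (∫ x in (0 : ℝ)..1, g x * (1 - (starRingEnd ℂ) z * E x)⁻¹) := by
    refine intervalIntegral.hasSum_integral_of_dominated_convergence
      (fun n x => ‖g x‖ * ‖z‖ ^ n) ?_ ?_ ?_ ?_ ?_
    · intro n
      have h1 : Continuous (fun x => ((starRingEnd ℂ) z * E x) ^ n) :=
        (continuous_const.mul continuous_E).pow n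
      exact ((hg 0 1).mul_continuousOn h1.continuousOn).aestronglyMeasurable_restrict_uIoc
    · intro n
      refine .of_forall fun x _ => ?_
      rw [norm_mul, norm_pow, norm_mul, norm_E, mul_one, RCLike.norm_conj]
    · refine .of_forall fun x _ => ?_
      exact (summable_geometric_of_lt_one (norm_nonneg z) hz).mul_left _
    · simp only [tsum_mul_left]
      exact ((hg 0 1).norm).mul_const _
    · refine .of_forall fun x _ => ?_
      apply HasSum.mul_left
      apply hasSum_geometric_of_norm_lt_one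
      rw [norm_mul, norm_E, mul_one, RCLike.norm_conj]
      exact hz
  have hs2 : HasSum (fun n : ℕ => ∫ x in (0 : ℝ)..1, g x * ((starRingEnd ℂ) z * E x) ^ n)
      (∫ x in (0 : ℝ)..1, g x) := by
    have h0 : (fun n : ℕ => ∫ x in (0 : ℝ)..1, g x * ((starRingEnd ℂ) z * E x) ^ n) =
        fun n => if n = 0 then ∫ x in (0 : ℝ)..1, g x else 0 := by
      funext n
      rcases Nat.eq_zero_or_pos n with h | h
      · subst h; simp
      · rw [if_neg h.ne']
        have h1 : ∀ x, g x * ((starRingEnd ℂ) z * E x) ^ n =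
            ((starRingEnd ℂ) z) ^ n * (g x * E x ^ n) := fun x => by ring
        simp only [h1]
        rw [intervalIntegral.integral_const_mul, hn n h, mul_zero]
    rw [h0]
    exact hasSum_ite_eq 0 _
  exact hs.unique hs2

/-- The Poisson kernel as a sum of two Cauchy kernels. -/
lemma P_eq_add {z : ℂ} (hz : ‖z‖ < 1) (x : ℝ) :
    (P z x : ℂ) = (1 / 2) * (herglotzRieszKernel 0 z (E x)) +
      ((1 - (starRingEnd ℂ) z * E x)⁻¹ - 1 / 2) := by
  have h1 := E_sub_ne_zero hz x
  have h2 := one_sub_conj_mul_E_ne hz x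
  have hE := conj_E_mul x
  have hE0 := E_ne_zero x
  rw [herglotzRieszKernel_def]
  unfold P
  have h3 : ((‖E x - z‖ ^ 2 : ℝ) : ℂ) = (E x - z) * ((starRingEnd ℂ) (E x) - (starRingEnd ℂ) z) := by
    rw [← map_sub, Complex.mul_conj, Complex.normSq_eq_norm_sq]
  have h4 : ((‖z‖ ^ 2 : ℝ) : ℂ) = z * (starRingEnd ℂ) z := by
    rw [Complex.mul_conj, Complex.normSq_eq_norm_sq]
  have h5 : (starRingEnd ℂ) (E x) = (E x)⁻¹ := by
    field_simp
    exact hE
  rw [Complex.ofReal_div, h3, Complex.ofReal_sub, h4, h5]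
  have h6 : (E x)⁻¹ - (starRingEnd ℂ) z = (1 - (starRingEnd ℂ) z * E x) / E x := by
    field_simp
  rw [h6]
  simp only [sub_zero, Complex.ofReal_one]
  field_simp
  ring

lemma circleIntegrable_smul_lift {g : ℝ → ℂ} (hg : LI g)
    {z : ℂ} (hz : ‖z‖ < 1) :
    IntervalIntegrable (fun x => herglotzRieszKernel 0 z (E x) * g x) volume 0 1 := by
  have h1 : Continuous (fun x => herglotzRieszKernel 0 z (E x)) := by
    have : (fun x => herglotzRieszKernel 0 z (E x)) = fun x => (E x + z) / (E x - z) := by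
      funext x; simp [herglotzRieszKernel_def]
    rw [this]
    exact (continuous_E.add continuous_const).div (continuous_E.sub continuous_const)
      (E_sub_ne_zero hz)
  exact (hg 0 1).continuousOn_mul h1.continuousOn

lemma ext_eq_herglotz {g : ℝ → ℂ} (hp : Function.Periodic g 1) (hg : LI g) (hn : NoNeg g)
    {z : ℂ} (hz : ‖z‖ < 1) :
    ext g z = (1 / 2) * Real.circleAverage (fun ζ => herglotzRieszKernel 0 z ζ • lift g ζ) 0 1 +
      (1 / 2) * ∫ x in (0 : ℝ)..1, g x := by
  rw [circleAverage_eq_integral]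
  simp only [Complex.ofReal_one, one_mul, lift_E hp, smul_eq_mul]
  have h1 : ∀ x, (P z x : ℂ) * g x = (1 / 2) * (herglotzRieszKernel 0 z (E x) * g x) +
      (g x * (1 - (starRingEnd ℂ) z * E x)⁻¹ - (1 / 2) * g x) := by
    intro x
    rw [P_eq_add hz]; ring
  unfold ext
  simp only [h1]
  have i1 := circleIntegrable_smul_lift hg hz
  have i2 : IntervalIntegrable (fun x => g x * (1 - (starRingEnd ℂ) z * E x)⁻¹) volume 0 1 := by
    apply (hg 0 1).mul_continuousOn
    apply Continuous.continuousOn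
    exact (continuous_const.sub (continuous_const.mul continuous_E)).inv₀
      (one_sub_conj_mul_E_ne hz)
  rw [intervalIntegral.integral_add (i1.const_mul _) (i2.sub ((hg 0 1).const_mul _)),
    intervalIntegral.integral_const_mul, intervalIntegral.integral_sub i2 ((hg 0 1).const_mul _),
    integral_conj_cauchy hg hn hz, intervalIntegral.integral_const_mul]
  ring

/-- The Poisson extension of a function without negative frequencies is analytic. -/
lemma ext_differentiableOn {g : ℝ → ℂ} (hp : Function.Periodic g 1) (hg : LI g) (hn : NoNeg g) :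
    DifferentiableOn ℂ (ext g) (Metric.ball 0 1) := by
  have h1 := differentiableOn_circleAverage_herglotzRieszKernel_smul
    (circleIntegrable_lift hp (hg 0 1))
  have h2 : DifferentiableOn ℂ (fun z =>
      (1 / 2) * Real.circleAverage (fun ζ => herglotzRieszKernel 0 z ζ • lift g ζ) 0 1 +
      (1 / 2) * ∫ x in (0 : ℝ)..1, g x) (Metric.ball 0 1) :=
    (h1.const_mul _).add_const _
  refine h2.congr fun z hz => ?_
  exact ext_eq_herglotz hp hg hn (by simpa using hz)

/-- Poisson integral of a real function. -/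
noncomputable def extR (b : ℝ → ℝ) (z : ℂ) : ℝ := ∫ x in (0 : ℝ)..1, P z x * b x

lemma extR_harmonic {b : ℝ → ℝ} (hp : Function.Periodic b 1)
    (hb : IntervalIntegrable b volume 0 1) :
    InnerProductSpace.HarmonicOnNhd (extR b) (Metric.ball 0 1) := by
  have hb' : IntervalIntegrable (fun x => (b x : ℂ)) volume 0 1 :=
    ⟨hb.1.ofReal, hb.2.ofReal⟩
  have hp' : Function.Periodic (fun x => (b x : ℂ)) 1 := fun x => by simp only [hp x]
  have h1 := analyticOnNhd_circleAverage_herglotzRieszKernel_smul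
    (circleIntegrable_lift hp' hb')
  have hEq : ∀ z ∈ Metric.ball (0 : ℂ) 1, extR b z =
      (Real.circleAverage (fun ζ => herglotzRieszKernel 0 z ζ •
        lift (fun x => (b x : ℂ)) ζ) 0 1).re := by
    intro z hz
    have h2 := re_circleAverage_herglotzRieszKernel_smul (w := z)
      (circleIntegrable_lift hp hb) hz
    have h3 : (fun ζ => herglotzRieszKernel 0 z ζ • lift (fun x => (b x : ℂ)) ζ) =
        fun ζ => herglotzRieszKernel 0 z ζ • ((lift b ζ : ℝ) : ℂ) := rfl
    rw [h3, h2, circleAverage_eq_integral]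
    unfold extR
    apply intervalIntegral.integral_congr
    intro x _
    simp only [Complex.ofReal_one, one_mul, Pi.smul_apply', smul_eq_mul, lift_E hp]
    rw [P_eq_poissonKernel, poissonKernel_eq_re_herglotzRieszKernel]
  intro z hz
  have h4 := (h1 z hz).harmonicAt_re
  rw [InnerProductSpace.harmonicAt_congr_nhds (f₂ := fun z =>
    (Real.circleAverage (fun ζ => herglotzRieszKernel 0 z ζ •
        lift (fun x => (b x : ℂ)) ζ) 0 1).re)]
  · exact h4
  · filter_upwards [Metric.isOpen_ball.mem_nhds hz] with w hw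
    exact hEq w hw

end Pool.Agent.H94.Div
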