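import Pool.Agent.H94.Div.KernelOsc

open MeasureTheory Real Set
open scoped Interval

namespace Pool.Agent.H94.Div

/-- periodic integrals over any unit interval -/
lemma per_int {F : Type*} [NormedAddCommGroup F] [NormedSpace ℝ F] {f : ℝ → F}
    (hp : Function.Periodic f 1) (a : ℝ) :
    ∫ x in a..(a + 1), f x = ∫ x in (0 : ℝ)..1, f x := by
  have := hp.intervalIntegral_add_eq a 0
  simpa using this

lemma per_int' {F : Type*} [NormedAddCommGroup F] [NormedSpace ℝ F] {f : ℝ → F}
    (hp : Function.Periodic f 1) (x₀ : ℝ) :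
    ∫ x in (x₀ - 1 / 2)..(x₀ + 1 / 2), f x = ∫ x in (0 : ℝ)..1, f x := by
  rw [← per_int hp (x₀ - 1 / 2)]
  congr 1
  ring

/-- density of continuous periodic functions in `L¹` -/
lemma exists_cont_approx {g : ℝ → ℂ} (_hp : Function.Periodic g 1) (hg : LI g) {ε : ℝ}
    (hε : 0 < ε) :
    ∃ h : ℝ → ℂ, Continuous h ∧ Function.Periodic h 1 ∧ (∃ M, ∀ x, ‖h x‖ ≤ M) ∧
      ∫ x in (0 : ℝ)..1, ‖g x - h x‖ ≤ ε := by
  have h1 : Integrable g (volume.restrict (Ioc (0 : ℝ) (0 + 1))) := by
    have := hg 0 1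
    rw [intervalIntegrable_iff, uIoc_of_le zero_le_one] at this
    simpa [IntegrableOn] using this
  have h2 : MemLp (AddCircle.liftIoc (1 : ℝ) 0 g) 1 :=
    (memLp_one_iff_integrable.2 h1).memLp_liftIoc
  rw [memLp_one_iff_integrable] at h2
  obtain ⟨h', hh', -⟩ := h2.exists_boundedContinuous_integral_sub_le hε
  refine ⟨fun x => h' (x : UnitAddCircle), ?_, ?_, ⟨‖h'‖, fun x => h'.norm_coe_le_norm _⟩, ?_⟩
  · exact h'.continuous.comp (AddCircle.continuous_mk' 1)
  · intro x
    simp only
    rw [AddCircle.coe_add_period]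
  · refine le_trans (le_of_eq ?_) hh'
    have h3 := UnitAddCircle.intervalIntegral_preimage 0
      (fun b => ‖AddCircle.liftIoc (1 : ℝ) 0 g b - h' b‖)
    rw [← h3, zero_add]
    apply intervalIntegral.integral_congr_ae
    refine .of_forall fun x hx => ?_
    rw [uIoc_of_le zero_le_one] at hx
    rw [AddCircle.liftIoc_coe_apply (by simpa using hx)]

lemma continuous_lintervalIntegrable {h : ℝ → ℂ} (hc : Continuous h) : LI h :=
  fun a b => hc.intervalIntegrable a b

lemma ext_eq_center {g : ℝ → ℂ} (hp : Function.Periodic g 1) (z : ℂ) (x₀ : ℝ) :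
    ext g z = ∫ y in (x₀ - 1 / 2)..(x₀ + 1 / 2), (P z y : ℂ) * g y := by
  rw [per_int' (f := fun y => (P z y : ℂ) * g y)]
  · rfl
  · intro y
    simp only [P_periodic z y, hp y]

lemma integrable_P_mul {g : ℝ → ℂ} (hg : LI g) {z : ℂ} (hz : ‖z‖ < 1) (a b : ℝ) :
    IntervalIntegrable (fun y => (P z y : ℂ) * g y) volume a b :=
  (hg a b).continuousOn_mul
    (Complex.continuous_ofReal.comp (continuous_P hz)).continuousOn

lemma ext_sub_const {g : ℝ → ℂ} (hp : Function.Periodic g 1) (hg : LI g) {z : ℂ}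
    (hz : ‖z‖ < 1) (c : ℂ) (x₀ : ℝ) :
    ext g z - c = ∫ y in (x₀ - 1 / 2)..(x₀ + 1 / 2), (P z y : ℂ) * (g y - c) := by
  have h1 : ∫ y in (x₀ - 1 / 2)..(x₀ + 1 / 2), (P z y : ℂ) * c = c := by
    rw [intervalIntegral.integral_mul_const, intervalIntegral.integral_ofReal,
      per_int' (P_periodic z), integral_P hz]
    simp
  rw [ext_eq_center hp z x₀]
  simp only [mul_sub]
  rw [intervalIntegral.integral_sub (integrable_P_mul hg hz _ _), h1]
  exact ((Complex.continuous_ofReal.comp (continuous_P hz)).mul continuous_const).intervalIntegrable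
    _ _

/-- Poisson integrals of continuous functions converge uniformly. -/
lemma ext_tendsto_unif {h : ℝ → ℂ} (hc : Continuous h) (hp : Function.Periodic h 1) {ε : ℝ}
    (hε : 0 < ε) :
    ∃ r₀ < 1, ∀ r : ℝ, r₀ ≤ r → 0 ≤ r → r < 1 → ∀ x, ‖ext h (r * E x) - h x‖ ≤ ε := by
  obtain ⟨M, hM⟩ : ∃ M, ∀ x ∈ Icc (0 : ℝ) 1, ‖h x‖ ≤ M := by
    obtain ⟨M, hM⟩ := (isCompact_Icc (a := (0 : ℝ)) (b := 1)).exists_bound_of_continuousOn
      hc.continuousOn
    exact ⟨M, hM⟩
  have hMall : ∀ x, ‖h x‖ ≤ M := by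
    intro x
    have h1 : h x = h (Int.fract x) := by
      rw [← Int.self_sub_floor x]
      have := hp.sub_zsmul_eq (x := x) ⌊x⌋
      rw [zsmul_one] at this
      exact this.symm
    rw [h1]
    exact hM _ ⟨Int.fract_nonneg x, (Int.fract_lt_one x).le⟩
  have hM0 : 0 ≤ M := (norm_nonneg _).trans (hMall 0)
  obtain ⟨δ, hδ, hδ'⟩ : ∃ δ > 0, ∀ x y, |y - x| ≤ δ → ‖h y - h x‖ ≤ ε / 2 := by
    have h1 := (isCompact_Icc (a := (-1 : ℝ)) (b := 2)).uniformContinuousOn_of_continuous
      hc.continuousOn
    rw [Metric.uniformContinuousOn_iff] at h1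
    obtain ⟨δ, hδ, h2⟩ := h1 (ε / 2) (by positivity)
    refine ⟨min (δ / 2) 1, by positivity, fun x y hxy => ?_⟩
    have h3 : h x = h (Int.fract x) := by
      rw [← Int.self_sub_floor x]
      have := hp.sub_zsmul_eq (x := x) ⌊x⌋
      rw [zsmul_one] at this
      exact this.symm
    have h4 : h y = h (y - ⌊x⌋) := by
      have := hp.sub_zsmul_eq (x := y) ⌊x⌋
      rw [zsmul_one] at this
      exact this.symm
    have h5 : |(y - ⌊x⌋) - Int.fract x| ≤ min (δ / 2) 1 := by
      have : (y - ⌊x⌋) - Int.fract x = y - x := by rw [← Int.self_sub_floor x]; ring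
      rw [this]
      exact hxy
    have h6 := abs_le.1 (h5.trans (min_le_right _ _))
    have h7 := Int.fract_nonneg x
    have h8 := Int.fract_lt_one x
    rw [h3, h4, ← dist_eq_norm]
    refine (h2 (y - ⌊x⌋) ⟨by linarith, by linarith⟩ (Int.fract x) ⟨by linarith, by linarith⟩
      ?_).le
    rw [Real.dist_eq]
    exact lt_of_le_of_lt (h5.trans (min_le_left _ _)) (by linarith)
  -- choose r₀ so that 2 M (1 - r^2) / δ^2 ≤ ε/2, i.e. 4 M (1-r)/δ^2 ≤ ε / 2
  set η := ε * δ ^ 2 / (8 * (M + 1)) with hη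
  have hη0 : 0 < η := by positivity
  refine ⟨1 - η, by linarith, fun r hr hr0 hr1 x => ?_⟩
  have hz : ‖(r : ℂ) * E x‖ < 1 := by rw [norm_mul_E hr0]; exact hr1
  rw [ext_sub_const hp (continuous_lintervalIntegrable hc) hz (h x) x]
  have hbound : ∀ y ∈ Icc (x - 1 / 2) (x + 1 / 2),
      ‖(P (r * E x) y : ℂ) * (h y - h x)‖ ≤ P (r * E x) y * (ε / 2) + ε / 2 := by
    intro y hy
    have hP := P_nonneg hz y
    rw [norm_mul, Complex.norm_real, Real.norm_of_nonneg hP]
    rcases le_total |y - x| δ with h1 | h1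
    · have := hδ' x y h1
      nlinarith
    · have h2 : P (r * E x) y ≤ 2 * η / δ ^ 2 := by
        unfold P
        rw [norm_mul_E hr0]
        have h3 := norm_E_sub_ge_abs (r := r) hr0 (x := y) (y := x)
          (abs_le.2 ⟨by linarith [hy.1], by linarith [hy.2]⟩)
        have h4 : 1 - r ^ 2 ≤ 2 * η := by nlinarith
        have h5 : 0 ≤ 1 - r ^ 2 := by nlinarith
        have h6 : δ ≤ ‖E y - r * E x‖ := h1.trans h3
        gcongr
      have h3 : ‖h y - h x‖ ≤ 2 * M := by
        calc _ ≤ ‖h y‖ + ‖h x‖ := norm_sub_le _ _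
          _ ≤ _ := by linarith [hMall y, hMall x]
      have h4 : 2 * η / δ ^ 2 * (2 * M) ≤ ε / 2 := by
        rw [hη]
        have : 2 * (ε * δ ^ 2 / (8 * (M + 1))) / δ ^ 2 * (2 * M) = ε / 2 * (M / (M + 1)) := by
          field_simp
          ring
        rw [this]
        have h5 : M / (M + 1) ≤ 1 := by
          rw [div_le_one (by linarith)]; linarith
        nlinarith
      have h5 : P (r * E x) y * ‖h y - h x‖ ≤ 2 * η / δ ^ 2 * (2 * M) := by gcongr
      nlinarith
  calc ‖∫ y in (x - 1 / 2)..(x + 1 / 2), (P (r * E x) y : ℂ) * (h y - h x)‖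
      ≤ ∫ y in (x - 1 / 2)..(x + 1 / 2), ‖(P (r * E x) y : ℂ) * (h y - h x)‖ :=
        intervalIntegral.norm_integral_le_integral_norm (by linarith)
    _ ≤ ∫ y in (x - 1 / 2)..(x + 1 / 2), (P (r * E x) y * (ε / 2) + ε / 2) := by
        apply intervalIntegral.integral_mono_on (by linarith)
        · apply Continuous.intervalIntegrable
          exact ((Complex.continuous_ofReal.comp (continuous_P hz)).mul
            (hc.sub continuous_const)).norm
        · apply Continuous.intervalIntegrable
          exact ((continuous_P hz).mul continuous_const).add continuous_const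
        · exact hbound
    _ = ε := by
        rw [intervalIntegral.integral_add, intervalIntegral.integral_mul_const,
          per_int' (P_periodic _), integral_P hz, intervalIntegral.integral_const]
        · simp only [smul_eq_mul]; ring
        · exact ((continuous_P hz).mul continuous_const).intervalIntegrable _ _
        · exact continuous_const.intervalIntegrable _ _

/-- symmetry of the Poisson kernel -/
lemma P_symm (r x y : ℝ) : P (r * E x) y = P (r * E y) x := by
  unfold P
  have h1 : ‖(r : ℂ) * E x‖ = ‖(r : ℂ) * E y‖ := by simp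
  have h2 : ‖E y - r * E x‖ = ‖E x - r * E y‖ := by
    have e1 : E y - r * E x = E x * (E (y - x) - r) := by
      rw [mul_sub, ← E_add]; ring_nf
    have e2 : E x - r * E y = E y * ((starRingEnd ℂ) (E (y - x) - r)) := by
      rw [map_sub, ← E_neg, mul_sub, ← E_add, Complex.conj_ofReal]; ring_nf
    rw [e1, e2, norm_mul, norm_mul, norm_E, norm_E, RCLike.norm_conj]
  rw [h1, h2]

lemma continuous_P2 {r : ℝ} (hr0 : 0 ≤ r) (hr1 : r < 1) :
    Continuous (fun p : ℝ × ℝ => P (r * E p.1) p.2) := by
  unfold P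
  refine Continuous.div ?_ ?_ fun p => ?_
  · have h1 : Continuous (fun p : ℝ × ℝ => E p.1) := continuous_E.comp continuous_fst
    fun_prop
  · have h1 : Continuous (fun p : ℝ × ℝ => E p.1) := continuous_E.comp continuous_fst
    have h2 : Continuous (fun p : ℝ × ℝ => E p.2) := continuous_E.comp continuous_snd
    fun_prop
  · exact pow_ne_zero 2 (norm_E_sub_pos (by rw [norm_mul_E hr0]; exact hr1) p.2).ne'

lemma P_le {z : ℂ} (hz : ‖z‖ < 1) (x : ℝ) : P z x ≤ 2 / (1 - ‖z‖) := by
  unfold P
  have h1 := norm_E_sub_ge_one_sub (z := z) x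
  have h2 : 0 < 1 - ‖z‖ := by linarith
  rw [div_le_div_iff₀ (pow_pos (norm_E_sub_pos hz x) 2) h2]
  have h3 : (1 - ‖z‖) ^ 2 ≤ ‖E x - z‖ ^ 2 := by gcongr
  nlinarith [norm_nonneg z]

/-- contractivity in `L¹` -/
lemma ext_contract {g : ℝ → ℂ} (hg : LI g) {r : ℝ} (hr0 : 0 ≤ r) (hr1 : r < 1) :
    ∫ x in (0 : ℝ)..1, ‖ext g (r * E x)‖ ≤ ∫ x in (0 : ℝ)..1, ‖g x‖ := by
  have hz : ∀ x, ‖(r : ℂ) * E x‖ < 1 := fun x => by rw [norm_mul_E hr0]; exact hr1
  have hi : Integrable (Function.uncurry fun x y : ℝ => P (r * E x) y * ‖g y‖)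
      ((volume.restrict (Ioc (0 : ℝ) 1)).prod (volume.restrict (Ioc (0 : ℝ) 1))) := by
    have h1 : Integrable (fun p : ℝ × ℝ => ‖g p.2‖)
        ((volume.restrict (Ioc (0 : ℝ) 1)).prod (volume.restrict (Ioc (0 : ℝ) 1))) := by
      have h2 : Integrable (fun y : ℝ => ‖g y‖) (volume.restrict (Ioc (0 : ℝ) 1)) := by
        have := (hg 0 1).norm
        rwa [intervalIntegrable_iff, uIoc_of_le zero_le_one] at this
      exact h2.comp_snd _
    refine h1.bdd_mul (c := 2 / (1 - r)) (continuous_P2 hr0 hr1).aestronglyMeasurable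
      (.of_forall fun p => ?_)
    rw [Real.norm_of_nonneg (P_nonneg (hz p.1) _)]
    have := P_le (hz p.1) p.2
    rwa [norm_mul_E hr0] at this
  calc ∫ x in (0 : ℝ)..1, ‖ext g (r * E x)‖
      ≤ ∫ x in (0 : ℝ)..1, ∫ y in (0 : ℝ)..1, P (r * E x) y * ‖g y‖ := by
        rw [intervalIntegral.integral_of_le zero_le_one,
          intervalIntegral.integral_of_le zero_le_one]
        apply integral_mono_of_nonneg (.of_forall fun _ => norm_nonneg _)
        · have := hi.integral_prod_left
          simp only [Function.uncurry] at this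
          simpa [intervalIntegral.integral_of_le zero_le_one] using this
        · refine .of_forall fun x => ?_
          simp only [ext]
          refine (intervalIntegral.norm_integral_le_integral_norm zero_le_one).trans_eq ?_
          apply intervalIntegral.integral_congr
          intro y _
          simp only [norm_mul, Complex.norm_real, Real.norm_of_nonneg (P_nonneg (hz x) y)]
    _ = ∫ y in (0 : ℝ)..1, ∫ x in (0 : ℝ)..1, P (r * E x) y * ‖g y‖ := by
        simp only [intervalIntegral.integral_of_le zero_le_one]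
        exact integral_integral_swap hi
    _ = ∫ x in (0 : ℝ)..1, ‖g x‖ := by
        apply intervalIntegral.integral_congr
        intro y _
        simp only
        rw [intervalIntegral.integral_mul_const]
        have : ∫ x in (0 : ℝ)..1, P (r * E x) y = 1 := by
          refine Eq.trans ?_ (integral_P (hz y))
          apply intervalIntegral.integral_congr
          intro x _
          exact P_symm r x y
        rw [this, one_mul]

lemma continuous_ext_circle {g : ℝ → ℂ} (hg : LI g) {r : ℝ} (hr0 : 0 ≤ r) (hr1 : r < 1) :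
    Continuous (fun x => ext g (r * E x)) := by
  have hz : ∀ x, ‖(r : ℂ) * E x‖ < 1 := fun x => by rw [norm_mul_E hr0]; exact hr1
  show Continuous (fun x => ∫ y in (0 : ℝ)..1, (P (r * E x) y : ℂ) * g y)
  refine intervalIntegral.continuous_of_dominated_interval
    (F := fun x y => (P (r * E x) y : ℂ) * g y)
    (bound := fun y => 2 / (1 - r) * ‖g y‖) ?_ ?_ ?_ ?_
  · intro x
    exact (integrable_P_mul hg (hz x) 0 1).aestronglyMeasurable_restrict_uIoc
  · intro x
    refine .of_forall fun y _ => ?_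
    rw [norm_mul, Complex.norm_real, Real.norm_of_nonneg (P_nonneg (hz x) y)]
    have := P_le (hz x) y
    rw [norm_mul_E hr0] at this
    gcongr
  · exact ((hg 0 1).norm).const_mul _
  · refine .of_forall fun y _ => ?_
    have h1 : Continuous (fun x : ℝ => P (r * E x) y) := by
      have h0 : (fun x : ℝ => P (r * E x) y) = fun x : ℝ => P (r * E y) x :=
        funext fun x => P_symm r x y
      rw [h0]
      exact continuous_P (hz y)
    have h2 : Continuous (fun x : ℝ => (P (r * E x) y : ℂ)) :=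
      Complex.continuous_ofReal.comp h1
    exact h2.mul continuous_const

/-- `L¹` convergence of Poisson integrals. -/
lemma ext_tendsto_L1 {g : ℝ → ℂ} (hp : Function.Periodic g 1) (hg : LI g) {ε : ℝ}
    (hε : 0 < ε) :
    ∃ r₀ < 1, ∀ r : ℝ, r₀ ≤ r → 0 ≤ r → r < 1 →
      ∫ x in (0 : ℝ)..1, ‖ext g (r * E x) - g x‖ ≤ ε := by
  obtain ⟨h, hc, hhp, -, hh⟩ := exists_cont_approx hp hg (ε := ε / 3) (by positivity)
  obtain ⟨r₀, hr₀, H⟩ := ext_tendsto_unif hc hhp (ε := ε / 3) (by positivity)
  refine ⟨r₀, hr₀, fun r h1 h2 h3 => ?_⟩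
  have hLIh := continuous_lintervalIntegrable hc
  have hz : ∀ x, ‖(r : ℂ) * E x‖ < 1 := fun x => by rw [norm_mul_E h2]; exact h3
  have hsub : ∀ x, ext (fun y => g y - h y) (r * E x) = ext g (r * E x) - ext h (r * E x) := by
    intro x
    unfold ext
    rw [← intervalIntegral.integral_sub (integrable_P_mul hg (hz x) 0 1)
      (integrable_P_mul hLIh (hz x) 0 1)]
    simp only [mul_sub]
  have hLIs : LI (fun y => g y - h y) := fun a b => (hg a b).sub (hLIh a b)
  have hcon := ext_contract hLIs h2 h3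
  have i1 : IntervalIntegrable (fun x => ‖ext (fun y => g y - h y) (r * E x)‖) volume 0 1 :=
    (continuous_ext_circle hLIs h2 h3).norm.intervalIntegrable _ _
  have i3 : IntervalIntegrable (fun x => ‖g x - h x‖) volume 0 1 := (hLIs 0 1).norm
  calc ∫ x in (0 : ℝ)..1, ‖ext g (r * E x) - g x‖
      ≤ ∫ x in (0 : ℝ)..1, (‖ext (fun y => g y - h y) (r * E x)‖ + ε / 3 + ‖g x - h x‖) := by
        apply intervalIntegral.integral_mono_on zero_le_one
        · exact (((continuous_ext_circle hg h2 h3).intervalIntegrable 0 1).sub (hg 0 1)).norm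
        · exact (i1.add intervalIntegrable_const).add i3
        · intro x _
          have e : ext g (r * E x) - g x = ext (fun y => g y - h y) (r * E x) +
              (ext h (r * E x) - h x) - (g x - h x) := by
            rw [hsub]; ring
          rw [e]
          calc _ ≤ ‖ext (fun y => g y - h y) (r * E x) + (ext h (r * E x) - h x)‖ +
                ‖g x - h x‖ := norm_sub_le _ _
            _ ≤ ‖ext (fun y => g y - h y) (r * E x)‖ + ‖ext h (r * E x) - h x‖ +
                ‖g x - h x‖ := by gcongr; exact norm_add_le _ _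
            _ ≤ _ := by gcongr; exact H r h1 h2 h3 x
    _ = (∫ x in (0 : ℝ)..1, ‖ext (fun y => g y - h y) (r * E x)‖) + ε / 3 +
        ∫ x in (0 : ℝ)..1, ‖g x - h x‖ := by
        rw [intervalIntegral.integral_add (i1.add intervalIntegrable_const) i3,
          intervalIntegral.integral_add i1 intervalIntegrable_const,
          intervalIntegral.integral_const]
        simp
    _ ≤ ε := by linarith

end Pool.Agent.H94.Div
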