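import Mathlib

/-!
Definitions for MP_2feb19_an (division by inner functions in spaces `BMO_ω`).
Functions on the unit circle `𝕋` are functions `Circle → ℂ`, read through the parametrisation
`x ↦ pt x = e^{2πix}`, which carries Lebesgue measure on `[0,1]` to normalised arc length.
-/

open MeasureTheory Real

namespace Pool.Agent.H94.Div

/-- The point `e^{2πix}` of the unit circle. -/
noncomputable def pt (x : ℝ) : Circle := Circle.exp (2 * π * x)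

/-- `f ∈ L¹(𝕋)`. -/
def InL1 (f : Circle → ℂ) : Prop := IntervalIntegrable (fun x => f (pt x)) volume 0 1

/-- The mean `f_I` of `f` over the open arc `I = {pt x : a < x < a + h}`, of normalised
length `h`. -/
noncomputable def arcMean (f : Circle → ℂ) (a h : ℝ) : ℂ :=
  (∫ x in a..(a + h), f (pt x)) / h

/-- `f ∈ BMO_ω`: `f ∈ L¹(𝕋)` and the quantities `(|I| ω(|I|))⁻¹ ∫_I |f - f_I|`, over all open
arcs `I` with `0 < |I| < 1`, are bounded. -/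
def InBMO (ω : ℝ → ℝ) (f : Circle → ℂ) : Prop :=
  InL1 f ∧ ∃ C : ℝ, ∀ a h : ℝ, 0 < h → h < 1 →
    (∫ x in a..(a + h), ‖f (pt x) - arcMean f a h‖) / (h * ω h) ≤ C

/-- `f ∈ BMO_ω ∩ L^∞`. -/
def InBMOLinf (ω : ℝ → ℝ) (f : Circle → ℂ) : Prop :=
  InBMO ω f ∧ ∃ M : ℝ, ∀ᵐ x : ℝ, ‖f (pt x)‖ ≤ M

/-- `f ∈ H¹`: `f ∈ L¹(𝕋)` and all Fourier coefficients of negative index vanish. -/
def InH1 (f : Circle → ℂ) : Prop :=
  InL1 f ∧ ∀ n : ℕ, 0 < n → ∫ x in (0 : ℝ)..1, f (pt x) * (pt x : ℂ) ^ n = 0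

/-- The Poisson extension of `f ∈ L¹(𝕋)` to the open unit disc. -/
noncomputable def poissonExt (f : Circle → ℂ) (z : ℂ) : ℂ :=
  ∫ x in (0 : ℝ)..1, (((1 - ‖z‖ ^ 2) / ‖(pt x : ℂ) - z‖ ^ 2 : ℝ) : ℂ) * f (pt x)

/-- `θ` is (the boundary function of) an inner function: `θ ∈ H¹` and `|θ| = 1` a.e.; the inner
function itself is the Poisson extension of `θ`. -/
def IsInner (θ : Circle → ℂ) : Prop := InH1 θ ∧ ∀ᵐ x : ℝ, ‖θ (pt x)‖ = 1

/-- Condition (iii_ε): `|f(z)| / ω(1 - |z|)` is bounded on the set of all `z` in the disc with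
`|Θ(z)| < ε`. (The single point `z = 0`, at which `1 - |z| = 1` lies outside the domain of `ω`,
only contributes one finite number and is left out.) -/
def CondIII (ω : ℝ → ℝ) (ε : ℝ) (f θ : Circle → ℂ) : Prop :=
  ∃ C : ℝ, ∀ z : ℂ, z ≠ 0 → ‖z‖ < 1 → ‖poissonExt θ z‖ < ε →
    ‖poissonExt f z‖ / ω (1 - ‖z‖) ≤ C

/-- `ω` is a continuity modulus: continuous, non-decreasing and positive on `(0,1)`. -/
def IsModulus (ω : ℝ → ℝ) : Prop :=
  ContinuousOn ω (Set.Ioo 0 1) ∧ MonotoneOn ω (Set.Ioo 0 1) ∧ ∀ t ∈ Set.Ioo (0 : ℝ) 1, 0 < ω t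

/-- The division property of `(ω, X)`: for every `f ∈ X ∩ H¹` and every inner function, the
conditions (i), (ii), (iii_ε) for some `ε ∈ (0,1)`, and (iii_ε) for every `ε ∈ (0,1)` are
equivalent. -/
def DivisionProperty (ω : ℝ → ℝ) (X : (Circle → ℂ) → Prop) : Prop :=
  ∀ f θ : Circle → ℂ, X f → InH1 f → IsInner θ →
    List.TFAE [
      X (fun ζ => f ζ * (starRingEnd ℂ) (θ ζ)),
      X (fun ζ => f ζ * θ ζ) ∧ InH1 (fun ζ => f ζ * θ ζ),
      ∃ ε ∈ Set.Ioo (0 : ℝ) 1, CondIII ω ε f θ,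
      ∀ ε ∈ Set.Ioo (0 : ℝ) 1, CondIII ω ε f θ]

/-- `ω(t)/t` is almost decreasing on `(0,1/2]`. -/
def AlmostDecreasing (ω : ℝ → ℝ) : Prop :=
  ∃ C : ℝ, ∀ s t : ℝ, 0 < s → s ≤ t → t ≤ 1 / 2 → ω t / t ≤ C * (ω s / s)

end Pool.Agent.H94.Div
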