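import Pool.Agent.H94.Div.Means

open MeasureTheory Real Set
open scoped Interval

namespace Pool.Agent.H94.Div

open Classical in
/-- The union of all dyadic subintervals of `[a, a+ℓ)` of depth at most `n` over which the mean
of `g` deviates from `c` by more than `α`. -/
noncomputable def bad (g : ℝ → ℂ) (c : ℂ) (α : ℝ) : ℕ → ℝ → ℝ → Set ℝ
  | 0, a, ℓ => if α < ‖avg g a (a + ℓ) - c‖ then Ico a (a + ℓ) else ∅
  | n + 1, a, ℓ => if α < ‖avg g a (a + ℓ) - c‖ then Ico a (a + ℓ) else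
      bad g c α n a (ℓ / 2) ∪ bad g c α n (a + ℓ / 2) (ℓ / 2)

variable {g : ℝ → ℂ} {c : ℂ} {α : ℝ}

lemma bad_of_lt {n : ℕ} {a ℓ : ℝ} (h : α < ‖avg g a (a + ℓ) - c‖) :
    bad g c α n a ℓ = Ico a (a + ℓ) := by
  cases n <;> simp [bad, h]

lemma bad_zero_of_le {a ℓ : ℝ} (h : ‖avg g a (a + ℓ) - c‖ ≤ α) :
    bad g c α 0 a ℓ = ∅ := by
  simp [bad, not_lt.2 h]

lemma bad_succ_of_le {n : ℕ} {a ℓ : ℝ} (h : ‖avg g a (a + ℓ) - c‖ ≤ α) :
    bad g c α (n + 1) a ℓ = bad g c α n a (ℓ / 2) ∪ bad g c α n (a + ℓ / 2) (ℓ / 2) := by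
  simp [bad, not_lt.2 h]

lemma bad_subset (n : ℕ) : ∀ {a ℓ : ℝ}, 0 ≤ ℓ → bad g c α n a ℓ ⊆ Ico a (a + ℓ) := by
  induction n with
  | zero =>
    intro a ℓ _
    rcases lt_or_ge α ‖avg g a (a + ℓ) - c‖ with h | h
    · rw [bad_of_lt h]
    · rw [bad_zero_of_le h]; exact empty_subset _
  | succ n ih =>
    intro a ℓ hℓ
    rcases lt_or_ge α ‖avg g a (a + ℓ) - c‖ with h | h
    · rw [bad_of_lt h]
    · rw [bad_succ_of_le h]
      apply union_subset
      · refine (ih (by linarith)).trans (Ico_subset_Ico le_rfl (by linarith))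
      · refine (ih (by linarith)).trans (Ico_subset_Ico (by linarith) (by linarith))

lemma bad_measurable (n : ℕ) : ∀ {a ℓ : ℝ}, MeasurableSet (bad g c α n a ℓ) := by
  induction n with
  | zero =>
    intro a ℓ
    rcases lt_or_ge α ‖avg g a (a + ℓ) - c‖ with h | h
    · rw [bad_of_lt h]; exact measurableSet_Ico
    · rw [bad_zero_of_le h]; exact MeasurableSet.empty
  | succ n ih =>
    intro a ℓ
    rcases lt_or_ge α ‖avg g a (a + ℓ) - c‖ with h | h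
    · rw [bad_of_lt h]; exact measurableSet_Ico
    · rw [bad_succ_of_le h]; exact ih.union ih

lemma bad_mono (n : ℕ) : ∀ {a ℓ : ℝ}, bad g c α n a ℓ ⊆ bad g c α (n + 1) a ℓ := by
  induction n with
  | zero =>
    intro a ℓ
    rcases lt_or_ge α ‖avg g a (a + ℓ) - c‖ with h | h
    · rw [bad_of_lt h, bad_of_lt h]
    · rw [bad_zero_of_le h]; exact empty_subset _
  | succ n ih =>
    intro a ℓ
    rcases lt_or_ge α ‖avg g a (a + ℓ) - c‖ with h | h
    · rw [bad_of_lt h, bad_of_lt h]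
    · rw [bad_succ_of_le h, bad_succ_of_le h]
      exact union_subset_union ih ih

lemma bad_monotone (a ℓ : ℝ) : Monotone fun n => bad g c α n a ℓ :=
  monotone_nat_of_le_succ fun n => bad_mono n

lemma bad_change {c' : ℂ} {α' : ℝ} (h : ‖c - c'‖ ≤ α - α') (n : ℕ) :
    ∀ {a ℓ : ℝ}, 0 ≤ ℓ → bad g c α n a ℓ ⊆ bad g c' α' n a ℓ := by
  have key : ∀ m : ℂ, α < ‖m - c‖ → α' < ‖m - c'‖ := by
    intro m hm
    have : ‖m - c‖ ≤ ‖m - c'‖ + ‖c - c'‖ := by
      calc ‖m - c‖ = ‖(m - c') - (c - c')‖ := by ring_nf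
        _ ≤ _ := norm_sub_le _ _
    linarith
  induction n with
  | zero =>
    intro a ℓ _
    rcases lt_or_ge α ‖avg g a (a + ℓ) - c‖ with h | h
    · rw [bad_of_lt h, bad_of_lt (key _ h)]
    · rw [bad_zero_of_le h]; exact empty_subset _
  | succ n ih =>
    intro a ℓ hℓ
    rcases lt_or_ge α ‖avg g a (a + ℓ) - c‖ with h | h
    · rw [bad_of_lt h, bad_of_lt (key _ h)]
    · rcases lt_or_ge α' ‖avg g a (a + ℓ) - c'‖ with h' | h'
      · rw [bad_of_lt h']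
        exact bad_subset _ hℓ
      · rw [bad_succ_of_le h, bad_succ_of_le h']
        exact union_subset_union (ih (by linarith)) (ih (by linarith))

/-- real-valued volume of a bad set -/
noncomputable def vb (g : ℝ → ℂ) (c : ℂ) (α : ℝ) (n : ℕ) (a ℓ : ℝ) : ℝ :=
  (volume (bad g c α n a ℓ)).toReal

lemma volume_bad_ne_top {n : ℕ} {a ℓ : ℝ} (hℓ : 0 ≤ ℓ) : volume (bad g c α n a ℓ) ≠ ⊤ := by
  apply ne_top_of_le_ne_top _ (measure_mono (bad_subset n hℓ))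
  rw [Real.volume_Ico]
  exact ENNReal.ofReal_ne_top

lemma vb_of_lt {n : ℕ} {a ℓ : ℝ} (hℓ : 0 ≤ ℓ) (h : α < ‖avg g a (a + ℓ) - c‖) :
    vb g c α n a ℓ = ℓ := by
  rw [vb, bad_of_lt h, Real.volume_Ico, ENNReal.toReal_ofReal (by linarith)]
  ring

lemma vb_zero_of_le {a ℓ : ℝ} (h : ‖avg g a (a + ℓ) - c‖ ≤ α) : vb g c α 0 a ℓ = 0 := by
  rw [vb, bad_zero_of_le h]; simp

lemma vb_succ_of_le {n : ℕ} {a ℓ : ℝ} (hℓ : 0 ≤ ℓ) (h : ‖avg g a (a + ℓ) - c‖ ≤ α) :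
    vb g c α (n + 1) a ℓ = vb g c α n a (ℓ / 2) + vb g c α n (a + ℓ / 2) (ℓ / 2) := by
  have hℓ2 : 0 ≤ ℓ / 2 := by linarith
  rw [vb, bad_succ_of_le h, measure_union _ (bad_measurable n), ENNReal.toReal_add
    (volume_bad_ne_top hℓ2) (volume_bad_ne_top hℓ2)]
  · rfl
  · refine Disjoint.mono (bad_subset n hℓ2) (bad_subset n hℓ2) ?_
    rw [Set.disjoint_left]
    intro x hx hx'
    linarith [hx.2, hx'.1]

lemma vb_mono_of_subset {c' : ℂ} {α' : ℝ} {n : ℕ} {a ℓ : ℝ} (hℓ : 0 ≤ ℓ)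
    (h : bad g c α n a ℓ ⊆ bad g c' α' n a ℓ) : vb g c α n a ℓ ≤ vb g c' α' n a ℓ :=
  ENNReal.toReal_mono (volume_bad_ne_top hℓ) (measure_mono h)

/-- one-step estimate -/
lemma vb_one_step (hg : LI g) (n : ℕ) : ∀ {a ℓ : ℝ}, 0 < ℓ →
    α * vb g c α n a ℓ ≤ ∫ x in a..(a + ℓ), ‖g x - c‖ := by
  induction n with
  | zero =>
    intro a ℓ hℓ
    rcases lt_or_ge α ‖avg g a (a + ℓ) - c‖ with h | h
    · rw [vb_of_lt hℓ.le h]
      have h1 := norm_avg_sub_mul_le hg (show a < a + ℓ by linarith) c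
      have e : a + ℓ - a = ℓ := by ring
      rw [e] at h1
      nlinarith
    · rw [vb_zero_of_le h, mul_zero]
      exact intervalIntegral.integral_nonneg (by linarith) fun _ _ => norm_nonneg _
  | succ n ih =>
    intro a ℓ hℓ
    rcases lt_or_ge α ‖avg g a (a + ℓ) - c‖ with h | h
    · rw [vb_of_lt hℓ.le h]
      have h1 := norm_avg_sub_mul_le hg (show a < a + ℓ by linarith) c
      have e : a + ℓ - a = ℓ := by ring
      rw [e] at h1
      nlinarith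
    · rw [vb_succ_of_le hℓ.le h, mul_add]
      have h1 := ih (a := a) (ℓ := ℓ / 2) (by linarith)
      have h2 := ih (a := a + ℓ / 2) (ℓ := ℓ / 2) (by linarith)
      have e : a + ℓ / 2 + ℓ / 2 = a + ℓ := by ring
      rw [e] at h2
      rw [← intervalIntegral.integral_add_adjacent_intervals (hg.norm_sub c a (a + ℓ / 2))
        (hg.norm_sub c (a + ℓ / 2) (a + ℓ))]
      linarith

/-- two-step estimate -/
lemma vb_two_step (hg : LI g) {A β : ℝ} (hA : 0 < A) (hβA : 16 * β ≤ A) (n : ℕ) :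
    ∀ {a ℓ : ℝ}, 0 < ℓ → (∀ a' ℓ', 0 < ℓ' → ℓ' ≤ ℓ → Osc g a' (a' + ℓ') β) →
      ‖avg g a (a + ℓ) - c‖ ≤ A / 4 →
      vb g c (A / 2) n a ℓ ≤ 8 * β / A * vb g c (A / 4) n a ℓ := by
  induction n with
  | zero =>
    intro a ℓ hℓ _ h
    rw [vb_zero_of_le (h.trans (by linarith)), vb_zero_of_le h, mul_zero]
  | succ n ih =>
    intro a ℓ hℓ hosc h
    rw [vb_succ_of_le hℓ.le h, vb_succ_of_le hℓ.le (h.trans (by linarith)), mul_add]
    -- treat one half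
    have half : ∀ a', a ≤ a' → a' + ℓ / 2 ≤ a + ℓ →
        vb g c (A / 2) n a' (ℓ / 2) ≤ 8 * β / A * vb g c (A / 4) n a' (ℓ / 2) := by
      intro a' h1 h2
      have hℓ2 : 0 < ℓ / 2 := by linarith
      rcases lt_or_ge (A / 4) ‖avg g a' (a' + ℓ / 2) - c‖ with h3 | h3
      · rw [vb_of_lt hℓ2.le h3]
        have h4 : ‖avg g a' (a' + ℓ / 2) - avg g a (a + ℓ)‖ * (ℓ / 2) ≤ β * ℓ := by
          have h5 := norm_avg_sub_le_of_subset hg (avg g a (a + ℓ)) (a := a) (b := a + ℓ)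
            (a' := a') (b' := a' + ℓ / 2) h1 (by linarith) h2
          have h6 := hosc a ℓ hℓ le_rfl
          unfold Osc at h6
          have e : a' + ℓ / 2 - a' = ℓ / 2 := by ring
          have e' : a + ℓ - a = ℓ := by ring
          rw [e] at h5
          rw [e'] at h6
          exact h5.trans h6
        have h5 : ‖avg g a' (a' + ℓ / 2) - avg g a (a + ℓ)‖ ≤ 2 * β := by
          by_contra hc; push Not at hc; nlinarith
        have h6 : ‖c - avg g a' (a' + ℓ / 2)‖ ≤ A / 2 - A / 8 := by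
          rw [norm_sub_rev]
          calc ‖avg g a' (a' + ℓ / 2) - c‖ =
                ‖(avg g a' (a' + ℓ / 2) - avg g a (a + ℓ)) + (avg g a (a + ℓ) - c)‖ := by
                ring_nf
            _ ≤ 2 * β + A / 4 := (norm_add_le _ _).trans (add_le_add h5 h)
            _ ≤ _ := by linarith
        have h7 := vb_mono_of_subset hℓ2.le (bad_change (g := g) h6 n (a := a') hℓ2.le)
        have h8 := vb_one_step hg n (c := avg g a' (a' + ℓ / 2)) (α := A / 8) (a := a') hℓ2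
        have h9 := hosc a' (ℓ / 2) hℓ2 (by linarith)
        unfold Osc at h9
        have e' : a' + ℓ / 2 - a' = ℓ / 2 := by ring
        rw [e'] at h9
        have h10 : A / 8 * vb g c (A / 2) n a' (ℓ / 2) ≤ β * (ℓ / 2) := by
          calc _ ≤ A / 8 * vb g (avg g a' (a' + ℓ / 2)) (A / 8) n a' (ℓ / 2) := by gcongr
            _ ≤ _ := h8.trans h9
        have h11 : 8 * β / A * (ℓ / 2) = (8 / A) * (β * (ℓ / 2)) := by ring
        rw [h11]
        calc vb g c (A / 2) n a' (ℓ / 2) = (8 / A) * (A / 8 * vb g c (A / 2) n a' (ℓ / 2)) := by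
              field_simp
          _ ≤ _ := by gcongr
      · exact ih hℓ2 (fun a'' ℓ' h4 h5 => hosc a'' ℓ' h4 (by linarith)) h3
    have e1 := half a le_rfl (by linarith)
    have e2 := half (a + ℓ / 2) (by linarith) (by linarith)
    linarith

/-- the final quadratic estimate -/
lemma vb_quadratic (hg : LI g) {A β : ℝ} (hA : 0 < A) (hβ : 0 ≤ β) (hβA : 16 * β ≤ A) (n : ℕ)
    {a ℓ : ℝ} (hℓ : 0 < ℓ) (hosc : ∀ a' ℓ', 0 < ℓ' → ℓ' ≤ ℓ → Osc g a' (a' + ℓ') β)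
    (h : ‖avg g a (a + ℓ) - c‖ ≤ A / 8) :
    vb g c (A / 2) n a ℓ ≤ (8 * β / A) ^ 2 * ℓ := by
  have h1 := vb_two_step hg hA hβA n hℓ hosc (h.trans (by linarith))
  have h2 : ‖c - avg g a (a + ℓ)‖ ≤ A / 4 - A / 8 := by
    rw [norm_sub_rev]; linarith
  have h3 := vb_mono_of_subset hℓ.le (bad_change (g := g) h2 n (a := a) hℓ.le)
  have h4 := vb_one_step hg n (c := avg g a (a + ℓ)) (α := A / 8) (a := a) hℓ
  have h5 := hosc a ℓ hℓ le_rfl
  unfold Osc at h5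
  have e' : a + ℓ - a = ℓ := by ring
  rw [e'] at h5
  have h6 : vb g c (A / 4) n a ℓ ≤ 8 * β / A * ℓ := by
    have h7 : A / 8 * vb g c (A / 4) n a ℓ ≤ β * ℓ := by
      calc _ ≤ A / 8 * vb g (avg g a (a + ℓ)) (A / 8) n a ℓ := by gcongr
        _ ≤ _ := h4.trans h5
    calc vb g c (A / 4) n a ℓ = (8 / A) * (A / 8 * vb g c (A / 4) n a ℓ) := by field_simp
      _ ≤ (8 / A) * (β * ℓ) := by gcongr
      _ = _ := by ring
  calc vb g c (A / 2) n a ℓ ≤ 8 * β / A * vb g c (A / 4) n a ℓ := h1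
    _ ≤ 8 * β / A * (8 * β / A * ℓ) := by gcongr
    _ = _ := by ring

/-- covering property -/
lemma bad_cover (n : ℕ) : ∀ {a ℓ x : ℝ}, 0 < ℓ → x ∈ Ico a (a + ℓ) →
    ∃ a', a ≤ a' ∧ a' + ℓ / 2 ^ n ≤ a + ℓ ∧ x ∈ Ico a' (a' + ℓ / 2 ^ n) ∧
      (α < ‖avg g a' (a' + ℓ / 2 ^ n) - c‖ → Ico a' (a' + ℓ / 2 ^ n) ⊆ bad g c α n a ℓ) := by
  induction n with
  | zero =>
    intro a ℓ x _ hx
    refine ⟨a, le_rfl, by simp, by simpa using hx, fun h => ?_⟩
    rw [pow_zero, div_one] at h ⊢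
    rw [bad_of_lt h]
  | succ n ih =>
    intro a ℓ x hℓ hx
    have hℓ2 : 0 < ℓ / 2 := by linarith
    have e : ℓ / 2 / 2 ^ n = ℓ / 2 ^ (n + 1) := by rw [pow_succ]; field_simp
    -- choose the half containing x
    rcases lt_or_ge x (a + ℓ / 2) with hx2 | hx2
    · obtain ⟨a', h1, h2, h3, h4⟩ := ih (a := a) (ℓ := ℓ / 2) (x := x) hℓ2 ⟨hx.1, hx2⟩
      rw [e] at h2 h3 h4
      refine ⟨a', h1, by linarith, h3, fun h => ?_⟩
      rcases lt_or_ge α ‖avg g a (a + ℓ) - c‖ with h5 | h5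
      · rw [bad_of_lt h5]
        exact Ico_subset_Ico h1 (by linarith)
      · rw [bad_succ_of_le h5]
        exact (h4 h).trans subset_union_left
    · obtain ⟨a', h1, h2, h3, h4⟩ := ih (a := a + ℓ / 2) (ℓ := ℓ / 2) (x := x) hℓ2
        ⟨hx2, by linarith [hx.2]⟩
      rw [e] at h2 h3 h4
      refine ⟨a', by linarith, by linarith, h3, fun h => ?_⟩
      rcases lt_or_ge α ‖avg g a (a + ℓ) - c‖ with h5 | h5
      · rw [bad_of_lt h5]
        exact Ico_subset_Ico (by linarith) (by linarith)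
      · rw [bad_succ_of_le h5]
        exact (h4 h).trans subset_union_right

/-- The full bad set. -/
noncomputable def Bad (g : ℝ → ℂ) (c : ℂ) (α : ℝ) (a ℓ : ℝ) : Set ℝ := ⋃ n, bad g c α n a ℓ

lemma Bad_measurable {a ℓ : ℝ} : MeasurableSet (Bad g c α a ℓ) :=
  MeasurableSet.iUnion fun n => bad_measurable n

lemma Bad_subset {a ℓ : ℝ} (hℓ : 0 ≤ ℓ) : Bad g c α a ℓ ⊆ Ico a (a + ℓ) :=
  iUnion_subset fun n => bad_subset n hℓ

lemma Bad_volume (hg : LI g) {A β : ℝ} (hA : 0 < A) (hβ : 0 ≤ β) (hβA : 16 * β ≤ A)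
    {a ℓ : ℝ} (hℓ : 0 < ℓ) (hosc : ∀ a' ℓ', 0 < ℓ' → ℓ' ≤ ℓ → Osc g a' (a' + ℓ') β)
    (h : ‖avg g a (a + ℓ) - c‖ ≤ A / 8) :
    volume (Bad g c (A / 2) a ℓ) ≤ ENNReal.ofReal ((8 * β / A) ^ 2 * ℓ) := by
  unfold Bad
  rw [(bad_monotone a ℓ).measure_iUnion]
  apply iSup_le
  intro n
  rw [ENNReal.le_ofReal_iff_toReal_le (volume_bad_ne_top hℓ.le) (by positivity)]
  exact vb_quadratic hg hA hβ hβA n hℓ hosc h

end Pool.Agent.H94.Div
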