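import Pool.Agent.H94.Div.Product

open MeasureTheory Real Set
open scoped Interval

namespace Pool.Agent.H94.Div

/-- variance formula for inner functions -/
lemma var_formula {θ : ℝ → ℂ} (hθ : LI θ) (hθ1 : ∀ᵐ x : ℝ, ‖θ x‖ = 1) {w : ℂ}
    (hw : ‖w‖ < 1) :
    ∫ x in (0 : ℝ)..1, P w x * ‖θ x - ext θ w‖ ^ 2 = 1 - ‖ext θ w‖ ^ 2 := by
  set c := ext θ w with hc
  have i1 : IntervalIntegrable (fun x => (P w x : ℂ) * θ x) volume 0 1 :=
    integrable_P_mul hθ hw 0 1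
  have h1 : ∫ x in (0 : ℝ)..1, P w x * ‖θ x - c‖ ^ 2 =
      ∫ x in (0 : ℝ)..1, (P w x * (1 + ‖c‖ ^ 2) -
        2 * ((starRingEnd ℂ) c * ((P w x : ℂ) * θ x)).re) := by
    apply intervalIntegral.integral_congr_ae
    filter_upwards [hθ1] with x hx _
    have h2 : ‖θ x - c‖ ^ 2 = ‖θ x‖ ^ 2 + ‖c‖ ^ 2 - 2 * ((starRingEnd ℂ) c * θ x).re := by
      rw [← Complex.normSq_eq_norm_sq, ← Complex.normSq_eq_norm_sq, ← Complex.normSq_eq_norm_sq,
        Complex.normSq_sub]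
      congr 2
      rw [mul_comm ((starRingEnd ℂ) c)]
    have h3 : ((starRingEnd ℂ) c * ((P w x : ℂ) * θ x)).re =
        P w x * ((starRingEnd ℂ) c * θ x).re := by
      have : (starRingEnd ℂ) c * ((P w x : ℂ) * θ x) =
          ((P w x : ℝ) : ℂ) * ((starRingEnd ℂ) c * θ x) := by ring
      rw [this, Complex.re_ofReal_mul]
    rw [h2, h3, hx]
    ring
  have i2 : IntervalIntegrable (fun x => ((starRingEnd ℂ) c * ((P w x : ℂ) * θ x)).re)
      volume 0 1 := by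
    have := i1.const_mul ((starRingEnd ℂ) c)
    exact ⟨this.1.re, this.2.re⟩
  have h4 : ∫ x in (0 : ℝ)..1, ((starRingEnd ℂ) c * ((P w x : ℂ) * θ x)).re = ‖c‖ ^ 2 := by
    have h5 := intervalIntegral.intervalIntegral_re (𝕜 := ℂ) (i1.const_mul ((starRingEnd ℂ) c))
    have h6 : ∫ x in (0 : ℝ)..1, ((starRingEnd ℂ) c * ((P w x : ℂ) * θ x)).re =
        (∫ x in (0 : ℝ)..1, (starRingEnd ℂ) c * ((P w x : ℂ) * θ x)).re := h5
    rw [h6, intervalIntegral.integral_const_mul]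
    have h7 : ∫ x in (0 : ℝ)..1, (P w x : ℂ) * θ x = c := rfl
    rw [h7, mul_comm, Complex.mul_conj, Complex.normSq_eq_norm_sq]
    exact Complex.ofReal_re _
  rw [h1, intervalIntegral.integral_sub, intervalIntegral.integral_mul_const, integral_P hw,
    intervalIntegral.integral_const_mul, h4]
  · ring
  · exact ((continuous_P hw).mul continuous_const).intervalIntegrable _ _
  · exact i2.const_mul 2

lemma mobius_lt {a u : ℂ} (ha : ‖a‖ < 1) (hu : ‖u‖ < 1) :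
    ‖(u - a) / (1 - (starRingEnd ℂ) a * u)‖ < 1 := by
  have hne := one_sub_conj_mul_ne ha hu.le
  rw [norm_div, div_lt_one (norm_pos_iff.2 hne)]
  have h1 : ‖u - a‖ ^ 2 < ‖1 - (starRingEnd ℂ) a * u‖ ^ 2 := by
    rw [← Complex.normSq_eq_norm_sq, ← Complex.normSq_eq_norm_sq, Complex.normSq_sub,
      Complex.normSq_sub, Complex.normSq_mul, Complex.normSq_conj, Complex.normSq_one]
    have h2 : (u * (starRingEnd ℂ) a).re = (1 * (starRingEnd ℂ) ((starRingEnd ℂ) a * u)).re := by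
      rw [one_mul, map_mul, Complex.conj_conj, Complex.mul_re, Complex.mul_re, Complex.conj_re,
        Complex.conj_im, Complex.conj_re, Complex.conj_im]
      ring
    rw [h2]
    have h3 : Complex.normSq a < 1 := by
      rw [Complex.normSq_eq_norm_sq]; nlinarith [norm_nonneg a]
    have h4 : Complex.normSq u < 1 := by
      rw [Complex.normSq_eq_norm_sq]; nlinarith [norm_nonneg u]
    have h5 := Complex.normSq_nonneg a
    have h6 := Complex.normSq_nonneg u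
    nlinarith
  exact lt_of_pow_lt_pow_left₀ 2 (norm_nonneg _) h1

/-- a form of the Schwarz–Pick inequality -/
lemma schwarz_pick {Θ : ℂ → ℂ} (hΘ : DifferentiableOn ℂ Θ (Metric.ball 0 1))
    (h1 : ∀ z, ‖z‖ < 1 → ‖Θ z‖ ≤ 1) {w : ℂ} (hw : ‖w‖ < 1) :
    ‖deriv Θ w‖ ≤ (1 - ‖Θ w‖ ^ 2) / (1 - ‖w‖) := by
  have hR : 0 < 1 - ‖w‖ := by linarith
  have hΘw : DifferentiableAt ℂ Θ w :=
    hΘ.differentiableAt (Metric.isOpen_ball.mem_nhds (by simpa using hw))
  have key : ∀ s : ℝ, 0 < s → s < 1 →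
      s * ‖deriv Θ w‖ ≤ (1 - s ^ 2 * ‖Θ w‖ ^ 2) / (1 - ‖w‖) := by
    intro s hs0 hs1
    set a : ℂ := s * Θ w with ha
    have ha1 : ‖a‖ < 1 := by
      rw [ha, norm_mul, Complex.norm_real, Real.norm_of_nonneg hs0.le]
      nlinarith [h1 w hw, norm_nonneg (Θ w)]
    have hu1 : ∀ z, ‖z‖ < 1 → ‖(s : ℂ) * Θ z‖ < 1 := by
      intro z hz
      rw [norm_mul, Complex.norm_real, Real.norm_of_nonneg hs0.le]
      nlinarith [h1 z hz, norm_nonneg (Θ z)]
    set G : ℂ → ℂ := fun ζ => (s * Θ ζ - a) / (1 - (starRingEnd ℂ) a * (s * Θ ζ)) with hG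
    have hsub : ∀ z ∈ Metric.ball w (1 - ‖w‖), ‖z‖ < 1 := by
      intro z hz
      rw [Metric.mem_ball, dist_eq_norm] at hz
      calc ‖z‖ = ‖(z - w) + w‖ := by ring_nf
        _ ≤ ‖z - w‖ + ‖w‖ := norm_add_le _ _
        _ < 1 := by linarith
    have hGd : DifferentiableOn ℂ G (Metric.ball w (1 - ‖w‖)) := by
      have h2 : DifferentiableOn ℂ Θ (Metric.ball w (1 - ‖w‖)) :=
        hΘ.mono fun z hz => by simpa using hsub z hz
      apply DifferentiableOn.div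
      · exact (h2.const_mul _).sub_const _
      · exact ((h2.const_mul _).const_mul _).const_sub _
      · intro z hz
        exact one_sub_conj_mul_ne ha1 (hu1 z (hsub z hz)).le
    have hGw : G w = 0 := by simp [hG, ha]
    have hmaps : MapsTo G (Metric.ball w (1 - ‖w‖)) (Metric.ball (G w) 1) := by
      intro z hz
      rw [hGw, mem_ball_zero_iff]
      exact mobius_lt ha1 (hu1 z (hsub z hz))
    have h3 := Complex.norm_deriv_le_div_of_mapsTo_ball hGd (hmaps.mono_right Metric.ball_subset_closedBall) hR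
    have hden : 1 - (starRingEnd ℂ) a * a ≠ 0 := one_sub_conj_mul_ne ha1 ha1.le
    have hderiv : deriv G w = s * deriv Θ w / (1 - (starRingEnd ℂ) a * a) := by
      have e1 : HasDerivAt (fun ζ => (s : ℂ) * Θ ζ - a) (s * deriv Θ w) w :=
        (hΘw.hasDerivAt.const_mul _).sub_const _
      have e2 : HasDerivAt (fun ζ => 1 - (starRingEnd ℂ) a * ((s : ℂ) * Θ ζ))
          (-((starRingEnd ℂ) a * (s * deriv Θ w))) w :=
        ((hΘw.hasDerivAt.const_mul _).const_mul _).const_sub _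
      have e3 := e1.div e2 (by rw [← ha]; exact hden)
      have e4 := e3.deriv
      rw [hG]
      have e5 : (fun ζ => (s * Θ ζ - a) / (1 - (starRingEnd ℂ) a * (s * Θ ζ))) =
          (fun ζ => (s : ℂ) * Θ ζ - a) / (fun ζ => 1 - (starRingEnd ℂ) a * ((s : ℂ) * Θ ζ)) := rfl
      rw [e5, e4, ← ha, sub_self, zero_mul, sub_zero]
      field_simp
    rw [hderiv, norm_div, norm_mul, Complex.norm_real, Real.norm_of_nonneg hs0.le] at h3
    have h4 : (starRingEnd ℂ) a * a = ((s ^ 2 * ‖Θ w‖ ^ 2 : ℝ) : ℂ) := by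
      rw [mul_comm, Complex.mul_conj, Complex.normSq_eq_norm_sq, ha, norm_mul, Complex.norm_real,
        Real.norm_of_nonneg hs0.le]
      ring_nf
    have h5 : ‖1 - (starRingEnd ℂ) a * a‖ = 1 - s ^ 2 * ‖Θ w‖ ^ 2 := by
      rw [h4]
      have : (1 : ℂ) - ((s ^ 2 * ‖Θ w‖ ^ 2 : ℝ) : ℂ) = ((1 - s ^ 2 * ‖Θ w‖ ^ 2 : ℝ) : ℂ) := by
        push_cast; ring
      rw [this, Complex.norm_real, Real.norm_of_nonneg]
      have : s ^ 2 * ‖Θ w‖ ^ 2 ≤ 1 := by
        have h6 := h1 w hw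
        have h7 := norm_nonneg (Θ w)
        nlinarith [mul_le_mul hs1.le h6 h7 zero_le_one, mul_nonneg hs0.le h7]
      linarith
    rw [h5, div_le_div_iff₀ _ hR] at h3
    · rw [le_div_iff₀ hR]
      linarith
    · rw [← h5]
      exact norm_pos_iff.2 hden
  have hl : Filter.Tendsto (fun s : ℝ => s * ‖deriv Θ w‖) (nhdsWithin 1 (Iio 1))
      (nhds (1 * ‖deriv Θ w‖)) :=
    ((continuous_id.mul continuous_const).tendsto 1).mono_left nhdsWithin_le_nhds
  have hr : Filter.Tendsto (fun s : ℝ => (1 - s ^ 2 * ‖Θ w‖ ^ 2) / (1 - ‖w‖))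
      (nhdsWithin 1 (Iio 1)) (nhds ((1 - 1 ^ 2 * ‖Θ w‖ ^ 2) / (1 - ‖w‖))) := by
    have hc : Continuous (fun s : ℝ => (1 - s ^ 2 * ‖Θ w‖ ^ 2) / (1 - ‖w‖)) := by fun_prop
    exact (hc.tendsto 1).mono_left nhdsWithin_le_nhds
  have hfin := le_of_tendsto_of_tendsto hl hr (by
    have hmem : Ioo (0 : ℝ) 1 ∈ nhdsWithin (1 : ℝ) (Iio 1) := Ioo_mem_nhdsLT one_pos
    filter_upwards [hmem] with s hs
    exact key s hs.1 hs.2)
  simpa using hfin

/-- `∫ (1 - |Θ(r·)|²) → 0` -/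
lemma l2_limit {θ : ℝ → ℂ} (hp : Function.Periodic θ 1) (hθ : LI θ)
    (hθ1 : ∀ᵐ x : ℝ, ‖θ x‖ = 1) {ε : ℝ} (hε : 0 < ε) :
    ∃ r₀ < 1, ∀ r : ℝ, r₀ ≤ r → 0 ≤ r → r < 1 →
      ∫ x in (0 : ℝ)..1, (1 - ‖ext θ (r * E x)‖ ^ 2) ≤ ε := by
  obtain ⟨r₀, hr₀, H⟩ := ext_tendsto_L1 hp hθ (ε := ε / 2) (by positivity)
  refine ⟨r₀, hr₀, fun r h1 h2 h3 => ?_⟩
  have hz : ∀ x, ‖(r : ℂ) * E x‖ < 1 := fun x => by rw [norm_mul_E h2]; exact h3
  have hle : ∀ᵐ x : ℝ, ‖θ x‖ ≤ 1 := hθ1.mono fun x hx => hx.le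
  have i2 : IntervalIntegrable (fun x => ‖ext θ (r * E x) - θ x‖) volume 0 1 :=
    (((continuous_ext_circle hθ h2 h3).intervalIntegrable 0 1).sub (hθ 0 1)).norm
  calc ∫ x in (0 : ℝ)..1, (1 - ‖ext θ (r * E x)‖ ^ 2)
      ≤ ∫ x in (0 : ℝ)..1, 2 * ‖ext θ (r * E x) - θ x‖ := by
        apply intervalIntegral.integral_mono_ae zero_le_one
        · exact (continuous_const.sub
            ((continuous_ext_circle hθ h2 h3).norm.pow 2)).intervalIntegrable _ _
        · exact i2.const_mul 2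
        · filter_upwards [hθ1] with x hx
          have h4 := norm_ext_le_one hle (hz x)
          have h5 := norm_sub_norm_le (θ x) (ext θ (r * E x))
          rw [norm_sub_rev, hx] at h5
          nlinarith [norm_nonneg (ext θ (r * E x))]
    _ ≤ 2 * (ε / 2) := by
        rw [intervalIntegral.integral_const_mul]
        gcongr
        exact H r h1 h2 h3
    _ = ε := by ring

end Pool.Agent.H94.Div
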