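import Pool.Agent.H94.Div.Defs

open MeasureTheory Real Set
open scoped Interval

namespace Pool.Agent.H94.Div

/-- `E x = e^{2πix}` as a complex number. -/
noncomputable def E (x : ℝ) : ℂ := (pt x : ℂ)

lemma E_eq (x : ℝ) : E x = Complex.exp (((2 * π * x : ℝ) : ℂ) * Complex.I) := by
  simp [E, pt, Circle.coe_exp]

@[simp] lemma norm_E (x : ℝ) : ‖E x‖ = 1 := by
  rw [E_eq, Complex.norm_exp_ofReal_mul_I]

lemma E_ne_zero (x : ℝ) : E x ≠ 0 := by
  intro h
  have := norm_E x
  rw [h, norm_zero] at this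
  exact zero_ne_one this

lemma E_add (x y : ℝ) : E (x + y) = E x * E y := by
  rw [E_eq, E_eq, E_eq, ← Complex.exp_add]
  congr 1
  push_cast
  ring

@[simp] lemma E_zero : E 0 = 1 := by
  rw [E_eq]; simp

@[simp] lemma E_one : E 1 = 1 := by
  rw [E_eq]
  have : ((2 * π * 1 : ℝ) : ℂ) * Complex.I = 2 * π * Complex.I := by push_cast; ring
  rw [this, Complex.exp_two_pi_mul_I]

lemma E_add_one (x : ℝ) : E (x + 1) = E x := by
  rw [E_add, E_one, mul_one]

lemma pt_add_one (x : ℝ) : pt (x + 1) = pt x := by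
  apply Circle.ext
  exact E_add_one x

lemma E_periodic : Function.Periodic E 1 := E_add_one

lemma continuous_E : Continuous E := by
  have : E = fun x : ℝ => Complex.exp (((2 * π * x : ℝ) : ℂ) * Complex.I) := funext E_eq
  rw [this]
  fun_prop

lemma measurable_E : Measurable E := continuous_E.measurable

lemma E_neg (x : ℝ) : E (-x) = (starRingEnd ℂ) (E x) := by
  rw [E_eq, E_eq, ← Complex.exp_conj]
  congr 1
  rw [map_mul, Complex.conj_ofReal, Complex.conj_I]
  push_cast
  ring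

lemma conj_E_mul (x : ℝ) : (starRingEnd ℂ) (E x) * E x = 1 := by
  rw [mul_comm, Complex.mul_conj, Complex.normSq_eq_norm_sq, norm_E]
  simp

lemma E_pow (x : ℝ) (n : ℕ) : E x ^ n = E (n * x) := by
  rw [E_eq, E_eq, ← Complex.exp_nat_mul]
  congr 1
  push_cast
  ring

lemma mul_E_eq_circleMap (r x : ℝ) : (r : ℂ) * E x = circleMap 0 r (2 * π * x) := by
  rw [E_eq, circleMap, zero_add]

lemma E_eq_circleMap (x : ℝ) : E x = circleMap 0 1 (2 * π * x) := by
  rw [← mul_E_eq_circleMap]; simp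

lemma hasDerivAt_E (x : ℝ) : HasDerivAt E (2 * π * Complex.I * E x) x := by
  have h : E = fun x : ℝ => Complex.exp (((2 * π * x : ℝ) : ℂ) * Complex.I) := funext E_eq
  rw [h]
  have h1 : HasDerivAt (fun x : ℝ => (((2 * π * x : ℝ) : ℂ) * Complex.I))
      (2 * π * Complex.I) x := by
    have h2 : HasDerivAt (fun x : ℝ => ((2 * π * x : ℝ) : ℂ)) (2 * π : ℂ) x := by
      have h3 : HasDerivAt (fun x : ℝ => 2 * π * x) (2 * π) x := by
        simpa using (hasDerivAt_id x).const_mul (2 * π)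
      simpa using h3.ofReal_comp
    exact h2.mul_const Complex.I
  have h4 := h1.cexp
  convert h4 using 1
  ring

/-- Circle averages over circles centred at `0` as integrals over `[0,1]`. -/
lemma circleAverage_eq_integral {F : Type*} [NormedAddCommGroup F] [NormedSpace ℝ F]
    (f : ℂ → F) (r : ℝ) :
    Real.circleAverage f 0 r = ∫ x in (0 : ℝ)..1, f (r * E x) := by
  rw [Real.circleAverage_def]
  have h := intervalIntegral.integral_comp_mul_left (a := 0) (b := 1) (c := 2 * π)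
    (fun θ => f (circleMap 0 r θ)) (by positivity)
  simp only [mul_zero, mul_one] at h
  rw [← h]
  simp_rw [mul_E_eq_circleMap]

/-- The Poisson kernel. -/
noncomputable def P (z : ℂ) (x : ℝ) : ℝ := (1 - ‖z‖ ^ 2) / ‖E x - z‖ ^ 2

lemma E_sub_ne_zero {z : ℂ} (hz : ‖z‖ < 1) (x : ℝ) : E x - z ≠ 0 := by
  intro h
  have : ‖E x‖ = ‖z‖ := by rw [sub_eq_zero.1 h]
  rw [norm_E] at this
  linarith

lemma norm_E_sub_pos {z : ℂ} (hz : ‖z‖ < 1) (x : ℝ) : 0 < ‖E x - z‖ :=
  norm_pos_iff.2 (E_sub_ne_zero hz x)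

lemma P_pos {z : ℂ} (hz : ‖z‖ < 1) (x : ℝ) : 0 < P z x := by
  have h1 := norm_E_sub_pos hz x
  have h2 : 0 < 1 - ‖z‖ ^ 2 := by nlinarith [norm_nonneg z]
  unfold P
  positivity

lemma P_nonneg {z : ℂ} (hz : ‖z‖ < 1) (x : ℝ) : 0 ≤ P z x := (P_pos hz x).le

lemma continuous_P {z : ℂ} (hz : ‖z‖ < 1) : Continuous (P z) := by
  unfold P
  refine Continuous.div continuous_const ?_ fun x => ?_
  · exact ((continuous_E.sub continuous_const).norm).pow 2
  · exact pow_ne_zero 2 (norm_E_sub_pos hz x).ne'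

lemma P_periodic (z : ℂ) : Function.Periodic (P z) 1 := by
  intro x
  simp only [P, E_add_one]

lemma P_eq_poissonKernel (z : ℂ) (x : ℝ) : P z x = poissonKernel 0 z (E x) := by
  simp [P, poissonKernel_def]

lemma integral_P {z : ℂ} (hz : ‖z‖ < 1) : ∫ x in (0 : ℝ)..1, P z x = 1 := by
  have h := InnerProductSpace.HarmonicOnNhd.circleAverage_poissonKernel_smul
    (f := fun _ => (1 : ℝ)) (c := 0) (w := z) (R := 1)
    (InnerProductSpace.harmonicOnNhd_const 1) (by simpa using hz)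
  rw [circleAverage_eq_integral] at h
  simpa [P_eq_poissonKernel] using h

/-- Poisson extension of a function on the line. -/
noncomputable def ext (g : ℝ → ℂ) (z : ℂ) : ℂ := ∫ x in (0 : ℝ)..1, (P z x : ℂ) * g x

lemma poissonExt_eq (f : Circle → ℂ) (z : ℂ) : poissonExt f z = ext (fun x => f (pt x)) z := rfl

/-! ### Distances -/

lemma norm_E_sub_ge_one_sub {z : ℂ} (x : ℝ) : 1 - ‖z‖ ≤ ‖E x - z‖ := by
  have := norm_sub_norm_le (E x) z
  rwa [norm_E] at this

/-- `|e^{2πix} - r e^{2πiy}| ≥ |x-y|` if `|x-y| ≤ 1/2`. -/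
lemma norm_E_sub_ge_abs {r : ℝ} (hr : 0 ≤ r) {x y : ℝ} (h : |x - y| ≤ 1 / 2) :
    |x - y| ≤ ‖E x - r * E y‖ := by
  have key : ‖E x - r * E y‖ ^ 2 = (1 - r) ^ 2 + 4 * r * Real.sin (π * (x - y)) ^ 2 := by
    have h1 : E x - r * E y = E y * (E (x - y) - r) := by
      rw [mul_sub, ← E_add]; ring_nf
    rw [h1, norm_mul, norm_E, one_mul, ← Complex.normSq_eq_norm_sq, E_eq, Complex.normSq_apply]
    have h2 : (Complex.exp (((2 * π * (x - y) : ℝ) : ℂ) * Complex.I) - r).re =
        Real.cos (2 * (π * (x - y))) - r := by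
      rw [Complex.sub_re, Complex.exp_ofReal_mul_I_re, Complex.ofReal_re]; ring_nf
    have h3 : (Complex.exp (((2 * π * (x - y) : ℝ) : ℂ) * Complex.I) - r).im =
        Real.sin (2 * (π * (x - y))) := by
      rw [Complex.sub_im, Complex.exp_ofReal_mul_I_im, Complex.ofReal_im]; ring_nf
    rw [h2, h3, Real.cos_two_mul, Real.sin_two_mul]
    have h4 := Real.sin_sq_add_cos_sq (π * (x - y))
    have h5 : Real.cos (π * (x - y)) ^ 2 = 1 - Real.sin (π * (x - y)) ^ 2 := by linarith
    nlinarith [h4, h5]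
  have hs : 2 * |x - y| ≤ |Real.sin (π * (x - y))| := by
    have h1 : Real.sin (π * |x - y|) = |Real.sin (π * (x - y))| := by
      rcases le_total 0 (x - y) with h0 | h0
      · rw [abs_of_nonneg h0, abs_of_nonneg]
        apply Real.sin_nonneg_of_nonneg_of_le_pi (by positivity)
        rw [abs_of_nonneg h0] at h
        nlinarith [Real.pi_pos]
      · rw [abs_of_nonpos h0]
        have : Real.sin (π * (x - y)) = - Real.sin (π * (-(x - y))) := by
          rw [← Real.sin_neg]; ring_nf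
        rw [this, abs_neg, abs_of_nonneg]
        apply Real.sin_nonneg_of_nonneg_of_le_pi
        · exact mul_nonneg Real.pi_pos.le (by linarith)
        · rw [abs_of_nonpos h0] at h
          nlinarith [Real.pi_pos]
    rw [← h1]
    have h2 := Real.mul_le_sin (x := π * |x - y|) (by positivity) (by nlinarith [Real.pi_pos])
    calc 2 * |x - y| = 2 / π * (π * |x - y|) := by field_simp
      _ ≤ _ := h2
  have hs2 : 4 * |x - y| ^ 2 ≤ Real.sin (π * (x - y)) ^ 2 := by
    rw [← sq_abs (Real.sin _)]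
    nlinarith [abs_nonneg (x - y)]
  have h0 := abs_nonneg (x - y)
  have : |x - y| ^ 2 ≤ ‖E x - r * E y‖ ^ 2 := by
    rw [key]
    rcases le_total r (1 / 4) with hr4 | hr4
    · nlinarith [sq_nonneg (Real.sin (π * (x - y)))]
    · nlinarith
  exact le_of_sq_le_sq this (norm_nonneg _)

lemma norm_E_sub_le {r : ℝ} (_hr : 0 ≤ r) (hr1 : r ≤ 1) (x y : ℝ) :
    ‖E x - r * E y‖ ≤ (1 - r) + 2 * π * |x - y| := by
  have h1 : E x - r * E y = (E x - E y) + (1 - r) * E y := by ring
  have h2 : ‖E x - E y‖ ≤ 2 * π * |x - y| := by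
    have := Convex.norm_image_sub_le_of_norm_hasDerivWithin_le (f := E)
      (f' := fun x => 2 * π * Complex.I * E x) (C := 2 * π) (s := Set.univ) (x := y) (y := x)
      (fun x _ => (hasDerivAt_E x).hasDerivWithinAt) (fun x _ => by simp [abs_of_pos Real.pi_pos])
      convex_univ trivial trivial
    simpa using this
  calc ‖E x - r * E y‖ ≤ ‖E x - E y‖ + ‖((1 : ℂ) - r) * E y‖ := by rw [h1]; exact norm_add_le _ _
    _ ≤ 2 * π * |x - y| + (1 - r) := by
        gcongr
        rw [norm_mul, norm_E, mul_one, ← Complex.ofReal_one, ← Complex.ofReal_sub,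
          Complex.norm_real, Real.norm_of_nonneg (by linarith)]
    _ = _ := by ring

lemma norm_mul_E {r : ℝ} (hr : 0 ≤ r) (x : ℝ) : ‖(r : ℂ) * E x‖ = r := by
  rw [norm_mul, norm_E, mul_one, Complex.norm_real, Real.norm_of_nonneg hr]

/-- every point of the disc is `r * E y` -/
lemma exists_eq_mul_E (z : ℂ) (c : ℝ) : ∃ y ∈ Set.Ico c (c + 1), z = (‖z‖ : ℂ) * E y := by
  have h1 : z = ‖z‖ * E (Complex.arg z / (2 * π)) := by
    conv_lhs => rw [← Complex.norm_mul_exp_arg_mul_I z]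
    rw [E_eq]
    congr 3
    field_simp
  refine ⟨toIcoMod one_pos c (Complex.arg z / (2 * π)), toIcoMod_mem_Ico one_pos c _, ?_⟩
  have h2 : E (toIcoMod one_pos c (Complex.arg z / (2 * π))) = E (Complex.arg z / (2 * π)) := by
    have h3 : toIcoMod one_pos c (Complex.arg z / (2 * π)) =
        Complex.arg z / (2 * π) - toIcoDiv one_pos c (Complex.arg z / (2 * π)) • (1 : ℝ) := rfl
    rw [h3]
    exact E_periodic.sub_zsmul_eq _
  rw [h2]
  exact h1

end Pool.Agent.H94.Div
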