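import Pool.Agent.H94.Div.Means

open MeasureTheory Real Set
open scoped Interval

namespace Pool.Agent.H94.Div

/-- The oscillation over centred intervals grows at most linearly, from scale `t` on. -/
def Growth (g : ℝ → ℂ) (x₀ t β : ℝ) : Prop :=
  ∀ s, t ≤ s → s ≤ 1 → Osc g (x₀ - s / 2) (x₀ + s / 2) (s / t * β)

lemma growth_avg_aux {g : ℝ → ℂ} (hg : LI g) {x₀ t β : ℝ}
    (h : Growth g x₀ t β) {v s : ℝ} (hv0 : 0 < v) (hv : v ≤ s) (hts : t ≤ s) (hs1 : s ≤ 1) :
    ‖avg g (x₀ - v / 2) (x₀ + v / 2) - avg g (x₀ - s / 2) (x₀ + s / 2)‖ * v ≤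
          s / t * β * s := by
  have h5 := norm_avg_sub_le_of_subset hg (avg g (x₀ - s / 2) (x₀ + s / 2))
    (a := x₀ - s / 2) (b := x₀ + s / 2) (a' := x₀ - v / 2) (b' := x₀ + v / 2)
    (by linarith) (by linarith) (by linarith)
  have h6 := h s hts hs1
  unfold Osc at h6
  have e : x₀ + v / 2 - (x₀ - v / 2) = v := by ring
  have e' : x₀ + s / 2 - (x₀ - s / 2) = s := by ring
  rw [e] at h5
  rw [e'] at h6
  exact h5.trans h6

lemma growth_avg {g : ℝ → ℂ} (hg : LI g) {x₀ t β : ℝ} (ht : 0 < t) (hβ : 0 ≤ β)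
    (h : Growth g x₀ t β) {s : ℝ} (hts : t ≤ s) (hs1 : s ≤ 1) :
    ‖avg g (x₀ - s / 2) (x₀ + s / 2) - avg g (x₀ - t / 2) (x₀ + t / 2)‖ ≤ 4 * (s / t) * β := by
  have key : ∀ n : ℕ, ∀ s, t ≤ s → s ≤ 1 → s ≤ 2 ^ n * t →
      ‖avg g (x₀ - s / 2) (x₀ + s / 2) - avg g (x₀ - t / 2) (x₀ + t / 2)‖ ≤
        4 * (s / t) * β := by
    intro n
    induction n with
    | zero =>
      intro s h1 _ h3
      have : s = t := le_antisymm (by simpa using h3) h1
      subst this
      simp only [sub_self, norm_zero]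
      positivity
    | succ n ih =>
      intro s h1 h2 h3
      have hs0 : 0 < s := lt_of_lt_of_le ht h1
      rcases le_total s (2 * t) with h4 | h4
      · have e1 := growth_avg_aux hg h ht h1 h1 h2
        rw [norm_sub_rev] at e1
        have h9 : s / t * β * s ≤ (4 * (s / t) * β) * t := by
          have : 0 ≤ s / t * β := by positivity
          nlinarith
        exact le_of_mul_le_mul_right (e1.trans h9) ht
      · have h5 : t ≤ s / 2 := by linarith
        have h6 : s / 2 ≤ 2 ^ n * t := by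
          rw [pow_succ] at h3
          linarith
        have h11 := ih (s / 2) h5 (by linarith) h6
        have e1 := growth_avg_aux hg h (v := s / 2) (s := s) (by linarith) (by linarith) h1 h2
        have h13 : ‖avg g (x₀ - s / 2 / 2) (x₀ + s / 2 / 2) -
            avg g (x₀ - s / 2) (x₀ + s / 2)‖ ≤ 2 * (s / t * β) := by
          have : s / t * β * s = (2 * (s / t * β)) * (s / 2) := by ring
          rw [this] at e1
          exact le_of_mul_le_mul_right e1 (by linarith)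
        have h14 : 4 * (s / 2 / t) * β = 2 * (s / t * β) := by ring
        rw [h14] at h11
        calc ‖avg g (x₀ - s / 2) (x₀ + s / 2) - avg g (x₀ - t / 2) (x₀ + t / 2)‖
            = ‖(avg g (x₀ - s / 2 / 2) (x₀ + s / 2 / 2) - avg g (x₀ - t / 2) (x₀ + t / 2)) -
              (avg g (x₀ - s / 2 / 2) (x₀ + s / 2 / 2) -
                avg g (x₀ - s / 2) (x₀ + s / 2))‖ := by
              ring_nf
          _ ≤ 2 * (s / t * β) + 2 * (s / t * β) := (norm_sub_le _ _).trans (add_le_add h11 h13)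
          _ = 4 * (s / t) * β := by ring
  obtain ⟨n, hn⟩ := pow_unbounded_of_one_lt (s / t) (by norm_num : (1 : ℝ) < 2)
  exact key n s hts hs1 (by rw [div_lt_iff₀ ht] at hn; exact hn.le)

/-- the deviation from the mean at scale `t`, over the interval of length `s ≥ t` -/
lemma growth_dev {g : ℝ → ℂ} (hg : LI g) {x₀ t β : ℝ} (ht : 0 < t) (hβ : 0 ≤ β)
    (h : Growth g x₀ t β) {s : ℝ} (hts : t ≤ s) (hs1 : s ≤ 1) :
    ∫ x in (x₀ - s / 2)..(x₀ + s / 2), ‖g x - avg g (x₀ - t / 2) (x₀ + t / 2)‖ ≤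
      5 * (s / t) * β * s := by
  have hs0 : 0 < s := lt_of_lt_of_le ht hts
  have h1 := integral_norm_sub_le_add hg (avg g (x₀ - s / 2) (x₀ + s / 2))
    (avg g (x₀ - t / 2) (x₀ + t / 2)) (a := x₀ - s / 2) (b := x₀ + s / 2) (by linarith)
  have h2 := growth_avg hg ht hβ h hts hs1
  have h3 := h s hts hs1
  unfold Osc at h3
  have e' : x₀ + s / 2 - (x₀ - s / 2) = s := by ring
  rw [e'] at h1 h3
  nlinarith

/-- the weight `max(t, |x - x₀|)^{-4}` -/
noncomputable def wt (x₀ t x : ℝ) : ℝ := ((max t |x - x₀|) ^ 4)⁻¹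

lemma continuous_wt {x₀ t : ℝ} (ht : 0 < t) : Continuous (wt x₀ t) := by
  unfold wt
  refine Continuous.inv₀ (by fun_prop) fun x => ?_
  have : 0 < max t |x - x₀| := lt_of_lt_of_le ht (le_max_left _ _)
  positivity

lemma wt_nonneg (x₀ t x : ℝ) : 0 ≤ wt x₀ t x := by
  unfold wt
  have : 0 ≤ (max t |x - x₀|) ^ 4 := by
    have h2 : (max t |x - x₀|) ^ 4 = ((max t |x - x₀|) ^ 2) ^ 2 := by ring
    rw [h2]; positivity
  positivity

lemma wt_le {x₀ t x r : ℝ} (hr : 0 < r) (h : r ≤ max t |x - x₀|) : wt x₀ t x ≤ (r ^ 4)⁻¹ := by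
  unfold wt
  gcongr

lemma wt_integrable {g : ℝ → ℂ} (hg : LI g) {x₀ t : ℝ} (ht : 0 < t) (c : ℂ) (a b : ℝ) :
    IntervalIntegrable (fun x => wt x₀ t x * ‖g x - c‖) volume a b :=
  (hg.norm_sub c a b).continuousOn_mul (continuous_wt ht).continuousOn

lemma wt_mono_integral {g : ℝ → ℂ} (hg : LI g) {x₀ t : ℝ} (ht : 0 < t) (c : ℂ) {a b K : ℝ}
    (hab : a ≤ b) (hK : ∀ x ∈ Icc a b, wt x₀ t x ≤ K) :
    ∫ x in a..b, wt x₀ t x * ‖g x - c‖ ≤ K * ∫ x in a..b, ‖g x - c‖ := by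
  rw [← intervalIntegral.integral_const_mul]
  apply intervalIntegral.integral_mono_on hab (wt_integrable hg ht c a b)
    ((hg.norm_sub c a b).const_mul K)
  intro x hx
  exact mul_le_mul_of_nonneg_right (hK x hx) (norm_nonneg _)

lemma growth_wt {g : ℝ → ℂ} (hg : LI g) {x₀ t β : ℝ} (ht : 0 < t) (hβ : 0 ≤ β)
    (h : Growth g x₀ t β) {s : ℝ} (hts : t ≤ s) (hs1 : s ≤ 1) :
    ∫ x in (x₀ - s / 2)..(x₀ + s / 2),
      wt x₀ t x * ‖g x - avg g (x₀ - t / 2) (x₀ + t / 2)‖ ≤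
      β / t * (450 / t ^ 2 - 430 / s ^ 2) := by
  set m := avg g (x₀ - t / 2) (x₀ + t / 2) with hm
  have key : ∀ n : ℕ, ∀ s, t ≤ s → s ≤ 1 → s ≤ 2 ^ (n + 1) * t →
      ∫ x in (x₀ - s / 2)..(x₀ + s / 2), wt x₀ t x * ‖g x - m‖ ≤
        β / t * (450 / t ^ 2 - 430 / s ^ 2) := by
    intro n
    induction n with
    | zero =>
      intro s h1 h2 h3
      have hs0 : 0 < s := lt_of_lt_of_le ht h1
      have h3' : s ≤ 2 * t := by simpa using h3
      have h4 := wt_mono_integral hg ht m (x₀ := x₀) (a := x₀ - s / 2) (b := x₀ + s / 2)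
        (K := (t ^ 4)⁻¹) (by linarith) (fun x _ => wt_le ht (le_max_left _ _))
      have h5 := growth_dev hg ht hβ h h1 h2
      rw [← hm] at h5
      have h6 : (t ^ 4)⁻¹ * (5 * (s / t) * β * s) ≤ β / t * (450 / t ^ 2 - 430 / s ^ 2) := by
        have e1 : (t ^ 4)⁻¹ * (5 * (s / t) * β * s) = β / t * (5 * s ^ 2 / t ^ 4) := by
          field_simp
        rw [e1]
        have hβt : 0 ≤ β / t := by positivity
        apply mul_le_mul_of_nonneg_left _ hβt
        have e2 : 5 * s ^ 2 / t ^ 4 ≤ 20 / t ^ 2 := by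
          rw [div_le_div_iff₀ (by positivity) (by positivity)]
          have : s ^ 2 ≤ 4 * t ^ 2 := by nlinarith
          nlinarith [pow_pos ht 2]
        have e3 : 430 / s ^ 2 ≤ 430 / t ^ 2 := by gcongr
        have e4 : 450 / t ^ 2 = 20 / t ^ 2 + 430 / t ^ 2 := by ring
        linarith
      calc _ ≤ _ := h4
        _ ≤ (t ^ 4)⁻¹ * (5 * (s / t) * β * s) := by gcongr
        _ ≤ _ := h6
    | succ n ih =>
      intro s h1 h2 h3
      have hs0 : 0 < s := lt_of_lt_of_le ht h1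
      rcases le_total s (2 ^ (n + 1) * t) with h4 | h4
      · exact ih s h1 h2 h4
      · have h5 : t ≤ s / 2 := by
          have h6 : (2 : ℝ) ≤ 2 ^ (n + 1) := by
            rw [pow_succ]
            have : (1 : ℝ) ≤ 2 ^ n := one_le_pow₀ (by norm_num)
            linarith
          nlinarith
        have h6 : s / 2 ≤ 2 ^ (n + 1) * t := by
          rw [pow_succ] at h3
          linarith
        have h7 := ih (s / 2) h5 (by linarith) h6
        -- the outer pieces
        have hi := wt_integrable hg ht m (x₀ := x₀)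
        have hK : ∀ x, s / 4 ≤ |x - x₀| → wt x₀ t x ≤ ((s / 4) ^ 4)⁻¹ := fun x hx =>
          wt_le (by linarith) (hx.trans (le_max_right _ _))
        have hl := wt_mono_integral hg ht m (x₀ := x₀) (a := x₀ - s / 2) (b := x₀ - s / 2 / 2)
          (K := ((s / 4) ^ 4)⁻¹) (by linarith) (fun x hx => hK x (by
            rw [abs_of_nonpos (by linarith [hx.2])]; linarith [hx.2]))
        have hr := wt_mono_integral hg ht m (x₀ := x₀) (a := x₀ + s / 2 / 2) (b := x₀ + s / 2)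
          (K := ((s / 4) ^ 4)⁻¹) (by linarith) (fun x hx => hK x (by
            rw [abs_of_nonneg (by linarith [hx.1])]; linarith [hx.1]))
        have hdev := growth_dev hg ht hβ h h1 h2
        rw [← hm] at hdev
        have hlr : (∫ x in (x₀ - s / 2)..(x₀ - s / 2 / 2), ‖g x - m‖) +
            ∫ x in (x₀ + s / 2 / 2)..(x₀ + s / 2), ‖g x - m‖ ≤ 5 * (s / t) * β * s := by
          refine le_trans ?_ hdev
          have hni := hg.norm_sub m
          rw [← intervalIntegral.integral_add_adjacent_intervals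
            (hni (x₀ - s / 2) (x₀ - s / 2 / 2)) (hni (x₀ - s / 2 / 2) (x₀ + s / 2)),
            ← intervalIntegral.integral_add_adjacent_intervals
            (hni (x₀ - s / 2 / 2) (x₀ + s / 2 / 2)) (hni (x₀ + s / 2 / 2) (x₀ + s / 2))]
          have : 0 ≤ ∫ x in (x₀ - s / 2 / 2)..(x₀ + s / 2 / 2), ‖g x - m‖ :=
            intervalIntegral.integral_nonneg (by linarith) (fun _ _ => norm_nonneg _)
          linarith
        rw [← intervalIntegral.integral_add_adjacent_intervals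
            (hi (x₀ - s / 2) (x₀ - s / 2 / 2)) (hi (x₀ - s / 2 / 2) (x₀ + s / 2)),
            ← intervalIntegral.integral_add_adjacent_intervals
            (hi (x₀ - s / 2 / 2) (x₀ + s / 2 / 2)) (hi (x₀ + s / 2 / 2) (x₀ + s / 2))]
        have hs4 : 0 ≤ ((s / 4) ^ 4)⁻¹ := by positivity
        have h8 : ((s / 4) ^ 4)⁻¹ * (5 * (s / t) * β * s) = β / t * (1280 / s ^ 2) := by
          field_simp
          ring
        have h9 : β / t * (450 / t ^ 2 - 430 / (s / 2) ^ 2) + β / t * (1280 / s ^ 2) ≤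
            β / t * (450 / t ^ 2 - 430 / s ^ 2) := by
          rw [← mul_add]
          apply mul_le_mul_of_nonneg_left _ (by positivity)
          have : 430 / (s / 2) ^ 2 = 1720 / s ^ 2 := by field_simp; ring
          rw [this]
          have h10 : 0 ≤ 10 / s ^ 2 := by positivity
          have h11 : 1720 / s ^ 2 - 1280 / s ^ 2 - 430 / s ^ 2 = 10 / s ^ 2 := by ring
          linarith
        nlinarith [mul_le_mul_of_nonneg_left hlr hs4]
  obtain ⟨n, hn⟩ := pow_unbounded_of_one_lt (s / t) (by norm_num : (1 : ℝ) < 2)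
  refine key n s hts hs1 ?_
  rw [div_lt_iff₀ ht] at hn
  have : (2 : ℝ) ^ (n + 1) * t = 2 * (2 ^ n * t) := by ring
  rw [this]
  have : 0 ≤ (2 : ℝ) ^ n * t := by positivity
  linarith

/-- The modulus of the improved reproducing kernel. -/
noncomputable def KK (z : ℂ) (x : ℝ) : ℝ := (1 - ‖z‖ ^ 2) ^ 3 / ‖E x - z‖ ^ 4

lemma continuous_KK {z : ℂ} (hz : ‖z‖ < 1) : Continuous (KK z) := by
  unfold KK
  refine Continuous.div continuous_const ?_ fun x => ?_
  · exact ((continuous_E.sub continuous_const).norm).pow 4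
  · exact pow_ne_zero 4 (norm_E_sub_pos hz x).ne'

lemma KK_nonneg {z : ℂ} (hz : ‖z‖ < 1) (x : ℝ) : 0 ≤ KK z x := by
  have h2 : 0 < 1 - ‖z‖ ^ 2 := by nlinarith [norm_nonneg z]
  unfold KK
  positivity

lemma KK_periodic (z : ℂ) : Function.Periodic (KK z) 1 := by
  intro x
  simp only [KK, E_add_one]

lemma KK_le_wt {t x₀ x : ℝ} (ht : 0 < t) (ht1 : t ≤ 1) (hx : |x - x₀| ≤ 1 / 2) :
    KK ((1 - t : ℝ) * E x₀) x ≤ 8 * t ^ 3 * wt x₀ t x := by
  have h1 : ‖((1 - t : ℝ) : ℂ) * E x₀‖ = 1 - t := norm_mul_E (by linarith) _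
  have h2 := norm_E_sub_ge_one_sub (z := ((1 - t : ℝ) : ℂ) * E x₀) x
  rw [h1] at h2
  have h3 := norm_E_sub_ge_abs (r := 1 - t) (by linarith) hx
  have h4 : max t |x - x₀| ≤ ‖E x - ((1 - t : ℝ) : ℂ) * E x₀‖ := max_le (by linarith) h3
  have h5 : 0 < max t |x - x₀| := lt_of_lt_of_le ht (le_max_left _ _)
  unfold KK wt
  rw [h1, div_eq_mul_inv]
  have h6 : (1 - (1 - t) ^ 2) ^ 3 ≤ 8 * t ^ 3 := by
    have : 1 - (1 - t) ^ 2 ≤ 2 * t := by nlinarith
    have h7 : 0 ≤ 1 - (1 - t) ^ 2 := by nlinarith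
    calc (1 - (1 - t) ^ 2) ^ 3 ≤ (2 * t) ^ 3 := by gcongr
      _ = _ := by ring
  have h8 : 0 ≤ 1 - (1 - t) ^ 2 := by nlinarith
  gcongr

/-- **Lemma A.** -/
lemma growth_KK {g : ℝ → ℂ} (hg : LI g) {x₀ t β : ℝ} (ht : 0 < t) (ht1 : t ≤ 1) (hβ : 0 ≤ β)
    (h : Growth g x₀ t β) :
    ∫ x in (x₀ - 1 / 2)..(x₀ + 1 / 2),
      KK ((1 - t : ℝ) * E x₀) x * ‖g x - avg g (x₀ - t / 2) (x₀ + t / 2)‖ ≤ 3600 * β := by
  set m := avg g (x₀ - t / 2) (x₀ + t / 2) with hm
  have h1 := growth_wt hg ht hβ h ht1 le_rfl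
  rw [← hm] at h1
  have hz : ‖((1 - t : ℝ) : ℂ) * E x₀‖ < 1 := by
    rw [norm_mul_E (by linarith)]; linarith
  calc ∫ x in (x₀ - 1 / 2)..(x₀ + 1 / 2), KK ((1 - t : ℝ) * E x₀) x * ‖g x - m‖
      ≤ ∫ x in (x₀ - 1 / 2)..(x₀ + 1 / 2), 8 * t ^ 3 * (wt x₀ t x * ‖g x - m‖) := by
        apply intervalIntegral.integral_mono_on (by linarith)
        · exact (hg.norm_sub m _ _).continuousOn_mul (continuous_KK hz).continuousOn
        · exact (wt_integrable hg ht m _ _).const_mul _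
        · intro x hx
          rw [← mul_assoc]
          apply mul_le_mul_of_nonneg_right _ (norm_nonneg _)
          apply KK_le_wt ht ht1
          rw [abs_le]
          constructor <;> linarith [hx.1, hx.2]
    _ = 8 * t ^ 3 * ∫ x in (x₀ - 1 / 2)..(x₀ + 1 / 2), wt x₀ t x * ‖g x - m‖ :=
        intervalIntegral.integral_const_mul _ _
    _ ≤ 8 * t ^ 3 * (β / t * (450 / t ^ 2 - 430 / 1 ^ 2)) := by gcongr
    _ ≤ 8 * t ^ 3 * (β / t * (450 / t ^ 2)) := by
        gcongr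
        linarith
    _ = 3600 * β := by field_simp; ring

end Pool.Agent.H94.Div
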