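import Pool.Agent.H94.Div.InnerFn

open MeasureTheory Real Set
open scoped Interval Topology

namespace Pool.Agent.H94.Div

/-- local sub-mean-value property -/
def LocSub (S : ℂ → ℝ) (U : Set ℂ) : Prop :=
  ∀ z ∈ U, ∃ ρ₀ > 0, ∀ ρ : ℝ, 0 < ρ → ρ < ρ₀ → S z ≤ Real.circleAverage S z ρ

lemma max_principle {S : ℂ → ℝ} {R : ℝ} (hc : ContinuousOn S (Metric.closedBall 0 R))
    (hs : LocSub S (Metric.ball 0 R)) (hb : ∀ z, ‖z‖ = R → S z ≤ 0) :
    ∀ z, ‖z‖ ≤ R → S z ≤ 0 := by
  by_contra hcon
  push Not at hcon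
  obtain ⟨z₀, hz₀, hz₀'⟩ := hcon
  have hK : IsCompact (Metric.closedBall (0 : ℂ) R) := isCompact_closedBall 0 R
  obtain ⟨zm, hzm, hmax⟩ := hK.exists_isMaxOn ⟨z₀, by simpa using hz₀⟩ hc
  have hM : 0 < S zm := lt_of_lt_of_le hz₀' (hmax (by simpa using hz₀))
  -- the set of maximum points
  set Z : Set ℂ := Metric.closedBall 0 R ∩ S ⁻¹' {S zm} with hZ
  have hZc : IsCompact Z := by
    apply hK.of_isClosed_subset _ inter_subset_left
    exact hc.preimage_isClosed_of_isClosed Metric.isClosed_closedBall isClosed_singleton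
  obtain ⟨z₁, hz₁, hz₁max⟩ := hZc.exists_isMaxOn ⟨zm, hzm, rfl⟩ continuous_norm.continuousOn
  have hz₁S : S z₁ = S zm := hz₁.2
  have hz₁R : ‖z₁‖ ≤ R := by simpa using hz₁.1
  have hz₁lt : ‖z₁‖ < R := by
    rcases hz₁R.lt_or_eq with h | h
    · exact h
    · have := hb z₁ h
      rw [hz₁S] at this
      linarith
  obtain ⟨ρ₀, hρ₀, hsub⟩ := hs z₁ (by simpa using hz₁lt)
  set ρ := min (ρ₀ / 2) ((R - ‖z₁‖) / 2) with hρ
  have hρ0 : 0 < ρ := lt_min (by linarith) (by linarith)
  have hρ1 : ρ < ρ₀ := lt_of_le_of_lt (min_le_left _ _) (by linarith)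
  have hρ2 : ρ < R - ‖z₁‖ := lt_of_le_of_lt (min_le_right _ _) (by linarith)
  have hcirc : ∀ z ∈ Metric.sphere z₁ ρ, z ∈ Metric.closedBall (0 : ℂ) R := by
    intro z hz
    rw [mem_sphere_iff_norm] at hz
    rw [mem_closedBall_zero_iff]
    calc ‖z‖ = ‖(z - z₁) + z₁‖ := by ring_nf
      _ ≤ ‖z - z₁‖ + ‖z₁‖ := norm_add_le _ _
      _ ≤ R := by linarith
  -- a point on the circle with larger norm
  obtain ⟨z₂, hz₂, hz₂n⟩ : ∃ z₂ ∈ Metric.sphere z₁ ρ, ‖z₁‖ < ‖z₂‖ := by
    rcases eq_or_ne z₁ 0 with h | h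
    · refine ⟨(ρ : ℂ), ?_, ?_⟩
      · rw [mem_sphere_iff_norm, h, sub_zero, Complex.norm_real, Real.norm_of_nonneg hρ0.le]
      · rw [h, norm_zero, Complex.norm_real, Real.norm_of_nonneg hρ0.le]
        exact hρ0
    · have hn : 0 < ‖z₁‖ := norm_pos_iff.2 h
      have hn' : (‖z₁‖ : ℂ) ≠ 0 := by exact_mod_cast hn.ne'
      refine ⟨z₁ + ρ * (z₁ / ‖z₁‖), ?_, ?_⟩
      · rw [mem_sphere_iff_norm, add_sub_cancel_left, norm_mul, norm_div, Complex.norm_real,
          Complex.norm_real, Real.norm_of_nonneg hρ0.le, norm_norm, div_self hn.ne', mul_one]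
      · have : z₁ + ρ * (z₁ / ‖z₁‖) = z₁ * ((1 + ρ / ‖z₁‖ : ℝ) : ℂ) := by
          push_cast
          field_simp
        rw [this, norm_mul, Complex.norm_real, Real.norm_of_nonneg (by positivity)]
        have : 0 < ρ / ‖z₁‖ := by positivity
        nlinarith
  have hz₂S : S z₂ < S zm := by
    have h1 : S z₂ ≤ S zm := hmax (hcirc z₂ hz₂)
    rcases h1.lt_or_eq with h2 | h2
    · exact h2
    · exfalso
      have h3 : z₂ ∈ Z := ⟨hcirc z₂ hz₂, h2⟩
      have h4 : ‖z₂‖ ≤ ‖z₁‖ := hz₁max h3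
      linarith
  obtain ⟨θ₂, hθ₂, hθ₂'⟩ : ∃ θ ∈ Ioc 0 (2 * π), circleMap z₁ ρ θ = z₂ := by
    have : z₂ ∈ circleMap z₁ ρ '' Ioc 0 (2 * π) := by
      rw [image_circleMap_Ioc, abs_of_pos hρ0]
      exact hz₂
    exact this
  have hcont : Continuous fun θ => S (circleMap z₁ ρ θ) := by
    apply hc.comp_continuous (continuous_circleMap z₁ ρ)
    intro θ
    exact hcirc _ (circleMap_mem_sphere z₁ hρ0.le θ)
  have hpos : 0 < ∫ θ in (0 : ℝ)..(2 * π), (S zm - S (circleMap z₁ ρ θ)) := by
    apply intervalIntegral.integral_pos Real.two_pi_pos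
    · exact (continuous_const.sub hcont).continuousOn
    · intro θ _
      have : S (circleMap z₁ ρ θ) ≤ S zm :=
        hmax (hcirc _ (circleMap_mem_sphere z₁ hρ0.le θ))
      linarith
    · exact ⟨θ₂, Ioc_subset_Icc_self hθ₂, by rw [hθ₂']; linarith⟩
  have havg : Real.circleAverage S z₁ ρ < S zm := by
    rw [Real.circleAverage_def, smul_eq_mul]
    rw [intervalIntegral.integral_sub (intervalIntegrable_const) (hcont.intervalIntegrable _ _),
      intervalIntegral.integral_const, smul_eq_mul, sub_zero] at hpos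
    have h2 : 0 < 2 * π := Real.two_pi_pos
    rw [inv_mul_lt_iff₀ h2]
    linarith
  have := hsub ρ hρ0 hρ1
  rw [hz₁S] at this
  linarith

lemma ext_ofReal (b : ℝ → ℝ) (z : ℂ) : ext (fun x => (b x : ℂ)) z = (extR b z : ℂ) := by
  unfold ext extR
  rw [← intervalIntegral.integral_ofReal]
  simp only [Complex.ofReal_mul]

lemma extR_le {b : ℝ → ℝ} (hb : IntervalIntegrable b volume 0 1) (hb0 : ∀ x, 0 ≤ b x)
    {z : ℂ} (hz : ‖z‖ < 1) :
    extR b z ≤ 2 / (1 - ‖z‖) * ∫ x in (0 : ℝ)..1, b x := by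
  unfold extR
  rw [← intervalIntegral.integral_const_mul]
  apply intervalIntegral.integral_mono_on zero_le_one
  · exact hb.continuousOn_mul (continuous_P hz).continuousOn
  · exact hb.const_mul _
  · intro x _
    exact mul_le_mul_of_nonneg_right (P_le hz x) (hb0 x)

lemma extR_nonneg {b : ℝ → ℝ} (hb0 : ∀ x, 0 ≤ b x) {z : ℂ} (hz : ‖z‖ < 1) : 0 ≤ extR b z :=
  intervalIntegral.integral_nonneg zero_le_one fun x _ => mul_nonneg (P_nonneg hz x) (hb0 x)

/-- A bounded-type principle: a non-negative continuous locally subharmonic function on the disc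
whose circular means tend to zero vanishes. -/
lemma subharmonic_zero {Ψ : ℂ → ℝ} (hc : ContinuousOn Ψ (Metric.ball 0 1))
    (h0 : ∀ z, 0 ≤ Ψ z) (hs : LocSub Ψ (Metric.ball 0 1))
    (hlim : ∀ ε > 0, ∃ r₀ < 1, ∀ r : ℝ, r₀ ≤ r → 0 ≤ r → r < 1 →
      ∫ x in (0 : ℝ)..1, Ψ (r * E x) ≤ ε) {w : ℂ} (hw : ‖w‖ < 1) : Ψ w ≤ 0 := by
  apply le_of_forall_pos_le_add
  intro η hη
  rw [zero_add]
  have hw1 : 0 < 1 - ‖w‖ := by linarith
  obtain ⟨r₀, hr₀, H⟩ := hlim (η * (1 - ‖w‖) / 8) (by positivity)
  set r := max (max r₀ ((1 + ‖w‖) / 2)) (1 / 2) with hr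
  have hr1 : r < 1 := max_lt (max_lt hr₀ (by linarith)) (by norm_num)
  have hrr0 : r₀ ≤ r := (le_max_left _ _).trans (le_max_left _ _)
  have hrw : (1 + ‖w‖) / 2 ≤ r := (le_max_right _ _).trans (le_max_left _ _)
  have hr0 : 0 < r := by linarith [norm_nonneg w]
  have hH := H r hrr0 hr0.le hr1
  set ψ : ℝ → ℝ := fun x => Ψ (r * E x) with hψ
  have hψc : Continuous ψ := by
    apply hc.comp_continuous (continuous_const.mul continuous_E)
    intro x
    rw [mem_ball_zero_iff]
    show ‖(r : ℂ) * E x‖ < 1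
    rw [norm_mul_E hr0.le]
    exact hr1
  have hψp : Function.Periodic ψ 1 := fun x => by simp only [hψ, E_add_one]
  have hψi : IntervalIntegrable ψ volume 0 1 := hψc.intervalIntegrable _ _
  -- uniform convergence of the Poisson integral of ψ
  obtain ⟨s₁, hs₁, U₁⟩ := ext_tendsto_unif (h := fun x => (ψ x : ℂ))
    (Complex.continuous_ofReal.comp hψc) (fun x => by simp only [hψp x]) (ε := η / 4)
    (by positivity)
  -- uniform continuity of Ψ on the closed ball of radius r
  have hcomp : IsCompact (Metric.closedBall (0 : ℂ) r) := isCompact_closedBall 0 r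
  have hcr : ContinuousOn Ψ (Metric.closedBall 0 r) :=
    hc.mono (Metric.closedBall_subset_ball hr1)
  have huc := hcomp.uniformContinuousOn_of_continuous hcr
  rw [Metric.uniformContinuousOn_iff] at huc
  obtain ⟨δ, hδ, U₂⟩ := huc (η / 4) (by positivity)
  set s := max (max s₁ (1 - δ / 2)) (max (‖w‖ / r) (1 / 2)) with hsdef
  have hwr : ‖w‖ / r < 1 := by
    rw [div_lt_one hr0]; linarith
  have hs1 : s < 1 := max_lt (max_lt hs₁ (by linarith)) (max_lt hwr (by norm_num))
  have hss1 : s₁ ≤ s := (le_max_left _ _).trans (le_max_left _ _)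
  have hsδ : 1 - δ / 2 ≤ s := (le_max_right _ _).trans (le_max_left _ _)
  have hsw : ‖w‖ / r ≤ s := (le_max_left _ _).trans (le_max_right _ _)
  have hs0 : 0 < s := by
    have : (1 : ℝ) / 2 ≤ s := (le_max_right _ _).trans (le_max_right _ _)
    linarith
  -- the comparison function
  set S : ℂ → ℝ := fun z => Ψ (r * z) - extR ψ z - η / 2 with hS
  have hharm := extR_harmonic hψp hψi
  have hSc : ContinuousOn S (Metric.closedBall 0 s) := by
    have h1 : ContinuousOn (fun z : ℂ => Ψ (r * z)) (Metric.closedBall 0 s) := by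
      apply hc.comp (by fun_prop)
      intro z hz
      rw [mem_closedBall_zero_iff] at hz
      rw [mem_ball_zero_iff, norm_mul, Complex.norm_real, Real.norm_of_nonneg hr0.le]
      nlinarith [norm_nonneg z]
    have h2 : ContinuousOn (extR ψ) (Metric.closedBall 0 s) :=
      hharm.continuousOn.mono (Metric.closedBall_subset_ball hs1)
    exact (h1.sub h2).sub continuousOn_const
  have hSsub : LocSub S (Metric.ball 0 s) := by
    intro z hz
    rw [mem_ball_zero_iff] at hz
    have hrz : (r : ℂ) * z ∈ Metric.ball (0 : ℂ) 1 := by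
      rw [mem_ball_zero_iff, norm_mul, Complex.norm_real, Real.norm_of_nonneg hr0.le]
      nlinarith [norm_nonneg z]
    obtain ⟨ρ₁, hρ₁, hsub⟩ := hs _ hrz
    refine ⟨min (ρ₁ / r) (s - ‖z‖), lt_min (by positivity) (by linarith), fun ρ h1 h2 => ?_⟩
    have h3 : ρ < ρ₁ / r := lt_of_lt_of_le h2 (min_le_left _ _)
    have h4 : ρ < s - ‖z‖ := lt_of_lt_of_le h2 (min_le_right _ _)
    have h5 : r * ρ < ρ₁ := by
      rw [lt_div_iff₀ hr0] at h3; linarith
    have h6 := hsub (r * ρ) (by positivity) h5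
    have e1 : Real.circleAverage (fun z : ℂ => Ψ (r * z)) z ρ =
        Real.circleAverage Ψ (r * z) (r * ρ) := by
      rw [Real.circleAverage_def, Real.circleAverage_def]
      congr 2
      funext θ
      congr 1
      simp only [circleMap]
      push_cast
      ring
    have hball : Metric.closedBall z |ρ| ⊆ Metric.ball 0 1 := by
      intro y hy
      rw [abs_of_pos h1, Metric.mem_closedBall, dist_eq_norm] at hy
      rw [mem_ball_zero_iff]
      calc ‖y‖ = ‖(y - z) + z‖ := by ring_nf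
        _ ≤ ‖y - z‖ + ‖z‖ := norm_add_le _ _
        _ < 1 := by linarith
    have e2 : Real.circleAverage (extR ψ) z ρ = extR ψ z :=
      (hharm.mono hball).circleAverage_eq
    have c1 : CircleIntegrable (fun z : ℂ => Ψ (r * z)) z ρ := by
      apply ContinuousOn.circleIntegrable h1.le
      apply hc.comp (by fun_prop)
      intro y hy
      have hy' : ‖y‖ < 1 := by
        have := hball (show y ∈ Metric.closedBall z |ρ| by
          rw [abs_of_pos h1]; exact Metric.sphere_subset_closedBall hy)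
        simpa using this
      rw [mem_ball_zero_iff, norm_mul, Complex.norm_real, Real.norm_of_nonneg hr0.le]
      nlinarith [norm_nonneg y]
    have c2 : CircleIntegrable (extR ψ) z ρ := by
      apply ContinuousOn.circleIntegrable h1.le
      apply hharm.continuousOn.mono
      refine Metric.sphere_subset_closedBall.trans ?_
      rwa [abs_of_pos h1] at hball
    have e3 : Real.circleAverage S z ρ =
        Real.circleAverage (fun z : ℂ => Ψ (r * z)) z ρ - Real.circleAverage (extR ψ) z ρ -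
          η / 2 := by
      have h7 := Real.circleAverage_fun_sub (c1.sub c2) (circleIntegrable_const (η / 2) z ρ)
      have h8 := Real.circleAverage_fun_sub c1 c2
      rw [Real.circleAverage_const] at h7
      have h9 : Real.circleAverage S z ρ =
        Real.circleAverage (fun y => ((fun z : ℂ => Ψ (r * z)) - extR ψ) y - η / 2) z ρ := rfl
      rw [h9, h7, ← h8]
      rfl
    rw [e3, e1, e2]
    simp only [hS]
    linarith
  have hSb : ∀ z, ‖z‖ = s → S z ≤ 0 := by
    intro z hz
    obtain ⟨x, -, hx⟩ := exists_eq_mul_E z 0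
    rw [hz] at hx
    have h1 := U₁ s hss1 hs0.le hs1 x
    rw [← hx] at h1
    rw [ext_ofReal, ← Complex.ofReal_sub, Complex.norm_real, Real.norm_eq_abs, abs_le] at h1
    have h2 : dist (Ψ (r * z)) (Ψ (r * E x)) < η / 4 := by
      apply U₂
      · rw [mem_closedBall_zero_iff, norm_mul, Complex.norm_real, Real.norm_of_nonneg hr0.le, hz]
        nlinarith
      · rw [mem_closedBall_zero_iff, norm_mul_E hr0.le]
      · rw [dist_eq_norm, hx]
        have : (r : ℂ) * (s * E x) - r * E x = ((r * (s - 1) : ℝ) : ℂ) * E x := by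
          push_cast; ring
        rw [this, norm_mul, norm_E, mul_one, Complex.norm_real, Real.norm_eq_abs,
          abs_of_nonpos (by nlinarith)]
        nlinarith
    rw [Real.dist_eq, abs_lt] at h2
    simp only [hS]
    have h3 : ψ x = Ψ (r * E x) := rfl
    linarith [h1.1, h2.2]
  have hfin := max_principle hSc hSsub hSb (w / r) (by
    rw [norm_div, Complex.norm_real, Real.norm_of_nonneg hr0.le]
    exact hsw)
  have hr' : (r : ℂ) ≠ 0 := by exact_mod_cast hr0.ne'
  simp only [hS] at hfin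
  rw [mul_div_cancel₀ _ hr'] at hfin
  have hwr' : ‖w / r‖ < 1 := by
    rw [norm_div, Complex.norm_real, Real.norm_of_nonneg hr0.le]; exact hwr
  have h1 := extR_le hψi (fun x => h0 _) hwr'
  have h2 : 2 / (1 - ‖w / r‖) ≤ 4 / (1 - ‖w‖) := by
    have h3 : (1 - ‖w‖) / 2 ≤ 1 - ‖w / r‖ := by
      rw [norm_div, Complex.norm_real, Real.norm_of_nonneg hr0.le]
      have h4 : ‖w‖ / r ≤ ‖w‖ / ((1 + ‖w‖) / 2) := by gcongr
      have h5 : ‖w‖ / ((1 + ‖w‖) / 2) ≤ 1 - (1 - ‖w‖) / 2 := by
        rw [div_le_iff₀ (by positivity)]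
        nlinarith [norm_nonneg w]
      linarith
    rw [div_le_div_iff₀ (by linarith) hw1]
    linarith
  have h3 : 0 ≤ ∫ x in (0 : ℝ)..1, ψ x :=
    intervalIntegral.integral_nonneg zero_le_one fun x _ => h0 _
  have h4 : 2 / (1 - ‖w / r‖) * ∫ x in (0 : ℝ)..1, ψ x ≤ η / 2 := by
    calc _ ≤ 4 / (1 - ‖w‖) * (η * (1 - ‖w‖) / 8) := by gcongr
      _ = η / 2 := by field_simp; ring
  linarith

/-- **Key Lemma.** If `|Θ| ≥ ε` wherever the positive harmonic function `v = extR b` is less
than `c₁`, then `log (1/|Θ|) ≤ C v` there. -/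
lemma key_lemma {θ : ℝ → ℂ} (hp : Function.Periodic θ 1) (hθ : LI θ) (hn : NoNeg θ)
    (hθ1 : ∀ᵐ x : ℝ, ‖θ x‖ = 1) {b : ℝ → ℝ} (hbp : Function.Periodic b 1)
    (hbi : IntervalIntegrable b volume 0 1) (hb0 : ∀ x, 0 ≤ b x) {ε c₁ : ℝ}
    (hε0 : 0 < ε) (hε1 : ε < 1) (hc₁ : 0 < c₁)
    (H : ∀ z : ℂ, ‖z‖ < 1 → extR b z < c₁ → ε ≤ ‖ext θ z‖) {w : ℂ} (hw : ‖w‖ < 1)
    (hwv : extR b w < c₁) :
    -Real.log ‖ext θ w‖ ≤ 2 * (-Real.log ε) / c₁ * extR b w := by
  have hle : ∀ᵐ x : ℝ, ‖θ x‖ ≤ 1 := hθ1.mono fun x hx => hx.le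
  set L := -Real.log ε with hL
  have hL0 : 0 < L := by
    rw [hL]; linarith [Real.log_neg hε0 hε1]
  set C := 2 * L / c₁ with hC
  have hC0 : 0 < C := by positivity
  have hΘd := ext_differentiableOn hp hθ hn
  have hvh := extR_harmonic hbp hbi
  set g : ℂ → ℝ := fun z => -Real.log ‖ext θ z‖ - C * extR b z with hg
  classical
  set Ψ : ℂ → ℝ := fun z => if ‖z‖ < 1 ∧ extR b z < c₁ then max 0 (g z) else 0 with hΨ
  have hΨ0 : ∀ z, 0 ≤ Ψ z := by
    intro z
    simp only [hΨ]
    split_ifs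
    · exact le_max_left _ _
    · exact le_rfl
  have hgle : ∀ z, ‖z‖ < 1 → extR b z < c₁ → g z ≤ Ψ z := by
    intro z h1 h2
    simp only [hΨ, if_pos (And.intro h1 h2)]
    exact le_max_right _ _
  have hvcont : ∀ z, ‖z‖ < 1 → ContinuousAt (extR b) z := fun z hz =>
    hvh.continuousOn.continuousAt (Metric.isOpen_ball.mem_nhds (by simpa using hz))
  have hΘcont : ∀ z, ‖z‖ < 1 → ContinuousAt (ext θ) z := fun z hz =>
    (hΘd.differentiableAt (Metric.isOpen_ball.mem_nhds (by simpa using hz))).continuousAt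
  -- local structure near points with v < c₁
  have hnear : ∀ z, ‖z‖ < 1 → extR b z < c₁ → ∀ᶠ y in 𝓝 z, ‖y‖ < 1 ∧ extR b y < c₁ := by
    intro z h1 h2
    have e1 : ∀ᶠ y in 𝓝 z, ‖y‖ < 1 := by
      filter_upwards [Metric.isOpen_ball.mem_nhds (show z ∈ Metric.ball (0 : ℂ) 1 by
        simpa using h1)] with y hy
      simpa using hy
    have e2 : ∀ᶠ y in 𝓝 z, extR b y < c₁ := (hvcont z h1).eventually_lt_const h2
    exact e1.and e2
  have hgharm : ∀ z, ‖z‖ < 1 → extR b z < c₁ → InnerProductSpace.HarmonicAt g z := by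
    intro z h1 h2
    have h3 : ext θ z ≠ 0 := by
      intro h4
      have := H z h1 h2
      rw [h4, norm_zero] at this
      linarith
    have h4 : AnalyticAt ℂ (ext θ) z :=
      hΘd.analyticAt (Metric.isOpen_ball.mem_nhds (by simpa using h1))
    have h5 := h4.harmonicAt_log_norm h3
    have h6 : InnerProductSpace.HarmonicAt (extR b) z := hvh z (by simpa using h1)
    have h7 := h5.neg.sub (h6.const_smul (c := C))
    exact h7
  have hΨc : ContinuousOn Ψ (Metric.ball 0 1) := by
    intro z hz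
    rw [mem_ball_zero_iff] at hz
    apply ContinuousAt.continuousWithinAt
    by_cases h : extR b z < c₁
    · have h1 : Ψ =ᶠ[𝓝 z] fun y => max 0 (g y) := by
        filter_upwards [hnear z hz h] with y hy
        simp only [hΨ, if_pos hy]
      refine ContinuousAt.congr ?_ h1.symm
      apply continuousAt_const.max
      exact (hgharm z hz h).1.continuousAt
    · push Not at h
      have h1 : Ψ =ᶠ[𝓝 z] fun _ => 0 := by
        have e2 : ∀ᶠ y in 𝓝 z, c₁ / 2 < extR b y :=
          (hvcont z hz).eventually_const_lt (by linarith)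
        filter_upwards [e2] with y hy
        simp only [hΨ]
        split_ifs with h2
        · apply max_eq_left
          simp only [hg]
          have h3 := H y h2.1 h2.2
          have h4 : -Real.log ‖ext θ y‖ ≤ L := by
            rw [hL]
            have := Real.log_le_log hε0 h3
            linarith
          have h5 : L ≤ C * extR b y := by
            have : C * (c₁ / 2) = L := by rw [hC]; field_simp
            rw [← this]
            gcongr
          linarith
        · rfl
      exact ContinuousAt.congr continuousAt_const h1.symm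
  have hΨs : LocSub Ψ (Metric.ball 0 1) := by
    intro z hz
    rw [mem_ball_zero_iff] at hz
    rcases (hΨ0 z).eq_or_lt with h | h
    · refine ⟨1, one_pos, fun ρ _ _ => ?_⟩
      rw [← h, Real.circleAverage_def, smul_eq_mul]
      have : 0 ≤ ∫ θ in (0 : ℝ)..(2 * π), Ψ (circleMap z ρ θ) :=
        intervalIntegral.integral_nonneg Real.two_pi_pos.le fun _ _ => hΨ0 _
      positivity
    · have hv : extR b z < c₁ := by
        by_contra hcon
        simp only [hΨ] at h
        rw [if_neg (fun h2 => hcon h2.2)] at h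
        exact lt_irrefl _ h
      have hval : Ψ z = g z := by
        simp only [hΨ, if_pos (And.intro hz hv)] at h ⊢
        rcases le_total (g z) 0 with h1 | h1
        · rw [max_eq_left h1] at h; exact absurd h (lt_irrefl _)
        · exact max_eq_right h1
      obtain ⟨ρ₀, hρ₀, hball⟩ := Metric.eventually_nhds_iff_ball.1 (hnear z hz hv)
      refine ⟨ρ₀, hρ₀, fun ρ h1 h2 => ?_⟩
      have hsub : ∀ y ∈ Metric.closedBall z |ρ|, ‖y‖ < 1 ∧ extR b y < c₁ := by
        intro y hy
        rw [abs_of_pos h1] at hy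
        exact hball y (Metric.closedBall_subset_ball h2 hy)
      have hgh : InnerProductSpace.HarmonicOnNhd g (Metric.closedBall z |ρ|) :=
        fun y hy => hgharm y (hsub y hy).1 (hsub y hy).2
      rw [hval, ← hgh.circleAverage_eq]
      apply Real.circleAverage_mono
      · exact (hgh.continuousOn.mono Metric.sphere_subset_closedBall).circleIntegrable'
      · apply ContinuousOn.circleIntegrable'
        apply hΨc.mono
        intro y hy
        have := (hsub y (Metric.sphere_subset_closedBall hy)).1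
        simpa using this
      · intro y hy
        have := hsub y (Metric.sphere_subset_closedBall hy)
        exact hgle y this.1 this.2
  have hΨle : ∀ z, ‖z‖ < 1 → Ψ z ≤ (1 - ‖ext θ z‖ ^ 2) / ε := by
    intro z hz
    have h1 := norm_ext_le_one hle hz
    have h2 := norm_nonneg (ext θ z)
    have h3 : 0 ≤ (1 - ‖ext θ z‖ ^ 2) / ε := by
      apply div_nonneg _ hε0.le
      nlinarith
    by_cases h : extR b z < c₁
    · simp only [hΨ, if_pos (And.intro hz h)]
      apply max_le h3
      simp only [hg]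
      have h4 := H z hz h
      have h6 : -Real.log ‖ext θ z‖ ≤ (1 - ‖ext θ z‖ ^ 2) / ε := by
        have h7 : 0 < ‖ext θ z‖ := lt_of_lt_of_le hε0 h4
        have h8 := Real.log_le_sub_one_of_pos (inv_pos.2 h7)
        rw [Real.log_inv] at h8
        refine h8.trans ?_
        rw [le_div_iff₀ hε0]
        have h9 : (‖ext θ z‖⁻¹ - 1) * ε ≤ (‖ext θ z‖⁻¹ - 1) * ‖ext θ z‖ := by
          apply mul_le_mul_of_nonneg_left h4
          rw [sub_nonneg]
          exact (one_le_inv₀ h7).2 h1
        refine h9.trans ?_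
        rw [sub_mul, inv_mul_cancel₀ h7.ne']
        nlinarith
      have h7 := extR_nonneg hb0 hz
      have : 0 ≤ C * extR b z := by positivity
      linarith
    · simp only [hΨ]
      rw [if_neg (fun h2 => h h2.2)]
      exact h3
  have hΨlim : ∀ ε' > 0, ∃ r₀ < 1, ∀ r : ℝ, r₀ ≤ r → 0 ≤ r → r < 1 →
      ∫ x in (0 : ℝ)..1, Ψ (r * E x) ≤ ε' := by
    intro ε' hε'
    obtain ⟨r₀, hr₀, H'⟩ := l2_limit hp hθ hθ1 (ε := ε' * ε) (by positivity)
    refine ⟨r₀, hr₀, fun r h1 h2 h3 => ?_⟩
    have hz : ∀ x, ‖(r : ℂ) * E x‖ < 1 := fun x => by rw [norm_mul_E h2]; exact h3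
    calc ∫ x in (0 : ℝ)..1, Ψ (r * E x) ≤ ∫ x in (0 : ℝ)..1,
          (1 - ‖ext θ (r * E x)‖ ^ 2) / ε := by
          apply intervalIntegral.integral_mono_on zero_le_one
          · apply Continuous.intervalIntegrable
            exact hΨc.comp_continuous (continuous_const.mul continuous_E)
              (fun x => by simpa using hz x)
          · apply Continuous.intervalIntegrable
            exact (continuous_const.sub ((continuous_ext_circle hθ h2 h3).norm.pow 2)).div_const _
          · intro x _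
            exact hΨle _ (hz x)
      _ ≤ ε' := by
          rw [intervalIntegral.integral_div, div_le_iff₀ hε0]
          exact H' r h1 h2 h3
  have hfin := subharmonic_zero hΨc hΨ0 hΨs hΨlim hw
  have h1 := (hgle w hw hwv).trans hfin
  simp only [hg] at h1
  linarith

end Pool.Agent.H94.Div
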