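import Pool.Agent.H94.Div.Kernel

open MeasureTheory Real Set
open scoped Interval

namespace Pool.Agent.H94.Div

/-- mean over `[a,b]` -/
noncomputable def avg (g : ℝ → ℂ) (a b : ℝ) : ℂ := (∫ x in a..b, g x) / ((b - a : ℝ) : ℂ)

/-- The mean oscillation over `[a,b]` is at most `β`. -/
def Osc (g : ℝ → ℂ) (a b β : ℝ) : Prop := ∫ x in a..b, ‖g x - avg g a b‖ ≤ β * (b - a)

/-- locally integrable -/
def LI (g : ℝ → ℂ) : Prop := ∀ a b : ℝ, IntervalIntegrable g volume a b

lemma LI.sub_const {g : ℝ → ℂ} (hg : LI g) (c : ℂ) : LI (fun x => g x - c) :=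
  fun a b => (hg a b).sub intervalIntegrable_const

lemma LI.norm_sub {g : ℝ → ℂ} (hg : LI g) (c : ℂ) (a b : ℝ) :
    IntervalIntegrable (fun x => ‖g x - c‖) volume a b :=
  ((hg a b).sub intervalIntegrable_const).norm

lemma LI.norm {g : ℝ → ℂ} (hg : LI g) (a b : ℝ) :
    IntervalIntegrable (fun x => ‖g x‖) volume a b := (hg a b).norm

lemma LI_of_periodic {g : ℝ → ℂ} (hp : Function.Periodic g 1)
    (h : IntervalIntegrable g volume 0 1) : LI g := by
  intro a b
  exact hp.intervalIntegrable₀ one_ne_zero h a b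

lemma avg_sub {g : ℝ → ℂ} (hg : LI g) {a b : ℝ} (hab : a < b) (c : ℂ) :
    avg g a b - c = (∫ x in a..b, (g x - c)) / ((b - a : ℝ) : ℂ) := by
  have h : ((b - a : ℝ) : ℂ) ≠ 0 := by
    exact_mod_cast (sub_pos.2 hab).ne'
  rw [intervalIntegral.integral_sub (hg a b) intervalIntegrable_const,
    intervalIntegral.integral_const, avg, sub_div]
  congr 1
  rw [eq_div_iff h, mul_comm]
  simp [Complex.real_smul]

lemma norm_avg_sub_le {g : ℝ → ℂ} (hg : LI g) {a b : ℝ} (hab : a < b) (c : ℂ) :
    ‖avg g a b - c‖ ≤ (∫ x in a..b, ‖g x - c‖) / (b - a) := by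
  rw [avg_sub hg hab c, norm_div, Complex.norm_real, Real.norm_of_nonneg (sub_pos.2 hab).le]
  have := sub_pos.2 hab
  gcongr
  exact intervalIntegral.norm_integral_le_integral_norm hab.le

lemma norm_avg_sub_mul_le {g : ℝ → ℂ} (hg : LI g) {a b : ℝ} (hab : a < b) (c : ℂ) :
    ‖avg g a b - c‖ * (b - a) ≤ ∫ x in a..b, ‖g x - c‖ := by
  have := norm_avg_sub_le hg hab c
  rwa [le_div_iff₀ (sub_pos.2 hab)] at this

lemma integral_norm_mono {g : ℝ → ℂ} (hg : LI g) (c : ℂ) {a b a' b' : ℝ} (h1 : a ≤ a')
    (h2 : a' ≤ b') (h3 : b' ≤ b) :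
    ∫ x in a'..b', ‖g x - c‖ ≤ ∫ x in a..b, ‖g x - c‖ :=
  intervalIntegral.integral_mono_interval h1 h2 h3
    (Filter.Eventually.of_forall fun _ => norm_nonneg _) (hg.norm_sub c a b)

/-- comparison of means over nested intervals -/
lemma norm_avg_sub_le_of_subset {g : ℝ → ℂ} (hg : LI g) (c : ℂ) {a b a' b' : ℝ} (h1 : a ≤ a')
    (h2 : a' < b') (h3 : b' ≤ b) :
    ‖avg g a' b' - c‖ * (b' - a') ≤ ∫ x in a..b, ‖g x - c‖ :=
  (norm_avg_sub_mul_le hg h2 c).trans (integral_norm_mono hg c h1 h2.le h3)

lemma integral_norm_sub_le_add {g : ℝ → ℂ} (hg : LI g) (c d : ℂ) {a b : ℝ} (hab : a ≤ b) :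
    ∫ x in a..b, ‖g x - d‖ ≤ (∫ x in a..b, ‖g x - c‖) + ‖c - d‖ * (b - a) := by
  have h1 : ∫ x in a..b, ‖g x - d‖ ≤ ∫ x in a..b, (‖g x - c‖ + ‖c - d‖) := by
    apply intervalIntegral.integral_mono_on hab (hg.norm_sub d a b)
      ((hg.norm_sub c a b).add intervalIntegrable_const)
    intro x _
    have : g x - d = (g x - c) + (c - d) := by ring
    rw [this]
    exact norm_add_le _ _
  refine h1.trans_eq ?_
  rw [intervalIntegral.integral_add (hg.norm_sub c a b) intervalIntegrable_const,
    intervalIntegral.integral_const, smul_eq_mul, mul_comm (b - a)]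

/-- The mean oscillation is at most twice the mean deviation from any constant. -/
lemma osc_of_const {g : ℝ → ℂ} (hg : LI g) (c : ℂ) {a b β : ℝ} (hab : a < b)
    (h : ∫ x in a..b, ‖g x - c‖ ≤ β * (b - a)) : Osc g a b (2 * β) := by
  have h1 := integral_norm_sub_le_add hg c (avg g a b) hab.le
  have h2 := norm_avg_sub_mul_le hg hab c
  rw [norm_sub_rev] at h2
  unfold Osc
  linarith

/-- Chain lemma, from oscillation over intervals of length `s` to intervals of length `n * s`. -/
lemma chain_avg {g : ℝ → ℂ} (hg : LI g) {s β : ℝ} (hs : 0 < s)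
    (h : ∀ a, Osc g a (a + s) β) (a : ℝ) (n : ℕ) :
    ‖avg g (a + n * s) (a + n * s + s) - avg g a (a + s)‖ ≤ 8 * n * β := by
  have step : ∀ b, ‖avg g (b + s) (b + s + s) - avg g b (b + s)‖ ≤ 8 * β := by
    intro b
    -- compare both with the mean over the half intervals shared with the middle interval
    have e1 : ‖avg g (b + s / 2) (b + s) - avg g b (b + s)‖ * (s / 2) ≤ β * s := by
      have h1 := norm_avg_sub_le_of_subset hg (avg g b (b + s)) (a := b) (b := b + s)
        (a' := b + s / 2) (b' := b + s) (by linarith) (by linarith) le_rfl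
      have h2 := h b
      unfold Osc at h2
      have e : b + s - (b + s / 2) = s / 2 := by ring
      have e' : b + s - b = s := by ring
      rw [e] at h1
      rw [e'] at h2
      exact h1.trans h2
    have e2 : ‖avg g (b + s / 2) (b + s) - avg g (b + s / 2) (b + s / 2 + s)‖ * (s / 2) ≤
        β * s := by
      have h1 := norm_avg_sub_le_of_subset hg (avg g (b + s / 2) (b + s / 2 + s))
        (a := b + s / 2) (b := b + s / 2 + s)
        (a' := b + s / 2) (b' := b + s) le_rfl (by linarith) (by linarith)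
      have h2 := h (b + s / 2)
      unfold Osc at h2
      have e : b + s - (b + s / 2) = s / 2 := by ring
      have e' : b + s / 2 + s - (b + s / 2) = s := by ring
      rw [e] at h1
      rw [e'] at h2
      exact h1.trans h2
    have e3 : ‖avg g (b + s) (b + s / 2 + s) - avg g (b + s / 2) (b + s / 2 + s)‖ * (s / 2) ≤
        β * s := by
      have h1 := norm_avg_sub_le_of_subset hg (avg g (b + s / 2) (b + s / 2 + s))
        (a := b + s / 2) (b := b + s / 2 + s)
        (a' := b + s) (b' := b + s / 2 + s) (by linarith) (by linarith) le_rfl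
      have h2 := h (b + s / 2)
      unfold Osc at h2
      have e : b + s / 2 + s - (b + s) = s / 2 := by ring
      have e' : b + s / 2 + s - (b + s / 2) = s := by ring
      rw [e] at h1
      rw [e'] at h2
      exact h1.trans h2
    have e4 : ‖avg g (b + s) (b + s / 2 + s) - avg g (b + s) (b + s + s)‖ * (s / 2) ≤
        β * s := by
      have h1 := norm_avg_sub_le_of_subset hg (avg g (b + s) (b + s + s))
        (a := b + s) (b := b + s + s)
        (a' := b + s) (b' := b + s / 2 + s) le_rfl (by linarith) (by linarith)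
      have h2 := h (b + s)
      unfold Osc at h2
      have e : b + s / 2 + s - (b + s) = s / 2 := by ring
      have e' : b + s + s - (b + s) = s := by ring
      rw [e] at h1
      rw [e'] at h2
      exact h1.trans h2
    set A := avg g b (b + s)
    set B := avg g (b + s / 2) (b + s)
    set C := avg g (b + s / 2) (b + s / 2 + s)
    set D := avg g (b + s) (b + s / 2 + s)
    set F := avg g (b + s) (b + s + s)
    have f1 : ‖B - A‖ ≤ 2 * β := by
      by_contra hc; push Not at hc; nlinarith
    have f2 : ‖B - C‖ ≤ 2 * β := by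
      by_contra hc; push Not at hc; nlinarith
    have f3 : ‖D - C‖ ≤ 2 * β := by
      by_contra hc; push Not at hc; nlinarith
    have f4 : ‖D - F‖ ≤ 2 * β := by
      by_contra hc; push Not at hc; nlinarith
    have : F - A = (B - A) - (B - C) + (D - C) - (D - F) := by ring
    rw [this]
    calc ‖(B - A) - (B - C) + (D - C) - (D - F)‖ ≤ ‖(B - A) - (B - C) + (D - C)‖ + ‖D - F‖ :=
          norm_sub_le _ _
      _ ≤ ‖(B - A) - (B - C)‖ + ‖D - C‖ + ‖D - F‖ := by gcongr; exact norm_add_le _ _
      _ ≤ ‖B - A‖ + ‖B - C‖ + ‖D - C‖ + ‖D - F‖ := by gcongr; exact norm_sub_le _ _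
      _ ≤ 8 * β := by linarith
  induction n with
  | zero => simp
  | succ n ih =>
    have h1 := step (a + n * s)
    have e : a + ((n + 1 : ℕ) : ℝ) * s = a + n * s + s := by push_cast; ring
    rw [e]
    calc ‖avg g (a + n * s + s) (a + n * s + s + s) - avg g a (a + s)‖
        = ‖(avg g (a + n * s + s) (a + n * s + s + s) - avg g (a + n * s) (a + n * s + s)) +
          (avg g (a + n * s) (a + n * s + s) - avg g a (a + s))‖ := by ring_nf
      _ ≤ 8 * β + 8 * n * β := (norm_add_le _ _).trans (add_le_add h1 ih)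
      _ = 8 * ((n + 1 : ℕ) : ℝ) * β := by push_cast; ring

lemma chain_osc {g : ℝ → ℂ} (hg : LI g) {s β : ℝ} (hs : 0 < s) (hβ : 0 ≤ β)
    (h : ∀ a, Osc g a (a + s) β) (a : ℝ) {n : ℕ} (hn : 0 < n) :
    Osc g a (a + n * s) (18 * n * β) := by
  have key : ∀ k : ℕ, k ≤ n →
      ∫ x in a..(a + k * s), ‖g x - avg g a (a + s)‖ ≤ (β + 8 * n * β) * (k * s) := by
    intro k
    induction k with
    | zero => intro _; simp
    | succ k ih =>
      intro hk
      have h1 := ih (by omega)
      have e : a + ((k + 1 : ℕ) : ℝ) * s = a + k * s + s := by push_cast; ring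
      rw [e, ← intervalIntegral.integral_add_adjacent_intervals
        (hg.norm_sub _ a (a + k * s)) (hg.norm_sub _ (a + k * s) (a + k * s + s))]
      have h2 := integral_norm_sub_le_add hg (avg g (a + k * s) (a + k * s + s))
        (avg g a (a + s)) (a := a + k * s) (b := a + k * s + s) (by linarith)
      have h3 := h (a + k * s)
      unfold Osc at h3
      have h4 := chain_avg hg hs h a k
      have e' : a + k * s + s - (a + k * s) = s := by ring
      rw [e'] at h2 h3
      have h5 : (8 : ℝ) * k * β ≤ 8 * n * β := by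
        have : (k : ℝ) ≤ n := by exact_mod_cast (by omega : k ≤ n)
        gcongr
      have h6 : ‖avg g (a + k * s) (a + k * s + s) - avg g a (a + s)‖ * s ≤ 8 * n * β * s :=
        mul_le_mul_of_nonneg_right (h4.trans h5) hs.le
      push_cast
      nlinarith
  have hn' : (1 : ℝ) ≤ n := by exact_mod_cast hn
  have hlt : a < a + n * s := by nlinarith
  have h1 := key n le_rfl
  have h2 : ∫ x in a..(a + n * s), ‖g x - avg g a (a + s)‖ ≤ (9 * n * β) * (a + n * s - a) := by
    refine h1.trans ?_
    have e : a + n * s - a = n * s := by ring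
    rw [e]
    have : β + 8 * n * β ≤ 9 * n * β := by nlinarith
    have hns : 0 ≤ n * s := by positivity
    exact mul_le_mul_of_nonneg_right this hns
  have h3 := osc_of_const hg (avg g a (a + s)) hlt h2
  have e : 2 * (9 * n * β) = 18 * n * β := by ring
  rwa [e] at h3

end Pool.Agent.H94.Div
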