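import Pool.Agent.H94.Div.InnerFn

open MeasureTheory Real Set
open scoped Interval Topology

namespace Pool.Agent.H94.Div

/-! ### Blaschke factors -/

/-- normalised Blaschke factor -/
noncomputable def bl (a z : ℂ) : ℂ := ((‖a‖ : ℂ) / a) * ((a - z) / (1 - (starRingEnd ℂ) a * z))

lemma bl_differentiableOn {a : ℂ} (ha : ‖a‖ < 1) :
    DifferentiableOn ℂ (bl a) (Metric.closedBall 0 1) := by
  unfold bl
  apply DifferentiableOn.const_mul
  apply DifferentiableOn.div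
  · fun_prop
  · fun_prop
  · intro z hz
    rw [mem_closedBall_zero_iff] at hz
    exact one_sub_conj_mul_ne ha hz

lemma bl_self (a : ℂ) : bl a a = 0 := by
  unfold bl
  rw [sub_self, zero_div, mul_zero]

lemma norm_bl {a : ℂ} (ha0 : a ≠ 0) (z : ℂ) :
    ‖bl a z‖ = ‖a - z‖ / ‖1 - (starRingEnd ℂ) a * z‖ := by
  unfold bl
  have : ‖a‖ ≠ 0 := norm_ne_zero_iff.2 ha0
  rw [norm_mul, norm_div, norm_div, Complex.norm_real, norm_norm, div_self this, one_mul]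

/-- the basic identity -/
lemma bl_identity (a z : ℂ) :
    ‖1 - (starRingEnd ℂ) a * z‖ ^ 2 - ‖a - z‖ ^ 2 = (1 - ‖a‖ ^ 2) * (1 - ‖z‖ ^ 2) := by
  rw [← Complex.normSq_eq_norm_sq, ← Complex.normSq_eq_norm_sq, ← Complex.normSq_eq_norm_sq,
    ← Complex.normSq_eq_norm_sq]
  simp only [Complex.normSq_apply, Complex.sub_re, Complex.sub_im, Complex.mul_re, Complex.mul_im,
    Complex.one_re, Complex.one_im, Complex.conj_re, Complex.conj_im]
  ring

lemma norm_bl_E {a : ℂ} (ha0 : a ≠ 0) (ha : ‖a‖ < 1) (x : ℝ) : ‖bl a (E x)‖ = 1 := by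
  rw [norm_bl ha0]
  have h1 := bl_identity a (E x)
  rw [norm_E] at h1
  have h2 : ‖1 - (starRingEnd ℂ) a * E x‖ ^ 2 = ‖a - E x‖ ^ 2 := by linarith
  have h3 : ‖1 - (starRingEnd ℂ) a * E x‖ = ‖a - E x‖ := by
    exact (sq_eq_sq₀ (norm_nonneg _) (norm_nonneg _)).1 h2
  rw [h3, div_self]
  rw [← h3]
  exact norm_ne_zero_iff.2 (one_sub_conj_mul_ne ha (norm_E x).le)

lemma norm_bl_sq {a z : ℂ} (ha0 : a ≠ 0) (ha : ‖a‖ < 1) (hz : ‖z‖ < 1) :
    1 - ‖bl a z‖ ^ 2 = (1 - ‖a‖ ^ 2) * (1 - ‖z‖ ^ 2) / ‖1 - (starRingEnd ℂ) a * z‖ ^ 2 := by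
  have h0 : ‖1 - (starRingEnd ℂ) a * z‖ ≠ 0 :=
    norm_ne_zero_iff.2 (one_sub_conj_mul_ne ha hz.le)
  rw [← bl_identity, norm_bl ha0, sub_div, div_self (pow_ne_zero 2 h0), div_pow]

lemma one_sub_conj_mul_ge {a z : ℂ} (ha : ‖a‖ < 1) (hz : ‖z‖ < 1) :
    1 - ‖a‖ ≤ ‖1 - (starRingEnd ℂ) a * z‖ ∧ 1 - ‖z‖ ≤ ‖1 - (starRingEnd ℂ) a * z‖ := by
  have h1 : 1 - ‖a‖ * ‖z‖ ≤ ‖1 - (starRingEnd ℂ) a * z‖ := by
    have := norm_sub_norm_le (1 : ℂ) ((starRingEnd ℂ) a * z)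
    rwa [norm_one, norm_mul, RCLike.norm_conj] at this
  constructor
  · refine le_trans ?_ h1
    nlinarith [norm_nonneg a]
  · refine le_trans ?_ h1
    nlinarith [norm_nonneg z]

/-- `1 - |b|²` is small if the two depths are very different -/
lemma one_sub_bl_sq_le {a z : ℂ} (ha0 : a ≠ 0) (ha : ‖a‖ < 1) (hz : ‖z‖ < 1) :
    1 - ‖bl a z‖ ^ 2 ≤ 4 * min ((1 - ‖z‖) / (1 - ‖a‖)) ((1 - ‖a‖) / (1 - ‖z‖)) := by
  rw [norm_bl_sq ha0 ha hz]
  obtain ⟨h1, h2⟩ := one_sub_conj_mul_ge ha hz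
  set D := ‖1 - (starRingEnd ℂ) a * z‖
  set y := 1 - ‖a‖ with hy
  set x := 1 - ‖z‖ with hx
  have hy0 : 0 < y := by linarith
  have hx0 : 0 < x := by linarith
  have h3 : 1 - ‖a‖ ^ 2 ≤ 2 * y := by nlinarith [norm_nonneg a]
  have h4 : 1 - ‖z‖ ^ 2 ≤ 2 * x := by nlinarith [norm_nonneg z]
  have h5 : 0 ≤ 1 - ‖z‖ ^ 2 := by nlinarith [norm_nonneg z]
  have h6 : (1 - ‖a‖ ^ 2) * (1 - ‖z‖ ^ 2) ≤ (2 * y) * (2 * x) := by gcongr
  have h7 : (1 - ‖a‖ ^ 2) * (1 - ‖z‖ ^ 2) / D ^ 2 ≤ (2 * y) * (2 * x) / D ^ 2 := by gcongr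
  refine h7.trans ?_
  rcases le_total x y with h8 | h8
  · have h9 : x / y ≤ y / x := by
      rw [div_le_div_iff₀ hy0 hx0]; nlinarith
    rw [min_eq_left h9]
    have h10 : y ^ 2 ≤ D ^ 2 := by gcongr
    calc 2 * y * (2 * x) / D ^ 2 ≤ 2 * y * (2 * x) / y ^ 2 := by gcongr
      _ = _ := by field_simp; ring
  · have h9 : y / x ≤ x / y := by
      rw [div_le_div_iff₀ hx0 hy0]; nlinarith
    rw [min_eq_right h9]
    have h10 : x ^ 2 ≤ D ^ 2 := by gcongr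
    calc 2 * y * (2 * x) / D ^ 2 ≤ 2 * y * (2 * x) / x ^ 2 := by gcongr
      _ = _ := by field_simp; ring

lemma one_sub_bl {a z : ℂ} (ha0 : a ≠ 0) (ha : ‖a‖ < 1) (hz : ‖z‖ ≤ 1) :
    ‖bl a z - 1‖ ≤ 2 * (1 - ‖a‖) / ‖1 - (starRingEnd ℂ) a * z‖ := by
  have h0 := one_sub_conj_mul_ne ha hz
  have hna : 0 < ‖a‖ := norm_pos_iff.2 ha0
  have hsq : (starRingEnd ℂ) a * a = (‖a‖ : ℂ) ^ 2 := by
    rw [mul_comm, Complex.mul_conj, Complex.normSq_eq_norm_sq]; push_cast; rfl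
  have h1 : bl a z - 1 = -((1 - (‖a‖ : ℂ)) * (a + ‖a‖ * z)) / (a * (1 - (starRingEnd ℂ) a * z)) := by
    unfold bl
    rw [div_mul_div_comm, div_sub_one (mul_ne_zero ha0 h0)]
    congr 1
    have : (‖a‖ : ℂ) * (a - z) - a * (1 - (starRingEnd ℂ) a * z) =
        (‖a‖ : ℂ) * (a - z) - a + ((starRingEnd ℂ) a * a) * z := by ring
    rw [this, hsq]
    ring
  rw [h1, norm_div, norm_neg, norm_mul, norm_mul]
  have h2 : ‖(1 - (‖a‖ : ℂ))‖ = 1 - ‖a‖ := by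
    have : (1 - (‖a‖ : ℂ)) = ((1 - ‖a‖ : ℝ) : ℂ) := by push_cast; ring
    rw [this, Complex.norm_real, Real.norm_of_nonneg (by linarith)]
  have h3 : ‖a + ‖a‖ * z‖ ≤ 2 * ‖a‖ := by
    refine (norm_add_le _ _).trans ?_
    rw [norm_mul, Complex.norm_real, norm_norm]
    nlinarith
  have h4 : 0 < ‖1 - (starRingEnd ℂ) a * z‖ := norm_pos_iff.2 h0
  rw [h2, div_le_div_iff₀ (by positivity) h4]
  have h5 : 0 ≤ 1 - ‖a‖ := by linarith
  calc (1 - ‖a‖) * ‖a + ‖a‖ * z‖ * ‖1 - (starRingEnd ℂ) a * z‖ ≤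
      (1 - ‖a‖) * (2 * ‖a‖) * ‖1 - (starRingEnd ℂ) a * z‖ := by gcongr
    _ = _ := by ring

/-! ### The lacunary sum -/

lemma lacunary_sum {y : ℕ → ℝ} (hy0 : ∀ n, 0 < y n) (hy : ∀ n, y (n + 1) ≤ y n / 2) {x : ℝ}
    (hx : 0 < x) (N : ℕ) :
    (x ≤ y N → ∑ i ∈ Finset.range (N + 1), min (x / y i) (y i / x) ≤ 2 * (x / y N)) ∧
    (y N ≤ x → ∑ i ∈ Finset.range (N + 1), min (x / y i) (y i / x) ≤ 4 - 2 * (y N / x)) := by
  induction N with
  | zero =>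
    rw [zero_add, Finset.sum_range_one]
    have h0 := hy0 0
    constructor
    · intro h
      have : 0 ≤ x / y 0 := by positivity
      linarith [min_le_left (x / y 0) (y 0 / x)]
    · intro h
      have : y 0 / x ≤ 1 := by rw [div_le_one hx]; exact h
      linarith [min_le_right (x / y 0) (y 0 / x)]
  | succ n ih =>
    rw [Finset.sum_range_succ]
    have h0 := hy0 n
    have h1 := hy0 (n + 1)
    have h2 := hy n
    constructor
    · intro h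
      have h3 := ih.1 (by linarith)
      have h4 : 2 * (x / y n) ≤ x / y (n + 1) := by
        rw [← mul_div_assoc, div_le_div_iff₀ h0 h1]
        nlinarith
      linarith [min_le_left (x / y (n + 1)) (y (n + 1) / x)]
    · intro h
      rcases le_total x (y n) with h5 | h5
      · have h3 := ih.1 h5
        have h4 := min_le_right (x / y (n + 1)) (y (n + 1) / x)
        have h6 : 2 * (x / y n) + 3 * (y (n + 1) / x) ≤ 4 := by
          have h7 : 2 * (x / y n) + 3 * (y (n + 1) / x) =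
              (2 * x ^ 2 + 3 * y (n + 1) * y n) / (x * y n) := by
            field_simp
          rw [h7, div_le_iff₀ (by positivity)]
          nlinarith [mul_nonneg (sub_nonneg.2 h) (sub_nonneg.2 h5),
            mul_nonneg (sub_nonneg.2 h) (sub_nonneg.2 h2), mul_pos h0 h1,
            mul_nonneg (sub_nonneg.2 h5) (sub_nonneg.2 h2), mul_pos hx h1, mul_pos hx h0]
        linarith
      · have h3 := ih.2 h5
        have h4 := min_le_right (x / y (n + 1)) (y (n + 1) / x)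
        have h6 : 3 * (y (n + 1) / x) ≤ 2 * (y n / x) := by
          rw [← mul_div_assoc, ← mul_div_assoc]
          exact div_le_div_of_nonneg_right (by linarith) hx.le
        linarith

lemma lacunary_sum' {y : ℕ → ℝ} (hy0 : ∀ n, 0 < y n) (hy : ∀ n, y (n + 1) ≤ y n / 2) {x : ℝ}
    (hx : 0 < x) (N : ℕ) :
    ∑ i ∈ Finset.range N, min (x / y i) (y i / x) ≤ 4 := by
  rcases Nat.eq_zero_or_pos N with h | h
  · subst h; simp
  · obtain ⟨n, rfl⟩ : ∃ n, N = n + 1 := ⟨N - 1, by omega⟩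
    obtain ⟨h1, h2⟩ := lacunary_sum hy0 hy hx n
    rcases le_total x (y n) with h3 | h3
    · refine (h1 h3).trans ?_
      have : x / y n ≤ 1 := by rw [div_le_one (hy0 n)]; exact h3
      linarith
    · refine (h2 h3).trans ?_
      have : 0 ≤ y n / x := by have := hy0 n; positivity
      linarith

end Pool.Agent.H94.Div
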