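import Pool.Agent.H94.Div.Nec1

open MeasureTheory Real Set Filter
open scoped Interval Topology

namespace Pool.Agent.H94.Div

lemma ae_E_ne_one : ∀ᵐ x : ℝ, E x ≠ 1 := by
  have hc : (Set.range (fun n : ℤ => (n : ℝ))).Countable := Set.countable_range _
  filter_upwards [hc.ae_notMem volume] with x hx h
  apply hx
  rw [E_eq, Complex.exp_eq_one_iff] at h
  obtain ⟨n, hn⟩ := h
  refine ⟨n, ?_⟩
  have h1 : ((2 * π * x : ℝ) : ℂ) = ((n : ℝ) * (2 * π) : ℝ) := by
    have h2 : ((2 * π * x : ℝ) : ℂ) * Complex.I = (((n : ℝ) * (2 * π) : ℝ) : ℂ) * Complex.I := by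
      rw [hn]; push_cast; ring
    exact mul_right_cancel₀ Complex.I_ne_zero h2
  have h3 : 2 * π * x = n * (2 * π) := by exact_mod_cast h1
  have hpi := Real.pi_pos
  simp only
  have : (2 * π) * ((n : ℝ) - x) = 0 := by linarith
  rcases mul_eq_zero.1 this with h4 | h4
  · linarith
  · linarith

/-- hypotheses on the zeros -/
structure Zeros (a : ℕ → ℂ) : Prop where
  ne : ∀ n, a n ≠ 0
  lt : ∀ n, ‖a n‖ < 1
  sum : Summable fun n => 1 - ‖a n‖
  lim : Tendsto a atTop (𝓝 1)

/-- partial products -/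
noncomputable def FB (a : ℕ → ℂ) (N : ℕ) (z : ℂ) : ℂ := ∏ i ∈ Finset.range N, bl (a i) z

variable {a : ℕ → ℂ}

lemma FB_differentiableOn (ha : Zeros a) (N : ℕ) :
    DifferentiableOn ℂ (FB a N) (Metric.closedBall 0 1) := by
  unfold FB
  apply DifferentiableOn.fun_finsetProd
  intro i _
  exact bl_differentiableOn (ha.lt i)

lemma norm_FB_E (ha : Zeros a) (N : ℕ) (x : ℝ) : ‖FB a N (E x)‖ = 1 := by
  unfold FB
  rw [norm_prod]
  apply Finset.prod_eq_one
  intro i _
  exact norm_bl_E (ha.ne i) (ha.lt i) x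

lemma continuous_FB_E (ha : Zeros a) (N : ℕ) : Continuous (fun x => FB a N (E x)) := by
  apply (FB_differentiableOn ha N).continuousOn.comp_continuous continuous_E
  intro x
  rw [mem_closedBall_zero_iff, norm_E]

lemma FB_poisson (ha : Zeros a) (N : ℕ) (n : ℕ) {z : ℂ} (hz : ‖z‖ < 1) :
    ∫ x in (0 : ℝ)..1, (P z x : ℂ) * (FB a N (E x) * E x ^ n) = FB a N z * z ^ n := by
  apply poisson_formula (H := fun z => FB a N z * z ^ n) _ hz
  apply DifferentiableOn.diffContOnCl
  rw [closure_ball (0 : ℂ) one_ne_zero]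
  exact (FB_differentiableOn ha N).mul (by fun_prop)

lemma FB_tendsto (ha : Zeros a) {x : ℝ} (hx : E x ≠ 1) :
    Tendsto (fun N => FB a N (E x)) atTop (𝓝 (∏' n, bl (a n) (E x))) := by
  have hd : 0 < ‖E x - 1‖ := norm_pos_iff.2 (sub_ne_zero.2 hx)
  have hs : Summable fun n => ‖bl (a n) (E x) - 1‖ := by
    have hev : ∀ᶠ n in atTop, ‖a n - 1‖ < ‖E x - 1‖ / 2 := by
      have := (tendsto_iff_norm_sub_tendsto_zero.1 ha.lim)
      exact (this.eventually_lt_const (by positivity))
    apply Summable.of_norm_bounded_eventually_nat (g := fun n => 4 / ‖E x - 1‖ * (1 - ‖a n‖))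
      (ha.sum.mul_left _)
    filter_upwards [hev] with n hn
    rw [norm_norm]
    have h1 := one_sub_bl (ha.ne n) (ha.lt n) (norm_E x).le
    refine h1.trans ?_
    rw [norm_one_sub_conj_mul_E]
    have h2 : ‖E x - 1‖ / 2 ≤ ‖E x - a n‖ := by
      have h3 : ‖E x - 1‖ ≤ ‖E x - a n‖ + ‖a n - 1‖ := norm_sub_le_norm_sub_add_norm_sub _ _ _
      linarith
    have h3 : 0 < ‖E x - 1‖ / 2 := by positivity
    have h4 : 0 ≤ 1 - ‖a n‖ := by linarith [ha.lt n]
    calc 2 * (1 - ‖a n‖) / ‖E x - a n‖ ≤ 2 * (1 - ‖a n‖) / (‖E x - 1‖ / 2) := by gcongr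
      _ = _ := by field_simp; ring
  have hm : Multipliable fun n => 1 + (bl (a n) (E x) - 1) := multipliable_one_add_of_summable hs
  have hm' : Multipliable fun n => bl (a n) (E x) := by
    convert hm using 2
    ring
  exact hm'.hasProd.tendsto_prod_nat

/-- the boundary function of the Blaschke product -/
noncomputable def TB (a : ℕ → ℂ) (ζ : Circle) : ℂ := ∏' n, bl (a n) (ζ : ℂ)

lemma TB_tendsto (ha : Zeros a) : ∀ᵐ x : ℝ, Tendsto (fun N => FB a N (E x)) atTop
    (𝓝 (TB a (pt x))) := by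
  filter_upwards [ae_E_ne_one] with x hx
  exact FB_tendsto ha hx

lemma norm_TB (ha : Zeros a) : ∀ᵐ x : ℝ, ‖TB a (pt x)‖ = 1 := by
  filter_upwards [TB_tendsto ha] with x hx
  have h1 := hx.norm
  simp only [norm_FB_E ha] at h1
  exact tendsto_nhds_unique h1 tendsto_const_nhds |>.symm ▸ rfl

lemma TB_aesm (ha : Zeros a) : AEStronglyMeasurable (fun x => TB a (pt x)) volume :=
  aestronglyMeasurable_of_tendsto_ae atTop
    (fun N => (continuous_FB_E ha N).aestronglyMeasurable) (TB_tendsto ha)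

lemma TB_InL1 (ha : Zeros a) : InL1 (TB a) := by
  unfold InL1
  rw [intervalIntegrable_iff]
  apply Measure.integrableOn_of_bounded (M := 1)
  · exact measure_Ioc_lt_top.ne
  · exact (TB_aesm ha)
  · refine ae_restrict_of_ae ?_
    filter_upwards [norm_TB ha] with x hx
    exact hx.le

/-- dominated convergence -/
lemma TB_limit (ha : Zeros a) {z : ℂ} (hz : ‖z‖ < 1) (n : ℕ) :
    Tendsto (fun N => FB a N z * z ^ n) atTop
      (𝓝 (∫ x in (0 : ℝ)..1, (P z x : ℂ) * (TB a (pt x) * E x ^ n))) := by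
  simp only [← FB_poisson ha _ n hz]
  apply intervalIntegral.tendsto_integral_filter_of_dominated_convergence (fun x => P z x)
  · refine Eventually.of_forall fun N => ?_
    apply Continuous.aestronglyMeasurable
    exact (Complex.continuous_ofReal.comp (continuous_P hz)).mul
      ((continuous_FB_E ha N).mul (continuous_E.pow n))
  · refine Eventually.of_forall fun N => Eventually.of_forall fun x _ => ?_
    rw [norm_mul, norm_mul, norm_pow, norm_E, norm_FB_E ha, one_pow, mul_one, mul_one,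
      Complex.norm_real, Real.norm_of_nonneg (P_nonneg hz x)]
  · exact (continuous_P hz).intervalIntegrable _ _
  · filter_upwards [TB_tendsto ha] with x hx _
    exact (hx.mul_const _).const_mul _

lemma TB_ext (ha : Zeros a) {z : ℂ} (hz : ‖z‖ < 1) :
    Tendsto (fun N => FB a N z) atTop (𝓝 (ext (fun x => TB a (pt x)) z)) := by
  have := TB_limit ha hz 0
  simp only [pow_zero, mul_one] at this
  exact this

lemma TB_inner (ha : Zeros a) : IsInner (TB a) := by
  refine ⟨⟨TB_InL1 ha, fun n hn => ?_⟩, norm_TB ha⟩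
  have h1 := TB_limit ha (z := 0) (by simp) n
  simp only [zero_pow hn.ne', mul_zero] at h1
  have h2 := tendsto_nhds_unique h1 tendsto_const_nhds
  have h3 : ∀ x, (P 0 x : ℂ) = 1 := by
    intro x
    unfold P
    simp
  simp only [h3, one_mul] at h2
  exact h2

lemma TB_zero (ha : Zeros a) (n : ℕ) : ext (fun x => TB a (pt x)) (a n) = 0 := by
  have h1 := TB_ext ha (ha.lt n)
  have h2 : Tendsto (fun N => FB a N (a n)) atTop (𝓝 0) := by
    apply tendsto_const_nhds.congr'
    filter_upwards [eventually_gt_atTop n] with N hN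
    unfold FB
    symm
    exact Finset.prod_eq_zero (Finset.mem_range.2 hN) (bl_self _)
  exact tendsto_nhds_unique h1 h2

/-- lower bound away from the zeros -/
lemma TB_lower (ha : Zeros a) (hl : ∀ n, 1 - ‖a (n + 1)‖ ≤ (1 - ‖a n‖) / 2) {z : ℂ}
    (hz : ‖z‖ < 1) (hρ : ∀ n, 1 / 4 ≤ ‖bl (a n) z‖) :
    Real.exp (-256) ≤ ‖ext (fun x => TB a (pt x)) z‖ ^ 2 := by
  have h1 := (TB_ext ha hz).norm.pow 2
  apply ge_of_tendsto' h1
  intro N
  unfold FB
  rw [norm_prod, ← Finset.prod_pow]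
  have h2 : ∀ n, Real.exp (-(16 * (1 - ‖bl (a n) z‖ ^ 2))) ≤ ‖bl (a n) z‖ ^ 2 := by
    intro n
    set X := ‖bl (a n) z‖ ^ 2 with hX
    have h3 : 1 / 16 ≤ X := by
      have : (1 / 4 : ℝ) ^ 2 ≤ ‖bl (a n) z‖ ^ 2 := by gcongr; exact hρ n
      rw [hX]; linarith
    have hX0 : 0 < X := by linarith
    have hX1 : X ≤ 1 := by
      have h4 := norm_bl_sq (ha.ne n) (ha.lt n) hz
      rw [← hX] at h4
      have h5 : 0 ≤ (1 - ‖a n‖ ^ 2) * (1 - ‖z‖ ^ 2) / ‖1 - (starRingEnd ℂ) (a n) * z‖ ^ 2 := by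
        apply div_nonneg _ (by positivity)
        apply mul_nonneg
        · nlinarith [ha.lt n, norm_nonneg (a n)]
        · nlinarith [norm_nonneg z]
      linarith
    rw [← Real.le_log_iff_exp_le hX0]
    have h4 := Real.one_sub_inv_le_log_of_pos hX0
    refine le_trans ?_ h4
    have h5 : X⁻¹ - 1 ≤ 16 * (1 - X) := by
      have : X⁻¹ - 1 = (1 - X) / X := by field_simp
      rw [this, div_le_iff₀ hX0]
      nlinarith
    linarith
  calc Real.exp (-256) ≤ ∏ i ∈ Finset.range N, Real.exp (-(16 * (1 - ‖bl (a i) z‖ ^ 2))) := by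
        rw [← Real.exp_sum, Real.exp_le_exp, Finset.sum_neg_distrib, ← Finset.mul_sum]
        have h3 : ∑ i ∈ Finset.range N, (1 - ‖bl (a i) z‖ ^ 2) ≤ 16 := by
          have h4 := lacunary_sum' (y := fun n => 1 - ‖a n‖) (fun n => by linarith [ha.lt n]) hl
            (x := 1 - ‖z‖) (by linarith) N
          calc ∑ i ∈ Finset.range N, (1 - ‖bl (a i) z‖ ^ 2) ≤
              ∑ i ∈ Finset.range N, 4 * min ((1 - ‖z‖) / (1 - ‖a i‖))
                ((1 - ‖a i‖) / (1 - ‖z‖)) :=
                Finset.sum_le_sum fun i _ => one_sub_bl_sq_le (ha.ne i) (ha.lt i) hz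
            _ = 4 * ∑ i ∈ Finset.range N, min ((1 - ‖z‖) / (1 - ‖a i‖))
                ((1 - ‖a i‖) / (1 - ‖z‖)) := by rw [Finset.mul_sum]
            _ ≤ 16 := by linarith
        linarith
    _ ≤ _ := by
        apply Finset.prod_le_prod
        · intro i _; positivity
        · intro i _; exact h2 i

end Pool.Agent.H94.Div
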