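import Pool.Agent.H94.Div.Suff5
import Pool.Agent.H94.Div.Defs

open MeasureTheory Real Set
open scoped Interval Topology

namespace Pool.Agent.H94.Div

/-- the modulus frozen beyond `1/2` -/
noncomputable def WW (ω : ℝ → ℝ) (h : ℝ) : ℝ := ω (min h (1 / 2))

variable {ω : ℝ → ℝ}

lemma min_mem {h : ℝ} (h0 : 0 < h) : min h (1 / 2) ∈ Ioo (0 : ℝ) 1 :=
  ⟨lt_min h0 (by norm_num), (min_le_right _ _).trans_lt (by norm_num)⟩

lemma WW_pos (hω : IsModulus ω) {h : ℝ} (h0 : 0 < h) : 0 < WW ω h :=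
  hω.2.2 _ (min_mem h0)

lemma WW_mono (hω : IsModulus ω) {s h : ℝ} (hs : 0 < s) (hsh : s ≤ h) : WW ω s ≤ WW ω h :=
  hω.2.1 (min_mem hs) (min_mem (hs.trans_le hsh)) (min_le_min_right _ hsh)

lemma WW_le (hω : IsModulus ω) {h : ℝ} (h0 : 0 < h) (h1 : h < 1) : WW ω h ≤ ω h :=
  hω.2.1 (min_mem h0) ⟨h0, h1⟩ (min_le_left _ _)

lemma WW_eq {h : ℝ} (h1 : h ≤ 1 / 2) : WW ω h = ω h := by
  unfold WW
  rw [min_eq_left h1]

lemma WW_eq' {h : ℝ} (h1 : 1 / 2 ≤ h) : WW ω h = ω (1 / 2) := by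
  unfold WW
  rw [min_eq_right h1]

lemma WData_of_AD (hω : IsModulus ω) (hAD : AlmostDecreasing ω) : ∃ C₀, WData (WW ω) C₀ := by
  obtain ⟨C, hC⟩ := hAD
  refine ⟨max C 1, ⟨fun h h0 _ => WW_pos hω h0, fun s h hs hsh _ => WW_mono hω hs hsh, ?_,
    le_max_right _ _⟩⟩
  intro s h hs hsh h1
  have hWs := WW_pos hω hs
  have hh : 0 < h := hs.trans_le hsh
  rcases le_or_gt s (1 / 2) with h2 | h2
  · -- `s ≤ 1/2`
    have key : ∀ t, s ≤ t → t ≤ 1 / 2 → ω t ≤ max C 1 * (t / s) * WW ω s := by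
      intro t hst ht
      have h3 := hC s t hs hst ht
      have ht0 : 0 < t := hs.trans_le hst
      rw [WW_eq h2] at hWs ⊢
      rw [div_le_iff₀ ht0] at h3
      calc ω t ≤ C * (ω s / s) * t := h3
        _ ≤ max C 1 * (ω s / s) * t := by gcongr; exact le_max_left _ _
        _ = _ := by ring
    rcases le_or_gt h (1 / 2) with h3 | h3
    · rw [WW_eq h3]
      exact key h hsh h3
    · rw [WW_eq' h3.le]
      refine (key (1 / 2) h2 le_rfl).trans ?_
      gcongr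
  · rw [WW_eq' h2.le, WW_eq' (h2.le.trans hsh)]
    have h3 : 0 < ω (1 / 2) := by rw [WW_eq' h2.le] at hWs; exact hWs
    have h4 : 1 ≤ h / s := by rw [le_div_iff₀ hs]; linarith
    have h5 : 1 ≤ max C 1 := le_max_right _ _
    nlinarith [mul_le_mul h5 h4 zero_le_one (by linarith)]

lemma arcMean_eq (f : Circle → ℂ) (a h : ℝ) :
    arcMean f a h = avg (fun x => f (pt x)) a (a + h) := by
  unfold arcMean avg
  congr 2
  ring

lemma pt_per (f : Circle → ℂ) : Function.Periodic (fun x => f (pt x)) 1 := by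
  intro x
  simp only [pt_add_one]

lemma InL1.li {f : Circle → ℂ} (h : InL1 f) : LI (fun x => f (pt x)) :=
  LI_of_periodic (pt_per f) h

lemma FData_of_InBMO (hω : IsModulus ω) {f : Circle → ℂ} (hf : InBMO ω f) :
    ∃ A, FData (fun x => f (pt x)) (WW ω) A := by
  obtain ⟨h1, C, hC⟩ := hf
  have hli := h1.li
  have hosc : ∀ a h, 0 < h → h < 1 → Osc (fun x => f (pt x)) a (a + h) (max C 0 * ω h) := by
    intro a h h0 h2
    have h3 := hC a h h0 h2
    have hωh := hω.2.2 h ⟨h0, h2⟩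
    rw [div_le_iff₀ (by positivity), arcMean_eq] at h3
    unfold Osc
    refine h3.trans ?_
    have e : a + h - a = h := by ring
    rw [e]
    calc C * (h * ω h) ≤ max C 0 * (h * ω h) := by gcongr; exact le_max_left _ _
      _ = _ := by ring
  refine ⟨36 * max C 0 + 1, ⟨pt_per f, hli, by positivity, ?_⟩⟩
  intro a h h0 h1'
  have hW0 := WW_pos hω h0
  rcases le_or_gt h (1 / 2) with h2 | h2
  · refine (hosc a h h0 (by linarith)).mono ?_ (by linarith)
    rw [← WW_eq (ω := ω) h2]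
    have : 0 ≤ max C 0 := le_max_right _ _
    nlinarith
  · have hs0 : 0 < h / 2 := by linarith
    have hs1 : h / 2 ≤ 1 / 2 := by linarith
    have hω2 := hω.2.2 (h / 2) ⟨hs0, by linarith⟩
    have h3 := chain_osc hli (s := h / 2) (β := max C 0 * ω (h / 2)) hs0 (by positivity)
      (fun a => hosc a (h / 2) hs0 (by linarith)) a (n := 2) (by norm_num)
    have e : a + ((2 : ℕ) : ℝ) * (h / 2) = a + h := by push_cast; ring
    rw [e] at h3
    refine h3.mono ?_ (by linarith)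
    have h4 : ω (h / 2) ≤ WW ω h := by
      rw [← WW_eq (ω := ω) hs1]
      exact WW_mono hω hs0 (by linarith)
    have h5 : 0 ≤ max C 0 := le_max_right _ _
    push_cast
    calc 18 * 2 * (max C 0 * ω (h / 2)) ≤ 18 * 2 * (max C 0 * WW ω h) := by gcongr
      _ ≤ _ := by nlinarith

lemma InBMO_of_osc (hω : IsModulus ω) {f : Circle → ℂ} (h1 : InL1 f) {D : ℝ} (hD : 0 ≤ D)
    (hosc : ∀ a h, 0 < h → h < 1 → Osc (fun x => f (pt x)) a (a + h) (D * WW ω h)) :
    InBMO ω f := by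
  refine ⟨h1, D, ?_⟩
  intro a h h0 h2
  have hωh := hω.2.2 h ⟨h0, h2⟩
  rw [div_le_iff₀ (by positivity), arcMean_eq]
  have h3 := hosc a h h0 h2
  unfold Osc at h3
  refine h3.trans ?_
  have e : a + h - a = h := by ring
  rw [e]
  have h4 := WW_le hω h0 h2
  calc D * WW ω h * h ≤ D * ω h * h := by gcongr
    _ = _ := by ring

lemma NoNeg_of_InH1 {f : Circle → ℂ} (hf : InH1 f) : NoNeg (fun x => f (pt x)) := hf.2

lemma Inner_of_IsInner {θ : Circle → ℂ} (hθ : IsInner θ) : Inner (fun x => θ (pt x)) :=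
  ⟨pt_per θ, hθ.1.1.li, hθ.1.2, hθ.2⟩

lemma iii_of_CondIII (hω : IsModulus ω) {f θ : Circle → ℂ} (hf : InL1 f) {ε : ℝ}
    (h : CondIII ω ε f θ) : ∃ K, 0 ≤ K ∧ ∀ z : ℂ, ‖z‖ < 1 → ‖ext (fun x => θ (pt x)) z‖ < ε →
      ‖ext (fun x => f (pt x)) z‖ ≤ K * WW ω (1 - ‖z‖) := by
  obtain ⟨C, hC⟩ := h
  set n1 : ℝ := ∫ x in (0 : ℝ)..1, ‖f (pt x)‖ with hn1
  have hn10 : 0 ≤ n1 := intervalIntegral.integral_nonneg zero_le_one fun _ _ => norm_nonneg _
  have hω2 := hω.2.2 (1 / 2) ⟨by norm_num, by norm_num⟩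
  refine ⟨max C 0 + 4 * n1 / ω (1 / 2), by positivity, fun z hz hΘ => ?_⟩
  have h0 : 0 < 1 - ‖z‖ := by linarith
  rcases lt_or_ge (1 - ‖z‖) (1 / 2) with h1 | h1
  · have hz0 : z ≠ 0 := by
      rintro rfl
      rw [norm_zero] at h1
      norm_num at h1
    have h2 := hC z hz0 hz hΘ
    have hω1 := hω.2.2 (1 - ‖z‖) ⟨h0, by linarith⟩
    rw [div_le_iff₀ hω1] at h2
    rw [WW_eq h1.le]
    refine h2.trans ?_
    gcongr
    have h3 : 0 ≤ 4 * n1 / ω (1 / 2) := by positivity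
    linarith [le_max_left C 0]
  · rw [WW_eq' h1]
    have h2 : ‖ext (fun x => f (pt x)) z‖ ≤ 4 * n1 := by
      unfold ext
      calc ‖∫ x in (0 : ℝ)..1, (P z x : ℂ) * f (pt x)‖ ≤
            ∫ x in (0 : ℝ)..1, ‖(P z x : ℂ) * f (pt x)‖ :=
            intervalIntegral.norm_integral_le_integral_norm zero_le_one
        _ ≤ ∫ x in (0 : ℝ)..1, 4 * ‖f (pt x)‖ := by
            apply intervalIntegral.integral_mono_on zero_le_one
              (integrable_P_mul hf.li hz 0 1).norm ((hf.li.norm 0 1).const_mul _)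
            intro x _
            rw [norm_mul, Complex.norm_real, Real.norm_of_nonneg (P_nonneg hz x)]
            have h3 := P_le hz x
            have h4 : 2 / (1 - ‖z‖) ≤ 4 := by
              rw [div_le_iff₀ h0]; linarith
            gcongr
            exact h3.trans h4
        _ = _ := by rw [intervalIntegral.integral_const_mul]
    refine h2.trans ?_
    have h3 : 4 * n1 = 4 * n1 / ω (1 / 2) * ω (1 / 2) := by field_simp
    calc 4 * n1 = 4 * n1 / ω (1 / 2) * ω (1 / 2) := h3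
      _ ≤ _ := by
        gcongr
        linarith [le_max_right C 0]

lemma CondIII_of_iii (hω : IsModulus ω) {f θ : Circle → ℂ} {ε K : ℝ} (hK : 0 ≤ K)
    (h : ∀ z : ℂ, ‖z‖ < 1 → ‖ext (fun x => θ (pt x)) z‖ < ε →
      ‖ext (fun x => f (pt x)) z‖ ≤ K * WW ω (1 - ‖z‖)) : CondIII ω ε f θ := by
  refine ⟨K, fun z hz0 hz hΘ => ?_⟩
  have hzpos : 0 < ‖z‖ := norm_pos_iff.2 hz0
  have h0 : 0 < 1 - ‖z‖ := by linarith
  have h1 := hω.2.2 (1 - ‖z‖) ⟨h0, by linarith⟩
  rw [div_le_iff₀ h1]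
  refine (h z hz hΘ).trans ?_
  have := WW_le hω h0 (by linarith)
  gcongr

lemma LI_conj {θ : ℝ → ℂ} (h : LI θ) : LI (fun x => (starRingEnd ℂ) (θ x)) := by
  intro a b
  have h1 := h a b
  rw [intervalIntegrable_iff] at h1 ⊢
  exact Integrable.mono (show Integrable θ (volume.restrict (Ι a b)) from h1)
    (Complex.continuous_conj.comp_aestronglyMeasurable h1.aestronglyMeasurable)
    (Filter.Eventually.of_forall fun x => by simp)

/-- all the implications, for `BMO_ω` -/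
theorem tfae_core (hω : IsModulus ω) (hAD : AlmostDecreasing ω) {f θ : Circle → ℂ}
    (hf : InBMO ω f) (hf1 : InH1 f) (hθ : IsInner θ) :
    ((∃ ε ∈ Ioo (0 : ℝ) 1, CondIII ω ε f θ) →
      InBMO ω (fun ζ => f ζ * (starRingEnd ℂ) (θ ζ)) ∧ InBMO ω (fun ζ => f ζ * θ ζ) ∧
        InH1 (fun ζ => f ζ * θ ζ)) ∧
    (InBMO ω (fun ζ => f ζ * (starRingEnd ℂ) (θ ζ)) → ∀ ε ∈ Ioo (0 : ℝ) 1, CondIII ω ε f θ) ∧
    (InBMO ω (fun ζ => f ζ * θ ζ) → ∀ ε ∈ Ioo (0 : ℝ) 1, CondIII ω ε f θ) := by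
  obtain ⟨C₀, hW⟩ := WData_of_AD hω hAD
  obtain ⟨A, hF⟩ := FData_of_InBMO hω hf
  have hn := NoNeg_of_InH1 hf1
  have hI := Inner_of_IsInner hθ
  have hA := hF.pos
  have hC := hW.one_le
  refine ⟨?_, ?_, ?_⟩
  · rintro ⟨ε, hε, hiii⟩
    obtain ⟨K, hK, hiii'⟩ := iii_of_CondIII hω hf1.1 hiii
    obtain ⟨D, hD, hcore⟩ := suff_core hW hF hn hI hε.1 hε.2 hK hiii'
    have hcore' : ∀ a h, 0 < h → h ≤ 1 → ∃ c : ℂ,
        ‖avg (fun x => f (pt x)) a (a + h)‖ * (∫ x in a..(a + h), ‖θ (pt x) - c‖) ≤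
          D * WW ω h * h := by
      intro a h h0 h1
      obtain ⟨c, -, hc⟩ := hcore (a + h / 2) h h0 h1
      have e1 : a + h / 2 - h / 2 = a := by ring
      have e2 : a + h / 2 + h / 2 = a + h := by ring
      rw [e1, e2] at hc
      exact ⟨c, hc⟩
    have hle : ∀ᵐ x : ℝ, ‖θ (pt x)‖ ≤ 1 := hI.ae_le
    refine ⟨?_, ?_, ?_, ?_⟩
    · apply InBMO_of_osc hω (D := 2 * (A + D)) _ (by positivity)
      · intro a h h0 h1
        obtain ⟨c, hc⟩ := hcore' a h h0 h1.le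
        have h2 := osc_mul_of_core (f := fun x => f (pt x))
          (θ := fun x => (starRingEnd ℂ) (θ (pt x))) hF (LI_conj hI.li) (by
            filter_upwards [hI.one] with x hx
            rw [RCLike.norm_conj]; exact hx) (c := (starRingEnd ℂ) c) (D := D) (a := a) h0 h1.le
          (by
            have e : ∀ x, ‖(starRingEnd ℂ) (θ (pt x)) - (starRingEnd ℂ) c‖ = ‖θ (pt x) - c‖ := by
              intro x
              rw [← map_sub, RCLike.norm_conj]
            simp only [e]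
            exact hc)
        have e : 2 * ((A + D) * WW ω h) = 2 * (A + D) * WW ω h := by ring
        rw [e] at h2
        exact h2
      · exact LI_mul hF.li (LI_conj hI.li) (by
          filter_upwards [hle] with x hx
          rw [RCLike.norm_conj]; exact hx) 0 1
    · apply InBMO_of_osc hω (D := 2 * (A + D)) _ (by positivity)
      · intro a h h0 h1
        obtain ⟨c, hc⟩ := hcore' a h h0 h1.le
        have h2 := osc_mul_of_core (f := fun x => f (pt x)) (θ := fun x => θ (pt x)) hF hI.li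
          hI.one (c := c) (D := D) (a := a) h0 h1.le hc
        have e : 2 * ((A + D) * WW ω h) = 2 * (A + D) * WW ω h := by ring
        rw [e] at h2
        exact h2
      · exact LI_mul hF.li hI.li hle 0 1
    · exact LI_mul hF.li hI.li hle 0 1
    · exact NoNeg_mul hF.per hF.li hn hI.per hI.li hI.nn hle
  · intro h ε hε
    obtain ⟨B, hG⟩ := FData_of_InBMO hω h
    have hB := hG.pos
    have h1ε : 0 < 1 - ε := by linarith [hε.2]
    exact CondIII_of_iii hω (K := (3600 * (A * C₀) + 3600 * (B * C₀) + (A + B)) / (1 - ε))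
      (by positivity)
      fun z hz hΘ => iii_of_i hW hF hn hI hG hε.1 hε.2 hz hΘ
  · intro h ε hε
    obtain ⟨B, hG⟩ := FData_of_InBMO hω h
    have hB := hG.pos
    have h1ε : 0 < 1 - ε := by linarith [hε.2]
    exact CondIII_of_iii hω (K := (3600 * (A * C₀) + 3600 * (B * C₀) + (A + B)) / (1 - ε))
      (by positivity)
      fun z hz hΘ => iii_of_ii hW hF hn hI hG hε.2 hz hΘ

theorem division_of_AD (hω : IsModulus ω) (hAD : AlmostDecreasing ω) :
    DivisionProperty ω (InBMO ω) := by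
  intro f θ hf hf1 hθ
  obtain ⟨h1, h2, h3⟩ := tfae_core hω hAD hf hf1 hθ
  tfae_have 3 → 1 := fun h => (h1 h).1
  tfae_have 3 → 2 := fun h => (h1 h).2
  tfae_have 1 → 4 := h2
  tfae_have 2 → 4 := fun h => h3 h.1
  tfae_have 4 → 3 := fun h => ⟨1 / 2, ⟨by norm_num, by norm_num⟩,
    h (1 / 2) ⟨by norm_num, by norm_num⟩⟩
  tfae_finish

theorem division_of_AD_inf (hω : IsModulus ω) (hAD : AlmostDecreasing ω) :
    DivisionProperty ω (InBMOLinf ω) := by
  intro f θ hf hf1 hθ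
  obtain ⟨h1, h2, h3⟩ := tfae_core hω hAD hf.1 hf1 hθ
  obtain ⟨M, hM⟩ := hf.2
  have b1 : ∃ M : ℝ, ∀ᵐ x : ℝ, ‖f (pt x) * (starRingEnd ℂ) (θ (pt x))‖ ≤ M := by
    refine ⟨M, ?_⟩
    filter_upwards [hM, hθ.2] with x hx hx2
    rw [norm_mul, RCLike.norm_conj, hx2, mul_one]
    exact hx
  have b2 : ∃ M : ℝ, ∀ᵐ x : ℝ, ‖f (pt x) * θ (pt x)‖ ≤ M := by
    refine ⟨M, ?_⟩
    filter_upwards [hM, hθ.2] with x hx hx2
    rw [norm_mul, hx2, mul_one]
    exact hx
  tfae_have 3 → 1 := fun h => ⟨(h1 h).1, b1⟩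
  tfae_have 3 → 2 := fun h => ⟨⟨(h1 h).2.1, b2⟩, (h1 h).2.2⟩
  tfae_have 1 → 4 := fun h => h2 h.1
  tfae_have 2 → 4 := fun h => h3 h.1.1
  tfae_have 4 → 3 := fun h => ⟨1 / 2, ⟨by norm_num, by norm_num⟩,
    h (1 / 2) ⟨by norm_num, by norm_num⟩⟩
  tfae_finish

end Pool.Agent.H94.Div
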