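import Pool.Agent.H94.Div.Nec2
import Pool.Agent.H94.Div.Suff6

open MeasureTheory Real Set Filter
open scoped Interval Topology

namespace Pool.Agent.H94.Div

variable {ω : ℝ → ℝ}

/-- transfer of an oscillation bound from scale `s` to scale `L` -/
lemma osc_step (hω : IsModulus ω) {g : ℝ → ℂ} (hg : LI g) {C : ℝ} (hC : 0 ≤ C)
    (hosc : ∀ a h, 0 < h → h < 1 → Osc g a (a + h) (C * ω h)) {s L : ℝ} (hs : 0 < s)
    (hs1 : s < 1) (hL : 0 < L) (a : ℝ) : Osc g a (a + L) (18 * (L / s + 1) * (C * ω s)) := by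
  set k : ℕ := ⌈L / s⌉₊ with hk
  have hLs : 0 < L / s := by positivity
  have hk0 : 0 < k := Nat.ceil_pos.2 hLs
  have hk0' : (0 : ℝ) < k := by exact_mod_cast hk0
  have hk1 : L / s ≤ k := Nat.le_ceil _
  have hk2 : (k : ℝ) < L / s + 1 := Nat.ceil_lt_add_one hLs.le
  have hσ0 : 0 < L / k := by positivity
  have hσs : L / k ≤ s := by
    rw [div_le_iff₀ hk0']
    rw [div_le_iff₀ hs] at hk1
    linarith
  have hωσ : ω (L / k) ≤ ω s := hω.2.1 ⟨hσ0, by linarith⟩ ⟨hs, hs1⟩ hσs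
  have hωs : 0 < ω s := hω.2.2 s ⟨hs, hs1⟩
  have h1 : ∀ a, Osc g a (a + L / k) (C * ω s) := fun a =>
    (hosc a (L / k) hσ0 (by linarith)).mono (by gcongr) (by linarith)
  have h2 := chain_osc hg hσ0 (β := C * ω s) (by positivity) h1 a hk0
  have e : a + k * (L / k) = a + L := by field_simp
  rw [e] at h2
  refine h2.mono ?_ (by linarith)
  gcongr

lemma hosc_of_InBMO (hω : IsModulus ω) {f : Circle → ℂ} (hf : InBMO ω f) :
    ∃ C, 0 ≤ C ∧ ∀ a h, 0 < h → h < 1 → Osc (fun x => f (pt x)) a (a + h) (C * ω h) := by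
  obtain ⟨h1, C, hC⟩ := hf
  refine ⟨max C 0, le_max_right _ _, ?_⟩
  intro a h h0 h2
  have h3 := hC a h h0 h2
  have hωh := hω.2.2 h ⟨h0, h2⟩
  rw [div_le_iff₀ (by positivity), arcMean_eq] at h3
  unfold Osc
  refine h3.trans ?_
  have e : a + h - a = h := by ring
  rw [e]
  calc C * (h * ω h) ≤ max C 0 * (h * ω h) := by gcongr; exact le_max_left _ _
    _ = _ := by ring

lemma LI_E : LI E := continuous_lintervalIntegrable continuous_E

/-- `ζ` has a definite oscillation over the arc `[0,1/4]` -/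
lemma E_osc_lower (c : ℂ) : 1 / 64 ≤ ∫ x in (0 : ℝ)..(1 / 4), ‖E x - c‖ := by
  have i1 : ∀ a b, IntervalIntegrable (fun x => ‖E x - c‖) volume a b := LI_E.norm_sub c
  have i2 : IntervalIntegrable (fun x => ‖E (x + 1 / 8) - c‖) volume 0 (1 / 8) := by
    apply Continuous.intervalIntegrable
    exact ((continuous_E.comp (continuous_id.add continuous_const)).sub continuous_const).norm
  have h1 : ∫ x in (0 : ℝ)..(1 / 4), ‖E x - c‖ =
      ∫ x in (0 : ℝ)..(1 / 8), (‖E x - c‖ + ‖E (x + 1 / 8) - c‖) := by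
    rw [intervalIntegral.integral_add (i1 _ _) i2,
      intervalIntegral.integral_comp_add_right (fun x => ‖E x - c‖) (1 / 8),
      ← intervalIntegral.integral_add_adjacent_intervals (i1 0 (1 / 8)) (i1 (1 / 8) (1 / 4))]
    norm_num
  rw [h1]
  calc (1 : ℝ) / 64 = ∫ _ in (0 : ℝ)..(1 / 8), (1 / 8 : ℝ) := by
        rw [intervalIntegral.integral_const, smul_eq_mul]; norm_num
    _ ≤ _ := by
        apply intervalIntegral.integral_mono_on (by norm_num) intervalIntegrable_const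
          ((i1 _ _).add i2)
        intro x _
        have h2 := norm_E_sub_ge_abs (r := 1) zero_le_one (x := x) (y := x + 1 / 8) (by
          have : x - (x + 1 / 8) = -(1 / 8) := by ring
          rw [this, abs_neg, abs_of_pos (by norm_num)]
          norm_num)
        have e : |x - (x + 1 / 8)| = 1 / 8 := by
          have : x - (x + 1 / 8) = -(1 / 8) := by ring
          rw [this, abs_neg, abs_of_pos (by norm_num)]
        rw [e] at h2
        simp only [Complex.ofReal_one, one_mul] at h2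
        refine h2.trans ?_
        calc ‖E x - E (x + 1 / 8)‖ ≤ ‖E x - c‖ + ‖c - E (x + 1 / 8)‖ :=
              norm_sub_le_norm_sub_add_norm_sub _ _ _
          _ = _ := by rw [norm_sub_rev c]

/-- Case 1: `ζ` does not belong to `BMO_ω` if `ω` is not bounded below by a linear function -/
lemma not_InBMO_id (hω : IsModulus ω) (h : ∀ c > 0, ∃ s, 0 < s ∧ s ≤ 1 / 2 ∧ ω s < c * s) :
    ¬ InBMO ω (fun ζ => (ζ : ℂ)) := by
  intro hb
  obtain ⟨C, hC, hosc⟩ := hosc_of_InBMO hω hb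
  obtain ⟨s, hs, hs2, hωs⟩ := h (1 / (64 * 14 * (C + 1))) (by positivity)
  have h1 := osc_step hω LI_E hC (fun a h h0 h1 => hosc a h h0 h1) hs (by linarith)
    (L := 1 / 4) (by norm_num) 0
  unfold Osc at h1
  rw [zero_add, sub_zero] at h1
  have h2 := (E_osc_lower (avg E 0 (1 / 4))).trans h1
  have hωpos : 0 < ω s := hω.2.2 s ⟨hs, by linarith⟩
  have h3 : (1 / 4) / s + 1 ≤ 3 / 4 / s := by
    rw [← sub_nonneg]
    have : 3 / 4 / s - (1 / 4 / s + 1) = (1 / 2 - s) / s := by field_simp; ring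
    rw [this]
    apply div_nonneg _ hs.le
    linarith
  have h4 : 18 * (1 / 4 / s + 1) * (C * ω s) * (1 / 4) ≤
      18 * (3 / 4 / s) * (C * ω s) * (1 / 4) := by gcongr
  have h5 : 18 * (3 / 4 / s) * (C * ω s) * (1 / 4) ≤ 14 * C * (ω s / s) := by
    have : 18 * (3 / 4 / s) * (C * ω s) * (1 / 4) = 27 / 8 * C * (ω s / s) := by ring
    rw [this]
    have : 0 ≤ C * (ω s / s) := by positivity
    nlinarith
  have h6 : ω s / s < 1 / (64 * 14 * (C + 1)) := by
    rw [div_lt_iff₀ hs]; exact hωs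
  have h7 : 14 * C * (ω s / s) ≤ 14 * C * (1 / (64 * 14 * (C + 1))) := by gcongr
  have h8 : 14 * C * (1 / (64 * 14 * (C + 1))) < 1 / 64 := by
    have : 14 * C * (1 / (64 * 14 * (C + 1))) = C / (C + 1) / 64 := by field_simp
    rw [this]
    have : C / (C + 1) < 1 := by rw [div_lt_one (by positivity)]; linarith
    linarith
  linarith

/-! ### basic functions -/

lemma InH1_const (c : ℂ) : InH1 (fun _ => c) := by
  refine ⟨intervalIntegrable_const, fun n hn => ?_⟩
  rw [intervalIntegral.integral_const_mul]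
  have := integral_E_pow hn
  unfold E at this
  rw [this, mul_zero]

lemma InH1_id : InH1 (fun ζ => (ζ : ℂ)) := by
  refine ⟨LI_E 0 1, fun n hn => ?_⟩
  have : ∀ x : ℝ, (pt x : ℂ) * (pt x : ℂ) ^ n = E x ^ (n + 1) := by
    intro x; unfold E; ring
  simp only [this]
  exact integral_E_pow (by omega)

lemma IsInner_id : IsInner (fun ζ => (ζ : ℂ)) :=
  ⟨InH1_id, .of_forall fun x => norm_E x⟩

lemma ext_E {z : ℂ} (hz : ‖z‖ < 1) : ext E z = z := by
  have := poisson_formula (H := fun z => z) (z := z) (by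
    apply Differentiable.diffContOnCl; fun_prop) hz
  exact this

lemma InBMO_const (hω : IsModulus ω) (c : ℂ) : InBMO ω (fun _ => c) := by
  refine ⟨intervalIntegrable_const, 0, fun a h h0 h1 => ?_⟩
  have h2 : arcMean (fun _ => c) a h = c := by
    unfold arcMean
    rw [intervalIntegral.integral_const]
    have : (h : ℂ) ≠ 0 := by exact_mod_cast h0.ne'
    have e : a + h - a = h := by ring
    rw [e, Complex.real_smul]
    field_simp
  have hωh := hω.2.2 h ⟨h0, h1⟩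
  simp only [h2, sub_self, norm_zero, intervalIntegral.integral_zero, zero_div, le_refl]

lemma counter1 (hω : IsModulus ω) (h : ∀ c > 0, ∃ s, 0 < s ∧ s ≤ 1 / 2 ∧ ω s < c * s) :
    ∃ f θ : Circle → ℂ, InBMOLinf ω f ∧ InH1 f ∧ IsInner θ ∧
      (∃ ε ∈ Ioo (0 : ℝ) 1, CondIII ω ε f θ) ∧ ¬ InBMO ω (fun ζ => f ζ * θ ζ) := by
  refine ⟨fun _ => 1, fun ζ => (ζ : ℂ), ⟨InBMO_const hω 1, 1, .of_forall fun x => by simp⟩,
    InH1_const 1, IsInner_id, ⟨1 / 2, ⟨by norm_num, by norm_num⟩, 1 / ω (1 / 2), ?_⟩, ?_⟩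
  · intro z hz0 hz hΘ
    have h1 : poissonExt (fun ζ => (ζ : ℂ)) z = z := ext_E hz
    have h2 : poissonExt (fun _ => (1 : ℂ)) z = 1 := ext_const 1 hz
    rw [h1] at hΘ
    rw [h2, norm_one]
    have hω2 := hω.2.2 (1 / 2) ⟨by norm_num, by norm_num⟩
    have hzpos : 0 < ‖z‖ := norm_pos_iff.2 hz0
    have h3 : ω (1 / 2) ≤ ω (1 - ‖z‖) := hω.2.1 ⟨by norm_num, by norm_num⟩
      ⟨by linarith, by linarith⟩ (by linarith)
    gcongr
  · simp only [one_mul]
    exact not_InBMO_id hω h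

/-! ### Case 2 -/

/-- scales at which the almost decreasing condition fails badly -/
structure Scales (ω : ℝ → ℝ) (s t : ℕ → ℝ) : Prop where
  spos : ∀ n, 0 < s n
  st : ∀ n, s n ≤ t n
  half : ∀ n, t (n + 1) ≤ t n / 2
  small : ∀ n, t n ≤ 1 / 16
  osmall : ∀ n, ω (t n) ≤ 1 / (16 * (n + 1))
  bad : ∀ n : ℕ, (n + 1) * (ω (s n) / s n) < ω (t n) / t n

lemma bad_pair (hω : IsModulus ω) (hAD : ¬ AlmostDecreasing ω) {c₀ : ℝ} (hc₀ : 0 < c₀)
    (hlin : ∀ s, 0 < s → s ≤ 1 / 2 → c₀ * s ≤ ω s) (C : ℝ) {δ : ℝ} (hδ : 0 < δ) :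
    ∃ s t, 0 < s ∧ s ≤ t ∧ t < δ ∧ ω t < δ ∧ C * (ω s / s) < ω t / t := by
  unfold AlmostDecreasing at hAD
  push Not at hAD
  have hω2 := hω.2.2 (1 / 2) ⟨by norm_num, by norm_num⟩
  -- `ω` tends to zero
  obtain ⟨u, hu0, hu2, hωu⟩ : ∃ u, 0 < u ∧ u ≤ 1 / 2 ∧ ω u < δ := by
    by_contra hcon
    push Not at hcon
    obtain ⟨s, t, hs, hst, ht, hbad⟩ := hAD (ω (1 / 2) / δ)
    have ht0 : 0 < t := hs.trans_le hst
    have h1 : δ ≤ ω s := hcon s hs (hst.trans ht)
    have h2 : ω t ≤ ω (1 / 2) := hω.2.1 ⟨ht0, by linarith⟩ ⟨by norm_num, by norm_num⟩ ht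
    have h3 : ω t / t ≤ ω (1 / 2) / δ * (ω s / s) := by
      have h4 : 1 ≤ ω s / δ := by rw [le_div_iff₀ hδ]; linarith
      calc ω t / t ≤ ω (1 / 2) / s := by gcongr
        _ = ω (1 / 2) * 1 / s := by ring
        _ ≤ ω (1 / 2) * (ω s / δ) / s := by gcongr
        _ = _ := by field_simp
    linarith
  set δ' := min δ u with hδ'
  have hδ'0 : 0 < δ' := lt_min hδ hu0
  obtain ⟨s, t, hs, hst, ht, hbad⟩ := hAD (max C (ω (1 / 2) / (δ' * c₀)))
  have ht0 : 0 < t := hs.trans_le hst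
  have hωs : 0 < ω s := hω.2.2 s ⟨hs, by linarith⟩
  have hls := hlin s hs (by linarith)
  have hc : c₀ ≤ ω s / s := by rw [le_div_iff₀ hs]; exact hls
  have htδ : t < δ' := by
    by_contra hcon
    push Not at hcon
    have h2 : ω t ≤ ω (1 / 2) := hω.2.1 ⟨ht0, by linarith⟩ ⟨by norm_num, by norm_num⟩ ht
    have h3 : ω t / t ≤ ω (1 / 2) / δ' := by gcongr
    have h4 : ω (1 / 2) / δ' ≤ max C (ω (1 / 2) / (δ' * c₀)) * (ω s / s) := by
      calc ω (1 / 2) / δ' = ω (1 / 2) / (δ' * c₀) * c₀ := by field_simp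
        _ ≤ max C (ω (1 / 2) / (δ' * c₀)) * (ω s / s) := by
          gcongr
          exact le_max_right _ _
    linarith
  refine ⟨s, t, hs, hst, htδ.trans_le (min_le_left _ _), ?_, ?_⟩
  · have : t ≤ u := htδ.le.trans (min_le_right _ _)
    exact (hω.2.1 ⟨ht0, by linarith⟩ ⟨hu0, by linarith⟩ this).trans_lt hωu
  · refine lt_of_le_of_lt ?_ hbad
    have : 0 ≤ ω s / s := by positivity
    gcongr
    exact le_max_left _ _

lemma exists_scales (hω : IsModulus ω) (hAD : ¬ AlmostDecreasing ω) {c₀ : ℝ} (hc₀ : 0 < c₀)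
    (hlin : ∀ s, 0 < s → s ≤ 1 / 2 → c₀ * s ≤ ω s) : ∃ s t, Scales ω s t := by
  have key : ∀ (n : ℕ) (δ : ℝ), ∃ p : ℝ × ℝ, 0 < δ → (0 < p.1 ∧ p.1 ≤ p.2 ∧ p.2 < δ ∧ ω p.2 < δ ∧
      (n + 1) * (ω p.1 / p.1) < ω p.2 / p.2) := by
    intro n δ
    rcases le_or_gt δ 0 with h | h
    · exact ⟨(0, 0), fun h' => absurd h' (not_lt.2 h)⟩
    · obtain ⟨s, t, h1⟩ := bad_pair hω hAD hc₀ hlin (n + 1) h
      exact ⟨(s, t), fun _ => h1⟩
  choose F hF using key
  let q : ℕ → ℝ × ℝ := fun n => Nat.rec (F 0 (1 / 16))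
    (fun n p => F (n + 1) (min (p.2 / 2) (1 / (16 * (n + 2))))) n
  have q0 : q 0 = F 0 (1 / 16) := rfl
  have qs : ∀ n, q (n + 1) = F (n + 1) (min ((q n).2 / 2) (1 / (16 * (n + 2)))) := fun n => rfl
  have hpos : ∀ n, 0 < (q n).1 ∧ (q n).1 ≤ (q n).2 := by
    intro n
    induction n with
    | zero =>
      rw [q0]
      have := hF 0 (1 / 16) (by norm_num)
      exact ⟨this.1, this.2.1⟩
    | succ n ih =>
      rw [qs]
      have h1 : 0 < min ((q n).2 / 2) (1 / (16 * ((n : ℝ) + 2))) :=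
        lt_min (by linarith [ih.1, ih.2]) (by positivity)
      have := hF (n + 1) _ h1
      exact ⟨this.1, this.2.1⟩
  have hδpos : ∀ n : ℕ, 0 < min ((q n).2 / 2) (1 / (16 * ((n : ℝ) + 2))) := fun n =>
    lt_min (by linarith [(hpos n).1, (hpos n).2]) (by positivity)
  have hhalf : ∀ n, (q (n + 1)).2 ≤ (q n).2 / 2 := by
    intro n
    rw [qs]
    exact ((hF (n + 1) _ (hδpos n)).2.2.1.le).trans (min_le_left _ _)
  refine ⟨fun n => (q n).1, fun n => (q n).2, ⟨fun n => (hpos n).1, fun n => (hpos n).2, hhalf,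
    ?_, ?_, ?_⟩⟩
  · intro n
    induction n with
    | zero =>
      rw [q0]
      exact (hF 0 (1 / 16) (by norm_num)).2.2.1.le
    | succ n ih =>
      have := hhalf n
      linarith [(hpos n).1, (hpos n).2]
  · intro n
    cases n with
    | zero =>
      simp only [q0]
      have := (hF 0 (1 / 16) (by norm_num)).2.2.2.1.le
      norm_num at this ⊢
      exact this
    | succ n =>
      simp only [qs]
      refine ((hF (n + 1) _ (hδpos n)).2.2.2.1.le).trans ((min_le_right _ _).trans (le_of_eq ?_))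
      push_cast
      ring
  · intro n
    cases n with
    | zero =>
      simp only [q0]
      have := (hF 0 (1 / 16) (by norm_num)).2.2.2.2
      exact this
    | succ n =>
      simp only [qs]
      exact (hF (n + 1) _ (hδpos n)).2.2.2.2

/-- the zeros -/
noncomputable def zz (ω : ℝ → ℝ) (t : ℕ → ℝ) (n : ℕ) : ℂ := ((1 - 4 * t n : ℝ) : ℂ) * E (ω (t n))

variable {s t : ℕ → ℝ}

lemma Scales.tpos (h : Scales ω s t) (n : ℕ) : 0 < t n := (h.spos n).trans_le (h.st n)

lemma Scales.norm_zz (h : Scales ω s t) (n : ℕ) : ‖zz ω t n‖ = 1 - 4 * t n := by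
  unfold zz
  rw [norm_mul_E]
  linarith [h.small n]

lemma Scales.t_le (h : Scales ω s t) (n : ℕ) : t n ≤ t 0 * (1 / 2) ^ n := by
  induction n with
  | zero => simp
  | succ n ih =>
    have := h.half n
    rw [pow_succ]
    linarith

lemma Scales.t_summable (h : Scales ω s t) : Summable t := by
  apply Summable.of_nonneg_of_le (fun n => (h.tpos n).le) h.t_le
  exact (summable_geometric_of_lt_one (by norm_num) (by norm_num)).mul_left _

lemma Scales.ωlim (hω : IsModulus ω) (h : Scales ω s t) :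
    Tendsto (fun n => ω (t n)) atTop (𝓝 0) := by
  have h1 : Tendsto (fun n : ℕ => 1 / 16 * (1 / ((n : ℝ) + 1))) atTop (𝓝 (1 / 16 * 0)) :=
    tendsto_one_div_add_atTop_nhds_zero_nat.const_mul _
  rw [mul_zero] at h1
  apply squeeze_zero _ _ h1
  · intro n
    exact (hω.2.2 _ ⟨h.tpos n, by linarith [h.small n]⟩).le
  · intro n
    refine (h.osmall n).trans (le_of_eq ?_)
    field_simp

lemma Scales.zeros (hω : IsModulus ω) (h : Scales ω s t) : Zeros (zz ω t) := by
  refine ⟨fun n hn => ?_, fun n => ?_, ?_, ?_⟩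
  · have := h.norm_zz n
    rw [hn, norm_zero] at this
    linarith [h.small n]
  · rw [h.norm_zz n]
    linarith [h.tpos n]
  · have : (fun n => 1 - ‖zz ω t n‖) = fun n => 4 * t n := by
      funext n
      rw [h.norm_zz n]; ring
    rw [this]
    exact h.t_summable.mul_left 4
  · have h1 : Tendsto t atTop (𝓝 0) := h.t_summable.tendsto_atTop_zero
    have h2 : Tendsto (fun n => ((1 - 4 * t n : ℝ) : ℂ)) atTop (𝓝 ((1 - 4 * 0 : ℝ) : ℂ)) :=
      (Complex.continuous_ofReal.tendsto _).comp ((h1.const_mul 4).const_sub 1)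
    have h3 : Tendsto (fun n => E (ω (t n))) atTop (𝓝 (E 0)) :=
      (continuous_E.tendsto 0).comp (h.ωlim hω)
    have h4 := h2.mul h3
    rw [E_zero] at h4
    norm_num at h4
    unfold zz
    convert h4 using 2
    push_cast
    ring

/-- the function `1 - ζ` -/
noncomputable def f1 (ζ : Circle) : ℂ := 1 - (ζ : ℂ)

lemma f1_pt (x : ℝ) : f1 (pt x) = 1 - E x := rfl

lemma LI_f1 : LI (fun x => f1 (pt x)) :=
  continuous_lintervalIntegrable (continuous_const.sub continuous_E)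

lemma InH1_f1 : InH1 f1 := by
  refine ⟨LI_f1 0 1, fun n hn => ?_⟩
  have e : ∀ x : ℝ, f1 (pt x) * (pt x : ℂ) ^ n = E x ^ n - E x ^ (n + 1) := by
    intro x
    rw [f1_pt]
    show (1 - E x) * E x ^ n = _
    ring
  simp only [e]
  have e2 := intervalIntegral.integral_sub (μ := volume) (a := (0 : ℝ)) (b := 1)
    (f := fun x => E x ^ n) (g := fun x => E x ^ (n + 1))
    ((continuous_E.pow n).intervalIntegrable _ _)
    ((continuous_E.pow (n + 1)).intervalIntegrable _ _)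
  rw [e2, integral_E_pow hn, integral_E_pow (by omega), sub_zero]

lemma ext_f1 {z : ℂ} (hz : ‖z‖ < 1) : ext (fun x => f1 (pt x)) z = 1 - z := by
  have := poisson_formula (H := fun z => 1 - z) (z := z) (by
    apply Differentiable.diffContOnCl; fun_prop) hz
  exact this

lemma InBMOLinf_f1 (hω : IsModulus ω) {c₀ : ℝ} (hc₀ : 0 < c₀)
    (hlin : ∀ s, 0 < s → s ≤ 1 / 2 → c₀ * s ≤ ω s) : InBMOLinf ω f1 := by
  refine ⟨?_, 2, .of_forall fun x => ?_⟩
  · apply InBMO_of_osc hω (LI_f1 0 1) (D := 2 * (8 * (2 / c₀))) (by positivity)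
    intro a h h0 h1
    have hW : h ≤ 2 / c₀ * WW ω h := by
      have h2 := hlin (min h (1 / 2)) (min_mem h0).1 (min_le_right _ _)
      have h3 : h / 2 ≤ min h (1 / 2) := le_min (by linarith) (by linarith)
      have h4 : c₀ * (h / 2) ≤ WW ω h := by
        unfold WW
        refine le_trans ?_ h2
        gcongr
      calc h = 2 / c₀ * (c₀ * (h / 2)) := by field_simp
        _ ≤ _ := by gcongr
    have h5 := osc_of_const LI_f1 (f1 (pt a)) (a := a) (b := a + h) (β := 8 * (2 / c₀) * WW ω h)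
      (by linarith) ?_
    · convert h5 using 1
      ring
    · have e : a + h - a = h := by ring
      rw [e]
      calc ∫ x in a..(a + h), ‖f1 (pt x) - f1 (pt a)‖ ≤ ∫ _ in a..(a + h), 8 * h := by
            apply intervalIntegral.integral_mono_on (by linarith) (LI_f1.norm_sub _ _ _)
              intervalIntegrable_const
            intro x hx
            have h6 : f1 (pt x) - f1 (pt a) = -(E x - ((1 : ℝ) : ℂ) * E a) := by
              rw [f1_pt, f1_pt]; push_cast; ring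
            rw [h6, norm_neg]
            refine (norm_E_sub_le zero_le_one le_rfl x a).trans ?_
            have h7 : |x - a| ≤ h := by
              rw [abs_le]; exact ⟨by linarith [hx.1], by linarith [hx.2]⟩
            have h8 : 2 * π * |x - a| ≤ 2 * 4 * h := by
              gcongr
              exact Real.pi_le_four
            linarith
        _ = 8 * h * h := by
            rw [intervalIntegral.integral_const, smul_eq_mul]; ring
        _ ≤ 8 * (2 / c₀ * WW ω h) * h := by gcongr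
        _ = _ := by ring
  · rw [f1_pt]
    refine (norm_sub_le _ _).trans ?_
    rw [norm_one, norm_E]
    norm_num

/-- condition (iii) holds for `1 - ζ` and the Blaschke product -/
lemma Scales.condIII (hω : IsModulus ω) (h : Scales ω s t) {c₀ : ℝ} (hc₀ : 0 < c₀)
    (hlin : ∀ s, 0 < s → s ≤ 1 / 2 → c₀ * s ≤ ω s) :
    CondIII ω (Real.exp (-128)) f1 (TB (zz ω t)) := by
  refine ⟨7 / c₀ + 8, fun z hz0 hz hΘ => ?_⟩
  have hzpos : 0 < ‖z‖ := norm_pos_iff.2 hz0
  have hZ := h.zeros hω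
  have hl : ∀ n, 1 - ‖zz ω t (n + 1)‖ ≤ (1 - ‖zz ω t n‖) / 2 := by
    intro n
    rw [h.norm_zz, h.norm_zz]
    linarith [h.half n]
  obtain ⟨n, hn⟩ : ∃ n, ‖bl (zz ω t n) z‖ < 1 / 4 := by
    by_contra hcon
    push Not at hcon
    have h1 := TB_lower hZ hl hz hcon
    have h2 : ‖ext (fun x => TB (zz ω t) (pt x)) z‖ < Real.exp (-128) := hΘ
    have h3 : ‖ext (fun x => TB (zz ω t) (pt x)) z‖ ^ 2 < Real.exp (-128) ^ 2 := by gcongr
    rw [← Real.exp_nat_mul] at h3
    norm_num at h3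
    linarith
  set a := zz ω t n with ha
  have hna : ‖a‖ = 1 - 4 * t n := h.norm_zz n
  have ht := h.tpos n
  have hts := h.small n
  have ha0 : a ≠ 0 := hZ.ne n
  have ha1 : ‖a‖ < 1 := hZ.lt n
  set φ := ω (t n) with hφ
  have hφ0 : 0 < φ := hω.2.2 _ ⟨ht, by linarith⟩
  have htφ : c₀ * t n ≤ φ := hlin (t n) ht (by linarith)
  -- distance estimates
  rw [norm_bl ha0] at hn
  have hD0 : 0 < ‖1 - (starRingEnd ℂ) a * z‖ :=
    norm_pos_iff.2 (one_sub_conj_mul_ne ha1 hz.le)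
  rw [div_lt_iff₀ hD0] at hn
  have hD : ‖1 - (starRingEnd ℂ) a * z‖ ≤ 8 * t n + ‖a - z‖ := by
    have e : 1 - (starRingEnd ℂ) a * z = ((1 - ‖a‖ ^ 2 : ℝ) : ℂ) + (starRingEnd ℂ) a * (a - z) := by
      have hsq : (starRingEnd ℂ) a * a = (‖a‖ : ℂ) ^ 2 := by
        rw [mul_comm, Complex.mul_conj, Complex.normSq_eq_norm_sq]; push_cast; rfl
      rw [mul_sub, hsq]; push_cast; ring
    rw [e]
    refine (norm_add_le _ _).trans ?_
    rw [Complex.norm_real, norm_mul, RCLike.norm_conj, Real.norm_of_nonneg (by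
      nlinarith [norm_nonneg a])]
    have h1 : 1 - ‖a‖ ^ 2 ≤ 8 * t n := by rw [hna]; nlinarith
    have h2 : ‖a‖ * ‖a - z‖ ≤ ‖a - z‖ := by nlinarith [norm_nonneg (a - z)]
    linarith
  have haz : ‖a - z‖ ≤ 8 / 3 * t n := by linarith
  have hzt : t n ≤ 1 - ‖z‖ := by
    have h1 : ‖z‖ ≤ ‖a‖ + ‖a - z‖ := by
      calc ‖z‖ = ‖a - (a - z)‖ := by ring_nf
        _ ≤ _ := norm_sub_le _ _
    rw [hna] at h1
    linarith
  have hωz : φ ≤ ω (1 - ‖z‖) := hω.2.1 ⟨ht, by linarith⟩ ⟨by linarith, by linarith⟩ hzt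
  have hωz0 : 0 < ω (1 - ‖z‖) := by linarith
  have hf : ‖poissonExt f1 z‖ ≤ (7 / c₀ + 8) * φ := by
    have h1 : poissonExt f1 z = 1 - z := ext_f1 hz
    rw [h1]
    have h2 : ‖1 - a‖ ≤ 4 * t n + 8 * φ := by
      have h3 := norm_E_sub_le (r := 1 - 4 * t n) (by linarith) (by linarith) 0 φ
      rw [E_zero] at h3
      have h4 : 2 * π * |0 - φ| ≤ 2 * 4 * φ := by
        rw [zero_sub, abs_neg, abs_of_pos hφ0]
        gcongr
        exact Real.pi_le_four
      calc ‖1 - a‖ ≤ 1 - (1 - 4 * t n) + 2 * π * |0 - φ| := h3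
        _ ≤ _ := by linarith
    have h5 : ‖1 - z‖ ≤ ‖1 - a‖ + ‖a - z‖ := norm_sub_le_norm_sub_add_norm_sub _ _ _
    have h6 : 7 * t n ≤ 7 / c₀ * φ := by
      calc 7 * t n = 7 / c₀ * (c₀ * t n) := by field_simp
        _ ≤ _ := by gcongr
    linarith
  rw [div_le_iff₀ hωz0]
  refine hf.trans ?_
  gcongr

/-- the product `(1-ζ)·θ` is not in `BMO_ω` -/
lemma Scales.not_InBMO (hω : IsModulus ω) (h : Scales ω s t) {c₀ : ℝ} (hc₀ : 0 < c₀)
    (hlin : ∀ s, 0 < s → s ≤ 1 / 2 → c₀ * s ≤ ω s) :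
    ¬ InBMO ω (fun ζ => f1 ζ * TB (zz ω t) ζ) := by
  intro hb
  obtain ⟨C, hC, hosc⟩ := hosc_of_InBMO hω hb
  have hZ := h.zeros hω
  have hθ := Inner_of_IsInner (TB_inner hZ)
  have hf1n : NoNeg (fun x => f1 (pt x)) := NoNeg_of_InH1 InH1_f1
  have hf1p : Function.Periodic (fun x => f1 (pt x)) 1 := pt_per f1
  set g : ℝ → ℂ := fun x => f1 (pt x) * TB (zz ω t) (pt x) with hg
  have hgp : Function.Periodic g 1 := by
    intro x
    simp only [hg, pt_add_one]
  have hgli : LI g := LI_mul LI_f1 hθ.li hθ.ae_le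
  have hgn : NoNeg g := NoNeg_mul hf1p LI_f1 hf1n hθ.per hθ.li hθ.nn hθ.ae_le
  -- choose n large
  obtain ⟨n, hn⟩ := exists_nat_gt (4 / c₀ + 1100000 * C)
  have hn1 : 4 / c₀ ≤ (n : ℝ) + 1 := by
    have : 0 ≤ 1100000 * C := by positivity
    linarith
  have hn2 : 1100000 * C < (n : ℝ) + 1 := by
    have : 0 < 4 / c₀ := by positivity
    linarith
  have ht := h.tpos n
  have hts := h.small n
  have hs := h.spos n
  have hst := h.st n
  set φ := ω (t n) with hφ
  have hφ0 : 0 < φ := hω.2.2 _ ⟨ht, by linarith⟩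
  have hωs0 : 0 < ω (s n) := hω.2.2 _ ⟨hs, by linarith⟩
  have hbad := h.bad n
  have hn0 : (0 : ℝ) < n + 1 := by positivity
  have hφs : φ ≤ 1 / 16 := by
    refine (h.osmall n).trans ?_
    rw [div_le_div_iff₀ (by positivity) (by norm_num)]
    have : (0 : ℝ) ≤ n := by positivity
    linarith
  -- `4 t ≤ φ`
  have h4t : 4 * t n ≤ φ := by
    have h1 : c₀ ≤ ω (s n) / s n := by
      rw [le_div_iff₀ hs]
      exact hlin _ hs (by linarith)
    have h2 : 4 ≤ (n + 1) * (ω (s n) / s n) := by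
      calc (4 : ℝ) = 4 / c₀ * c₀ := by field_simp
        _ ≤ (n + 1) * (ω (s n) / s n) := by gcongr
    have h3 : 4 < φ / t n := lt_of_le_of_lt h2 hbad
    rw [lt_div_iff₀ ht] at h3
    exact h3.le
  set τ := 4 * t n with hτ
  have hτ0 : 0 < τ := by positivity
  have hτ1 : τ ≤ 1 := by linarith
  set β := 144 * C * φ / (n + 1) with hβ
  have hβ0 : 0 ≤ β := by positivity
  have hgrowth : Growth g φ τ β := by
    intro L hL1 hL2
    have hL0 : 0 < L := hτ0.trans_le hL1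
    have h1 := osc_step hω hgli hC hosc hs (by linarith) hL0 (φ - L / 2)
    have e : φ - L / 2 + L = φ + L / 2 := by ring
    rw [e] at h1
    refine h1.mono ?_ (by linarith)
    have h2 : L / s n + 1 ≤ 2 * (L / s n) := by
      have : 1 ≤ L / s n := by rw [le_div_iff₀ hs]; linarith
      linarith
    have h3 : ω (s n) / s n ≤ φ / t n / (n + 1) := by
      rw [le_div_iff₀ hn0]
      linarith
    calc 18 * (L / s n + 1) * (C * ω (s n)) ≤ 18 * (2 * (L / s n)) * (C * ω (s n)) := by gcongr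
      _ = 36 * C * L * (ω (s n) / s n) := by ring
      _ ≤ 36 * C * L * (φ / t n / (n + 1)) := by gcongr
      _ = L / τ * β := by rw [hβ, hτ]; field_simp; ring
  have hKK := growth_KK hgli hτ0 hτ1 hβ0 hgrowth
  set m := avg g (φ - τ / 2) (φ + τ / 2) with hm
  have hz : ‖((1 - τ : ℝ) : ℂ) * E φ‖ < 1 := by
    rw [norm_mul_E (by linarith)]; linarith
  have hKKper : ∫ x in (φ - 1 / 2)..(φ + 1 / 2), KK ((1 - τ : ℝ) * E φ) x * ‖g x - m‖ =
      ∫ x in (0 : ℝ)..1, KK ((1 - τ : ℝ) * E φ) x * ‖g x - m‖ := by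
    rw [per_int' (f := fun x => KK ((1 - τ : ℝ) * E φ) x * ‖g x - m‖)]
    intro x
    simp only [KK_periodic _ x, hgp x]
  have h1 := norm_ext_sub_le hgp hgli hgn hz m
  rw [← hKKper] at h1
  have h2 : ext g (((1 - τ : ℝ) : ℂ) * E φ) = 0 := by
    have h3 : ((1 - τ : ℝ) : ℂ) * E φ = zz ω t n := rfl
    have h4 := ext_mul hf1p LI_f1 hf1n hθ.per hθ.li hθ.nn hθ.ae_le hz
    rw [hg, h4, h3, TB_zero hZ n, mul_zero]
  rw [h2, zero_sub, norm_neg] at h1
  have h3 : ‖m‖ ≤ 3600 * β := h1.trans hKK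
  -- lower bound for the mean of |g|
  have hoscg := hgrowth τ le_rfl hτ1
  unfold Osc at hoscg
  have e : φ + τ / 2 - (φ - τ / 2) = τ := by ring
  rw [e, div_self hτ0.ne', one_mul, ← hm] at hoscg
  have hlow : (φ / 2) * τ ≤ ∫ x in (φ - τ / 2)..(φ + τ / 2), ‖g x‖ := by
    calc (φ / 2) * τ = ∫ _ in (φ - τ / 2)..(φ + τ / 2), φ / 2 := by
          rw [intervalIntegral.integral_const, smul_eq_mul, e]; ring
      _ ≤ _ := by
          apply intervalIntegral.integral_mono_ae_restrict (by linarith) intervalIntegrable_const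
            (hgli.norm _ _)
          filter_upwards [ae_restrict_of_ae hθ.one, ae_restrict_mem measurableSet_Icc] with x hx1 hx
          simp only [hg]
          rw [norm_mul, hx1, mul_one, f1_pt]
          have h5 : |0 - x| ≤ 1 / 2 := by
            rw [abs_le]; exact ⟨by linarith [hx.2], by linarith [hx.1]⟩
          have h6 := norm_E_sub_ge_abs (r := 1) zero_le_one h5
          rw [E_zero, Complex.ofReal_one, one_mul] at h6
          refine le_trans ?_ h6
          rw [zero_sub, abs_neg]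
          exact le_trans (by linarith [hx.1]) (le_abs_self x)
  have hup : ∫ x in (φ - τ / 2)..(φ + τ / 2), ‖g x‖ ≤ β * τ + ‖m‖ * τ := by
    have h5 := integral_norm_sub_le_add hgli m 0 (a := φ - τ / 2) (b := φ + τ / 2) (by linarith)
    simp only [sub_zero] at h5
    rw [e] at h5
    linarith
  have h5 : φ / 2 ≤ 3601 * β := by
    have h6 : (φ / 2) * τ ≤ (3601 * β) * τ := by
      calc (φ / 2) * τ ≤ β * τ + ‖m‖ * τ := hlow.trans hup
        _ ≤ β * τ + (3600 * β) * τ := by gcongr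
        _ = _ := by ring
    exact le_of_mul_le_mul_right h6 hτ0
  have h6 : 3601 * β < φ / 2 := by
    rw [hβ, ← mul_div_assoc, div_lt_iff₀ hn0]
    have h7 : 3601 * (144 * C * φ) ≤ (1100000 * C) * φ := by
      have : 0 ≤ C * φ := by positivity
      nlinarith
    have h8 : (1100000 * C) * φ < (n + 1) * φ := by gcongr
    nlinarith
  linarith

lemma counter2 (hω : IsModulus ω) (hAD : ¬ AlmostDecreasing ω) {c₀ : ℝ} (hc₀ : 0 < c₀)
    (hlin : ∀ s, 0 < s → s ≤ 1 / 2 → c₀ * s ≤ ω s) :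
    ∃ f θ : Circle → ℂ, InBMOLinf ω f ∧ InH1 f ∧ IsInner θ ∧
      (∃ ε ∈ Ioo (0 : ℝ) 1, CondIII ω ε f θ) ∧ ¬ InBMO ω (fun ζ => f ζ * θ ζ) := by
  obtain ⟨s, t, h⟩ := exists_scales hω hAD hc₀ hlin
  exact ⟨f1, TB (zz ω t), InBMOLinf_f1 hω hc₀ hlin, InH1_f1, TB_inner (h.zeros hω),
    ⟨Real.exp (-128), ⟨Real.exp_pos _, by rw [Real.exp_lt_one_iff]; norm_num⟩,
      h.condIII hω hc₀ hlin⟩, h.not_InBMO hω hc₀ hlin⟩

theorem counter (hω : IsModulus ω) (hAD : ¬ AlmostDecreasing ω) :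
    ∃ f θ : Circle → ℂ, InBMOLinf ω f ∧ InH1 f ∧ IsInner θ ∧
      (∃ ε ∈ Ioo (0 : ℝ) 1, CondIII ω ε f θ) ∧ ¬ InBMO ω (fun ζ => f ζ * θ ζ) := by
  by_cases h : ∀ c > 0, ∃ s, 0 < s ∧ s ≤ 1 / 2 ∧ ω s < c * s
  · exact counter1 hω h
  · push Not at h
    obtain ⟨c₀, hc₀, hlin⟩ := h
    exact counter2 hω hAD hc₀ hlin

theorem AD_of_division (hω : IsModulus ω) (h : DivisionProperty ω (InBMO ω)) :
    AlmostDecreasing ω := by
  by_contra hAD
  obtain ⟨f, θ, h1, h2, h3, h4, h5⟩ := counter hω hAD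
  have h6 := (h f θ h1.1 h2 h3).out 2 1
  exact h5 (h6.1 h4).1

theorem AD_of_division_inf (hω : IsModulus ω) (h : DivisionProperty ω (InBMOLinf ω)) :
    AlmostDecreasing ω := by
  by_contra hAD
  obtain ⟨f, θ, h1, h2, h3, h4, h5⟩ := counter hω hAD
  have h6 := (h f θ h1 h2 h3).out 2 1
  exact h5 (h6.1 h4).1.1

end Pool.Agent.H94.Div

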