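import Pool.Agent.H94.Div.Analytic

open MeasureTheory Real Set
open scoped Interval

namespace Pool.Agent.H94.Div

lemma poisson_formula {H : ℂ → ℂ} (hH : DiffContOnCl ℂ H (Metric.ball 0 1)) {z : ℂ}
    (hz : ‖z‖ < 1) : ∫ x in (0 : ℝ)..1, (P z x : ℂ) * H (E x) = H z := by
  have h := hH.circleAverage_poissonKernel_smul (w := z) (by simpa using hz)
  rw [circleAverage_eq_integral] at h
  rw [← h]
  apply intervalIntegral.integral_congr
  intro x _
  simp only [Complex.ofReal_one, one_mul, Pi.smul_apply', P_eq_poissonKernel]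
  rw [Complex.real_smul]

lemma diffContOnCl_scale {G : ℂ → ℂ} (hG : DifferentiableOn ℂ G (Metric.ball 0 1)) {r : ℝ}
    (hr0 : 0 ≤ r) (hr1 : r < 1) : DiffContOnCl ℂ (fun ζ => G (r * ζ)) (Metric.ball 0 1) := by
  apply DifferentiableOn.diffContOnCl
  rw [closure_ball (0 : ℂ) one_ne_zero]
  have : DifferentiableOn ℂ (fun ζ : ℂ => (r : ℂ) * ζ) (Metric.closedBall 0 1) := by fun_prop
  refine hG.comp this fun ζ hζ => ?_
  rw [mem_closedBall_zero_iff] at hζ
  rw [mem_ball_zero_iff, norm_mul, Complex.norm_real, Real.norm_of_nonneg hr0]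
  nlinarith [norm_nonneg ζ]

lemma norm_ext_le_one {θ : ℝ → ℂ} (hθ : ∀ᵐ x : ℝ, ‖θ x‖ ≤ 1) {z : ℂ}
    (hz : ‖z‖ < 1) : ‖ext θ z‖ ≤ 1 := by
  have h1 : ‖ext θ z‖ ≤ ∫ x in (0 : ℝ)..1, P z x := by
    unfold ext
    apply intervalIntegral.norm_integral_le_of_norm_le zero_le_one
    · filter_upwards [hθ] with x hx _
      rw [norm_mul, Complex.norm_real, Real.norm_of_nonneg (P_nonneg hz x)]
      have := P_nonneg hz x
      nlinarith
    · exact (continuous_P hz).intervalIntegrable _ _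
  rwa [integral_P hz] at h1

lemma prod_tendsto_L1 {f θ : ℝ → ℂ} (hfp : Function.Periodic f 1) (hf : LI f)
    (hθp : Function.Periodic θ 1) (hθ : LI θ) (hθ1 : ∀ᵐ x : ℝ, ‖θ x‖ ≤ 1) {ε : ℝ}
    (hε : 0 < ε) :
    ∃ r₀ < 1, ∀ r : ℝ, r₀ ≤ r → 0 ≤ r → r < 1 →
      ∫ x in (0 : ℝ)..1, ‖ext f (r * E x) * ext θ (r * E x) - f x * θ x‖ ≤ ε := by
  obtain ⟨h, hc, hhp, ⟨M, hM⟩, hh⟩ := exists_cont_approx hfp hf (ε := ε / 8) (by positivity)
  have hM0 : 0 ≤ M := (norm_nonneg _).trans (hM 0)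
  obtain ⟨r₁, hr₁, H₁⟩ := ext_tendsto_L1 hfp hf (ε := ε / 4) (by positivity)
  obtain ⟨r₂, hr₂, H₂⟩ := ext_tendsto_L1 hθp hθ (ε := ε / (4 * (M + 1))) (by positivity)
  refine ⟨max r₁ r₂, max_lt hr₁ hr₂, fun r h1 h2 h3 => ?_⟩
  have H₁' := H₁ r ((le_max_left _ _).trans h1) h2 h3
  have H₂' := H₂ r ((le_max_right _ _).trans h1) h2 h3
  have hz : ∀ x, ‖(r : ℂ) * E x‖ < 1 := fun x => by rw [norm_mul_E h2]; exact h3
  have hLIh := continuous_lintervalIntegrable hc
  have i1 : IntervalIntegrable (fun x => ‖ext f (r * E x) - f x‖) volume 0 1 :=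
    (((continuous_ext_circle hf h2 h3).intervalIntegrable 0 1).sub (hf 0 1)).norm
  have i2 : IntervalIntegrable (fun x => ‖ext θ (r * E x) - θ x‖) volume 0 1 :=
    (((continuous_ext_circle hθ h2 h3).intervalIntegrable 0 1).sub (hθ 0 1)).norm
  have i3 : IntervalIntegrable (fun x => ‖f x - h x‖) volume 0 1 :=
    ((hf 0 1).sub (hLIh 0 1)).norm
  have i4 : IntervalIntegrable (fun x => f x * θ x) volume 0 1 := by
    rw [intervalIntegrable_iff] at *
    have h4 : Integrable f (volume.restrict (Ι (0 : ℝ) 1)) := intervalIntegrable_iff.1 (hf 0 1)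
    have h5 := (intervalIntegrable_iff.1 (hθ 0 1)).aestronglyMeasurable
    exact h4.mul_bdd h5 (ae_restrict_of_ae hθ1)
  calc ∫ x in (0 : ℝ)..1, ‖ext f (r * E x) * ext θ (r * E x) - f x * θ x‖
      ≤ ∫ x in (0 : ℝ)..1, (‖ext f (r * E x) - f x‖ + 2 * ‖f x - h x‖ +
          M * ‖ext θ (r * E x) - θ x‖) := by
        apply intervalIntegral.integral_mono_ae zero_le_one
        · exact ((((continuous_ext_circle hf h2 h3).mul
            (continuous_ext_circle hθ h2 h3)).intervalIntegrable 0 1).sub i4).norm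
        · exact (i1.add (i3.const_mul 2)).add (i2.const_mul M)
        · filter_upwards [hθ1] with x hx
          have e : ext f (r * E x) * ext θ (r * E x) - f x * θ x =
              (ext f (r * E x) - f x) * ext θ (r * E x) +
              (f x - h x) * (ext θ (r * E x) - θ x) + h x * (ext θ (r * E x) - θ x) := by
            ring
          have hb := norm_ext_le_one hθ1 (hz x)
          have hb2 : ‖ext θ (r * E x) - θ x‖ ≤ 2 := (norm_sub_le _ _).trans (by linarith)
          rw [e]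
          calc _ ≤ ‖(ext f (r * E x) - f x) * ext θ (r * E x)‖ +
                ‖(f x - h x) * (ext θ (r * E x) - θ x)‖ + ‖h x * (ext θ (r * E x) - θ x)‖ :=
                norm_add₃_le
            _ ≤ ‖ext f (r * E x) - f x‖ * 1 + ‖f x - h x‖ * 2 +
                M * ‖ext θ (r * E x) - θ x‖ := by
                rw [norm_mul, norm_mul, norm_mul]
                gcongr
                exact hM x
            _ = _ := by ring
    _ = (∫ x in (0 : ℝ)..1, ‖ext f (r * E x) - f x‖) +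
          2 * (∫ x in (0 : ℝ)..1, ‖f x - h x‖) +
          M * ∫ x in (0 : ℝ)..1, ‖ext θ (r * E x) - θ x‖ := by
        rw [intervalIntegral.integral_add (i1.add (i3.const_mul 2)) (i2.const_mul M),
          intervalIntegral.integral_add i1 (i3.const_mul 2),
          intervalIntegral.integral_const_mul, intervalIntegral.integral_const_mul]
    _ ≤ ε / 4 + 2 * (ε / 8) + M * (ε / (4 * (M + 1))) := by gcongr
    _ ≤ ε := by
        have : M * (ε / (4 * (M + 1))) = ε / 4 * (M / (M + 1)) := by field_simp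
        rw [this]
        have h5 : M / (M + 1) ≤ 1 := by
          rw [div_le_one (by linarith)]; linarith
        nlinarith

lemma LI_mul {f θ : ℝ → ℂ} (hf : LI f) (hθ : LI θ) (hθ1 : ∀ᵐ x : ℝ, ‖θ x‖ ≤ 1) :
    LI (fun x => f x * θ x) := by
  intro a b
  rw [intervalIntegrable_iff]
  have h4 : Integrable f (volume.restrict (Ι a b)) := intervalIntegrable_iff.1 (hf a b)
  have h5 := (intervalIntegrable_iff.1 (hθ a b)).aestronglyMeasurable
  exact h4.mul_bdd h5 (ae_restrict_of_ae hθ1)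

/-- integrals against continuous kernels commute with the radial limit -/
lemma kernel_limit {f θ : ℝ → ℂ} (hfp : Function.Periodic f 1) (hf : LI f)
    (hθp : Function.Periodic θ 1) (hθ : LI θ) (hθ1 : ∀ᵐ x : ℝ, ‖θ x‖ ≤ 1) {k : ℝ → ℂ}
    (hk : Continuous k) :
    Filter.Tendsto (fun r : ℝ => ∫ x in (0 : ℝ)..1, k x * (ext f (r * E x) * ext θ (r * E x)))
      (nhdsWithin 1 (Iio 1)) (nhds (∫ x in (0 : ℝ)..1, k x * (f x * θ x))) := by
  obtain ⟨K, hK⟩ := (isCompact_Icc (a := (0 : ℝ)) (b := 1)).exists_bound_of_continuousOn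
    hk.continuousOn
  have hK0 : 0 ≤ K := (norm_nonneg _).trans (hK 0 (by simp))
  rw [Metric.tendsto_nhds]
  intro ε hε
  obtain ⟨r₀, hr₀, H⟩ := prod_tendsto_L1 hfp hf hθp hθ hθ1 (ε := ε / (2 * (K + 1)))
    (by positivity)
  have hmem : Ioo (max r₀ 0) 1 ∈ nhdsWithin (1 : ℝ) (Iio 1) :=
    Ioo_mem_nhdsLT (max_lt hr₀ one_pos)
  filter_upwards [hmem] with r hr
  have h1 := (max_lt_iff.1 hr.1).1
  have h2 := (max_lt_iff.1 hr.1).2
  have h3 := hr.2
  have i1 : IntervalIntegrable (fun x => k x * (ext f (r * E x) * ext θ (r * E x))) volume 0 1 :=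
    (hk.mul ((continuous_ext_circle hf h2.le h3).mul
      (continuous_ext_circle hθ h2.le h3))).intervalIntegrable _ _
  have i2 : IntervalIntegrable (fun x => k x * (f x * θ x)) volume 0 1 :=
    (LI_mul hf hθ hθ1 0 1).continuousOn_mul hk.continuousOn
  rw [dist_eq_norm, ← intervalIntegral.integral_sub i1 i2]
  have i3 : IntervalIntegrable
      (fun x => ‖ext f (r * E x) * ext θ (r * E x) - f x * θ x‖) volume 0 1 :=
    ((((continuous_ext_circle hf h2.le h3).mul
      (continuous_ext_circle hθ h2.le h3)).intervalIntegrable 0 1).sub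
      (LI_mul hf hθ hθ1 0 1)).norm
  calc _ ≤ ∫ x in (0 : ℝ)..1, K * ‖ext f (r * E x) * ext θ (r * E x) - f x * θ x‖ := by
        apply intervalIntegral.norm_integral_le_of_norm_le zero_le_one _ (i3.const_mul K)
        refine .of_forall fun x hx => ?_
        rw [← mul_sub, norm_mul]
        gcongr
        exact hK x ⟨hx.1.le, hx.2⟩
    _ ≤ K * (ε / (2 * (K + 1))) := by
        rw [intervalIntegral.integral_const_mul]
        gcongr
        exact H r h1.le h2.le h3
    _ < ε := by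
        have : K * (ε / (2 * (K + 1))) = ε / 2 * (K / (K + 1)) := by field_simp
        rw [this]
        have h5 : K / (K + 1) ≤ 1 := by
          rw [div_le_one (by linarith)]; linarith
        nlinarith

lemma tendsto_scale {G : ℂ → ℂ} (hG : DifferentiableOn ℂ G (Metric.ball 0 1)) {z : ℂ}
    (hz : ‖z‖ < 1) :
    Filter.Tendsto (fun r : ℝ => G (r * z)) (nhdsWithin 1 (Iio 1)) (nhds (G z)) := by
  have h1 : ContinuousAt G z :=
    (hG.differentiableAt (Metric.isOpen_ball.mem_nhds (by simpa using hz))).continuousAt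
  have h2 : Filter.Tendsto (fun r : ℝ => (r : ℂ) * z) (nhdsWithin 1 (Iio 1)) (nhds z) := by
    have h3 : Continuous (fun r : ℝ => (r : ℂ) * z) := by fun_prop
    have h4 := h3.tendsto 1
    simp only [Complex.ofReal_one, one_mul] at h4
    exact h4.mono_left nhdsWithin_le_nhds
  exact h1.tendsto.comp h2

/-- The Poisson formula for products of a function in `H¹` with one in the unit ball of `H^∞`,
against a kernel `P_z k` with `k` analytic. -/
lemma prod_formula {f θ : ℝ → ℂ} (hfp : Function.Periodic f 1) (hf : LI f) (hfn : NoNeg f)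
    (hθp : Function.Periodic θ 1) (hθ : LI θ) (hθn : NoNeg θ) (hθ1 : ∀ᵐ x : ℝ, ‖θ x‖ ≤ 1)
    {k : ℂ → ℂ} (hk : DifferentiableOn ℂ k (Metric.closedBall 0 1)) {z : ℂ} (hz : ‖z‖ < 1) :
    ∫ x in (0 : ℝ)..1, (P z x : ℂ) * k (E x) * (f x * θ x) = k z * (ext f z * ext θ z) := by
  have hF := ext_differentiableOn hfp hf hfn
  have hT := ext_differentiableOn hθp hθ hθn
  have hkc : Continuous (fun x => k (E x)) := by
    have h1 : ContinuousOn k (Metric.closedBall 0 1) := hk.continuousOn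
    exact h1.comp_continuous continuous_E (fun x => by simp)
  have hPk : Continuous (fun x => (P z x : ℂ) * k (E x)) :=
    (Complex.continuous_ofReal.comp (continuous_P hz)).mul hkc
  have h1 := kernel_limit hfp hf hθp hθ hθ1 hPk
  have h2 : Filter.Tendsto (fun r : ℝ => k z * (ext f (r * z) * ext θ (r * z)))
      (nhdsWithin 1 (Iio 1)) (nhds (k z * (ext f z * ext θ z))) :=
    ((tendsto_scale hF hz).mul (tendsto_scale hT hz)).const_mul _
  refine tendsto_nhds_unique h1 (h2.congr' ?_)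
  have hmem : Ioo (0 : ℝ) 1 ∈ nhdsWithin (1 : ℝ) (Iio 1) := Ioo_mem_nhdsLT one_pos
  filter_upwards [hmem] with r hr
  have h3 : DiffContOnCl ℂ (fun ζ => k ζ * (ext f (r * ζ) * ext θ (r * ζ)))
      (Metric.ball 0 1) := by
    have h4 : DiffContOnCl ℂ k (Metric.ball 0 1) := by
      apply DifferentiableOn.diffContOnCl
      rwa [closure_ball (0 : ℂ) one_ne_zero]
    exact h4.smul ((diffContOnCl_scale hF hr.1.le hr.2).smul
      (diffContOnCl_scale hT hr.1.le hr.2))
  have h5 := poisson_formula h3 hz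
  rw [← h5]
  apply intervalIntegral.integral_congr
  intro x _
  simp only
  ring

lemma LI_one : LI (fun _ => (1 : ℂ)) := fun _ _ => intervalIntegrable_const

lemma integral_E_pow {n : ℕ} (hn : 0 < n) : ∫ x in (0 : ℝ)..1, E x ^ n = 0 := by
  have h3 : DiffContOnCl ℂ (fun ζ : ℂ => ζ ^ n) (Metric.ball 0 1) :=
    (differentiable_pow n).diffContOnCl
  have h := poisson_formula h3 (z := 0) (by simp)
  rw [zero_pow hn.ne'] at h
  rw [← h]
  apply intervalIntegral.integral_congr
  intro x _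
  simp [P]

lemma NoNeg_one : NoNeg (fun _ => (1 : ℂ)) := by
  intro n hn
  simp only [one_mul]
  exact integral_E_pow hn

lemma ext_const (c : ℂ) {z : ℂ} (hz : ‖z‖ < 1) : ext (fun _ => c) z = c := by
  unfold ext
  rw [intervalIntegral.integral_mul_const, intervalIntegral.integral_ofReal, integral_P hz]
  simp

/-- `ext (fθ) = ext f * ext θ` -/
lemma ext_mul {f θ : ℝ → ℂ} (hfp : Function.Periodic f 1) (hf : LI f) (hfn : NoNeg f)
    (hθp : Function.Periodic θ 1) (hθ : LI θ) (hθn : NoNeg θ) (hθ1 : ∀ᵐ x : ℝ, ‖θ x‖ ≤ 1)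
    {z : ℂ} (hz : ‖z‖ < 1) :
    ext (fun x => f x * θ x) z = ext f z * ext θ z := by
  have h := prod_formula hfp hf hfn hθp hθ hθn hθ1 (k := fun _ => 1)
    (differentiableOn_const _) hz
  simpa [ext] using h

lemma NoNeg_mul {f θ : ℝ → ℂ} (hfp : Function.Periodic f 1) (hf : LI f) (hfn : NoNeg f)
    (hθp : Function.Periodic θ 1) (hθ : LI θ) (hθn : NoNeg θ) (hθ1 : ∀ᵐ x : ℝ, ‖θ x‖ ≤ 1) :
    NoNeg (fun x => f x * θ x) := by
  intro n hn
  have h := prod_formula hfp hf hfn hθp hθ hθn hθ1 (k := fun ζ => ζ ^ n)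
    (differentiable_pow n).differentiableOn (z := 0) (by simp)
  rw [zero_pow hn.ne', zero_mul] at h
  rw [← h]
  apply intervalIntegral.integral_congr
  intro x _
  simp [P]
  ring

/-- the factor `κ_z(ζ) = (1-|z|²)/(1 - z̄ζ)`, squared -/
noncomputable def kap (z ζ : ℂ) : ℂ := ((1 - ‖z‖ ^ 2) / (1 - (starRingEnd ℂ) z * ζ)) ^ 2

lemma one_sub_conj_mul_ne {z ζ : ℂ} (hz : ‖z‖ < 1) (hζ : ‖ζ‖ ≤ 1) :
    1 - (starRingEnd ℂ) z * ζ ≠ 0 := by
  intro h
  have h1 : (starRingEnd ℂ) z * ζ = 1 := (sub_eq_zero.1 h).symm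
  have h2 : ‖(starRingEnd ℂ) z * ζ‖ = ‖z‖ * ‖ζ‖ := by rw [norm_mul, RCLike.norm_conj]
  rw [h1, norm_one] at h2
  nlinarith [norm_nonneg z, norm_nonneg ζ]

lemma kap_differentiableOn {z : ℂ} (hz : ‖z‖ < 1) :
    DifferentiableOn ℂ (kap z) (Metric.closedBall 0 1) := by
  unfold kap
  apply DifferentiableOn.pow
  apply DifferentiableOn.div (by fun_prop) (by fun_prop)
  intro ζ hζ
  exact one_sub_conj_mul_ne hz (by simpa using hζ)

lemma kap_self {z : ℂ} (hz : ‖z‖ < 1) : kap z z = 1 := by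
  unfold kap
  have h1 : (starRingEnd ℂ) z * z = ((‖z‖ ^ 2 : ℝ) : ℂ) := by
    rw [mul_comm, Complex.mul_conj, Complex.normSq_eq_norm_sq]
  have h2 : (1 : ℂ) - ((‖z‖ : ℂ)) ^ 2 ≠ 0 := by
    have h3 := one_sub_conj_mul_ne hz (ζ := z) hz.le
    rw [h1] at h3
    push_cast at h3
    exact h3
  rw [h1]
  push_cast
  rw [div_self h2, one_pow]

lemma norm_one_sub_conj_mul_E (z : ℂ) (x : ℝ) :
    ‖1 - (starRingEnd ℂ) z * E x‖ = ‖E x - z‖ := by
  have h1 : 1 - (starRingEnd ℂ) z * E x = E x * (starRingEnd ℂ) (E x - z) := by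
    rw [map_sub, mul_sub, mul_comm (E x) ((starRingEnd ℂ) (E x)), conj_E_mul]
    ring
  rw [h1, norm_mul, norm_E, one_mul, RCLike.norm_conj]

lemma norm_P_kap {z : ℂ} (hz : ‖z‖ < 1) (x : ℝ) : ‖(P z x : ℂ) * kap z (E x)‖ = KK z x := by
  have h2 : 0 < 1 - ‖z‖ ^ 2 := by nlinarith [norm_nonneg z]
  have h3 := norm_E_sub_pos hz x
  unfold kap KK
  rw [norm_mul, Complex.norm_real, Real.norm_of_nonneg (P_nonneg hz x), norm_pow, norm_div,
    norm_one_sub_conj_mul_E]
  have h4 : ‖(1 : ℂ) - (‖z‖ : ℂ) ^ 2‖ = 1 - ‖z‖ ^ 2 := by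
    have : (1 : ℂ) - (‖z‖ : ℂ) ^ 2 = ((1 - ‖z‖ ^ 2 : ℝ) : ℂ) := by push_cast; ring
    rw [this, Complex.norm_real, Real.norm_of_nonneg h2.le]
  rw [h4]
  unfold P
  field_simp

/-- **Reproducing formula** and the resulting estimate. -/
lemma norm_ext_sub_le {f : ℝ → ℂ} (hfp : Function.Periodic f 1) (hf : LI f) (hfn : NoNeg f)
    {z : ℂ} (hz : ‖z‖ < 1) (c : ℂ) :
    ‖ext f z - c‖ ≤ ∫ x in (0 : ℝ)..1, KK z x * ‖f x - c‖ := by
  have h1 := prod_formula hfp hf hfn (θ := fun _ => (1 : ℂ)) (fun x => rfl) LI_one NoNeg_one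
    (.of_forall fun x => by simp) (kap_differentiableOn hz) hz
  have h2 := prod_formula (f := fun _ => (c : ℂ)) (fun x => rfl)
    (fun _ _ => intervalIntegrable_const)
    (fun n hn => by rw [intervalIntegral.integral_const_mul, integral_E_pow hn, mul_zero])
    (θ := fun _ => (1 : ℂ)) (fun x => rfl) LI_one NoNeg_one
    (.of_forall fun x => by simp) (kap_differentiableOn hz) hz
  rw [ext_const _ hz, kap_self hz] at h1 h2
  rw [ext_const _ hz] at h2
  simp only [mul_one, one_mul] at h1 h2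
  have hPk : Continuous (fun x => (P z x : ℂ) * kap z (E x)) :=
    (Complex.continuous_ofReal.comp (continuous_P hz)).mul
      ((kap_differentiableOn hz).continuousOn.comp_continuous continuous_E (fun x => by simp))
  have i1 : IntervalIntegrable (fun x => (P z x : ℂ) * kap z (E x) * f x) volume 0 1 :=
    (hf 0 1).continuousOn_mul hPk.continuousOn
  have i2 : IntervalIntegrable (fun x => (P z x : ℂ) * kap z (E x) * c) volume 0 1 :=
    (hPk.mul continuous_const).intervalIntegrable _ _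
  have h3 : ext f z - c = ∫ x in (0 : ℝ)..1,
      ((P z x : ℂ) * kap z (E x) * f x - (P z x : ℂ) * kap z (E x) * c) := by
    rw [intervalIntegral.integral_sub i1 i2, h1, h2]
  rw [h3]
  apply intervalIntegral.norm_integral_le_of_norm_le zero_le_one
  · refine .of_forall fun x _ => ?_
    rw [← mul_sub, norm_mul, norm_P_kap hz]
  · exact (hf.norm_sub c 0 1).continuousOn_mul (continuous_KK hz).continuousOn

end Pool.Agent.H94.Div
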