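import Pool.Agent.H94.Div.KeyLemma
import Pool.Agent.H94.Div.Dyadic

open MeasureTheory Real Set
open scoped Interval Topology

namespace Pool.Agent.H94.Div

/-- A modulus with at most linear growth. -/
structure WData (W : ℝ → ℝ) (C₀ : ℝ) : Prop where
  pos : ∀ h, 0 < h → h ≤ 1 → 0 < W h
  mono : ∀ s h, 0 < s → s ≤ h → h ≤ 1 → W s ≤ W h
  growth : ∀ s h, 0 < s → s ≤ h → h ≤ 1 → W h ≤ C₀ * (h / s) * W s
  one_le : 1 ≤ C₀

/-- A function with mean oscillation controlled by `A * W`. -/
structure FData (f : ℝ → ℂ) (W : ℝ → ℝ) (A : ℝ) : Prop where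
  per : Function.Periodic f 1
  li : LI f
  pos : 0 < A
  osc : ∀ a h, 0 < h → h ≤ 1 → Osc f a (a + h) (A * W h)

lemma Osc.mono {g : ℝ → ℂ} {a b β β' : ℝ} (h : Osc g a b β) (hβ : β ≤ β') (hab : a ≤ b) :
    Osc g a b β' := by
  unfold Osc at *
  exact h.trans (mul_le_mul_of_nonneg_right hβ (by linarith))

variable {f : ℝ → ℂ} {W : ℝ → ℝ} {A C₀ : ℝ}

lemma FData.growth (hf : FData f W A) (hW : WData W C₀) (x₀ : ℝ) {t : ℝ} (ht : 0 < t) :
    Growth f x₀ t (A * C₀ * W t) := by
  intro s hts hs1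
  have hs0 : 0 < s := lt_of_lt_of_le ht hts
  have h1 := hf.osc (x₀ - s / 2) s hs0 hs1
  have e : x₀ - s / 2 + s = x₀ + s / 2 := by ring
  rw [e] at h1
  refine h1.mono ?_ (by linarith)
  have h2 := hW.growth t s ht hts hs1
  calc A * W s ≤ A * (C₀ * (s / t) * W t) := mul_le_mul_of_nonneg_left h2 hf.pos.le
    _ = _ := by ring

lemma FData.ext_close (hf : FData f W A) (hn : NoNeg f) (hW : WData W C₀) (x₀ : ℝ) {t : ℝ}
    (ht : 0 < t) (ht1 : t ≤ 1) :
    ‖ext f ((1 - t : ℝ) * E x₀) - avg f (x₀ - t / 2) (x₀ + t / 2)‖ ≤ 3600 * (A * C₀ * W t) := by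
  have hz : ‖((1 - t : ℝ) : ℂ) * E x₀‖ < 1 := by
    rw [norm_mul_E (by linarith)]; linarith
  have h0 : 0 ≤ A * C₀ * W t :=
    mul_nonneg (mul_nonneg hf.pos.le (zero_le_one.trans hW.one_le)) (hW.pos t ht ht1).le
  refine (norm_ext_sub_le hf.per hf.li hn hz _).trans ?_
  refine le_trans (le_of_eq ?_) (growth_KK hf.li ht ht1 h0 (hf.growth hW x₀ ht))
  rw [per_int' (f := fun x => KK ((1 - t : ℝ) * E x₀) x *
    ‖f x - avg f (x₀ - t / 2) (x₀ + t / 2)‖)]
  intro x
  simp only [KK_periodic _ x, hf.per x]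

/-- comparison of the mean over a subinterval with the mean over the base interval -/
lemma FData.compare (hf : FData f W A) (hW : WData W C₀) {x₁ h s p q : ℝ} (hh : 0 < h)
    (hhs : h ≤ s) (hs1 : s ≤ 1) (hq : 0 < q) (hp1 : x₁ - s / 2 ≤ p) (hp2 : p + q ≤ x₁ + s / 2) :
    ‖avg f p (p + q) - avg f (x₁ - h / 2) (x₁ + h / 2)‖ ≤
      (s / q + 4) * (s / h) * (A * C₀ * W h) := by
  have hs0 : 0 < s := lt_of_lt_of_le hh hhs
  have hh1 : h ≤ 1 := hhs.trans hs1
  have h0 : 0 ≤ A * C₀ * W h :=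
    mul_nonneg (mul_nonneg hf.pos.le (zero_le_one.trans hW.one_le)) (hW.pos h hh hh1).le
  have hg := hf.growth hW x₁ hh
  have h1 := growth_avg hf.li hh h0 hg hhs hs1
  have h2 := hg s hhs hs1
  have h3 := norm_avg_sub_le_of_subset hf.li (avg f (x₁ - s / 2) (x₁ + s / 2))
    (a := x₁ - s / 2) (b := x₁ + s / 2) (a' := p) (b' := p + q) hp1 (by linarith) hp2
  unfold Osc at h2
  have e1 : p + q - p = q := by ring
  have e2 : x₁ + s / 2 - (x₁ - s / 2) = s := by ring
  rw [e1] at h3
  rw [e2] at h2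
  have h4 : ‖avg f p (p + q) - avg f (x₁ - s / 2) (x₁ + s / 2)‖ ≤
      s / q * (s / h) * (A * C₀ * W h) := by
    have h5 := h3.trans h2
    have h6 : s / h * (A * C₀ * W h) * s = s / q * (s / h) * (A * C₀ * W h) * q := by
      field_simp
    rw [h6] at h5
    exact le_of_mul_le_mul_right h5 hq
  calc ‖avg f p (p + q) - avg f (x₁ - h / 2) (x₁ + h / 2)‖ =
      ‖(avg f p (p + q) - avg f (x₁ - s / 2) (x₁ + s / 2)) +
        (avg f (x₁ - s / 2) (x₁ + s / 2) - avg f (x₁ - h / 2) (x₁ + h / 2))‖ := by ring_nf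
    _ ≤ s / q * (s / h) * (A * C₀ * W h) + 4 * (s / h) * (A * C₀ * W h) :=
        (norm_add_le _ _).trans (add_le_add h4 h1)
    _ = _ := by ring

/-! ### The periodic comparison weight -/

/-- reduction to the period `[c, c+1)` -/
noncomputable def red (c x : ℝ) : ℝ := toIcoMod (one_pos : (0 : ℝ) < 1) c x

lemma red_periodic (c : ℝ) : Function.Periodic (red c) 1 := by
  intro x
  unfold red
  rw [toIcoMod_add_right]

lemma red_of_mem {c x : ℝ} (hx : x ∈ Ico c (c + 1)) : red c x = x := by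
  unfold red
  rw [toIcoMod_eq_self]
  exact hx

lemma measurable_red (c : ℝ) : Measurable (red c) := by
  have : red c = fun x => c + Int.fract (x - c) := by
    funext x
    unfold red
    rw [toIcoMod_eq_add_fract_mul]
    simp
  rw [this]
  exact (measurable_fract.comp (measurable_id.sub_const c)).const_add c

/-- indicator function of `S ⊆ [c, c+1)`, extended `1`-periodically -/
noncomputable def perI (c : ℝ) (S : Set ℝ) (x : ℝ) : ℝ := S.indicator (fun _ => (1 : ℝ)) (red c x)

lemma perI_periodic (c : ℝ) (S : Set ℝ) : Function.Periodic (perI c S) 1 := by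
  intro x
  unfold perI
  rw [red_periodic _ x]

lemma perI_nonneg (c : ℝ) (S : Set ℝ) (x : ℝ) : 0 ≤ perI c S x := by
  unfold perI
  exact indicator_nonneg (fun _ _ => zero_le_one) _

lemma perI_le_one (c : ℝ) (S : Set ℝ) (x : ℝ) : perI c S x ≤ 1 := by
  unfold perI
  by_cases h : red c x ∈ S
  · rw [indicator_of_mem h]
  · rw [indicator_of_notMem h]; exact zero_le_one

lemma perI_of_mem {c x : ℝ} {S : Set ℝ} (hx : x ∈ Ico c (c + 1)) :
    perI c S x = S.indicator (fun _ => (1 : ℝ)) x := by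
  unfold perI
  rw [red_of_mem hx]

lemma perI_eq_one {c x : ℝ} {S : Set ℝ} (hx : x ∈ Ico c (c + 1)) (h : x ∈ S) :
    perI c S x = 1 := by
  rw [perI_of_mem hx, indicator_of_mem h]

lemma perI_measurable {S : Set ℝ} (hS : MeasurableSet S) (c : ℝ) : Measurable (perI c S) :=
  (measurable_const.indicator hS).comp (measurable_red c)

lemma perI_integrable {S : Set ℝ} (hS : MeasurableSet S) (c a b : ℝ) :
    IntervalIntegrable (perI c S) volume a b := by
  rw [intervalIntegrable_iff]
  apply Measure.integrableOn_of_bounded (M := 1)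
  · exact measure_Ioc_lt_top.ne
  · exact (perI_measurable hS c).aestronglyMeasurable
  · refine .of_forall fun x => ?_
    rw [Real.norm_of_nonneg (perI_nonneg _ _ _)]
    exact perI_le_one _ _ _

lemma integral_mul_perI {k : ℝ → ℝ} {c : ℝ} {S : Set ℝ} (hS : MeasurableSet S)
    (hSc : S ⊆ Ico c (c + 1)) :
    ∫ x in c..(c + 1), k x * perI c S x = ∫ x in S, k x := by
  rw [intervalIntegral.integral_of_le (by linarith), integral_Ioc_eq_integral_Ioo,
    ← integral_Ico_eq_integral_Ioo]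
  have h1 : ∀ x ∈ Ico c (c + 1), k x * perI c S x = S.indicator k x := by
    intro x hx
    rw [perI_of_mem hx]
    by_cases h : x ∈ S
    · rw [indicator_of_mem h, indicator_of_mem h, mul_one]
    · rw [indicator_of_notMem h, indicator_of_notMem h, mul_zero]
  rw [setIntegral_congr_fun measurableSet_Ico h1, setIntegral_indicator hS,
    inter_eq_self_of_subset_right hSc]

lemma extR_periodic_eq {b : ℝ → ℝ} (hp : Function.Periodic b 1) (z : ℂ) (a : ℝ) :
    extR b z = ∫ x in a..(a + 1), P z x * b x := by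
  unfold extR
  rw [per_int (f := fun x => P z x * b x)]
  intro x
  simp only [P_periodic z x, hp x]

/-- upper bound for the Poisson integral of an indicator function -/
lemma extR_perI_le {c : ℝ} {S : Set ℝ} (hS : MeasurableSet S) (hSc : S ⊆ Ico c (c + 1)) {z : ℂ}
    (hz : ‖z‖ < 1) {κ V : ℝ} (hκ0 : 0 ≤ κ) (hV : 0 ≤ V) (hκ : ∀ x ∈ S, P z x ≤ κ)
    (hvol : volume S ≤ ENNReal.ofReal V) :
    extR (perI c S) z ≤ κ * V := by
  rw [extR_periodic_eq (perI_periodic c S) z c, integral_mul_perI hS hSc]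
  have hfin : volume S < ⊤ := lt_of_le_of_lt hvol ENNReal.ofReal_lt_top
  have h1 : ∫ x in S, P z x ≤ ∫ _ in S, κ := by
    apply setIntegral_mono_on _ _ hS hκ
    · apply Measure.integrableOn_of_bounded hfin.ne (M := κ)
      · exact (continuous_P hz).aestronglyMeasurable
      · filter_upwards [ae_restrict_mem hS] with x hx
        rw [Real.norm_of_nonneg (P_nonneg hz x)]
        exact hκ x hx
    · exact integrableOn_const hfin.ne
  refine h1.trans ?_
  rw [setIntegral_const, smul_eq_mul, mul_comm]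
  apply mul_le_mul_of_nonneg_left _ hκ0
  exact ENNReal.toReal_le_of_le_ofReal hV hvol

/-- lower bound: if `b ≥ 1` on an interval of length `q ≤ 1` on which the kernel is at least `κ`,
then the Poisson integral is at least `q κ`. -/
lemma extR_lower {b : ℝ → ℝ} (hp : Function.Periodic b 1) (hb : IntervalIntegrable b volume 0 1)
    (hb0 : ∀ x, 0 ≤ b x) {z : ℂ} (hz : ‖z‖ < 1) {p q κ : ℝ} (hq0 : 0 ≤ q) (hq1 : q ≤ 1)
    (h1 : ∀ x ∈ Ico p (p + q), 1 ≤ b x) (hκ : ∀ x ∈ Ico p (p + q), κ ≤ P z x) :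
    q * κ ≤ extR b z := by
  have hbI : ∀ a c, IntervalIntegrable b volume a c := fun a c =>
    hp.intervalIntegrable₀ one_ne_zero hb a c
  have hi : ∀ a c, IntervalIntegrable (fun x => P z x * b x) volume a c := fun a c =>
    (hbI a c).continuousOn_mul (continuous_P hz).continuousOn
  rw [extR_periodic_eq hp z p]
  calc q * κ = ∫ x in p..(p + q), κ := by
        rw [intervalIntegral.integral_const, smul_eq_mul]; ring
    _ ≤ ∫ x in p..(p + q), P z x * b x := by
        apply intervalIntegral.integral_mono_ae_restrict (by linarith)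
          intervalIntegrable_const (hi _ _)
        have : ∀ᵐ x ∂(volume.restrict (Icc p (p + q))), x ≠ p + q := by
          apply ae_restrict_of_ae
          exact Measure.ae_ne volume (p + q)
        filter_upwards [this, ae_restrict_mem measurableSet_Icc] with x hx hx2
        have hx3 : x ∈ Ico p (p + q) := ⟨hx2.1, lt_of_le_of_ne hx2.2 hx⟩
        calc κ ≤ P z x := hκ x hx3
          _ ≤ P z x * b x := le_mul_of_one_le_right (P_nonneg hz x) (h1 x hx3)
    _ ≤ ∫ x in p..(p + 1), P z x * b x := by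
        apply intervalIntegral.integral_mono_interval le_rfl (by linarith) (by linarith)
        · exact .of_forall fun x => mul_nonneg (P_nonneg hz x) (hb0 x)
        · exact hi _ _

/-- lower bound for the Poisson kernel near the foot point -/
lemma P_lower {t x₀ x : ℝ} (ht : 0 < t) (ht1 : t ≤ 1) (hx : |x - x₀| ≤ 2 * t) :
    1 / (196 * t) ≤ P ((1 - t : ℝ) * E x₀) x := by
  have hz : ‖((1 - t : ℝ) : ℂ) * E x₀‖ < 1 := by
    rw [norm_mul_E (by linarith)]; linarith
  have h1 := norm_E_sub_le (r := 1 - t) (by linarith) (by linarith) x x₀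
  have h2 := norm_E_sub_pos hz x
  have h3 : ‖E x - ((1 - t : ℝ) : ℂ) * E x₀‖ ≤ 14 * t := by
    refine h1.trans ?_
    have : 2 * π * |x - x₀| ≤ 2 * π * (2 * t) := by gcongr
    nlinarith [Real.pi_lt_d2]
  unfold P
  rw [norm_mul_E (by linarith), div_le_div_iff₀ (by positivity) (by positivity)]
  have h4 : ‖E x - ((1 - t : ℝ) : ℂ) * E x₀‖ ^ 2 ≤ (14 * t) ^ 2 := by gcongr
  nlinarith

end Pool.Agent.H94.Div
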