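import Pool.Agent.H94.Div.Suff1

open MeasureTheory Real Set
open scoped Interval Topology

namespace Pool.Agent.H94.Div

/-! ### Shells -/

lemma shell_right {h : ℝ} (N : ℕ) {u : ℝ} (h0 : 0 ≤ u) (hu : u < (2 ^ N - 1) * h) :
    ∃ k < N, (2 ^ k - 1) * h ≤ u ∧ u < (2 ^ (k + 1) - 1) * h := by
  induction N with
  | zero => norm_num at hu; linarith
  | succ n ih =>
    rcases lt_or_ge u ((2 ^ n - 1) * h) with h1 | h1
    · obtain ⟨k, hk, h2⟩ := ih h1
      exact ⟨k, by omega, h2⟩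
    · exact ⟨n, by omega, h1, hu⟩

lemma shell_left {h : ℝ} (N : ℕ) {u : ℝ} (h0 : 0 < u) (hu : u ≤ (2 ^ N - 1) * h) :
    ∃ k < N, (2 ^ k - 1) * h < u ∧ u ≤ (2 ^ (k + 1) - 1) * h := by
  induction N with
  | zero => norm_num at hu; linarith
  | succ n ih =>
    rcases lt_or_ge ((2 ^ n - 1) * h) u with h1 | h1
    · exact ⟨n, by omega, h1, hu⟩
    · obtain ⟨k, hk, h2⟩ := ih h1
      exact ⟨k, by omega, h2⟩

/-- start of the right shell -/
noncomputable def pR (x₁ h : ℝ) (k : ℕ) : ℝ := x₁ + (2 ^ k - 1) * h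
/-- start of the left shell -/
noncomputable def pL (x₁ h : ℝ) (k : ℕ) : ℝ := x₁ - (2 ^ (k + 1) - 1) * h

/-- the far set -/
noncomputable def farSet (x₁ H : ℝ) : Set ℝ := Ico (x₁ - 1 / 2) (x₁ - H) ∪ Ico (x₁ + H) (x₁ + 1 / 2)

/-- the sets of the weight -/
noncomputable def TR (f : ℝ → ℂ) (x₁ h : ℝ) (k : ℕ) : Set ℝ :=
  Bad f (avg f (x₁ - h / 2) (x₁ + h / 2)) (‖avg f (x₁ - h / 2) (x₁ + h / 2)‖ / 2)
    (pR x₁ h k) (2 ^ k * h)

noncomputable def TL (f : ℝ → ℂ) (x₁ h : ℝ) (k : ℕ) : Set ℝ :=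
  Bad f (avg f (x₁ - h / 2) (x₁ + h / 2)) (‖avg f (x₁ - h / 2) (x₁ + h / 2)‖ / 2)
    (pL x₁ h k) (2 ^ k * h)

/-- the weight -/
noncomputable def wgt (f : ℝ → ℂ) (x₁ h : ℝ) (N : ℕ) (x : ℝ) : ℝ :=
  perI (x₁ - 1 / 2) (farSet x₁ ((2 ^ N - 1) * h)) x +
    ∑ k ∈ Finset.range N, (perI (x₁ - 1 / 2) (TR f x₁ h k) x + perI (x₁ - 1 / 2) (TL f x₁ h k) x)

variable {f : ℝ → ℂ} {W : ℝ → ℝ} {A C₀ : ℝ}

lemma wgt_periodic (f : ℝ → ℂ) (x₁ h : ℝ) (N : ℕ) : Function.Periodic (wgt f x₁ h N) 1 := by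
  intro x
  unfold wgt
  rw [perI_periodic _ _ x]
  congr 1
  apply Finset.sum_congr rfl
  intro k _
  rw [perI_periodic _ _ x, perI_periodic _ _ x]

lemma wgt_nonneg (f : ℝ → ℂ) (x₁ h : ℝ) (N : ℕ) (x : ℝ) : 0 ≤ wgt f x₁ h N x := by
  unfold wgt
  apply add_nonneg (perI_nonneg _ _ _)
  exact Finset.sum_nonneg fun k _ => add_nonneg (perI_nonneg _ _ _) (perI_nonneg _ _ _)

lemma farSet_measurable (x₁ H : ℝ) : MeasurableSet (farSet x₁ H) :=
  measurableSet_Ico.union measurableSet_Ico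

lemma TR_measurable (f : ℝ → ℂ) (x₁ h : ℝ) (k : ℕ) : MeasurableSet (TR f x₁ h k) :=
  Bad_measurable

lemma TL_measurable (f : ℝ → ℂ) (x₁ h : ℝ) (k : ℕ) : MeasurableSet (TL f x₁ h k) :=
  Bad_measurable

lemma wgt_integrable (f : ℝ → ℂ) (x₁ h : ℝ) (N : ℕ) (a b : ℝ) :
    IntervalIntegrable (wgt f x₁ h N) volume a b := by
  unfold wgt
  apply (perI_integrable (farSet_measurable _ _) _ _ _).add
  have : IntervalIntegrable (∑ k ∈ Finset.range N, fun x =>
      (perI (x₁ - 1 / 2) (TR f x₁ h k) x + perI (x₁ - 1 / 2) (TL f x₁ h k) x)) volume a b := by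
    apply IntervalIntegrable.sum
    intro k _
    exact (perI_integrable (TR_measurable _ _ _ _) _ _ _).add
      (perI_integrable (TL_measurable _ _ _ _) _ _ _)
  convert this using 1
  funext x
  simp

lemma wgt_ge_far (f : ℝ → ℂ) (x₁ h : ℝ) (N : ℕ) (x : ℝ) :
    perI (x₁ - 1 / 2) (farSet x₁ ((2 ^ N - 1) * h)) x ≤ wgt f x₁ h N x := by
  unfold wgt
  have : 0 ≤ ∑ k ∈ Finset.range N, (perI (x₁ - 1 / 2) (TR f x₁ h k) x +
      perI (x₁ - 1 / 2) (TL f x₁ h k) x) :=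
    Finset.sum_nonneg fun k _ => add_nonneg (perI_nonneg _ _ _) (perI_nonneg _ _ _)
  linarith

lemma wgt_ge_R (f : ℝ → ℂ) (x₁ h : ℝ) {N k : ℕ} (hk : k < N) (x : ℝ) :
    perI (x₁ - 1 / 2) (TR f x₁ h k) x ≤ wgt f x₁ h N x := by
  unfold wgt
  have h1 := Finset.single_le_sum (f := fun k => (perI (x₁ - 1 / 2) (TR f x₁ h k) x +
      perI (x₁ - 1 / 2) (TL f x₁ h k) x)) (s := Finset.range N)
    (fun k _ => add_nonneg (perI_nonneg _ _ _) (perI_nonneg _ _ _)) (Finset.mem_range.2 hk)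
  have h2 := perI_nonneg (x₁ - 1 / 2) (farSet x₁ ((2 ^ N - 1) * h)) x
  have h3 := perI_nonneg (x₁ - 1 / 2) (TL f x₁ h k) x
  linarith

lemma wgt_ge_L (f : ℝ → ℂ) (x₁ h : ℝ) {N k : ℕ} (hk : k < N) (x : ℝ) :
    perI (x₁ - 1 / 2) (TL f x₁ h k) x ≤ wgt f x₁ h N x := by
  unfold wgt
  have h1 := Finset.single_le_sum (f := fun k => (perI (x₁ - 1 / 2) (TR f x₁ h k) x +
      perI (x₁ - 1 / 2) (TL f x₁ h k) x)) (s := Finset.range N)
    (fun k _ => add_nonneg (perI_nonneg _ _ _) (perI_nonneg _ _ _)) (Finset.mem_range.2 hk)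
  have h2 := perI_nonneg (x₁ - 1 / 2) (farSet x₁ ((2 ^ N - 1) * h)) x
  have h3 := perI_nonneg (x₁ - 1 / 2) (TR f x₁ h k) x
  linarith

/-- the weight is at least one on the far arc -/
lemma wgt_far_right (f : ℝ → ℂ) {x₁ h : ℝ} {N : ℕ} {x : ℝ}
    (hx1 : x₁ + (2 ^ N - 1) * h ≤ x) (hx2 : x < x₁ + 1 - (2 ^ N - 1) * h)
    (hH : 0 ≤ (2 ^ N - 1) * h) : 1 ≤ wgt f x₁ h N x := by
  set H : ℝ := (2 ^ N - 1) * h with hHdef
  rcases lt_or_ge x (x₁ + 1 / 2) with h1 | h1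
  · rw [← perI_eq_one (c := x₁ - 1 / 2) (x := x) (S := farSet x₁ H) ⟨by linarith, by linarith⟩
      (Or.inr ⟨hx1, h1⟩)]
    exact wgt_ge_far f x₁ h N x
  · have h2 : wgt f x₁ h N x = wgt f x₁ h N (x - 1) := by
      rw [← wgt_periodic f x₁ h N (x - 1)]; ring_nf
    have h3 := perI_eq_one (c := x₁ - 1 / 2) (x := x - 1) (S := farSet x₁ H)
      ⟨by linarith, by linarith⟩ (Or.inl ⟨by linarith, by linarith⟩)
    rw [h2]
    exact h3.symm.le.trans (wgt_ge_far f x₁ h N (x - 1))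

lemma wgt_far_left (f : ℝ → ℂ) {x₁ h : ℝ} {N : ℕ} {x : ℝ}
    (hx1 : x₁ - 1 + (2 ^ N - 1) * h ≤ x) (hx2 : x < x₁ - (2 ^ N - 1) * h)
    (hH : 0 ≤ (2 ^ N - 1) * h) : 1 ≤ wgt f x₁ h N x := by
  have h2 : wgt f x₁ h N x = wgt f x₁ h N (x + 1) := (wgt_periodic f x₁ h N x).symm
  rw [h2]
  exact wgt_far_right f (by linarith) (by linarith) hH

/-- far foot points have large Poisson integral -/
lemma far_point (f : ℝ → ℂ) {x₁ h : ℝ} {N : ℕ} (hH0 : 0 ≤ (2 ^ N - 1) * h)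
    (hH : (2 ^ N - 1) * h ≤ 1 / 10) {t x₀ : ℝ} (ht : 0 < t) (ht1 : t ≤ 1)
    (hx₀ : x₀ ∈ Ico (x₁ - 1 / 2) (x₁ - 1 / 2 + 1))
    (hfar : (2 ^ N - 1) * h ≤ |x₀ - x₁| ∨ 2 * ((2 ^ N - 1) * h) ≤ t) :
    1 / 784 ≤ extR (wgt f x₁ h N) ((1 - t : ℝ) * E x₀) ∨ x₀ = x₁ - (2 ^ N - 1) * h := by
  set H : ℝ := (2 ^ N - 1) * h with hHdef
  have hz : ‖((1 - t : ℝ) : ℂ) * E x₀‖ < 1 := by
    rw [norm_mul_E (by linarith)]; linarith
  set q : ℝ := min t (1 / 4) with hq
  have hq0 : 0 < q := lt_min ht (by norm_num)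
  have hqt : q ≤ t := min_le_left _ _
  have hq4 : q ≤ 1 / 4 := min_le_right _ _
  have hqv : 1 / 784 ≤ q * (1 / (196 * t)) := by
    rw [mul_one_div, div_le_div_iff₀ (by norm_num) (by positivity)]
    rcases min_cases t (1 / 4 : ℝ) with h1 | h1
    · rw [hq, h1.1]; linarith
    · rw [hq, h1.1]; linarith
  have main : ∀ p : ℝ, (∀ x ∈ Ico p (p + q), 1 ≤ wgt f x₁ h N x) →
      (∀ x ∈ Ico p (p + q), |x - x₀| ≤ 2 * t) →
      1 / 784 ≤ extR (wgt f x₁ h N) ((1 - t : ℝ) * E x₀) := by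
    intro p h1 h2
    refine hqv.trans ?_
    apply extR_lower (wgt_periodic f x₁ h N) (wgt_integrable f x₁ h N 0 1)
      (wgt_nonneg f x₁ h N) hz hq0.le (by linarith) h1
    intro x hx
    exact P_lower ht ht1 (h2 x hx)
  have hx₀l := hx₀.1
  have hx₀r : x₀ < x₁ + 1 / 2 := by linarith [hx₀.2]
  rcases le_or_gt (x₁ + H) x₀ with h1 | h1
  · left
    apply main x₀
    · intro x hx
      exact wgt_far_right f (by linarith [hx.1]) (by linarith [hx.2]) hH0
    · intro x hx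
      rw [abs_le]
      exact ⟨by linarith [hx.1], by linarith [hx.2]⟩
  rcases lt_or_ge x₀ (x₁ - H) with h2 | h2
  · left
    apply main (x₀ - q)
    · intro x hx
      exact wgt_far_left f (by linarith [hx.1]) (by linarith [hx.2]) hH0
    · intro x hx
      rw [abs_le]
      exact ⟨by linarith [hx.1], by linarith [hx.2]⟩
  rcases hfar with h3 | h3
  · right
    rcases le_or_gt 0 (x₀ - x₁) with h4 | h4
    · rw [abs_of_nonneg h4] at h3; linarith
    · rw [abs_of_neg h4] at h3; linarith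
  · left
    apply main (x₁ + H)
    · intro x hx
      exact wgt_far_right f (by linarith [hx.1]) (by linarith [hx.2]) hH0
    · intro x hx
      rw [abs_le]
      exact ⟨by linarith [hx.1], by linarith [hx.2]⟩

/-- the near part of the argument -/
lemma near_point (hf : FData f W A) (hn : NoNeg f) (hW : WData W C₀) {x₁ h : ℝ} {N : ℕ}
    (hh : 0 < h) (hH : (2 ^ N - 1) * h ≤ 1 / 10)
    (hbig : 57600 * C₀ * 2 ^ N * (A * C₀ * W h) ≤ ‖avg f (x₁ - h / 2) (x₁ + h / 2)‖)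
    {t x₀ : ℝ} (ht : 0 < t) (ht2 : t < 2 * ((2 ^ N - 1) * h))
    {k : ℕ} (hk : k < N) {p : ℝ} (hx₀p : x₀ ∈ Ico p (p + 2 ^ k * h))
    (hdist : |x₀ - x₁| ≤ (2 ^ (k + 1) - 1) * h)
    {b : ℝ → ℝ} (hbp : Function.Periodic b 1) (hbi : IntervalIntegrable b volume 0 1)
    (hb0 : ∀ x, 0 ≤ b x)
    (hpb : ∀ x, x ∈ Ico p (p + 2 ^ k * h) → x ∈ Bad f (avg f (x₁ - h / 2) (x₁ + h / 2))
      (‖avg f (x₁ - h / 2) (x₁ + h / 2)‖ / 2) p (2 ^ k * h) → 1 ≤ b x)
    (hv : extR b ((1 - t : ℝ) * E x₀) < 1 / 784) :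
    ‖avg f (x₁ - h / 2) (x₁ + h / 2)‖ / 4 ≤ ‖ext f ((1 - t : ℝ) * E x₀)‖ := by
  set m := avg f (x₁ - h / 2) (x₁ + h / 2) with hm
  set H : ℝ := (2 ^ N - 1) * h with hHdef
  set B : ℝ := A * C₀ * W h with hB
  set ℓ : ℝ := 2 ^ k * h with hℓ
  have hC := hW.one_le
  have hA := hf.pos
  have hk2 : (2 : ℝ) ^ (k + 1) ≤ 2 ^ N := pow_le_pow_right₀ (by norm_num) (by omega)
  have hkk : (2 : ℝ) ^ (k + 1) = 2 * 2 ^ k := by ring
  have hkpos : (1 : ℝ) ≤ 2 ^ k := one_le_pow₀ (by norm_num)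
  have hℓ0 : 0 < ℓ := by positivity
  have hhℓ : h ≤ ℓ := by nlinarith
  have hℓH : 2 * ℓ ≤ H + h := by
    have : (2 * 2 ^ k) * h ≤ 2 ^ N * h := by
      rw [← hkk]; gcongr
    rw [hℓ, hHdef]; nlinarith
  have hℓH' : ℓ ≤ H := by linarith
  have hh1 : h ≤ 1 := by linarith
  have hWh := hW.pos h hh hh1
  have hB0 : 0 < B := by positivity
  have ht1 : t ≤ 1 := by linarith
  have hz : ‖((1 - t : ℝ) : ℂ) * E x₀‖ < 1 := by
    rw [norm_mul_E (by linarith)]; linarith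
  have hCB : B ≤ C₀ * B := le_mul_of_one_le_left hB0.le hC
  have h2N : (1 : ℝ) ≤ 2 ^ N := one_le_pow₀ (by norm_num)
  -- closeness of the extension to the mean
  have hclose := hf.ext_close hn hW x₀ ht ht1
  rcases lt_or_ge ℓ t with hcase | hcase
  · -- Case 3a
    have hWt : W t ≤ C₀ * 2 ^ (N + 1) * W h := by
      have h1 := hW.growth h t hh (by linarith) ht1
      refine h1.trans ?_
      have h2 : t / h ≤ 2 ^ (N + 1) := by
        rw [div_le_iff₀ hh, pow_succ]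
        nlinarith
      gcongr
    have h1 : ‖ext f ((1 - t : ℝ) * E x₀) - avg f (x₀ - t / 2) (x₀ + t / 2)‖ ≤ ‖m‖ / 8 := by
      refine hclose.trans ?_
      have : 3600 * (A * C₀ * W t) ≤ 3600 * (A * C₀ * (C₀ * 2 ^ (N + 1) * W h)) := by gcongr
      refine this.trans ?_
      have e : 3600 * (A * C₀ * (C₀ * 2 ^ (N + 1) * W h)) =
          (57600 * C₀ * 2 ^ N * (A * C₀ * W h)) / 8 := by ring
      rw [e]
      linarith
    have hs1 : 5 * t ≤ 1 := by linarith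
    have habs := abs_le.1 hdist
    have h2 := hf.compare hW (x₁ := x₁) (h := h) (s := 5 * t) (p := x₀ - t / 2) (q := t) hh
      (by linarith) hs1 ht (by nlinarith) (by nlinarith)
    have e1 : x₀ - t / 2 + t = x₀ + t / 2 := by ring
    rw [e1] at h2
    have h3 : (5 * t / t + 4) * (5 * t / h) * B ≤ ‖m‖ / 8 := by
      have e2 : 5 * t / t = 5 := by field_simp
      rw [e2]
      have h4 : 5 * t / h ≤ 10 * 2 ^ N := by
        rw [div_le_iff₀ hh]
        nlinarith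
      have h5 : (5 + 4) * (5 * t / h) * B ≤ (5 + 4) * (10 * 2 ^ N) * B := by gcongr
      refine h5.trans ?_
      have h6 : 2 ^ N * B ≤ 2 ^ N * (C₀ * B) := by gcongr
      have h7 : 57600 * C₀ * 2 ^ N * B = 57600 * (2 ^ N * (C₀ * B)) := by ring
      rw [h7] at hbig
      nlinarith [hbig, h6]
    have h8 := h2.trans h3
    have h9 : ‖m‖ ≤ ‖ext f ((1 - t : ℝ) * E x₀)‖ + ‖m‖ / 8 + ‖m‖ / 8 := by
      calc ‖m‖ = ‖ext f ((1 - t : ℝ) * E x₀) -
            (ext f ((1 - t : ℝ) * E x₀) - avg f (x₀ - t / 2) (x₀ + t / 2)) -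
            (avg f (x₀ - t / 2) (x₀ + t / 2) - m)‖ := by ring_nf
        _ ≤ ‖ext f ((1 - t : ℝ) * E x₀)‖ +
            ‖ext f ((1 - t : ℝ) * E x₀) - avg f (x₀ - t / 2) (x₀ + t / 2)‖ +
            ‖avg f (x₀ - t / 2) (x₀ + t / 2) - m‖ := by
          refine (norm_sub_le _ _).trans ?_
          gcongr
          exact norm_sub_le _ _
        _ ≤ _ := by gcongr
    linarith [norm_nonneg m]
  · -- Case 3b
    have hWt : W t ≤ C₀ * 2 ^ k * W h := by
      have h1 := hW.mono t ℓ ht hcase (by linarith)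
      have h2 := hW.growth h ℓ hh hhℓ (by linarith)
      have e : ℓ / h = 2 ^ k := by rw [hℓ]; field_simp
      rw [e] at h2
      exact h1.trans h2
    -- choose the dyadic scale
    have hex : ∃ n : ℕ, ℓ / 2 ^ n ≤ t := by
      obtain ⟨n, hn'⟩ := pow_unbounded_of_one_lt (ℓ / t) (by norm_num : (1 : ℝ) < 2)
      refine ⟨n, ?_⟩
      rw [div_le_iff₀ (by positivity)]
      rw [div_lt_iff₀ ht] at hn'
      linarith
    classical
    obtain ⟨n, hn1, hn2⟩ : ∃ n : ℕ, ℓ / 2 ^ n ≤ t ∧ t / 2 ≤ ℓ / 2 ^ n := by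
      refine ⟨Nat.find hex, Nat.find_spec hex, ?_⟩
      rcases Nat.eq_zero_or_pos (Nat.find hex) with h0 | h0
      · rw [h0, pow_zero, div_one]
        linarith
      · have h1 := Nat.find_min hex (m := Nat.find hex - 1) (by omega)
        push Not at h1
        obtain ⟨j, hj⟩ : ∃ j, Nat.find hex = j + 1 := ⟨Nat.find hex - 1, by omega⟩
        rw [hj] at h1 ⊢
        rw [Nat.add_sub_cancel] at h1
        have e : ℓ / 2 ^ (j + 1) = ℓ / 2 ^ j / 2 := by rw [pow_succ]; field_simp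
        rw [e]
        linarith
    set q : ℝ := ℓ / 2 ^ n with hqdef
    have hq0 : 0 < q := by positivity
    obtain ⟨a', ha1, ha2, ha3, ha4⟩ := bad_cover (g := f) (c := m) (α := ‖m‖ / 2) n hℓ0 hx₀p
    rw [← hqdef] at ha2 ha3 ha4
    have havg : ‖avg f a' (a' + q) - m‖ ≤ ‖m‖ / 2 := by
      by_contra hcon
      push Not at hcon
      have hsub := ha4 hcon
      have h1 : q * (1 / (196 * t)) ≤ extR b ((1 - t : ℝ) * E x₀) := by
        apply extR_lower hbp hbi hb0 hz hq0.le (by linarith) (p := a')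
        · intro x hx
          apply hpb x ⟨by linarith [hx.1], by linarith [hx.2]⟩
          exact mem_iUnion.2 ⟨n, hsub hx⟩
        · intro x hx
          apply P_lower ht ht1
          rw [abs_le]
          exact ⟨by linarith [hx.1, ha3.2], by linarith [hx.2, ha3.1]⟩
      have h2 : 1 / 392 ≤ q * (1 / (196 * t)) := by
        rw [mul_one_div, div_le_div_iff₀ (by norm_num) (by positivity)]
        linarith
      linarith
    have h1 : ‖ext f ((1 - t : ℝ) * E x₀) - avg f (x₀ - t / 2) (x₀ + t / 2)‖ ≤ ‖m‖ / 8 := by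
      refine hclose.trans ?_
      have : 3600 * (A * C₀ * W t) ≤ 3600 * (A * C₀ * (C₀ * 2 ^ N * W h)) := by
        have h2k : (2 : ℝ) ^ k ≤ 2 ^ N := pow_le_pow_right₀ (by norm_num) hk.le
        have : W t ≤ C₀ * 2 ^ N * W h := hWt.trans (by gcongr)
        gcongr
      refine this.trans ?_
      have e : 3600 * (A * C₀ * (C₀ * 2 ^ N * W h)) =
          (57600 * C₀ * 2 ^ N * (A * C₀ * W h)) / 16 := by ring
      rw [e]
      linarith [norm_nonneg m]
    have h2 := hf.compare hW (x₁ := x₀) (h := t) (s := 2 * t) (p := a') (q := q) ht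
      (by linarith) (by linarith) hq0 (by linarith [ha3.2]) (by linarith [ha3.1])
    have h3 : (2 * t / q + 4) * (2 * t / t) * (A * C₀ * W t) ≤ ‖m‖ / 8 := by
      have e2 : 2 * t / t = 2 := by field_simp
      have e3 : 2 * t / q ≤ 4 := by
        rw [div_le_iff₀ hq0]; linarith
      rw [e2]
      have hWt0 := hW.pos t ht ht1
      have h2k : (2 : ℝ) ^ k ≤ 2 ^ N := pow_le_pow_right₀ (by norm_num) hk.le
      have : W t ≤ C₀ * 2 ^ N * W h := hWt.trans (by gcongr)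
      have h4 : (2 * t / q + 4) * 2 * (A * C₀ * W t) ≤
          (4 + 4) * 2 * (A * C₀ * (C₀ * 2 ^ N * W h)) := by
        gcongr
      refine h4.trans ?_
      have e : (4 + 4) * 2 * (A * C₀ * (C₀ * 2 ^ N * W h)) =
          (57600 * C₀ * 2 ^ N * (A * C₀ * W h)) / 3600 := by ring
      rw [e]
      linarith [norm_nonneg m]
    have h8 := h2.trans h3
    have h9 : ‖m‖ ≤ ‖ext f ((1 - t : ℝ) * E x₀)‖ + ‖m‖ / 8 + ‖m‖ / 8 + ‖m‖ / 2 := by
      calc ‖m‖ = ‖ext f ((1 - t : ℝ) * E x₀) -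
            (ext f ((1 - t : ℝ) * E x₀) - avg f (x₀ - t / 2) (x₀ + t / 2)) +
            (avg f a' (a' + q) - avg f (x₀ - t / 2) (x₀ + t / 2)) -
            (avg f a' (a' + q) - m)‖ := by ring_nf
        _ ≤ ‖ext f ((1 - t : ℝ) * E x₀)‖ +
            ‖ext f ((1 - t : ℝ) * E x₀) - avg f (x₀ - t / 2) (x₀ + t / 2)‖ +
            ‖avg f a' (a' + q) - avg f (x₀ - t / 2) (x₀ + t / 2)‖ + ‖avg f a' (a' + q) - m‖ := by
          refine (norm_sub_le _ _).trans ?_
          gcongr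
          refine (norm_add_le _ _).trans ?_
          gcongr
          exact norm_sub_le _ _
        _ ≤ _ := by gcongr
    linarith [norm_nonneg m]

/-- Main geometric lemma: where the Poisson integral of the weight is small, `f` is large and the
point is close to the circle. -/
lemma good_point (hf : FData f W A) (hn : NoNeg f) (hW : WData W C₀) {x₁ h : ℝ} {N : ℕ}
    (hh : 0 < h) (hN : 1 ≤ N) (hH : (2 ^ N - 1) * h ≤ 1 / 10)
    (hbig : 57600 * C₀ * 2 ^ N * (A * C₀ * W h) ≤ ‖avg f (x₁ - h / 2) (x₁ + h / 2)‖)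
    {z : ℂ} (hz : ‖z‖ < 1) (hv : extR (wgt f x₁ h N) z < 1 / 784) :
    ‖avg f (x₁ - h / 2) (x₁ + h / 2)‖ / 4 ≤ ‖ext f z‖ ∧ 1 - ‖z‖ < 2 ^ (N + 1) * h := by
  obtain ⟨x₀, hx₀, hz'⟩ := exists_eq_mul_E z (x₁ - 1 / 2)
  set t : ℝ := 1 - ‖z‖ with ht
  have ht0 : 0 < t := by linarith
  have ht1 : t ≤ 1 := by linarith [norm_nonneg z]
  have hz2 : z = ((1 - t : ℝ) : ℂ) * E x₀ := by
    have e : (1 - t : ℝ) = ‖z‖ := by rw [ht]; ring
    rw [e]
    exact hz'
  set H : ℝ := (2 ^ N - 1) * h with hHdef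
  have h2N : (2 : ℝ) ≤ 2 ^ N := by
    calc (2 : ℝ) = 2 ^ 1 := by norm_num
      _ ≤ 2 ^ N := pow_le_pow_right₀ (by norm_num) hN
  have hH0 : 0 ≤ H := by
    apply mul_nonneg _ hh.le
    linarith
  rw [hz2] at hv
  have hnotfar : x₀ ≠ x₁ - H → |x₀ - x₁| < H := by
    intro hne
    by_contra hcon
    push Not at hcon
    rcases far_point f hH0 hH ht0 ht1 hx₀ (Or.inl hcon) with h1 | h1
    · linarith
    · exact hne h1
  have hx₀near : x₁ - H ≤ x₀ ∧ x₀ < x₁ + H := by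
    by_cases hne : x₀ = x₁ - H
    · rw [hne]
      have : 0 < H := by
        apply mul_pos _ hh
        linarith
      exact ⟨le_rfl, by linarith⟩
    · have := abs_lt.1 (hnotfar hne)
      exact ⟨by linarith, by linarith⟩
  have htH : t < 2 * H := by
    by_contra hcon
    push Not at hcon
    rcases far_point f hH0 hH ht0 ht1 hx₀ (Or.inr hcon) with h1 | h1
    · linarith
    · -- the exceptional point: treat directly
      have hz1 : ‖((1 - t : ℝ) : ℂ) * E x₀‖ < 1 := by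
        rw [norm_mul_E (by linarith)]; linarith
      set q : ℝ := min t (1 / 4) with hq
      have hq0 : 0 < q := lt_min ht0 (by norm_num)
      have hqt : q ≤ t := min_le_left _ _
      have hq4 : q ≤ 1 / 4 := min_le_right _ _
      have hqv : 1 / 784 ≤ q * (1 / (196 * t)) := by
        rw [mul_one_div, div_le_div_iff₀ (by norm_num) (by positivity)]
        rcases min_cases t (1 / 4 : ℝ) with h1 | h1
        · rw [hq, h1.1]; linarith
        · rw [hq, h1.1]; linarith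
      have := extR_lower (wgt_periodic f x₁ h N) (wgt_integrable f x₁ h N 0 1)
        (wgt_nonneg f x₁ h N) hz1 hq0.le (by linarith) (p := x₀ - q) (κ := 1 / (196 * t))
        (fun x hx => wgt_far_left f (by linarith [hx.1]) (by linarith [hx.2]) hH0)
        (fun x hx => P_lower ht0 ht1 (by
          rw [abs_le]
          exact ⟨by linarith [hx.1], by linarith [hx.2]⟩))
      linarith
  refine ⟨?_, ?_⟩
  · -- find the shell
    rw [hz2]
    rcases le_or_gt x₁ x₀ with h1 | h1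
    · obtain ⟨k, hk, hk1, hk2⟩ := shell_right (h := h) N (u := x₀ - x₁) (by linarith)
        (by linarith [hx₀near.2])
      have hk3 : (2 : ℝ) ^ (k + 1) ≤ 2 ^ N := pow_le_pow_right₀ (by norm_num) (by omega)
      have hk4 : (1 : ℝ) ≤ 2 ^ k := one_le_pow₀ (by norm_num)
      have hkk : (2 : ℝ) ^ (k + 1) = 2 * 2 ^ k := by ring
      apply near_point hf hn hW hh hH hbig ht0 htH hk (p := pR x₁ h k) _ _
        (wgt_periodic f x₁ h N) (wgt_integrable f x₁ h N 0 1) (wgt_nonneg f x₁ h N) _ hv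
      · unfold pR
        constructor
        · linarith
        · rw [hkk] at hk2
          nlinarith
      · rw [abs_of_nonneg (by linarith)]
        exact hk2.le
      · intro x hx hxb
        have hxp : x ∈ Ico (x₁ - 1 / 2) (x₁ - 1 / 2 + 1) := by
          unfold pR at hx
          constructor
          · have : 0 ≤ (2 ^ k - 1) * h := mul_nonneg (by linarith) hh.le
            linarith [hx.1]
          · have : (2 ^ k - 1) * h + 2 ^ k * h ≤ H := by
              rw [hHdef]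
              nlinarith
            linarith [hx.2]
        rw [← perI_eq_one (c := x₁ - 1 / 2) (x := x) (S := TR f x₁ h k) hxp hxb]
        exact wgt_ge_R f x₁ h hk x
    · obtain ⟨k, hk, hk1, hk2⟩ := shell_left (h := h) N (u := x₁ - x₀) (by linarith)
        (by linarith [hx₀near.1])
      have hk3 : (2 : ℝ) ^ (k + 1) ≤ 2 ^ N := pow_le_pow_right₀ (by norm_num) (by omega)
      have hk4 : (1 : ℝ) ≤ 2 ^ k := one_le_pow₀ (by norm_num)
      have hkk : (2 : ℝ) ^ (k + 1) = 2 * 2 ^ k := by ring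
      apply near_point hf hn hW hh hH hbig ht0 htH hk (p := pL x₁ h k) _ _
        (wgt_periodic f x₁ h N) (wgt_integrable f x₁ h N 0 1) (wgt_nonneg f x₁ h N) _ hv
      · unfold pL
        rw [hkk] at hk2 ⊢
        constructor
        · linarith
        · nlinarith
      · rw [abs_of_neg (by linarith)]
        linarith
      · intro x hx hxb
        have hxp : x ∈ Ico (x₁ - 1 / 2) (x₁ - 1 / 2 + 1) := by
          unfold pL at hx
          rw [hkk] at hx hk3
          have h5 : (2 * 2 ^ k - 1) * h ≤ H := by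
            rw [hHdef]
            nlinarith
          constructor
          · linarith [hx.1]
          · nlinarith [hx.2]
        rw [← perI_eq_one (c := x₁ - 1 / 2) (x := x) (S := TL f x₁ h k) hxp hxb]
        exact wgt_ge_L f x₁ h hk x
  · have : 2 * H ≤ 2 ^ (N + 1) * h := by
      rw [hHdef, pow_succ]
      nlinarith
    linarith

end Pool.Agent.H94.Div
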