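import Pool.Agent.H94.Div.Suff2

open MeasureTheory Real Set
open scoped Interval Topology

namespace Pool.Agent.H94.Div

/-! ### Kernel bounds for slightly longer distances -/

lemma norm_E_sub_ge_third {r : ℝ} (hr : 0 ≤ r) {x y : ℝ} (h : |x - y| ≤ 3 / 4) :
    |x - y| ≤ 3 * ‖E x - r * E y‖ := by
  rcases le_or_gt |x - y| (1 / 2) with h1 | h1
  · have := norm_E_sub_ge_abs hr h1
    linarith [abs_nonneg (x - y)]
  · rcases le_or_gt 0 (x - y) with h2 | h2
    · rw [abs_of_nonneg h2] at h h1 ⊢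
      have e : E x = E (x - 1) := by rw [← E_add_one (x - 1)]; ring_nf
      rw [e]
      have h3 : |x - 1 - y| ≤ 1 / 2 := by rw [abs_le]; exact ⟨by linarith, by linarith⟩
      have h4 := norm_E_sub_ge_abs hr h3
      have h5 : 1 / 4 ≤ |x - 1 - y| := by
        rw [abs_of_neg (by linarith)]; linarith
      linarith
    · rw [abs_of_neg h2] at h h1 ⊢
      rw [← E_add_one x]
      have h3 : |x + 1 - y| ≤ 1 / 2 := by rw [abs_le]; exact ⟨by linarith, by linarith⟩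
      have h4 := norm_E_sub_ge_abs hr h3
      have h5 : 1 / 4 ≤ |x + 1 - y| := by
        rw [abs_of_pos (by linarith)]; linarith
      linarith

lemma norm_lt_one {t y : ℝ} (ht : 0 < t) (ht1 : t ≤ 1) : ‖((1 - t : ℝ) : ℂ) * E y‖ < 1 := by
  rw [norm_mul_E (by linarith)]; linarith

lemma P_upper {t r x y : ℝ} (ht : 0 < t) (ht1 : t ≤ 1) (hr : 0 < r) (hrx : r ≤ |x - y|)
    (hx : |x - y| ≤ 3 / 4) : P ((1 - t : ℝ) * E y) x ≤ 18 * t / r ^ 2 := by
  have h1 := norm_E_sub_ge_third (r := 1 - t) (by linarith) hx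
  have h2 : r / 3 ≤ ‖E x - ((1 - t : ℝ) : ℂ) * E y‖ := by linarith
  unfold P
  rw [norm_mul_E (by linarith)]
  have h3 : (r / 3) ^ 2 ≤ ‖E x - ((1 - t : ℝ) : ℂ) * E y‖ ^ 2 := by gcongr
  have h4 : 0 < (r / 3) ^ 2 := by positivity
  calc (1 - (1 - t) ^ 2) / ‖E x - ((1 - t : ℝ) : ℂ) * E y‖ ^ 2 ≤ (2 * t) / (r / 3) ^ 2 := by
        apply div_le_div₀ (by positivity) (by nlinarith) h4 h3
    _ = _ := by field_simp; ring

/-- comparison with the kernel at a lower point -/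
lemma P_compare {t r x y : ℝ} (ht : 0 < t) (ht1 : t ≤ 1) (hr : 0 < r) (hr1 : r ≤ 1)
    (hrx : r ≤ |x - y|) (hx : |x - y| ≤ 3 / 4) :
    P ((1 - t : ℝ) * E y) x ≤ 956 * (t / r) * P ((1 - r : ℝ) * E y) x := by
  have h1 := norm_E_sub_ge_third (r := 1 - t) (by linarith) hx
  have h2 := norm_E_sub_le (r := 1 - r) (by linarith) (by linarith) x y
  have h0 : 0 < |x - y| := lt_of_lt_of_le hr hrx
  have hpos : 0 < ‖E x - ((1 - t : ℝ) : ℂ) * E y‖ := norm_E_sub_pos (norm_lt_one ht ht1) x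
  have hpos' : 0 < ‖E x - ((1 - r : ℝ) : ℂ) * E y‖ := norm_E_sub_pos (norm_lt_one hr hr1) x
  have h3 : ‖E x - ((1 - r : ℝ) : ℂ) * E y‖ ≤ 21.86 * ‖E x - ((1 - t : ℝ) : ℂ) * E y‖ := by
    have h4 : ‖E x - ((1 - r : ℝ) : ℂ) * E y‖ ≤ (1 + 2 * π) * |x - y| := by linarith
    have h5 : (1 + 2 * π) * |x - y| ≤ 7.285 * |x - y| := by
      gcongr
      linarith [Real.pi_lt_d4]
    linarith
  have h6 : ‖E x - ((1 - r : ℝ) : ℂ) * E y‖ ^ 2 ≤
      478 * ‖E x - ((1 - t : ℝ) : ℂ) * E y‖ ^ 2 := by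
    calc _ ≤ (21.86 * ‖E x - ((1 - t : ℝ) : ℂ) * E y‖) ^ 2 := by gcongr
      _ = 21.86 ^ 2 * ‖E x - ((1 - t : ℝ) : ℂ) * E y‖ ^ 2 := by ring
      _ ≤ _ := by gcongr; norm_num
  unfold P
  rw [norm_mul_E (by linarith), norm_mul_E (by linarith)]
  set X := ‖E x - ((1 - t : ℝ) : ℂ) * E y‖
  set Y := ‖E x - ((1 - r : ℝ) : ℂ) * E y‖
  have e : 956 * (t / r) * ((1 - (1 - r) ^ 2) / Y ^ 2) = (956 * t * (2 - r)) / Y ^ 2 := by
    field_simp
    ring
  rw [e, div_le_div_iff₀ (by positivity) (by positivity)]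
  have h7 : 1 - (1 - t) ^ 2 ≤ 2 * t := by nlinarith
  have h8 : 0 ≤ 1 - (1 - t) ^ 2 := by nlinarith
  calc (1 - (1 - t) ^ 2) * Y ^ 2 ≤ (2 * t) * (478 * X ^ 2) := by gcongr
    _ = 956 * t * 1 * X ^ 2 := by ring
    _ ≤ 956 * t * (2 - r) * X ^ 2 := by gcongr; linarith

lemma extR_far {c : ℝ} {S : Set ℝ} (hS : MeasurableSet S) (hSc : S ⊆ Ico c (c + 1)) {y t r : ℝ}
    (ht : 0 < t) (ht1 : t ≤ 1) (hr : 0 < r) (hr1 : r ≤ 1) (h1 : ∀ x ∈ S, r ≤ |x - y|)
    (h2 : ∀ x ∈ S, |x - y| ≤ 3 / 4) :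
    extR (perI c S) ((1 - t : ℝ) * E y) ≤ 956 * (t / r) := by
  rw [extR_periodic_eq (perI_periodic c S) _ c, integral_mul_perI hS hSc]
  have hz := norm_lt_one (y := y) ht ht1
  have hz' := norm_lt_one (y := y) hr hr1
  have hint : ∀ {z : ℂ}, ‖z‖ < 1 → IntegrableOn (P z) (Ico c (c + 1)) := fun hz =>
    ((continuous_P hz).continuousOn.integrableOn_Icc).mono_set Ico_subset_Icc_self
  calc ∫ x in S, P ((1 - t : ℝ) * E y) x ≤
        ∫ x in S, 956 * (t / r) * P ((1 - r : ℝ) * E y) x := by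
        apply setIntegral_mono_on ((hint hz).mono_set hSc)
          (((hint hz').mono_set hSc).const_mul _) hS
        intro x hx
        exact P_compare ht ht1 hr hr1 (h1 x hx) (h2 x hx)
    _ = 956 * (t / r) * ∫ x in S, P ((1 - r : ℝ) * E y) x := by rw [integral_const_mul]
    _ ≤ 956 * (t / r) * ∫ x in Ico c (c + 1), P ((1 - r : ℝ) * E y) x := by
        apply mul_le_mul_of_nonneg_left _ (by positivity)
        exact setIntegral_mono_set (hint hz') (.of_forall fun x => P_nonneg hz' x)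
          hSc.eventuallyLE
    _ = 956 * (t / r) * 1 := by
        congr 1
        rw [integral_Ico_eq_integral_Ioo, ← integral_Ioc_eq_integral_Ioo,
          ← intervalIntegral.integral_of_le (by linarith), per_int (P_periodic _), integral_P hz']
    _ = _ := mul_one _

lemma extR_add {b b' : ℝ → ℝ} (hb : IntervalIntegrable b volume 0 1)
    (hb' : IntervalIntegrable b' volume 0 1) {z : ℂ} (hz : ‖z‖ < 1) :
    extR (fun x => b x + b' x) z = extR b z + extR b' z := by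
  unfold extR
  rw [← intervalIntegral.integral_add (hb.continuousOn_mul (continuous_P hz).continuousOn)
    (hb'.continuousOn_mul (continuous_P hz).continuousOn)]
  congr 1
  funext x
  ring

lemma extR_sum {N : ℕ} {b : ℕ → ℝ → ℝ} (hb : ∀ k, IntervalIntegrable (b k) volume 0 1)
    {z : ℂ} (hz : ‖z‖ < 1) :
    extR (fun x => ∑ k ∈ Finset.range N, b k x) z = ∑ k ∈ Finset.range N, extR (b k) z := by
  unfold extR
  rw [← intervalIntegral.integral_finsetSum fun k _ =>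
    (hb k).continuousOn_mul (continuous_P hz).continuousOn]
  congr 1
  funext x
  rw [Finset.mul_sum]

lemma extR_wgt (f : ℝ → ℂ) (x₁ h : ℝ) (N : ℕ) {z : ℂ} (hz : ‖z‖ < 1) :
    extR (wgt f x₁ h N) z = extR (perI (x₁ - 1 / 2) (farSet x₁ ((2 ^ N - 1) * h))) z +
      ∑ k ∈ Finset.range N, (extR (perI (x₁ - 1 / 2) (TR f x₁ h k)) z +
        extR (perI (x₁ - 1 / 2) (TL f x₁ h k)) z) := by
  have h1 : ∀ k, IntervalIntegrable (fun x => perI (x₁ - 1 / 2) (TR f x₁ h k) x +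
      perI (x₁ - 1 / 2) (TL f x₁ h k) x) volume 0 1 := fun k =>
    (perI_integrable (TR_measurable _ _ _ _) _ _ _).add
      (perI_integrable (TL_measurable _ _ _ _) _ _ _)
  have h2 : IntervalIntegrable (fun x => ∑ k ∈ Finset.range N,
      (perI (x₁ - 1 / 2) (TR f x₁ h k) x + perI (x₁ - 1 / 2) (TL f x₁ h k) x)) volume 0 1 := by
    have : IntervalIntegrable (∑ k ∈ Finset.range N, fun x =>
        (perI (x₁ - 1 / 2) (TR f x₁ h k) x + perI (x₁ - 1 / 2) (TL f x₁ h k) x)) volume 0 1 :=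
      IntervalIntegrable.sum _ fun k _ => h1 k
    convert this using 1
    funext x
    simp
  have h3 := extR_add (perI_integrable (farSet_measurable x₁ ((2 ^ N - 1) * h)) (x₁ - 1 / 2) 0 1)
    h2 hz
  have h4 : extR (wgt f x₁ h N) z = extR (fun x =>
      perI (x₁ - 1 / 2) (farSet x₁ ((2 ^ N - 1) * h)) x + ∑ k ∈ Finset.range N,
      (perI (x₁ - 1 / 2) (TR f x₁ h k) x + perI (x₁ - 1 / 2) (TL f x₁ h k) x)) z := rfl
  rw [h4, h3, extR_sum h1 hz]
  congr 1
  apply Finset.sum_congr rfl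
  intro k _
  exact extR_add (perI_integrable (TR_measurable _ _ _ _) _ _ _)
    (perI_integrable (TL_measurable _ _ _ _) _ _ _) hz

variable {f : ℝ → ℂ} {W : ℝ → ℝ} {A C₀ : ℝ}

/-- The standing assumptions for one interval `[x₁-h/2, x₁+h/2]`. -/
structure Big (f : ℝ → ℂ) (W : ℝ → ℝ) (A C₀ x₁ h lam : ℝ) (N : ℕ) : Prop where
  hf : FData f W A
  hn : NoNeg f
  hW : WData W C₀
  hh : 0 < h
  hlam : 10000 ≤ lam
  hN1 : 2 ^ N ≤ lam
  hN2 : lam < 2 ^ (N + 1)
  hlh : lam * h ≤ 1 / 10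
  hbig : 57600 * C₀ * lam * (A * C₀ * W h) ≤ ‖avg f (x₁ - h / 2) (x₁ + h / 2)‖

variable {x₁ h lam : ℝ} {N : ℕ}

lemma Big.N_pos (hB : Big f W A C₀ x₁ h lam N) : 1 ≤ N := by
  by_contra hcon
  have h0 : N = 0 := by omega
  have h1 := hB.hN2
  have h2 := hB.hlam
  rw [h0] at h1
  norm_num at h1
  linarith

lemma Big.two_pow (hB : Big f W A C₀ x₁ h lam N) : (5000 : ℝ) ≤ 2 ^ N := by
  have h1 := hB.hN2
  have h2 := hB.hlam
  rw [pow_succ] at h1
  linarith

lemma Big.H_le (hB : Big f W A C₀ x₁ h lam N) : (2 ^ N - 1) * h ≤ 1 / 10 := by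
  have h1 := hB.hN1
  have h2 := hB.hh
  have h3 := hB.hlh
  nlinarith

lemma Big.H_ge (hB : Big f W A C₀ x₁ h lam N) : lam * h / 4 ≤ (2 ^ N - 1) * h := by
  have h1 := hB.hN2
  have h2 := hB.hh
  have h3 := hB.two_pow
  rw [pow_succ] at h1
  nlinarith

lemma Big.h_le (hB : Big f W A C₀ x₁ h lam N) : h ≤ 1 / 100000 := by
  have h1 := hB.hlam
  have h2 := hB.hh
  have h3 := hB.hlh
  nlinarith

lemma Big.B_pos (hB : Big f W A C₀ x₁ h lam N) : 0 < A * C₀ * W h := by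
  have h1 := hB.hf.pos
  have h2 := hB.hW.one_le
  have h3 := hB.hW.pos h hB.hh (by linarith [hB.h_le])
  positivity

lemma Big.big' (hB : Big f W A C₀ x₁ h lam N) :
    128 * lam * (A * C₀ * W h) ≤ ‖avg f (x₁ - h / 2) (x₁ + h / 2)‖ := by
  refine le_trans ?_ hB.hbig
  have h2 := hB.hW.one_le
  have h3 := hB.B_pos
  have h4 : 0 < lam := by linarith [hB.hlam]
  have h5 : 0 < lam * (A * C₀ * W h) := by positivity
  nlinarith

lemma Big.bigN (hB : Big f W A C₀ x₁ h lam N) :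
    57600 * C₀ * 2 ^ N * (A * C₀ * W h) ≤ ‖avg f (x₁ - h / 2) (x₁ + h / 2)‖ := by
  refine le_trans ?_ hB.hbig
  have h2 := hB.hW.one_le
  have h3 := hB.B_pos
  have h4 := hB.hN1
  gcongr

lemma Big.m_pos (hB : Big f W A C₀ x₁ h lam N) : 0 < ‖avg f (x₁ - h / 2) (x₁ + h / 2)‖ := by
  have h4 : 0 < lam := by linarith [hB.hlam]
  have := hB.big'
  have h3 := hB.B_pos
  have h5 : 0 < 128 * lam * (A * C₀ * W h) := by positivity
  linarith

/-- volume of the bad set in a shell -/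
lemma Big.vol (hB : Big f W A C₀ x₁ h lam N) {k : ℕ} (hk : k < N) {p : ℝ}
    (hp1 : x₁ - 2 ^ (k + 1) * h ≤ p) (hp2 : p + 2 ^ k * h ≤ x₁ + 2 ^ (k + 1) * h) :
    volume (Bad f (avg f (x₁ - h / 2) (x₁ + h / 2)) (‖avg f (x₁ - h / 2) (x₁ + h / 2)‖ / 2)
      p (2 ^ k * h)) ≤ ENNReal.ofReal ((2 ^ k / (16 * lam)) ^ 2 * (2 ^ k * h)) := by
  set m := avg f (x₁ - h / 2) (x₁ + h / 2) with hm
  set B : ℝ := A * C₀ * W h with hBdef
  have hh := hB.hh
  have hB0 := hB.B_pos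
  have hm0 := hB.m_pos
  have hbig := hB.big'
  have hN1 := hB.hN1
  have hlam0 : 0 < lam := by linarith [hB.hlam]
  have hlh := hB.hlh
  have hk2 : (2 : ℝ) ^ (k + 1) ≤ 2 ^ N := pow_le_pow_right₀ (by norm_num) (by omega)
  have hkk : (2 : ℝ) ^ (k + 1) = 2 * 2 ^ k := by ring
  have hkpos : (1 : ℝ) ≤ 2 ^ k := one_le_pow₀ (by norm_num)
  have h2kh : 2 ^ (k + 1) * h ≤ 1 / 10 := by
    calc 2 ^ (k + 1) * h ≤ lam * h := by gcongr; linarith
      _ ≤ _ := hlh
  have hℓ0 : 0 < 2 ^ k * h := by positivity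
  have hkB : 2 * 2 ^ k * B ≤ lam * B := by
    gcongr
    linarith
  have hvol := Bad_volume (g := f) (c := m) hB.hf.li (A := ‖m‖) (β := 2 ^ k * B) (a := p)
    (ℓ := 2 ^ k * h) hm0 (by positivity) (by linarith) hℓ0 ?_ ?_
  · refine hvol.trans (ENNReal.ofReal_le_ofReal ?_)
    have h1 : 8 * (2 ^ k * B) / ‖m‖ ≤ 2 ^ k / (16 * lam) := by
      rw [div_le_div_iff₀ hm0 (by positivity)]
      calc 8 * (2 ^ k * B) * (16 * lam) = 2 ^ k * (128 * lam * B) := by ring
        _ ≤ 2 ^ k * ‖m‖ := by gcongr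
    have h2 : 0 ≤ 8 * (2 ^ k * B) / ‖m‖ := by positivity
    gcongr
  · intro a' ℓ' h1 h2
    have h3 : ℓ' ≤ 1 := by
      have : 2 ^ k * h ≤ 2 ^ (k + 1) * h := by
        gcongr
        · norm_num
        · omega
      linarith
    refine (hB.hf.osc a' ℓ' h1 h3).mono ?_ (by linarith)
    have h4 : 2 ^ k * h ≤ 1 := by
      have : 2 ^ k * h ≤ 2 ^ (k + 1) * h := by
        gcongr
        · norm_num
        · omega
      linarith
    have h5 := hB.hW.mono ℓ' (2 ^ k * h) h1 h2 h4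
    have h6 := hB.hW.growth h (2 ^ k * h) hh (by nlinarith) h4
    have e : 2 ^ k * h / h = 2 ^ k := by field_simp
    rw [e] at h6
    have hA := hB.hf.pos
    calc A * W ℓ' ≤ A * (C₀ * 2 ^ k * W h) := by
          apply mul_le_mul_of_nonneg_left (h5.trans h6) hA.le
      _ = _ := by rw [hBdef]; ring
  · have h1 := hB.hf.compare hB.hW (x₁ := x₁) (h := h) (s := 2 ^ (k + 2) * h) (p := p)
      (q := 2 ^ k * h) hh (by
        have : (1 : ℝ) ≤ 2 ^ (k + 2) := one_le_pow₀ (by norm_num)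
        nlinarith) (by
        have : (2 : ℝ) ^ (k + 2) = 2 * 2 ^ (k + 1) := by ring
        rw [this]; linarith) hℓ0 (by
        have : (2 : ℝ) ^ (k + 2) = 2 * 2 ^ (k + 1) := by ring
        rw [this]; linarith) (by
        have : (2 : ℝ) ^ (k + 2) = 2 * 2 ^ (k + 1) := by ring
        rw [this]; linarith)
    have e1 : (2 : ℝ) ^ (k + 2) * h / (2 ^ k * h) = 4 := by
      rw [pow_add]; field_simp; norm_num
    have e2 : (2 : ℝ) ^ (k + 2) * h / h = 4 * 2 ^ k := by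
      rw [pow_add]; field_simp; norm_num
    rw [e1, e2] at h1
    refine h1.trans ?_
    have h3 : (4 + 4) * (4 * 2 ^ k) * (A * C₀ * W h) = 16 * (2 * 2 ^ k * B) := by
      rw [hBdef]; ring
    rw [h3]
    linarith

lemma Big.volR (hB : Big f W A C₀ x₁ h lam N) {k : ℕ} (hk : k < N) :
    volume (TR f x₁ h k) ≤ ENNReal.ofReal ((2 ^ k / (16 * lam)) ^ 2 * (2 ^ k * h)) := by
  have hh := hB.hh
  have hkk : (2 : ℝ) ^ (k + 1) = 2 * 2 ^ k := by ring
  have hkpos : (1 : ℝ) ≤ 2 ^ k := one_le_pow₀ (by norm_num)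
  apply hB.vol hk
  · unfold pR; nlinarith
  · unfold pR; rw [hkk]; nlinarith

lemma Big.volL (hB : Big f W A C₀ x₁ h lam N) {k : ℕ} (hk : k < N) :
    volume (TL f x₁ h k) ≤ ENNReal.ofReal ((2 ^ k / (16 * lam)) ^ 2 * (2 ^ k * h)) := by
  have hh := hB.hh
  have hkk : (2 : ℝ) ^ (k + 1) = 2 * 2 ^ k := by ring
  have hkpos : (1 : ℝ) ≤ 2 ^ k := one_le_pow₀ (by norm_num)
  apply hB.vol hk
  · unfold pL; rw [hkk]; nlinarith
  · unfold pL; rw [hkk]; nlinarith

lemma Big.TR_sub (hB : Big f W A C₀ x₁ h lam N) {k : ℕ} (_hk : k < N) :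
    TR f x₁ h k ⊆ Ico (x₁ + (2 ^ k - 1) * h) (x₁ + (2 * 2 ^ k - 1) * h) := by
  have hh := hB.hh
  refine (Bad_subset (by positivity)).trans ?_
  unfold pR
  apply Ico_subset_Ico le_rfl
  linarith

lemma Big.TL_sub (hB : Big f W A C₀ x₁ h lam N) {k : ℕ} (_hk : k < N) :
    TL f x₁ h k ⊆ Ico (x₁ - (2 * 2 ^ k - 1) * h) (x₁ - (2 ^ k - 1) * h) := by
  have hh := hB.hh
  refine (Bad_subset (by positivity)).trans ?_
  unfold pL
  have hkk : (2 : ℝ) ^ (k + 1) = 2 * 2 ^ k := by ring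
  rw [hkk]
  apply Ico_subset_Ico le_rfl
  linarith

lemma Big.pow_le (hB : Big f W A C₀ x₁ h lam N) {k : ℕ} (hk : k < N) :
    (2 * 2 ^ k - 1) * h ≤ 1 / 10 := by
  have hh := hB.hh
  have hk2 : (2 : ℝ) ^ (k + 1) ≤ 2 ^ N := pow_le_pow_right₀ (by norm_num) (by omega)
  have hkk : (2 : ℝ) ^ (k + 1) = 2 * 2 ^ k := by ring
  have := hB.H_le
  rw [hkk] at hk2
  nlinarith

lemma Big.TR_sub_period (hB : Big f W A C₀ x₁ h lam N) {k : ℕ} (hk : k < N) :
    TR f x₁ h k ⊆ Ico (x₁ - 1 / 2) (x₁ - 1 / 2 + 1) := by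
  have hh := hB.hh
  have h1 := hB.pow_le hk
  have hkpos : (1 : ℝ) ≤ 2 ^ k := one_le_pow₀ (by norm_num)
  have h2 : 0 ≤ (2 ^ k - 1) * h := mul_nonneg (by linarith) hh.le
  exact (hB.TR_sub hk).trans (Ico_subset_Ico (by linarith) (by linarith))

lemma Big.TL_sub_period (hB : Big f W A C₀ x₁ h lam N) {k : ℕ} (hk : k < N) :
    TL f x₁ h k ⊆ Ico (x₁ - 1 / 2) (x₁ - 1 / 2 + 1) := by
  have hh := hB.hh
  have h1 := hB.pow_le hk
  have hkpos : (1 : ℝ) ≤ 2 ^ k := one_le_pow₀ (by norm_num)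
  have h2 : 0 ≤ (2 ^ k - 1) * h := mul_nonneg (by linarith) hh.le
  exact (hB.TL_sub hk).trans (Ico_subset_Ico (by linarith) (by linarith))

/-- the near part of the Poisson integral -/
noncomputable def GG (f : ℝ → ℂ) (x₁ h : ℝ) (z : ℂ) : ℝ :=
  extR (perI (x₁ - 1 / 2) (TR f x₁ h 0)) z + extR (perI (x₁ - 1 / 2) (TL f x₁ h 0)) z

lemma Big.shell_term (hB : Big f W A C₀ x₁ h lam N) {k : ℕ} (hk : k < N) (hk1 : 1 ≤ k)
    {y : ℝ} (hy : |y - x₁| ≤ h / 2) :
    extR (perI (x₁ - 1 / 2) (TR f x₁ h k)) ((1 - h / lam : ℝ) * E y) +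
      extR (perI (x₁ - 1 / 2) (TL f x₁ h k)) ((1 - h / lam : ℝ) * E y) ≤
      9 / 4 * 2 ^ k / lam ^ 3 := by
  have hh := hB.hh
  have hlam0 : 0 < lam := by linarith [hB.hlam]
  have ht : 0 < h / lam := by positivity
  have ht1 : h / lam ≤ 1 := by
    rw [div_le_one hlam0]
    linarith [hB.h_le, hB.hlam]
  have hz := norm_lt_one (y := y) ht ht1
  have hk2 : (2 : ℝ) ≤ 2 ^ k := by
    calc (2 : ℝ) = 2 ^ 1 := by norm_num
      _ ≤ 2 ^ k := pow_le_pow_right₀ (by norm_num) hk1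
  have h10 := hB.pow_le hk
  have hy' := abs_le.1 hy
  have hhs := hB.h_le
  have hκ : 0 ≤ 18 * (h / lam) / (2 ^ k * h / 4) ^ 2 := by positivity
  have hV : 0 ≤ (2 ^ k / (16 * lam)) ^ 2 * (2 ^ k * h) := by positivity
  have e : 18 * (h / lam) / (2 ^ k * h / 4) ^ 2 * ((2 ^ k / (16 * lam)) ^ 2 * (2 ^ k * h)) =
      9 / 8 * 2 ^ k / lam ^ 3 := by
    field_simp
    ring
  have hkh : 2 * h ≤ 2 ^ k * h := by gcongr
  have h1 : extR (perI (x₁ - 1 / 2) (TR f x₁ h k)) ((1 - h / lam : ℝ) * E y) ≤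
      9 / 8 * 2 ^ k / lam ^ 3 := by
    rw [← e]
    apply extR_perI_le (TR_measurable _ _ _ _) (hB.TR_sub_period hk) hz hκ hV _ (hB.volR hk)
    intro x hx
    have hx' := hB.TR_sub hk hx
    have h3 : 2 ^ k * h / 4 ≤ x - y := by nlinarith [hx'.1]
    apply P_upper ht ht1 (by positivity)
    · exact h3.trans (le_abs_self _)
    · rw [abs_of_nonneg (by linarith)]
      linarith [hx'.2]
  have h2 : extR (perI (x₁ - 1 / 2) (TL f x₁ h k)) ((1 - h / lam : ℝ) * E y) ≤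
      9 / 8 * 2 ^ k / lam ^ 3 := by
    rw [← e]
    apply extR_perI_le (TL_measurable _ _ _ _) (hB.TL_sub_period hk) hz hκ hV _ (hB.volL hk)
    intro x hx
    have hx' := hB.TL_sub hk hx
    have h3 : 2 ^ k * h / 4 ≤ -(x - y) := by nlinarith [hx'.2]
    apply P_upper ht ht1 (by positivity)
    · exact h3.trans (neg_le_abs _)
    · rw [abs_of_nonpos (by linarith)]
      linarith [hx'.1]
  calc _ ≤ 9 / 8 * 2 ^ k / lam ^ 3 + 9 / 8 * 2 ^ k / lam ^ 3 := add_le_add h1 h2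
    _ = _ := by ring

lemma Big.v_le (hB : Big f W A C₀ x₁ h lam N) {y : ℝ} (hy : |y - x₁| ≤ h / 2) :
    extR (wgt f x₁ h N) ((1 - h / lam : ℝ) * E y) ≤
      7651 / lam ^ 2 + GG f x₁ h ((1 - h / lam : ℝ) * E y) := by
  have hh := hB.hh
  have hlam0 : 0 < lam := by linarith [hB.hlam]
  have ht : 0 < h / lam := by positivity
  have hhs := hB.h_le
  have ht1 : h / lam ≤ 1 := by
    rw [div_le_one hlam0]
    linarith [hB.hlam]
  have hz := norm_lt_one (y := y) ht ht1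
  have hy' := abs_le.1 hy
  rw [extR_wgt f x₁ h N hz]
  set H : ℝ := (2 ^ N - 1) * h with hH
  have hH1 := hB.H_le
  have hH2 := hB.H_ge
  rw [← hH] at hH1 hH2
  have hlamh : 10000 * h ≤ lam * h := by
    have := hB.hlam
    gcongr
  have hhH : h ≤ H := by linarith
  have hH0 : 0 < H := by linarith
  -- far part
  have hfar : extR (perI (x₁ - 1 / 2) (farSet x₁ H)) ((1 - h / lam : ℝ) * E y) ≤
      7648 / lam ^ 2 := by
    have hsub : farSet x₁ H ⊆ Ico (x₁ - 1 / 2) (x₁ - 1 / 2 + 1) := by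
      apply union_subset
      · exact Ico_subset_Ico le_rfl (by linarith)
      · exact Ico_subset_Ico (by linarith) (by linarith)
    have h1 := extR_far (farSet_measurable x₁ H) hsub (y := y) (t := h / lam) (r := H / 2) ht ht1
      (by linarith) (by linarith) ?_ ?_
    · refine h1.trans ?_
      have h2 : h / lam / (H / 2) ≤ 8 / lam ^ 2 := by
        rw [div_div, div_le_div_iff₀ (by positivity) (by positivity)]
        nlinarith
      calc 956 * (h / lam / (H / 2)) ≤ 956 * (8 / lam ^ 2) := by gcongr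
        _ = _ := by ring
    · intro x hx
      rcases hx with hx | hx
      · exact le_trans (by linarith [hx.2]) (neg_le_abs (x - y))
      · exact le_trans (by linarith [hx.1]) (le_abs_self (x - y))
    · intro x hx
      rw [abs_le]
      rcases hx with hx | hx
      · exact ⟨by linarith [hx.1], by linarith [hx.2]⟩
      · exact ⟨by linarith [hx.1], by linarith [hx.2]⟩
  -- shells
  have hsum : ∑ k ∈ Finset.range N, (extR (perI (x₁ - 1 / 2) (TR f x₁ h k))
      ((1 - h / lam : ℝ) * E y) + extR (perI (x₁ - 1 / 2) (TL f x₁ h k))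
      ((1 - h / lam : ℝ) * E y)) ≤ 3 / lam ^ 2 + GG f x₁ h ((1 - h / lam : ℝ) * E y) := by
    have h1 : ∀ k ∈ Finset.range N, (extR (perI (x₁ - 1 / 2) (TR f x₁ h k))
        ((1 - h / lam : ℝ) * E y) + extR (perI (x₁ - 1 / 2) (TL f x₁ h k))
        ((1 - h / lam : ℝ) * E y)) ≤
        9 / 4 / lam ^ 3 * 2 ^ k + if k = 0 then GG f x₁ h ((1 - h / lam : ℝ) * E y) else 0 := by
      intro k hk
      rcases Nat.eq_zero_or_pos k with h0 | h0
      · subst h0
        rw [if_pos rfl]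
        have : 0 ≤ 9 / 4 / lam ^ 3 * 2 ^ 0 := by positivity
        unfold GG
        linarith
      · rw [if_neg (by omega), add_zero]
        have := hB.shell_term (Finset.mem_range.1 hk) h0 hy
        refine this.trans (le_of_eq ?_)
        ring
    refine (Finset.sum_le_sum h1).trans ?_
    rw [Finset.sum_add_distrib, ← Finset.mul_sum, Finset.sum_ite_eq', if_pos
      (Finset.mem_range.2 (by have := hB.N_pos; omega))]
    have h2 : ∑ k ∈ Finset.range N, (2 : ℝ) ^ k = 2 ^ N - 1 := by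
      rw [geom_sum_eq (by norm_num)]; ring
    rw [h2]
    have h3 : 9 / 4 / lam ^ 3 * (2 ^ N - 1) ≤ 3 / lam ^ 2 := by
      have : (2 : ℝ) ^ N - 1 ≤ lam := by linarith [hB.hN1]
      calc 9 / 4 / lam ^ 3 * (2 ^ N - 1) ≤ 9 / 4 / lam ^ 3 * lam := by gcongr
        _ = 9 / 4 / lam ^ 2 := by field_simp
        _ ≤ _ := by gcongr; norm_num
    linarith
  have e : 7651 / lam ^ 2 = 7648 / lam ^ 2 + 3 / lam ^ 2 := by ring
  rw [e]
  linarith

lemma GG_nonneg (f : ℝ → ℂ) (x₁ h : ℝ) {z : ℂ} (hz : ‖z‖ < 1) :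
    0 ≤ GG f x₁ h z := by
  unfold GG
  exact add_nonneg (extR_nonneg (perI_nonneg _ _) hz) (extR_nonneg (perI_nonneg _ _) hz)

lemma Big.GG_le (hB : Big f W A C₀ x₁ h lam N) (y : ℝ) :
    GG f x₁ h ((1 - h / lam : ℝ) * E y) ≤ 1 / (64 * lam) := by
  have hh := hB.hh
  have hlam0 : 0 < lam := by linarith [hB.hlam]
  have ht : 0 < h / lam := by positivity
  have ht1 : h / lam ≤ 1 := by
    rw [div_le_one hlam0]
    linarith [hB.h_le, hB.hlam]
  have hz := norm_lt_one (y := y) ht ht1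
  have hN := hB.N_pos
  have hκ : ∀ x, P ((1 - h / lam : ℝ) * E y) x ≤ 2 / (h / lam) := by
    intro x
    have := P_le hz x
    rwa [norm_mul_E (by linarith), sub_sub_cancel] at this
  have hV : (0 : ℝ) ≤ (2 ^ 0 / (16 * lam)) ^ 2 * (2 ^ 0 * h) := by positivity
  have h1 := extR_perI_le (TR_measurable f x₁ h 0) (hB.TR_sub_period (by omega)) hz
    (κ := 2 / (h / lam)) (by positivity) hV (fun x _ => hκ x) (hB.volR (by omega))
  have h2 := extR_perI_le (TL_measurable f x₁ h 0) (hB.TL_sub_period (by omega)) hz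
    (κ := 2 / (h / lam)) (by positivity) hV (fun x _ => hκ x) (hB.volL (by omega))
  unfold GG
  refine (add_le_add h1 h2).trans (le_of_eq ?_)
  field_simp
  ring

lemma extR_circle_integral {b : ℝ → ℝ} (hbp : Function.Periodic b 1)
    (hbi : IntervalIntegrable b volume 0 1) (hb0 : ∀ x, 0 ≤ b x) {r : ℝ} (hr0 : 0 ≤ r)
    (hr1 : r < 1) {a c : ℝ} (hac : a ≤ c) (hc : c ≤ a + 1) :
    ∫ y in a..c, extR b (r * E y) ≤ ∫ x in (0 : ℝ)..1, b x := by
  have hLI : LI (fun x => (b x : ℂ)) := by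
    apply LI_of_periodic
    · intro x; simp only [hbp x]
    · exact ⟨hbi.1.ofReal, hbi.2.ofReal⟩
  have h1 := ext_contract hLI hr0 hr1
  have h2 : ∀ x : ℝ, ‖ext (fun x => (b x : ℂ)) (r * E x)‖ = extR b (r * E x) := by
    intro x
    rw [ext_ofReal, Complex.norm_real, Real.norm_of_nonneg]
    exact extR_nonneg hb0 (by rw [norm_mul_E hr0]; exact hr1)
  have hcont : Continuous (fun x : ℝ => extR b (r * E x)) := by
    have := (continuous_ext_circle hLI hr0 hr1).norm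
    simpa only [h2] using this
  have h3 : ∀ x : ℝ, ‖(b x : ℂ)‖ = b x := by
    intro x
    rw [Complex.norm_real, Real.norm_of_nonneg (hb0 x)]
  simp only [h2, h3] at h1
  refine le_trans ?_ h1
  have hper : Function.Periodic (fun y : ℝ => extR b (r * E y)) 1 := by
    intro y; simp only [E_add_one]
  rw [← per_int hper a]
  apply intervalIntegral.integral_mono_interval le_rfl hac hc
  · exact .of_forall fun x => extR_nonneg hb0 (by rw [norm_mul_E hr0]; exact hr1)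
  · exact hcont.intervalIntegrable _ _

lemma integral_perI_le {c : ℝ} {S : Set ℝ} (hS : MeasurableSet S) (hSc : S ⊆ Ico c (c + 1))
    {V : ℝ} (hV : 0 ≤ V) (hvol : volume S ≤ ENNReal.ofReal V) :
    ∫ x in (0 : ℝ)..1, perI c S x ≤ V := by
  rw [← per_int (perI_periodic c S) c]
  have h1 := integral_mul_perI (k := fun _ => (1 : ℝ)) hS hSc
  simp only [one_mul] at h1
  rw [h1, setIntegral_const, smul_eq_mul, mul_one]
  exact ENNReal.toReal_le_of_le_ofReal hV hvol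

lemma continuous_extR_circle {b : ℝ → ℝ} (hbp : Function.Periodic b 1)
    (hbi : IntervalIntegrable b volume 0 1) {r : ℝ} (hr0 : 0 ≤ r)
    (hr1 : r < 1) : Continuous (fun x : ℝ => extR b (r * E x)) := by
  have hLI : LI (fun x => (b x : ℂ)) := by
    apply LI_of_periodic
    · intro x; simp only [hbp x]
    · exact ⟨hbi.1.ofReal, hbi.2.ofReal⟩
  have h1 := continuous_ext_circle hLI hr0 hr1
  have h2 : (fun x : ℝ => ext (fun x => (b x : ℂ)) (r * E x)) =
      fun x => (extR b (r * E x) : ℂ) := by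
    funext x
    rw [ext_ofReal]
  rw [h2] at h1
  exact Complex.continuous_re.comp h1

lemma Big.int_v_le (hB : Big f W A C₀ x₁ h lam N) :
    ∫ y in (x₁ - h / 2)..(x₁ + h / 2), extR (wgt f x₁ h N) ((1 - h / lam : ℝ) * E y) ≤
      7652 * h / lam ^ 2 := by
  have hh := hB.hh
  have hlam0 : 0 < lam := by linarith [hB.hlam]
  have ht : 0 < h / lam := by positivity
  have hhs := hB.h_le
  have hN := hB.N_pos
  have ht1 : h / lam ≤ 1 := by
    rw [div_le_one hlam0]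
    linarith [hB.hlam]
  have hr0 : 0 ≤ 1 - h / lam := by linarith
  have hr1 : 1 - h / lam < 1 := by linarith
  have hcR := continuous_extR_circle (perI_periodic (x₁ - 1 / 2) (TR f x₁ h 0))
    (perI_integrable (TR_measurable f x₁ h 0) _ 0 1) hr0 hr1
  have hcL := continuous_extR_circle (perI_periodic (x₁ - 1 / 2) (TL f x₁ h 0))
    (perI_integrable (TL_measurable f x₁ h 0) _ 0 1) hr0 hr1
  have hcW := continuous_extR_circle (wgt_periodic f x₁ h N) (wgt_integrable f x₁ h N 0 1) hr0 hr1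
  have hab : x₁ - h / 2 ≤ x₁ + h / 2 := by linarith
  have hV : (0 : ℝ) ≤ (2 ^ 0 / (16 * lam)) ^ 2 * (2 ^ 0 * h) := by positivity
  have hIR := (extR_circle_integral (perI_periodic (x₁ - 1 / 2) (TR f x₁ h 0))
    (perI_integrable (TR_measurable f x₁ h 0) _ 0 1) (perI_nonneg _ _) hr0 hr1 hab
    (by linarith)).trans (integral_perI_le (TR_measurable f x₁ h 0)
      (hB.TR_sub_period (by omega)) hV (hB.volR (by omega)))
  have hIL := (extR_circle_integral (perI_periodic (x₁ - 1 / 2) (TL f x₁ h 0))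
    (perI_integrable (TL_measurable f x₁ h 0) _ 0 1) (perI_nonneg _ _) hr0 hr1 hab
    (by linarith)).trans (integral_perI_le (TL_measurable f x₁ h 0)
      (hB.TL_sub_period (by omega)) hV (hB.volL (by omega)))
  calc ∫ y in (x₁ - h / 2)..(x₁ + h / 2), extR (wgt f x₁ h N) ((1 - h / lam : ℝ) * E y) ≤
        ∫ y in (x₁ - h / 2)..(x₁ + h / 2), (7651 / lam ^ 2 +
          (extR (perI (x₁ - 1 / 2) (TR f x₁ h 0)) ((1 - h / lam : ℝ) * E y) +
          extR (perI (x₁ - 1 / 2) (TL f x₁ h 0)) ((1 - h / lam : ℝ) * E y))) := by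
        apply intervalIntegral.integral_mono_on hab (hcW.intervalIntegrable _ _)
          ((continuous_const.add (hcR.add hcL)).intervalIntegrable _ _)
        intro y hy
        apply hB.v_le
        rw [abs_le]
        exact ⟨by linarith [hy.1], by linarith [hy.2]⟩
    _ = 7651 / lam ^ 2 * h +
        ((∫ y in (x₁ - h / 2)..(x₁ + h / 2),
          extR (perI (x₁ - 1 / 2) (TR f x₁ h 0)) ((1 - h / lam : ℝ) * E y)) +
        ∫ y in (x₁ - h / 2)..(x₁ + h / 2),
          extR (perI (x₁ - 1 / 2) (TL f x₁ h 0)) ((1 - h / lam : ℝ) * E y)) := by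
        have e1 := intervalIntegral.integral_add (μ := volume) (a := x₁ - h / 2) (b := x₁ + h / 2)
          (f := fun _ => 7651 / lam ^ 2) (g := fun y : ℝ =>
          (extR (perI (x₁ - 1 / 2) (TR f x₁ h 0)) ((1 - h / lam : ℝ) * E y) +
          extR (perI (x₁ - 1 / 2) (TL f x₁ h 0)) ((1 - h / lam : ℝ) * E y)))
          intervalIntegrable_const ((hcR.add hcL).intervalIntegrable _ _)
        rw [e1, intervalIntegral.integral_add
          (hcR.intervalIntegrable _ _) (hcL.intervalIntegrable _ _),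
          intervalIntegral.integral_const, smul_eq_mul]
        ring
    _ ≤ 7651 / lam ^ 2 * h + ((2 ^ 0 / (16 * lam)) ^ 2 * (2 ^ 0 * h) +
        (2 ^ 0 / (16 * lam)) ^ 2 * (2 ^ 0 * h)) := by gcongr
    _ = (7651 + 1 / 128) * h / lam ^ 2 := by field_simp; ring
    _ ≤ _ := by gcongr; norm_num

end Pool.Agent.H94.Div
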