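import Pool.Agent.H94.Div.Suff3

open MeasureTheory Real Set
open scoped Interval Topology

namespace Pool.Agent.H94.Div

/-- the data of an inner function -/
structure Inner (θ : ℝ → ℂ) : Prop where
  per : Function.Periodic θ 1
  li : LI θ
  nn : NoNeg θ
  one : ∀ᵐ x : ℝ, ‖θ x‖ = 1

variable {f θ : ℝ → ℂ} {W : ℝ → ℝ} {A C₀ x₁ h lam : ℝ} {N : ℕ}

lemma Inner.ae_le (hθ : Inner θ) : ∀ᵐ x : ℝ, ‖θ x‖ ≤ 1 := by
  filter_upwards [hθ.one] with x hx
  exact hx.le

lemma Inner.norm_le (hθ : Inner θ) {z : ℂ} (hz : ‖z‖ < 1) : ‖ext θ z‖ ≤ 1 :=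
  norm_ext_le_one hθ.ae_le hz

lemma Inner.diff (hθ : Inner θ) : DifferentiableOn ℂ (ext θ) (Metric.ball 0 1) :=
  ext_differentiableOn hθ.per hθ.li hθ.nn

/-- mean deviation of an inner function with respect to the Poisson kernel -/
lemma Inner.dev (hθ : Inner θ) {w : ℂ} (hw : ‖w‖ < 1) {μ : ℝ} (hμ : 0 < μ) :
    ∫ x in (0 : ℝ)..1, P w x * ‖θ x - ext θ w‖ ≤ μ / 2 + (1 - ‖ext θ w‖ ^ 2) / (2 * μ) := by
  have hv := var_formula hθ.li hθ.one hw
  have hsq : IntervalIntegrable (fun x => ‖θ x - ext θ w‖ ^ 2) volume 0 1 := by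
    have h1 : IntervalIntegrable (fun x => ‖θ x - ext θ w‖) volume 0 1 :=
      hθ.li.norm_sub _ _ _
    have h2 : IntervalIntegrable (fun x => 2 * ‖θ x - ext θ w‖) volume 0 1 := h1.const_mul 2
    refine h2.mono_fun ?_ ?_
    · exact (h1.aestronglyMeasurable_restrict_uIoc).pow 2
    · refine ae_restrict_of_ae ?_
      filter_upwards [hθ.one] with x hx
      have h3 : ‖θ x - ext θ w‖ ≤ 2 := by
        refine (norm_sub_le _ _).trans ?_
        have := hθ.norm_le hw
        linarith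
      rw [Real.norm_of_nonneg (by positivity), Real.norm_of_nonneg (by positivity)]
      nlinarith [norm_nonneg (θ x - ext θ w)]
  calc ∫ x in (0 : ℝ)..1, P w x * ‖θ x - ext θ w‖ ≤
      ∫ x in (0 : ℝ)..1, (μ / 2 * P w x + 1 / (2 * μ) * (P w x * ‖θ x - ext θ w‖ ^ 2)) := by
        apply intervalIntegral.integral_mono_on zero_le_one
        · exact (hθ.li.norm_sub _ _ _).continuousOn_mul (continuous_P hw).continuousOn
        · apply IntervalIntegrable.add
          · exact (continuous_const.mul (continuous_P hw)).intervalIntegrable _ _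
          · exact (hsq.continuousOn_mul (continuous_P hw).continuousOn).const_mul _
        · intro x _
          have hP := P_nonneg hw x
          set s := ‖θ x - ext θ w‖
          have h1 : s ≤ μ / 2 + 1 / (2 * μ) * s ^ 2 := by
            have : μ / 2 + 1 / (2 * μ) * s ^ 2 - s = (μ - s) ^ 2 / (2 * μ) := by
              field_simp; ring
            have h2 : 0 ≤ (μ - s) ^ 2 / (2 * μ) := by positivity
            linarith
          nlinarith
    _ = μ / 2 + (1 - ‖ext θ w‖ ^ 2) / (2 * μ) := by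
        have e := intervalIntegral.integral_add (μ := volume) (a := (0 : ℝ)) (b := 1)
          (f := fun x => μ / 2 * P w x) (g := fun x => 1 / (2 * μ) *
            (P w x * ‖θ x - ext θ w‖ ^ 2))
          ((continuous_const.mul (continuous_P hw)).intervalIntegrable _ _)
          ((hsq.continuousOn_mul (continuous_P hw).continuousOn).const_mul _)
        rw [e, intervalIntegral.integral_const_mul, intervalIntegral.integral_const_mul,
          integral_P hw, hv]
        ring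

lemma Inner.dev' (hθ : Inner θ) {w : ℂ} (hw : ‖w‖ < 1) {μ : ℝ} (hμ : 0 < μ) (c : ℂ) :
    ∫ x in (0 : ℝ)..1, P w x * ‖θ x - c‖ ≤
      μ / 2 + (1 - ‖ext θ w‖ ^ 2) / (2 * μ) + ‖ext θ w - c‖ := by
  have h1 := hθ.dev hw hμ
  have i1 : IntervalIntegrable (fun x => P w x * ‖θ x - ext θ w‖) volume 0 1 :=
    (hθ.li.norm_sub _ _ _).continuousOn_mul (continuous_P hw).continuousOn
  calc ∫ x in (0 : ℝ)..1, P w x * ‖θ x - c‖ ≤
      ∫ x in (0 : ℝ)..1, (P w x * ‖θ x - ext θ w‖ + P w x * ‖ext θ w - c‖) := by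
        apply intervalIntegral.integral_mono_on zero_le_one
        · exact (hθ.li.norm_sub _ _ _).continuousOn_mul (continuous_P hw).continuousOn
        · exact i1.add (((continuous_P hw).mul continuous_const).intervalIntegrable _ _)
        · intro x _
          rw [← mul_add]
          apply mul_le_mul_of_nonneg_left _ (P_nonneg hw x)
          exact norm_sub_le_norm_sub_add_norm_sub _ _ _
    _ = (∫ x in (0 : ℝ)..1, P w x * ‖θ x - ext θ w‖) + ‖ext θ w - c‖ := by
        have e := intervalIntegral.integral_add (μ := volume) (a := (0 : ℝ)) (b := 1)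
          (f := fun x => P w x * ‖θ x - ext θ w‖) (g := fun x => P w x * ‖ext θ w - c‖)
          i1 (((continuous_P hw).mul continuous_const).intervalIntegrable _ _)
        rw [e, intervalIntegral.integral_mul_const, integral_P hw, one_mul]
    _ ≤ _ := by linarith

/-- on the region where the weight is small, the inner function is bounded below -/
lemma Big.lower (hB : Big f W A C₀ x₁ h lam N) {ε K : ℝ} (hK : 0 ≤ K)
    (hiii : ∀ z : ℂ, ‖z‖ < 1 → ‖ext θ z‖ < ε → ‖ext f z‖ ≤ K * W (1 - ‖z‖))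
    (hKb : 8 * K * C₀ * lam * W h < ‖avg f (x₁ - h / 2) (x₁ + h / 2)‖) {z : ℂ}
    (hz : ‖z‖ < 1) (hv : extR (wgt f x₁ h N) z < 1 / 784) : ε ≤ ‖ext θ z‖ := by
  by_contra hcon
  push Not at hcon
  obtain ⟨h1, h2⟩ := good_point hB.hf hB.hn hB.hW hB.hh hB.N_pos hB.H_le hB.bigN hz hv
  have h3 := hiii z hz hcon
  set t := 1 - ‖z‖ with ht
  have ht0 : 0 < t := by linarith
  have ht1 : t ≤ 1 := by linarith [norm_nonneg z]
  have hh := hB.hh
  have hh1 : h ≤ 1 := by linarith [hB.h_le]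
  have hC := hB.hW.one_le
  have hWh := hB.hW.pos h hh hh1
  have h2N : (1 : ℝ) ≤ 2 ^ (N + 1) := one_le_pow₀ (by norm_num)
  have hWt : W t ≤ C₀ * 2 ^ (N + 1) * W h := by
    rcases le_or_gt t h with hth | hth
    · have := hB.hW.mono t h ht0 hth hh1
      have h4 : 1 ≤ C₀ * 2 ^ (N + 1) := by nlinarith
      nlinarith
    · have h4 := hB.hW.growth h t hh hth.le ht1
      refine h4.trans ?_
      have : t / h ≤ 2 ^ (N + 1) := by
        rw [div_le_iff₀ hh]; linarith
      gcongr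
  have hN1 := hB.hN1
  have h5 : K * W t ≤ K * (C₀ * (2 * lam) * W h) := by
    apply mul_le_mul_of_nonneg_left _ hK
    refine hWt.trans ?_
    have : (2 : ℝ) ^ (N + 1) ≤ 2 * lam := by rw [pow_succ]; linarith
    gcongr
  have e : K * (C₀ * (2 * lam) * W h) = (8 * K * C₀ * lam * W h) / 4 := by ring
  rw [e] at h5
  linarith

/-- the constant controlling `1 - |Θ|²` -/
lemma Big.one_sub_le (hB : Big f W A C₀ x₁ h lam N) (hθ : Inner θ) {ε K : ℝ} (hε0 : 0 < ε)
    (hε1 : ε < 1) (hK : 0 ≤ K)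
    (hiii : ∀ z : ℂ, ‖z‖ < 1 → ‖ext θ z‖ < ε → ‖ext f z‖ ≤ K * W (1 - ‖z‖))
    (hKb : 8 * K * C₀ * lam * W h < ‖avg f (x₁ - h / 2) (x₁ + h / 2)‖) {y : ℝ}
    (hy : |y - x₁| ≤ h / 2) :
    1 - ‖ext θ ((1 - h / lam : ℝ) * E y)‖ ^ 2 ≤
      3136 * (-Real.log ε) * extR (wgt f x₁ h N) ((1 - h / lam : ℝ) * E y) := by
  have hh := hB.hh
  have hlam0 : 0 < lam := by linarith [hB.hlam]
  have ht : 0 < h / lam := by positivity
  have hhs := hB.h_le
  have ht1 : h / lam ≤ 1 := by
    rw [div_le_one hlam0]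
    linarith [hB.hlam]
  have hz := norm_lt_one (y := y) ht ht1
  have hv : extR (wgt f x₁ h N) ((1 - h / lam : ℝ) * E y) < 1 / 784 := by
    have h1 := hB.v_le hy
    have h2 := hB.GG_le y
    have h3 : 7651 / lam ^ 2 ≤ 7651 / 10000 ^ 2 := by
      have := hB.hlam
      gcongr
    have h4 : 1 / (64 * lam) ≤ 1 / (64 * 10000) := by
      have := hB.hlam
      gcongr
    have h5 : (7651 : ℝ) / 10000 ^ 2 + 1 / (64 * 10000) < 1 / 784 := by norm_num
    linarith
  have hlow := hB.lower hK hiii hKb hz hv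
  have hkey := key_lemma hθ.per hθ.li hθ.nn hθ.one (wgt_periodic f x₁ h N)
    (wgt_integrable f x₁ h N 0 1) (wgt_nonneg f x₁ h N) hε0 hε1 (c₁ := 1 / 784) (by norm_num)
    (fun z hz hv => hB.lower hK hiii hKb hz hv) hz hv
  set X := ‖ext θ ((1 - h / lam : ℝ) * E y)‖ with hX
  have hX0 : 0 < X := lt_of_lt_of_le hε0 hlow
  have hX1 : X ≤ 1 := hθ.norm_le hz
  have h5 : Real.log X ≤ X - 1 := Real.log_le_sub_one_of_pos hX0
  have h6 : 1 - X ^ 2 ≤ 2 * (1 - X) := by nlinarith
  have h7 : 2 * -Real.log ε / (1 / 784) = 1568 * (-Real.log ε) := by ring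
  rw [h7] at hkey
  linarith

lemma continuous_w {t : ℝ} : Continuous (fun y : ℝ => ((1 - t : ℝ) : ℂ) * E y) :=
  continuous_const.mul continuous_E

/-- integrated form -/
lemma Big.int_one_sub_le (hB : Big f W A C₀ x₁ h lam N) (hθ : Inner θ) {ε K : ℝ} (hε0 : 0 < ε)
    (hε1 : ε < 1) (hK : 0 ≤ K)
    (hiii : ∀ z : ℂ, ‖z‖ < 1 → ‖ext θ z‖ < ε → ‖ext f z‖ ≤ K * W (1 - ‖z‖))
    (hKb : 8 * K * C₀ * lam * W h < ‖avg f (x₁ - h / 2) (x₁ + h / 2)‖) :
    ∫ y in (x₁ - h / 2)..(x₁ + h / 2), (1 - ‖ext θ ((1 - h / lam : ℝ) * E y)‖ ^ 2) ≤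
      24000000 * (-Real.log ε) * (h / lam ^ 2) := by
  have hh := hB.hh
  have hlam0 : 0 < lam := by linarith [hB.hlam]
  have ht : 0 < h / lam := by positivity
  have hhs := hB.h_le
  have ht1 : h / lam ≤ 1 := by
    rw [div_le_one hlam0]
    linarith [hB.hlam]
  have hr0 : 0 ≤ 1 - h / lam := by linarith
  have hr1 : 1 - h / lam < 1 := by linarith
  have hL : 0 < -Real.log ε := by
    have := Real.log_neg hε0 hε1
    linarith
  have hcθ : Continuous (fun y : ℝ => (1 - ‖ext θ ((1 - h / lam : ℝ) * E y)‖ ^ 2)) :=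
    continuous_const.sub ((continuous_ext_circle hθ.li hr0 hr1).norm.pow 2)
  have hcW := continuous_extR_circle (wgt_periodic f x₁ h N) (wgt_integrable f x₁ h N 0 1) hr0 hr1
  calc ∫ y in (x₁ - h / 2)..(x₁ + h / 2), (1 - ‖ext θ ((1 - h / lam : ℝ) * E y)‖ ^ 2) ≤
      ∫ y in (x₁ - h / 2)..(x₁ + h / 2),
        3136 * (-Real.log ε) * extR (wgt f x₁ h N) ((1 - h / lam : ℝ) * E y) := by
        apply intervalIntegral.integral_mono_on (by linarith) (hcθ.intervalIntegrable _ _)
          ((continuous_const.mul hcW).intervalIntegrable _ _)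
        intro y hy
        apply hB.one_sub_le hθ hε0 hε1 hK hiii hKb
        rw [abs_le]
        exact ⟨by linarith [hy.1], by linarith [hy.2]⟩
    _ = 3136 * (-Real.log ε) * ∫ y in (x₁ - h / 2)..(x₁ + h / 2),
        extR (wgt f x₁ h N) ((1 - h / lam : ℝ) * E y) := by
        rw [intervalIntegral.integral_const_mul]
    _ ≤ 3136 * (-Real.log ε) * (7652 * h / lam ^ 2) := by
        gcongr
        exact hB.int_v_le
    _ = (3136 * 7652) * (-Real.log ε) * (h / lam ^ 2) := by ring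
    _ ≤ _ := by gcongr; norm_num

/-- derivative of `Θ` along a circle -/
lemma Inner.hasDerivAt (hθ : Inner θ) {t : ℝ} (ht : 0 < t) (ht1 : t ≤ 1) (y : ℝ) :
    HasDerivAt (fun y : ℝ => ext θ (((1 - t : ℝ) : ℂ) * E y))
      (deriv (ext θ) (((1 - t : ℝ) : ℂ) * E y) *
        (((1 - t : ℝ) : ℂ) * (2 * π * Complex.I * E y))) y := by
  have hz := norm_lt_one (y := y) ht ht1
  have hmem : ((1 - t : ℝ) : ℂ) * E y ∈ Metric.ball (0 : ℂ) 1 := by simpa using hz
  have h1 := (hθ.diff.differentiableAt (Metric.isOpen_ball.mem_nhds hmem)).hasDerivAt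
  have h2 : HasDerivAt (fun y : ℝ => ((1 - t : ℝ) : ℂ) * E y)
      (((1 - t : ℝ) : ℂ) * (2 * π * Complex.I * E y)) y := (hasDerivAt_E y).const_mul _
  exact h1.comp y h2

lemma Inner.path (hθ : Inner θ) {t : ℝ} (ht : 0 < t) (ht1 : t ≤ 1) {a b : ℝ}
    {y y' : ℝ} (hy : y ∈ Icc a b) (hy' : y' ∈ Icc a b) :
    ‖ext θ (((1 - t : ℝ) : ℂ) * E y) - ext θ (((1 - t : ℝ) : ℂ) * E y')‖ ≤
      2 * π / t * ∫ s in a..b, (1 - ‖ext θ (((1 - t : ℝ) : ℂ) * E s)‖ ^ 2) := by
  wlog hyy : y' ≤ y generalizing y y'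
  · rw [norm_sub_rev]
    exact this hy' hy (le_of_not_ge hyy)
  set G : ℝ → ℂ := fun s => deriv (ext θ) (((1 - t : ℝ) : ℂ) * E s) *
        (((1 - t : ℝ) : ℂ) * (2 * π * Complex.I * E s)) with hG
  have hmem : ∀ s : ℝ, ((1 - t : ℝ) : ℂ) * E s ∈ Metric.ball (0 : ℂ) 1 := fun s => by
    simpa using norm_lt_one (y := s) ht ht1
  have hcG : Continuous G := by
    have h1 : ContinuousOn (deriv (ext θ)) (Metric.ball 0 1) :=
      (hθ.diff.deriv Metric.isOpen_ball).continuousOn
    have h2 : Continuous (fun s : ℝ => deriv (ext θ) (((1 - t : ℝ) : ℂ) * E s)) :=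
      h1.comp_continuous continuous_w hmem
    exact h2.mul (continuous_const.mul (continuous_const.mul continuous_E))
  have hFTC : ∫ s in y'..y, G s = ext θ (((1 - t : ℝ) : ℂ) * E y) -
      ext θ (((1 - t : ℝ) : ℂ) * E y') :=
    intervalIntegral.integral_eq_sub_of_hasDerivAt
      (fun s _ => hθ.hasDerivAt ht ht1 s) (hcG.intervalIntegrable _ _)
  have hcθ : Continuous (fun s : ℝ => (1 - ‖ext θ (((1 - t : ℝ) : ℂ) * E s)‖ ^ 2)) :=
    continuous_const.sub
      ((continuous_ext_circle hθ.li (by linarith) (by linarith)).norm.pow 2)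
  have hbd : ∀ s : ℝ, ‖G s‖ ≤ 2 * π / t * (1 - ‖ext θ (((1 - t : ℝ) : ℂ) * E s)‖ ^ 2) := by
    intro s
    have h1 := schwarz_pick hθ.diff (fun z hz => hθ.norm_le hz) (norm_lt_one (y := s) ht ht1)
    rw [norm_mul_E (by linarith), sub_sub_cancel] at h1
    have h2 : ‖((1 - t : ℝ) : ℂ) * (2 * π * Complex.I * E s)‖ ≤ 2 * π := by
      rw [norm_mul, norm_mul, norm_mul, norm_mul, norm_E, Complex.norm_I, Complex.norm_real,
        Complex.norm_real, Real.norm_of_nonneg Real.pi_pos.le,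
        Real.norm_of_nonneg (by linarith : (0 : ℝ) ≤ 1 - t)]
      norm_num
      nlinarith [Real.pi_pos]
    rw [hG]
    simp only
    rw [norm_mul]
    have h0 : 0 ≤ 1 - ‖ext θ (((1 - t : ℝ) : ℂ) * E s)‖ ^ 2 := by
      have := hθ.norm_le (norm_lt_one (y := s) ht ht1)
      nlinarith [norm_nonneg (ext θ (((1 - t : ℝ) : ℂ) * E s))]
    calc _ ≤ (1 - ‖ext θ (((1 - t : ℝ) : ℂ) * E s)‖ ^ 2) / t * (2 * π) := by gcongr
      _ = _ := by ring
  rw [← hFTC]
  calc ‖∫ s in y'..y, G s‖ ≤ ∫ s in y'..y, ‖G s‖ :=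
        intervalIntegral.norm_integral_le_integral_norm hyy
    _ ≤ ∫ s in y'..y, 2 * π / t * (1 - ‖ext θ (((1 - t : ℝ) : ℂ) * E s)‖ ^ 2) :=
        intervalIntegral.integral_mono_on hyy (hcG.norm.intervalIntegrable _ _)
          ((continuous_const.mul hcθ).intervalIntegrable _ _) fun s _ => hbd s
    _ ≤ ∫ s in a..b, 2 * π / t * (1 - ‖ext θ (((1 - t : ℝ) : ℂ) * E s)‖ ^ 2) := by
        apply intervalIntegral.integral_mono_interval hy'.1 hyy hy.2
        · exact .of_forall fun s => (norm_nonneg _).trans (hbd s)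
        · exact (continuous_const.mul hcθ).intervalIntegrable _ _
    _ = _ := by rw [intervalIntegral.integral_const_mul]

/-- Lower bound for the integrated kernel. -/
lemma kernel_mass {t a b x : ℝ} (ht : 0 < t) (ht1 : t ≤ 1) (hx : x ∈ Icc a b)
    (hab : 4 * t ≤ b - a) :
    1 / 98 ≤ ∫ y in a..b, P ((1 - t : ℝ) * E y) x := by
  have hcont : Continuous (fun y : ℝ => P ((1 - t : ℝ) * E y) x) := by
    have h0 : (fun y : ℝ => P ((1 - t : ℝ) * E y) x) = fun y : ℝ => P ((1 - t : ℝ) * E x) y :=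
      funext fun y => P_symm (1 - t) y x
    rw [h0]
    exact continuous_P (norm_lt_one ht ht1)
  have main : ∀ p : ℝ, a ≤ p → p + 2 * t ≤ b → (∀ y ∈ Icc p (p + 2 * t), |x - y| ≤ 2 * t) →
      1 / 98 ≤ ∫ y in a..b, P ((1 - t : ℝ) * E y) x := by
    intro p h1 h2 h3
    calc (1 : ℝ) / 98 = ∫ _ in p..(p + 2 * t), 1 / (196 * t) := by
          rw [intervalIntegral.integral_const, smul_eq_mul]
          field_simp
          ring
      _ ≤ ∫ y in p..(p + 2 * t), P ((1 - t : ℝ) * E y) x := by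
          apply intervalIntegral.integral_mono_on (by linarith) intervalIntegrable_const
            (hcont.intervalIntegrable _ _)
          intro y hy
          exact P_lower ht ht1 (h3 y hy)
      _ ≤ _ := by
          apply intervalIntegral.integral_mono_interval h1 (by linarith) h2
          · exact .of_forall fun y => P_nonneg (norm_lt_one ht ht1) x
          · exact hcont.intervalIntegrable _ _
  rcases le_or_gt (x + 2 * t) b with h1 | h1
  · apply main x hx.1 h1
    intro y hy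
    rw [abs_le]
    exact ⟨by linarith [hy.2], by linarith [hy.1]⟩
  · apply main (x - 2 * t) (by linarith) (by linarith [hx.2])
    intro y hy
    rw [abs_le]
    exact ⟨by linarith [hy.2], by linarith [hy.1]⟩

/-- Tonelli step -/
lemma Inner.tonelli (hθ : Inner θ) {t a b : ℝ} (ht : 0 < t) (ht1 : t ≤ 1)
    (hab : 4 * t ≤ b - a) (hab1 : b ≤ a + 1) (c : ℂ) :
    ∫ x in a..b, ‖θ x - c‖ ≤
      98 * ∫ y in a..b, ∫ x in (0 : ℝ)..1, P ((1 - t : ℝ) * E y) x * ‖θ x - c‖ := by
  have hle : a ≤ b := by linarith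
  have hr0 : 0 ≤ 1 - t := by linarith
  have hr1 : 1 - t < 1 := by linarith
  have hz : ∀ y : ℝ, ‖((1 - t : ℝ) : ℂ) * E y‖ < 1 := fun y => norm_lt_one ht ht1
  have hni : ∀ p q, IntervalIntegrable (fun x => ‖θ x - c‖) volume p q := hθ.li.norm_sub c
  have hi : Integrable (Function.uncurry fun y x : ℝ => P ((1 - t : ℝ) * E y) x * ‖θ x - c‖)
      ((volume.restrict (Ioc a b)).prod (volume.restrict (Ioc a b))) := by
    have h1 : Integrable (fun p : ℝ × ℝ => ‖θ p.2 - c‖)
        ((volume.restrict (Ioc a b)).prod (volume.restrict (Ioc a b))) := by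
      have h2 : Integrable (fun y : ℝ => ‖θ y - c‖) (volume.restrict (Ioc a b)) := by
        have := hni a b
        rwa [intervalIntegrable_iff, uIoc_of_le hle] at this
      exact h2.comp_snd _
    refine h1.bdd_mul (c := 2 / (1 - (1 - t))) (continuous_P2 hr0 hr1).aestronglyMeasurable
      (.of_forall fun p => ?_)
    rw [Real.norm_of_nonneg (P_nonneg (hz p.1) _)]
    have := P_le (hz p.1) p.2
    rwa [norm_mul_E hr0] at this
  have hswap : ∫ y in a..b, ∫ x in a..b, P ((1 - t : ℝ) * E y) x * ‖θ x - c‖ =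
      ∫ x in a..b, ∫ y in a..b, P ((1 - t : ℝ) * E y) x * ‖θ x - c‖ := by
    simp only [intervalIntegral.integral_of_le hle]
    exact integral_integral_swap hi
  have h1 : ∫ x in a..b, ‖θ x - c‖ ≤
      98 * ∫ x in a..b, ∫ y in a..b, P ((1 - t : ℝ) * E y) x * ‖θ x - c‖ := by
    rw [← intervalIntegral.integral_const_mul]
    have hint : IntervalIntegrable (fun x => 98 * ∫ y in a..b, P ((1 - t : ℝ) * E y) x *
        ‖θ x - c‖) volume a b := by
      apply IntervalIntegrable.const_mul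
      rw [intervalIntegrable_iff, uIoc_of_le hle]
      have := hi.integral_prod_right
      simp only [Function.uncurry] at this
      simp only [intervalIntegral.integral_of_le hle]
      exact this
    apply intervalIntegral.integral_mono_on hle (hni a b) hint
    intro x hx
    rw [intervalIntegral.integral_mul_const]
    have h2 := kernel_mass ht ht1 hx hab
    have h3 : 0 ≤ ‖θ x - c‖ := norm_nonneg _
    nlinarith
  refine h1.trans ?_
  rw [← hswap]
  have hbig : Integrable (Function.uncurry fun y x : ℝ => P ((1 - t : ℝ) * E y) x * ‖θ x - c‖)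
      ((volume.restrict (Ioc a b)).prod (volume.restrict (Ioc (0 : ℝ) 1))) := by
    have h1 : Integrable (fun p : ℝ × ℝ => ‖θ p.2 - c‖)
        ((volume.restrict (Ioc a b)).prod (volume.restrict (Ioc (0 : ℝ) 1))) := by
      have h2 : Integrable (fun y : ℝ => ‖θ y - c‖) (volume.restrict (Ioc (0 : ℝ) 1)) := by
        have := hni 0 1
        rwa [intervalIntegrable_iff, uIoc_of_le zero_le_one] at this
      exact h2.comp_snd _
    refine h1.bdd_mul (c := 2 / (1 - (1 - t))) (continuous_P2 hr0 hr1).aestronglyMeasurable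
      (.of_forall fun p => ?_)
    rw [Real.norm_of_nonneg (P_nonneg (hz p.1) _)]
    have := P_le (hz p.1) p.2
    rwa [norm_mul_E hr0] at this
  apply mul_le_mul_of_nonneg_left _ (by norm_num)
  apply intervalIntegral.integral_mono_on hle
  · rw [intervalIntegrable_iff, uIoc_of_le hle]
    have := hi.integral_prod_left
    simp only [Function.uncurry] at this
    simp only [intervalIntegral.integral_of_le hle]
    exact this
  · rw [intervalIntegrable_iff, uIoc_of_le hle]
    have := hbig.integral_prod_left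
    simp only [Function.uncurry] at this
    simp only [intervalIntegral.integral_of_le zero_le_one]
    exact this
  · intro y _
    have hper : Function.Periodic (fun x => P ((1 - t : ℝ) * E y) x * ‖θ x - c‖) 1 := by
      intro x
      simp only [P_periodic _ x, hθ.per x]
    rw [← per_int hper a]
    apply intervalIntegral.integral_mono_interval le_rfl hle hab1
    · exact .of_forall fun x => mul_nonneg (P_nonneg (hz y) x) (norm_nonneg _)
    · exact (hni _ _).continuousOn_mul (continuous_P (hz y)).continuousOn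

lemma int_affine {G : ℝ → ℝ} (hG : Continuous G) (a b α β γ : ℝ) :
    ∫ y in a..b, (α + β * G y + γ) = (α + γ) * (b - a) + β * ∫ y in a..b, G y := by
  have e1 : ∀ y, α + β * G y + γ = (α + γ) + β * G y := fun y => by ring
  simp only [e1]
  have e := intervalIntegral.integral_add (μ := volume) (a := a) (b := b)
    (f := fun _ => α + γ) (g := fun y => β * G y) intervalIntegrable_const
    ((continuous_const.mul hG).intervalIntegrable _ _)
  rw [e, intervalIntegral.integral_const, intervalIntegral.integral_const_mul, smul_eq_mul]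
  ring

/-- The main estimate for large mean. -/
lemma Big.main (hB : Big f W A C₀ x₁ h lam N) (hθ : Inner θ) {ε K : ℝ} (hε0 : 0 < ε)
    (hε1 : ε < 1) (hK : 0 ≤ K)
    (hiii : ∀ z : ℂ, ‖z‖ < 1 → ‖ext θ z‖ < ε → ‖ext f z‖ ≤ K * W (1 - ‖z‖))
    (hKb : 8 * K * C₀ * lam * W h < ‖avg f (x₁ - h / 2) (x₁ + h / 2)‖) :
    ∃ c : ℂ, ‖c‖ ≤ 1 ∧ ∫ x in (x₁ - h / 2)..(x₁ + h / 2), ‖θ x - c‖ ≤
      (49 + 700 * (24000000 * (-Real.log ε))) * (h / lam) := by
  have hh := hB.hh
  have hlam := hB.hlam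
  have hlam0 : 0 < lam := by linarith
  have ht : 0 < h / lam := by positivity
  have hhs := hB.h_le
  have ht1 : h / lam ≤ 1 := by
    rw [div_le_one hlam0]
    linarith
  have hr0 : 0 ≤ 1 - h / lam := by linarith
  have hr1 : 1 - h / lam < 1 := by linarith
  have hL : 0 < -Real.log ε := by
    have := Real.log_neg hε0 hε1
    linarith
  set t : ℝ := h / lam with htdef
  set C₃ : ℝ := 24000000 * (-Real.log ε) with hC3
  have hC30 : 0 < C₃ := by positivity
  have hV := hB.int_one_sub_le hθ hε0 hε1 hK hiii hKb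
  rw [← htdef, ← hC3] at hV
  set c : ℂ := ext θ (((1 - t : ℝ) : ℂ) * E x₁) with hc
  refine ⟨c, hθ.norm_le (norm_lt_one ht ht1), ?_⟩
  have h4t : 4 * t ≤ (x₁ + h / 2) - (x₁ - h / 2) := by
    have : 4 * t ≤ h := by
      rw [htdef, ← mul_div_assoc, div_le_iff₀ hlam0]
      nlinarith
    linarith
  refine (hθ.tonelli ht ht1 h4t (by linarith) c).trans ?_
  have hcθ : Continuous (fun s : ℝ => (1 - ‖ext θ (((1 - t : ℝ) : ℂ) * E s)‖ ^ 2)) :=
    continuous_const.sub ((continuous_ext_circle hθ.li hr0 hr1).norm.pow 2)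
  have hin : ∀ y ∈ Icc (x₁ - h / 2) (x₁ + h / 2),
      ∫ x in (0 : ℝ)..1, P (((1 - t : ℝ) : ℂ) * E y) x * ‖θ x - c‖ ≤
        1 / (2 * lam) + lam / 2 * (1 - ‖ext θ (((1 - t : ℝ) : ℂ) * E y)‖ ^ 2) +
          6.3 * C₃ / lam := by
    intro y hy
    have h1 := hθ.dev' (norm_lt_one (y := y) ht ht1) (μ := 1 / lam) (by positivity) c
    have h2 := hθ.path ht ht1 (a := x₁ - h / 2) (b := x₁ + h / 2) hy
      (y' := x₁) ⟨by linarith, by linarith⟩
    have h3 : ‖ext θ (((1 - t : ℝ) : ℂ) * E y) - c‖ ≤ 6.3 * C₃ / lam := by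
      refine h2.trans ?_
      calc 2 * π / t * ∫ s in (x₁ - h / 2)..(x₁ + h / 2),
            (1 - ‖ext θ (((1 - t : ℝ) : ℂ) * E s)‖ ^ 2) ≤ 2 * π / t * (C₃ * (h / lam ^ 2)) := by
            apply mul_le_mul_of_nonneg_left hV
            have := Real.pi_pos
            positivity
        _ = 2 * π * C₃ / lam := by
            rw [htdef]
            field_simp
        _ ≤ _ := by
            gcongr
            linarith [Real.pi_lt_d2]
    refine h1.trans ?_
    have e1 : 1 / lam / 2 = 1 / (2 * lam) := by field_simp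
    have e2 : (1 - ‖ext θ (((1 - t : ℝ) : ℂ) * E y)‖ ^ 2) / (2 * (1 / lam)) =
        lam / 2 * (1 - ‖ext θ (((1 - t : ℝ) : ℂ) * E y)‖ ^ 2) := by field_simp
    rw [e1, e2]
    linarith
  have hcont2 : Continuous (fun y : ℝ => 1 / (2 * lam) +
      lam / 2 * (1 - ‖ext θ (((1 - t : ℝ) : ℂ) * E y)‖ ^ 2) + 6.3 * C₃ / lam) :=
    (continuous_const.add (continuous_const.mul hcθ)).add continuous_const
  have hmono : ∫ y in (x₁ - h / 2)..(x₁ + h / 2),
      ∫ x in (0 : ℝ)..1, P (((1 - t : ℝ) : ℂ) * E y) x * ‖θ x - c‖ ≤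
      ∫ y in (x₁ - h / 2)..(x₁ + h / 2), (1 / (2 * lam) +
        lam / 2 * (1 - ‖ext θ (((1 - t : ℝ) : ℂ) * E y)‖ ^ 2) + 6.3 * C₃ / lam) := by
    rw [intervalIntegral.integral_of_le (by linarith), intervalIntegral.integral_of_le
      (by linarith)]
    apply integral_mono_of_nonneg
    · refine .of_forall fun y => ?_
      apply intervalIntegral.integral_nonneg zero_le_one
      intro x _
      exact mul_nonneg (P_nonneg (norm_lt_one ht ht1) x) (norm_nonneg _)
    · have := hcont2.intervalIntegrable (μ := volume) (x₁ - h / 2) (x₁ + h / 2)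
      rwa [intervalIntegrable_iff, uIoc_of_le (by linarith)] at this
    · filter_upwards [ae_restrict_mem measurableSet_Ioc] with y hy
      exact hin y ⟨hy.1.le, hy.2⟩
  have heval : ∫ y in (x₁ - h / 2)..(x₁ + h / 2), (1 / (2 * lam) +
        lam / 2 * (1 - ‖ext θ (((1 - t : ℝ) : ℂ) * E y)‖ ^ 2) + 6.3 * C₃ / lam) =
      h / (2 * lam) + lam / 2 * (∫ y in (x₁ - h / 2)..(x₁ + h / 2),
        (1 - ‖ext θ (((1 - t : ℝ) : ℂ) * E y)‖ ^ 2)) + 6.3 * C₃ / lam * h := by
    rw [int_affine hcθ]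
    have e : x₁ + h / 2 - (x₁ - h / 2) = h := by ring
    rw [e]
    ring
  rw [heval] at hmono
  calc 98 * ∫ y in (x₁ - h / 2)..(x₁ + h / 2),
      ∫ x in (0 : ℝ)..1, P (((1 - t : ℝ) : ℂ) * E y) x * ‖θ x - c‖ ≤
      98 * (h / (2 * lam) + lam / 2 * (C₃ * (h / lam ^ 2)) + 6.3 * C₃ / lam * h) := by
        refine mul_le_mul_of_nonneg_left (hmono.trans ?_) (by norm_num)
        gcongr
    _ = (49 + (49 + 98 * 6.3) * C₃) * (h / lam) := by field_simp; ring
    _ ≤ _ := by gcongr; norm_num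

end Pool.Agent.H94.Div
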