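import Pool.Agent.H94.Div.Suff4

open MeasureTheory Real Set
open scoped Interval Topology

namespace Pool.Agent.H94.Div

variable {f θ g : ℝ → ℂ} {W : ℝ → ℝ} {A C₀ : ℝ}

/-- crude bound for means on short intervals -/
lemma FData.avg_mul_le (hf : FData f W A) (hW : WData W C₀) (x₁ : ℝ) {h : ℝ} (hh : 0 < h)
    (hh1 : h ≤ 1) : ‖avg f (x₁ - h / 2) (x₁ + h / 2)‖ * h ≤
      (C₀ * (∫ x in (0 : ℝ)..1, ‖f x‖) / W 1 + 4 * (A * C₀)) * W h := by
  have hA := hf.pos
  have hC := hW.one_le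
  have hWh := hW.pos h hh hh1
  have hW1 := hW.pos 1 one_pos le_rfl
  have h0 : 0 ≤ A * C₀ * W h := by positivity
  have h1 := growth_avg hf.li hh h0 (hf.growth hW x₁ hh) hh1 le_rfl
  set n1 : ℝ := ∫ x in (0 : ℝ)..1, ‖f x‖ with hn1
  have hn10 : 0 ≤ n1 := intervalIntegral.integral_nonneg zero_le_one fun _ _ => norm_nonneg _
  have h2 : ‖avg f (x₁ - 1 / 2) (x₁ + 1 / 2)‖ ≤ n1 := by
    have h3 := norm_avg_sub_mul_le hf.li (show x₁ - 1 / 2 < x₁ + 1 / 2 by linarith) 0
    simp only [sub_zero] at h3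
    have e : x₁ + 1 / 2 - (x₁ - 1 / 2) = 1 := by ring
    rw [e, mul_one, per_int' (f := fun x => ‖f x‖) (by intro x; simp only [hf.per x])] at h3
    exact h3
  have h3 : ‖avg f (x₁ - h / 2) (x₁ + h / 2)‖ ≤ n1 + 4 * (1 / h) * (A * C₀ * W h) := by
    calc ‖avg f (x₁ - h / 2) (x₁ + h / 2)‖ = ‖avg f (x₁ - 1 / 2) (x₁ + 1 / 2) -
          (avg f (x₁ - 1 / 2) (x₁ + 1 / 2) - avg f (x₁ - h / 2) (x₁ + h / 2))‖ := by ring_nf
      _ ≤ _ := (norm_sub_le _ _).trans (add_le_add h2 h1)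
  have h4 : h ≤ C₀ * W h / W 1 := by
    rw [le_div_iff₀ hW1]
    have h5 := hW.growth h 1 hh hh1 le_rfl
    calc h * W 1 ≤ h * (C₀ * (1 / h) * W h) := by gcongr
      _ = _ := by field_simp
  calc ‖avg f (x₁ - h / 2) (x₁ + h / 2)‖ * h ≤ (n1 + 4 * (1 / h) * (A * C₀ * W h)) * h := by
        gcongr
    _ = n1 * h + 4 * (A * C₀) * W h := by field_simp
    _ ≤ n1 * (C₀ * W h / W 1) + 4 * (A * C₀) * W h := by gcongr
    _ = _ := by ring

theorem suff_core (hW : WData W C₀) (hf : FData f W A) (hn : NoNeg f) (hθ : Inner θ) {ε K : ℝ}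
    (hε0 : 0 < ε) (hε1 : ε < 1) (hK : 0 ≤ K)
    (hiii : ∀ z : ℂ, ‖z‖ < 1 → ‖ext θ z‖ < ε → ‖ext f z‖ ≤ K * W (1 - ‖z‖)) :
    ∃ D, 0 < D ∧ ∀ x₁ h, 0 < h → h ≤ 1 → ∃ c : ℂ, ‖c‖ ≤ 1 ∧
      ‖avg f (x₁ - h / 2) (x₁ + h / 2)‖ * (∫ x in (x₁ - h / 2)..(x₁ + h / 2), ‖θ x - c‖) ≤
        D * W h * h := by
  have hA := hf.pos
  have hC := hW.one_le
  have hW1 := hW.pos 1 one_pos le_rfl
  set n1 : ℝ := ∫ x in (0 : ℝ)..1, ‖f x‖ with hn1
  have hn10 : 0 ≤ n1 := intervalIntegral.integral_nonneg zero_le_one fun _ _ => norm_nonneg _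
  have hL : 0 < -Real.log ε := by
    have := Real.log_neg hε0 hε1
    linarith
  set Q : ℝ := C₀ * n1 / W 1 + 4 * (A * C₀) with hQ
  have hQ0 : 0 < Q := by positivity
  set M : ℝ := 57600 * A * C₀ ^ 2 + 8 * K * C₀ + 1 + 10 * Q with hM
  have hM0 : 0 < M := by positivity
  set C₄ : ℝ := 49 + 700 * (24000000 * (-Real.log ε)) with hC4
  have hC40 : 0 < C₄ := by positivity
  refine ⟨10000 * M + M * C₄, by positivity, fun x₁ h hh hh1 => ?_⟩
  have hWh := hW.pos h hh hh1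
  set a : ℝ := ‖avg f (x₁ - h / 2) (x₁ + h / 2)‖ with ha
  have ha0 : 0 ≤ a := norm_nonneg _
  set lam : ℝ := a / (M * W h) with hlam
  have halam : a = lam * (M * W h) := by
    rw [hlam]; field_simp
  have hlam0 : 0 ≤ lam := by positivity
  rcases lt_or_ge lam 10000 with h1 | h1
  · refine ⟨0, by simp, ?_⟩
    have h2 : ∫ x in (x₁ - h / 2)..(x₁ + h / 2), ‖θ x - 0‖ = h := by
      have : ∫ x in (x₁ - h / 2)..(x₁ + h / 2), ‖θ x - 0‖ =
          ∫ x in (x₁ - h / 2)..(x₁ + h / 2), (1 : ℝ) := by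
        apply intervalIntegral.integral_congr_ae
        filter_upwards [hθ.one] with x hx _
        rw [sub_zero, hx]
      rw [this, intervalIntegral.integral_const, smul_eq_mul]
      ring
    rw [h2, halam]
    have h3 : lam * (M * W h) ≤ 10000 * (M * W h) := by gcongr
    have h4 : 0 ≤ M * C₄ * W h * h := by positivity
    calc lam * (M * W h) * h ≤ 10000 * (M * W h) * h := by gcongr
      _ ≤ (10000 * M + M * C₄) * W h * h := by nlinarith
  · obtain ⟨N, hN1, hN2⟩ := exists_nat_pow_near (x := lam) (y := 2) (by linarith) (by norm_num)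
    have hlh : lam * h ≤ 1 / 10 := by
      have h2 := hf.avg_mul_le hW x₁ hh hh1
      rw [← ha, ← hn1, ← hQ, halam] at h2
      have h3 : lam * h * M ≤ Q := by
        have : (lam * h * M) * W h ≤ Q * W h := by
          calc (lam * h * M) * W h = lam * (M * W h) * h := by ring
            _ ≤ _ := h2
        exact le_of_mul_le_mul_right this hWh
      have h4 : 10 * Q ≤ M := by
        rw [hM]
        have : 0 ≤ 57600 * A * C₀ ^ 2 + 8 * K * C₀ + 1 := by positivity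
        linarith
      have h5 : lam * h * (10 * Q) ≤ Q := by
        refine le_trans ?_ h3
        gcongr
      have h6 : (lam * h) * 10 ≤ 1 := by
        have : (lam * h * 10) * Q ≤ 1 * Q := by linarith
        exact le_of_mul_le_mul_right this hQ0
      linarith
    have hB : Big f W A C₀ x₁ h lam N := by
      refine ⟨hf, hn, hW, hh, h1, hN1, hN2, hlh, ?_⟩
      rw [← ha, halam]
      have h2 : 57600 * A * C₀ ^ 2 ≤ M := by
        rw [hM]
        have : 0 ≤ 8 * K * C₀ + 1 + 10 * Q := by positivity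
        linarith
      calc 57600 * C₀ * lam * (A * C₀ * W h) = lam * ((57600 * A * C₀ ^ 2) * W h) := by ring
        _ ≤ _ := by gcongr
    have hKb : 8 * K * C₀ * lam * W h < ‖avg f (x₁ - h / 2) (x₁ + h / 2)‖ := by
      rw [← ha, halam]
      have h2 : 8 * K * C₀ < M := by
        rw [hM]
        have : 0 < 57600 * A * C₀ ^ 2 + 1 + 10 * Q := by positivity
        linarith
      have hlam1 : 0 < lam := by linarith
      calc 8 * K * C₀ * lam * W h = lam * ((8 * K * C₀) * W h) := by ring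
        _ < _ := by gcongr
    obtain ⟨c, hc1, hc2⟩ := hB.main hθ hε0 hε1 hK hiii hKb
    refine ⟨c, hc1, ?_⟩
    rw [← hC4] at hc2
    have hlam1 : 0 < lam := by linarith
    calc a * (∫ x in (x₁ - h / 2)..(x₁ + h / 2), ‖θ x - c‖) ≤ a * (C₄ * (h / lam)) := by gcongr
      _ = M * C₄ * W h * h := by rw [halam]; field_simp
      _ ≤ _ := by
        have : 0 ≤ 10000 * M * W h * h := by positivity
        nlinarith

/-- the product bound from `suff_core` -/
lemma osc_mul_of_core (hf : FData f W A) (hθli : LI θ) (hθ1 : ∀ᵐ x : ℝ, ‖θ x‖ = 1)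
    {D a h : ℝ} (hh : 0 < h) (hh1 : h ≤ 1) {c : ℂ}
    (hc : ‖avg f a (a + h)‖ * (∫ x in a..(a + h), ‖θ x - c‖) ≤ D * W h * h) :
    Osc (fun x => f x * θ x) a (a + h) (2 * ((A + D) * W h)) := by
  have hθ1' : ∀ᵐ x : ℝ, ‖θ x‖ ≤ 1 := by
    filter_upwards [hθ1] with x hx using hx.le
  have hli := LI_mul hf.li hθli hθ1'
  apply osc_of_const hli (avg f a (a + h) * c) (by linarith)
  have ho := hf.osc a h hh hh1
  unfold Osc at ho
  have e : a + h - a = h := by ring
  rw [e] at ho ⊢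
  set m := avg f a (a + h) with hm
  calc ∫ x in a..(a + h), ‖f x * θ x - m * c‖ ≤
      ∫ x in a..(a + h), (‖f x - m‖ + ‖m‖ * ‖θ x - c‖) := by
        apply intervalIntegral.integral_mono_ae (by linarith) (hli.norm_sub _ _ _)
          ((hf.li.norm_sub _ _ _).add ((hθli.norm_sub _ _ _).const_mul _))
        filter_upwards [hθ1] with x hx
        calc ‖f x * θ x - m * c‖ = ‖(f x - m) * θ x + m * (θ x - c)‖ := by ring_nf
          _ ≤ ‖(f x - m) * θ x‖ + ‖m * (θ x - c)‖ := norm_add_le _ _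
          _ = _ := by rw [norm_mul, norm_mul, hx, mul_one]
    _ = (∫ x in a..(a + h), ‖f x - m‖) + ‖m‖ * ∫ x in a..(a + h), ‖θ x - c‖ := by
        rw [intervalIntegral.integral_add (hf.li.norm_sub _ _ _)
          ((hθli.norm_sub _ _ _).const_mul _), intervalIntegral.integral_const_mul]
    _ ≤ A * W h * h + D * W h * h := add_le_add ho hc
    _ = _ := by ring

/-- comparison of means of functions with the same modulus -/
lemma avg_compare {B : ℝ} (hf : FData f W A) (hg : FData g W B) (hfg : ∀ᵐ x : ℝ, ‖g x‖ = ‖f x‖)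
    {a h : ℝ} (hh : 0 < h) (hh1 : h ≤ 1) :
    |‖avg f a (a + h)‖ - ‖avg g a (a + h)‖| ≤ (A + B) * W h := by
  have h1 := hf.osc a h hh hh1
  have h2 := hg.osc a h hh hh1
  unfold Osc at h1 h2
  have e : a + h - a = h := by ring
  rw [e] at h1 h2
  set m := avg f a (a + h) with hm
  set n := avg g a (a + h) with hn
  have h3 : |‖m‖ - ‖n‖| * h ≤ (∫ x in a..(a + h), ‖f x - m‖) + ∫ x in a..(a + h), ‖g x - n‖ := by
    calc |‖m‖ - ‖n‖| * h = ∫ x in a..(a + h), |‖m‖ - ‖n‖| := by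
          rw [intervalIntegral.integral_const, smul_eq_mul]; ring
      _ ≤ ∫ x in a..(a + h), (‖f x - m‖ + ‖g x - n‖) := by
          apply intervalIntegral.integral_mono_ae (by linarith) intervalIntegrable_const
            ((hf.li.norm_sub _ _ _).add (hg.li.norm_sub _ _ _))
          filter_upwards [hfg] with x hx
          have h4 : |‖f x‖ - ‖m‖| ≤ ‖f x - m‖ := abs_norm_sub_norm_le _ _
          have h5 : |‖g x‖ - ‖n‖| ≤ ‖g x - n‖ := abs_norm_sub_norm_le _ _
          rw [hx] at h5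
          rw [abs_le] at h4 h5 ⊢
          exact ⟨by linarith, by linarith⟩
      _ = _ := by
          rw [intervalIntegral.integral_add (hf.li.norm_sub _ _ _) (hg.li.norm_sub _ _ _)]
  have h4 : |‖m‖ - ‖n‖| * h ≤ ((A + B) * W h) * h := by
    refine h3.trans ?_
    calc _ ≤ A * W h * h + B * W h * h := add_le_add h1 h2
      _ = _ := by ring
  exact le_of_mul_le_mul_right h4 hh

/-- bound for the kernel integral, in terms of the polar representation -/
lemma FData.KK_le (hf : FData f W A) (hW : WData W C₀) (x₀ : ℝ) {t : ℝ}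
    (ht : 0 < t) (ht1 : t ≤ 1) :
    ∫ x in (0 : ℝ)..1, KK ((1 - t : ℝ) * E x₀) x * ‖f x - avg f (x₀ - t / 2) (x₀ + t / 2)‖ ≤
      3600 * (A * C₀ * W t) := by
  have h0 : 0 ≤ A * C₀ * W t :=
    mul_nonneg (mul_nonneg hf.pos.le (zero_le_one.trans hW.one_le)) (hW.pos t ht ht1).le
  refine le_trans (le_of_eq ?_) (growth_KK hf.li ht ht1 h0 (hf.growth hW x₀ ht))
  rw [per_int' (f := fun x => KK ((1 - t : ℝ) * E x₀) x *
    ‖f x - avg f (x₀ - t / 2) (x₀ + t / 2)‖)]
  intro x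
  simp only [KK_periodic _ x, hf.per x]

/-- (ii) implies (iii) for every `ε` -/
lemma iii_of_ii {B : ℝ} (hW : WData W C₀) (hf : FData f W A) (hn : NoNeg f) (hθ : Inner θ)
    (hg : FData (fun x => f x * θ x) W B) {ε : ℝ} (hε1 : ε < 1)
    {z : ℂ} (hz : ‖z‖ < 1) (hΘ : ‖ext θ z‖ < ε) :
    ‖ext f z‖ ≤ (3600 * (A * C₀) + 3600 * (B * C₀) + (A + B)) / (1 - ε) * W (1 - ‖z‖) := by
  obtain ⟨x₀, -, hz'⟩ := exists_eq_mul_E z 0
  set t : ℝ := 1 - ‖z‖ with ht
  have ht0 : 0 < t := by linarith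
  have ht1 : t ≤ 1 := by linarith [norm_nonneg z]
  have hz2 : z = ((1 - t : ℝ) : ℂ) * E x₀ := by
    have e : (1 - t : ℝ) = ‖z‖ := by rw [ht]; ring
    rw [e]
    exact hz'
  have hgn : NoNeg (fun x => f x * θ x) := NoNeg_mul hf.per hf.li hn hθ.per hθ.li hθ.nn hθ.ae_le
  have h1 := hf.ext_close hn hW x₀ ht0 ht1
  have h2 := hg.ext_close hgn hW x₀ ht0 ht1
  rw [← hz2] at h1 h2
  rw [ext_mul hf.per hf.li hn hθ.per hθ.li hθ.nn hθ.ae_le hz] at h2
  have h3 := avg_compare hf hg (by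
    filter_upwards [hθ.one] with x hx
    rw [norm_mul, hx, mul_one]) (a := x₀ - t / 2) ht0 ht1
  have e : x₀ - t / 2 + t = x₀ + t / 2 := by ring
  rw [e] at h3
  set m := avg f (x₀ - t / 2) (x₀ + t / 2)
  set c := avg (fun x => f x * θ x) (x₀ - t / 2) (x₀ + t / 2)
  have h4 : ‖ext f z‖ ≤ ‖m‖ + 3600 * (A * C₀ * W t) := by
    calc ‖ext f z‖ = ‖m + (ext f z - m)‖ := by ring_nf
      _ ≤ _ := (norm_add_le _ _).trans (add_le_add le_rfl h1)
  have h5 : ‖c‖ ≤ ‖ext f z‖ * ε + 3600 * (B * C₀ * W t) := by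
    calc ‖c‖ = ‖ext f z * ext θ z - (ext f z * ext θ z - c)‖ := by ring_nf
      _ ≤ ‖ext f z * ext θ z‖ + ‖ext f z * ext θ z - c‖ := norm_sub_le _ _
      _ ≤ _ := by
        rw [norm_mul]
        gcongr
  have h6 := (abs_le.1 h3).2
  have h7 : ‖ext f z‖ * (1 - ε) ≤ (3600 * (A * C₀) + 3600 * (B * C₀) + (A + B)) * W t := by
    linarith
  have h8 : 0 < 1 - ε := by linarith
  rw [div_mul_eq_mul_div, le_div_iff₀ h8]
  exact h7

/-- (i) implies (iii) for every `ε` -/
lemma iii_of_i {B : ℝ} (hW : WData W C₀) (hf : FData f W A) (hn : NoNeg f) (hθ : Inner θ)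
    (hg : FData (fun x => f x * (starRingEnd ℂ) (θ x)) W B) {ε : ℝ} (hε0 : 0 < ε) (hε1 : ε < 1)
    {z : ℂ} (hz : ‖z‖ < 1) (hΘ : ‖ext θ z‖ < ε) :
    ‖ext f z‖ ≤ (3600 * (A * C₀) + 3600 * (B * C₀) + (A + B)) / (1 - ε) * W (1 - ‖z‖) := by
  obtain ⟨x₀, -, hz'⟩ := exists_eq_mul_E z 0
  set t : ℝ := 1 - ‖z‖ with ht
  have ht0 : 0 < t := by linarith
  have ht1 : t ≤ 1 := by linarith [norm_nonneg z]
  have hz2 : z = ((1 - t : ℝ) : ℂ) * E x₀ := by
    have e : (1 - t : ℝ) = ‖z‖ := by rw [ht]; ring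
    rw [e]
    exact hz'
  have h1 := hf.ext_close hn hW x₀ ht0 ht1
  have h2 := hg.KK_le hW x₀ ht0 ht1
  rw [← hz2] at h1 h2
  have h3 := avg_compare hf hg (by
    filter_upwards [hθ.one] with x hx
    rw [norm_mul, RCLike.norm_conj, hx, mul_one]) (a := x₀ - t / 2) ht0 ht1
  have e : x₀ - t / 2 + t = x₀ + t / 2 := by ring
  rw [e] at h3
  set m := avg f (x₀ - t / 2) (x₀ + t / 2)
  set c := avg (fun x => f x * (starRingEnd ℂ) (θ x)) (x₀ - t / 2) (x₀ + t / 2)
  -- the analytic function `f - cθ`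
  set F : ℝ → ℂ := fun x => f x - c * θ x with hF
  have hFp : Function.Periodic F 1 := by
    intro x; simp only [hF, hf.per x, hθ.per x]
  have hFli : LI F := fun a b => (hf.li a b).sub ((hθ.li a b).const_mul c)
  have hFn : NoNeg F := by
    intro n hn0
    have i1 : IntervalIntegrable (fun x => f x * E x ^ n) volume 0 1 :=
      (hf.li 0 1).mul_continuousOn (continuous_E.pow n).continuousOn
    have i2 : IntervalIntegrable (fun x => θ x * E x ^ n) volume 0 1 :=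
      (hθ.li 0 1).mul_continuousOn (continuous_E.pow n).continuousOn
    have e : ∀ x, F x * E x ^ n = f x * E x ^ n - c * (θ x * E x ^ n) := fun x => by
      simp only [hF]; ring
    simp only [e]
    rw [intervalIntegral.integral_sub i1 (i2.const_mul c), intervalIntegral.integral_const_mul,
      hn n hn0, hθ.nn n hn0, mul_zero, sub_zero]
  have hFe : ext F z = ext f z - c * ext θ z := by
    unfold ext
    have e : ∀ x, (P z x : ℂ) * F x = (P z x : ℂ) * f x - c * ((P z x : ℂ) * θ x) := fun x => by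
      simp only [hF]; ring
    simp only [e]
    rw [intervalIntegral.integral_sub (integrable_P_mul hf.li hz 0 1)
      ((integrable_P_mul hθ.li hz 0 1).const_mul c), intervalIntegral.integral_const_mul]
  have h4 := norm_ext_sub_le hFp hFli hFn hz 0
  simp only [sub_zero] at h4
  have h5 : ∫ x in (0 : ℝ)..1, KK z x * ‖F x‖ = ∫ x in (0 : ℝ)..1, KK z x *
      ‖f x * (starRingEnd ℂ) (θ x) - c‖ := by
    apply intervalIntegral.integral_congr_ae
    filter_upwards [hθ.one] with x hx _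
    congr 1
    have h6 : (starRingEnd ℂ) (θ x) * θ x = 1 := by
      rw [mul_comm, Complex.mul_conj, Complex.normSq_eq_norm_sq, hx]; simp
    have h7 : F x = (f x * (starRingEnd ℂ) (θ x) - c) * θ x := by
      simp only [hF]
      calc f x - c * θ x = f x * ((starRingEnd ℂ) (θ x) * θ x) - c * θ x := by
            rw [h6, mul_one]
        _ = _ := by ring
    rw [h7, norm_mul, hx, mul_one]
  rw [h5, hFe] at h4
  have h6 := h4.trans h2
  have h7 : ‖ext f z‖ ≤ ‖c‖ * ε + 3600 * (B * C₀ * W t) := by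
    calc ‖ext f z‖ = ‖c * ext θ z + (ext f z - c * ext θ z)‖ := by ring_nf
      _ ≤ ‖c * ext θ z‖ + ‖ext f z - c * ext θ z‖ := norm_add_le _ _
      _ ≤ _ := by
        rw [norm_mul]
        gcongr
  have h8 : ‖m‖ ≤ ‖ext f z‖ + 3600 * (A * C₀ * W t) := by
    calc ‖m‖ = ‖ext f z - (ext f z - m)‖ := by ring_nf
      _ ≤ _ := (norm_sub_le _ _).trans (add_le_add le_rfl h1)
  have h9 := (abs_le.1 h3).1
  have hWt := hW.pos t ht0 ht1
  have hA := hf.pos
  have hB := hg.pos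
  have hC := hW.one_le
  have h10 : ‖c‖ ≤ ‖ext f z‖ + 3600 * (A * C₀ * W t) + (A + B) * W t := by linarith
  have h11 : ‖c‖ * ε ≤ ‖ext f z‖ * ε + (3600 * (A * C₀ * W t) + (A + B) * W t) := by
    have h12 : 0 ≤ 3600 * (A * C₀ * W t) + (A + B) * W t := by positivity
    nlinarith
  have h13 : ‖ext f z‖ * (1 - ε) ≤ (3600 * (A * C₀) + 3600 * (B * C₀) + (A + B)) * W t := by
    linarith
  have h14 : 0 < 1 - ε := by linarith
  rw [div_mul_eq_mul_div, le_div_iff₀ h14]
  exact h13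

end Pool.Agent.H94.Div
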